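import Pool.Agent.Run7.h65.Odd

open Set Real MeasureTheory Filter Topology

namespace Run7.h65

theorem d1_of_line {g : ℝ × ℝ → ℝ} {z : ℝ × ℝ} {c : ℝ} (hg : DifferentiableAt ℝ g z)
    (h : HasDerivAt (fun x => g (x, z.2)) c z.1) : d1 g z = c := by
  have h1 : HasDerivAt (fun x : ℝ => ((x, z.2) : ℝ × ℝ)) (1, 0) z.1 :=
    (hasDerivAt_id z.1).prodMk (hasDerivAt_const z.1 z.2)
  have h2 := hg.hasFDerivAt.comp_hasDerivAt z.1 h1
  exact h2.unique h

theorem d2_of_line {g : ℝ × ℝ → ℝ} {z : ℝ × ℝ} {c : ℝ} (hg : DifferentiableAt ℝ g z)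
    (h : HasDerivAt (fun y => g (z.1, y)) c z.2) : d2 g z = c := by
  have h1 : HasDerivAt (fun y : ℝ => ((z.1, y) : ℝ × ℝ)) (0, 1) z.2 :=
    (hasDerivAt_const z.2 z.1).prodMk (hasDerivAt_id z.2)
  have h2 := hg.hasFDerivAt.comp_hasDerivAt z.2 h1
  exact h2.unique h

theorem line1_hasDerivAt {g : ℝ × ℝ → ℝ} {x y : ℝ} (hg : DifferentiableAt ℝ g (x, y)) :
    HasDerivAt (fun x => g (x, y)) (d1 g (x, y)) x := by
  have h1 : HasDerivAt (fun x : ℝ => ((x, y) : ℝ × ℝ)) (1, 0) x :=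
    (hasDerivAt_id x).prodMk (hasDerivAt_const x y)
  exact hg.hasFDerivAt.comp_hasDerivAt x h1

theorem line2_hasDerivAt {g : ℝ × ℝ → ℝ} {x y : ℝ} (hg : DifferentiableAt ℝ g (x, y)) :
    HasDerivAt (fun y => g (x, y)) (d2 g (x, y)) y := by
  have h1 : HasDerivAt (fun y : ℝ => ((x, y) : ℝ × ℝ)) (0, 1) y :=
    (hasDerivAt_const y x).prodMk (hasDerivAt_id y)
  exact hg.hasFDerivAt.comp_hasDerivAt y h1

/-- a compactly supported `C²` function vanishing on both axes is `O(|xy|)` -/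
theorem odd_odd_bound {w : ℝ × ℝ → ℝ} (hw : ContDiff ℝ 2 w) (hc : HasCompactSupport w)
    (hx : ∀ y, w (0, y) = 0) (hy : ∀ x, w (x, 0) = 0) :
    ∃ C, 0 < C ∧ ∀ z : ℝ × ℝ, |w z| ≤ C * |z.1 * z.2| := by
  have hwd : Differentiable ℝ w := hw.differentiable (by simp)
  have hg : ContDiff ℝ 1 (d1 w) := by
    unfold d1
    exact (hw.fderiv_right (m := 1) (by norm_num)).clm_apply contDiff_const
  have hgd : Differentiable ℝ (d1 w) := hg.differentiable (by simp)
  have hgc : HasCompactSupport (d1 w) := hc.fderiv_apply ℝ (1, 0)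
  obtain ⟨C, hC⟩ := (hgc.fderiv ℝ).exists_bound_of_continuous (hg.continuous_fderiv (by simp))
  have hC0 : 0 ≤ C := (norm_nonneg _).trans (hC 0)
  have hd2 : ∀ z, |d2 (d1 w) z| ≤ C := by
    intro z
    have := (fderiv ℝ (d1 w) z).le_opNorm (0, 1)
    have e : ‖((0 : ℝ), (1 : ℝ))‖ = 1 := by simp [Prod.norm_def]
    rw [e, mul_one] at this
    exact this.trans (hC z)
  refine ⟨C + 1, by positivity, fun z => ?_⟩
  have hg0 : ∀ x, d1 w (x, 0) = 0 := by
    intro x
    have h1 := line1_hasDerivAt (x := x) (y := 0) (hwd (x, 0))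
    have h2 : (fun x => w (x, 0)) = fun _ => 0 := by funext x; exact hy x
    rw [h2] at h1
    exact h1.unique (hasDerivAt_const _ _)
  have hgb : ∀ x y, |d1 w (x, y)| ≤ C * |y| := by
    intro x y
    have := mvt (g := fun y => d1 w (x, y)) (g' := fun y => d2 (d1 w) (x, y)) (x := 0) (y := y)
      (C := C) ((hg.continuous.comp (by fun_prop)).continuousOn)
      (fun s _ => line2_hasDerivAt (hgd _)) (fun s _ => hd2 _)
    simpa [hg0] using this
  have := mvt (g := fun x => w (x, z.2)) (g' := fun x => d1 w (x, z.2)) (x := 0) (y := z.1)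
      (C := C * |z.2|) ((hw.continuous.comp (by fun_prop)).continuousOn)
      (fun s _ => line1_hasDerivAt (hwd _)) (fun s _ => hgb _ _)
  simp only [hx, sub_zero, Prod.mk.eta] at this
  rw [abs_mul]
  calc |w z| ≤ C * |z.2| * |z.1| := this
    _ = C * (|z.1| * |z.2|) := by ring
    _ ≤ (C + 1) * (|z.1| * |z.2|) := by gcongr; linarith

/-- velocity in the odd class -/
theorem velf_odd (B b : ℝ) (z : ℝ × ℝ) :
    (velf 0 B 0 b z).1 = z.1 * (2 * B - 2 * b * z.2 ^ 2 / (z.1 ^ 2 + z.2 ^ 2)) ∧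
    (velf 0 B 0 b z).2 = -z.2 * (2 * B - 2 * b * z.1 ^ 2 / (z.1 ^ 2 + z.2 ^ 2)) := by
  rcases eq_or_ne z 0 with rfl | hz
  · simp [velf]
  · have hq : z.1 ^ 2 + z.2 ^ 2 ≠ 0 := by
      have := rad_pos hz
      have h2 := rad_sq z
      have : 0 < rad z ^ 2 := by positivity
      rw [h2] at this
      exact this.ne'
    constructor
    · simp only [velf]; field_simp; ring
    · simp only [velf]; field_simp; ring

theorem cc_zero_of_odd {w : ℝ × ℝ → ℝ} (hw : Continuous w) (hodd : ∀ z, w (sy z) = -w z)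
    (ρ : ℝ) : cc w ρ = 0 := by
  have := cc_le_of_even_part hw (W := 0) (ρ := ρ) (fun z => by rw [hodd z]; simp)
  exact abs_nonpos_iff.1 this

theorem CC_zero_of_odd {w : ℝ × ℝ → ℝ} (hw : Continuous w) (hodd : ∀ z, w (sy z) = -w z)
    (ρ : ℝ) : CC w ρ = 0 := by
  unfold CC
  simp [cc_zero_of_odd hw hodd]

theorem vel_odd {w : ℝ × ℝ → ℝ} (hw : Continuous w) (hodd : ∀ z, w (sy z) = -w z) (z : ℝ × ℝ) :
    (vel w z).1 = z.1 * (2 * BB w (rad z)
      - 2 * bb w (rad z) * z.2 ^ 2 / (z.1 ^ 2 + z.2 ^ 2)) ∧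
    (vel w z).2 = -z.2 * (2 * BB w (rad z)
      - 2 * bb w (rad z) * z.1 ^ 2 / (z.1 ^ 2 + z.2 ^ 2)) := by
  unfold vel
  rw [cc_zero_of_odd hw hodd, CC_zero_of_odd hw hodd]
  exact velf_odd _ _ z

theorem vel_sx {w : ℝ × ℝ → ℝ} (hw : Continuous w) (hodd : ∀ z, w (sy z) = -w z) (z : ℝ × ℝ) :
    (vel w (sx z)).1 = -(vel w z).1 ∧ (vel w (sx z)).2 = (vel w z).2 := by
  rw [(vel_odd hw hodd _).1, (vel_odd hw hodd _).2, (vel_odd hw hodd _).1,
    (vel_odd hw hodd _).2, rad_sx]
  simp only [sx, neg_sq]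
  constructor
  · ring
  · trivial

theorem bb_sx {w : ℝ × ℝ → ℝ} (ρ : ℝ) :
    bb (fun z => w (sx z)) ρ = -bb w ρ := by
  unfold bb
  rw [← mul_neg]
  congr 1
  set f : ℝ → ℝ := fun φ => w (ρ * cos φ, ρ * sin φ) * sin (2 * φ) with hf
  have hper : Function.Periodic f (2 * π) := by
    intro φ
    simp only [hf, cos_add_two_pi, sin_add_two_pi]
    congr 1
    rw [mul_add]
    have := sin_add_nat_mul_two_pi (2 * φ) 2
    push_cast at this
    exact this
  have h1 : ∫ φ in (0 : ℝ)..(2 * π), w (sx (ρ * cos φ, ρ * sin φ)) * sin (2 * φ)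
      = ∫ φ in (0 : ℝ)..(2 * π), -f (π - φ) := by
    refine intervalIntegral.integral_congr fun φ _ => ?_
    simp only [hf, cos_pi_sub, sin_pi_sub, sx, mul_neg]
    rw [mul_sub, sin_two_pi_sub]; ring
  rw [h1, intervalIntegral.integral_neg, intervalIntegral.integral_comp_sub_left f π]
  congr 1
  have := hper.intervalIntegral_add_eq (π - 2 * π) 0
  rw [zero_add] at this
  rw [← this]
  congr 1
  ring

theorem bb_add {w v : ℝ × ℝ → ℝ} (hw : Continuous w) (hv : Continuous v) (ρ : ℝ) :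
    bb (fun z => w z + v z) ρ = bb w ρ + bb v ρ := by
  unfold bb
  rw [← mul_add]
  congr 1
  have h1 : IntervalIntegrable (fun φ => w (ρ * cos φ, ρ * sin φ) * sin (2 * φ)) volume 0 (2*π) :=
    (by fun_prop : Continuous _).intervalIntegrable _ _
  have h2 : IntervalIntegrable (fun φ => v (ρ * cos φ, ρ * sin φ) * sin (2 * φ)) volume 0 (2*π) :=
    (by fun_prop : Continuous _).intervalIntegrable _ _
  rw [← intervalIntegral.integral_add h1 h2]
  refine intervalIntegral.integral_congr fun φ _ => ?_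
  ring

theorem bb_const_mul (w : ℝ × ℝ → ℝ) (k : ℝ) (ρ : ℝ) :
    bb (fun z => k * w z) ρ = k * bb w ρ := by
  unfold bb
  rw [mul_left_comm]
  congr 1
  rw [← intervalIntegral.integral_const_mul]
  refine intervalIntegral.integral_congr fun φ _ => ?_
  ring

/-- active part -/
noncomputable def act (w : ℝ × ℝ → ℝ) (z : ℝ × ℝ) : ℝ := (1 / 2) * (w z + -w (sx z))

theorem bb_act {w : ℝ × ℝ → ℝ} (hw : Continuous w) (ρ : ℝ) : bb (act w) ρ = bb w ρ := by
  have e : act w = fun z => (1 / 2) * ((fun z => w z + (fun z => (-1) * w (sx z)) z) z) := by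
    funext z; simp [act]
  rw [e, bb_const_mul, bb_add hw (by
    exact continuous_const.mul (hw.comp sx_continuous)), bb_const_mul, bb_sx]
  ring

theorem bb_le_of_act {w : ℝ × ℝ → ℝ} (hw : Continuous w) {k ρ : ℝ} (hk : 0 ≤ k)
    (h : ∀ z, |act w z| ≤ k * |z.1 * z.2|) : |bb w ρ| ≤ k * ρ ^ 2 := by
  rw [← bb_act hw]
  have hc : Continuous (act w) := by
    unfold act
    exact continuous_const.mul (hw.add (hw.comp sx_continuous).neg)
  have := bb_bound hc (ρ := ρ) (c0 := 0) (A := k * (ρ ^ 2 / 2)) (fun φ => by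
    rw [sub_zero]
    refine (h _).trans ?_
    refine mul_le_mul_of_nonneg_left ?_ hk
    have e : ρ * cos φ * (ρ * sin φ) = ρ ^ 2 / 2 * sin (2 * φ) := by
      rw [sin_two_mul]; ring
    simp only [e]
    rw [abs_mul, abs_of_nonneg (by positivity : 0 ≤ ρ ^ 2 / 2)]
    exact mul_le_of_le_one_right (by positivity) (abs_sin_le_one _))
  linarith

/-- the logarithmic bound on `BB` -/
theorem BB_log_bound {w : ℝ × ℝ → ℝ} {R M C0 lam r : ℝ} (hR : 0 < R)
    (hs : SuppIn w R) (hM : 0 ≤ M) (hlam : 1 ≤ lam)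
    (h1 : ∀ ρ, |bb w ρ| ≤ M) (h2 : ∀ ρ, |bb w ρ| ≤ C0 * lam * ρ ^ 2) (hr : 0 < r) :
    |BB w r| ≤ max M C0 * (log lam + R ^ 2) := by
  set D := max M C0 with hD
  have hD0 : 0 ≤ D := hM.trans (le_max_left _ _)
  have hl0 : 0 < lam := by linarith
  have hlog : 0 ≤ log lam := log_nonneg hlam
  rcases le_total r R with hrR | hrR
  · have hbd : ∀ ρ, 0 < ρ → |bb w ρ / ρ| ≤ D * (2 * lam * ρ / (1 + lam * ρ ^ 2)) := by
      intro ρ hρ
      have hq : 0 < 1 + lam * ρ ^ 2 := by positivity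
      rw [abs_div, abs_of_pos hρ, div_le_iff₀ hρ]
      have e : D * (2 * lam * ρ / (1 + lam * ρ ^ 2)) * ρ
          = D * (2 * (lam * ρ ^ 2)) / (1 + lam * ρ ^ 2) := by
        field_simp
      rw [e, le_div_iff₀ hq]
      rcases le_total (lam * ρ ^ 2) 1 with hc | hc
      · have := h2 ρ
        have h3 : |bb w ρ| ≤ D * (lam * ρ ^ 2) := by
          refine this.trans ?_
          rw [mul_assoc]
          exact mul_le_mul_of_nonneg_right (le_max_right _ _) (by positivity)
        calc |bb w ρ| * (1 + lam * ρ ^ 2) ≤ D * (lam * ρ ^ 2) * 2 := by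
              refine mul_le_mul h3 (by linarith) hq.le (by positivity)
          _ = D * (2 * (lam * ρ ^ 2)) := by ring
      · have h3 : |bb w ρ| ≤ D := (h1 ρ).trans (le_max_left _ _)
        exact mul_le_mul h3 (by linarith) hq.le hD0
    have hcont : ContinuousOn (fun ρ : ℝ => D * (2 * lam * ρ / (1 + lam * ρ ^ 2))) (uIcc r R) := by
      refine Continuous.continuousOn ?_
      refine continuous_const.mul ((by fun_prop : Continuous fun ρ : ℝ => 2 * lam * ρ).div
        (by fun_prop) fun x => by positivity)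
    have hle := intervalIntegral.norm_integral_le_of_norm_le (a := r) (b := R)
      (μ := volume) (f := fun ρ => bb w ρ / ρ)
      (g := fun ρ => D * (2 * lam * ρ / (1 + lam * ρ ^ 2))) hrR
      (Filter.Eventually.of_forall fun ρ hρ => hbd ρ (hr.trans hρ.1))
      hcont.intervalIntegrable
    have hint : ∫ ρ in r..R, D * (2 * lam * ρ / (1 + lam * ρ ^ 2))
        = D * log (1 + lam * R ^ 2) - D * log (1 + lam * r ^ 2) := by
      refine intervalIntegral.integral_eq_sub_of_hasDerivAt (f := fun ρ => D * log (1 + lam * ρ ^ 2))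
        (fun x _ => ?_) hcont.intervalIntegrable
      have hq : 0 < 1 + lam * x ^ 2 := by positivity
      have h3 : HasDerivAt (fun x : ℝ => 1 + lam * x ^ 2) (lam * (2 * x)) x := by
        simpa using ((hasDerivAt_pow 2 x).const_mul lam).const_add 1
      exact ((h3.log hq.ne').const_mul D).congr_deriv (by ring)
    have htail : BB w r = ∫ ρ in r..R, bb w ρ / ρ :=
      tail_eq (fun _ h => bb_of_large hs hR.le h) hrR le_rfl
    rw [htail]
    rw [Real.norm_eq_abs] at hle
    refine hle.trans ?_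
    rw [hint]
    have hl1 : 0 ≤ log (1 + lam * r ^ 2) := log_nonneg (by nlinarith [sq_nonneg r])
    have hl2 : log (1 + lam * R ^ 2) ≤ log lam + R ^ 2 := by
      have e1 : log (1 + lam * R ^ 2) ≤ log (lam * (1 + R ^ 2)) := by
        apply log_le_log (by positivity); nlinarith
      rw [log_mul hl0.ne' (by positivity)] at e1
      have e2 : log (1 + R ^ 2) ≤ R ^ 2 := by
        have := log_le_sub_one_of_pos (show 0 < 1 + R ^ 2 by positivity)
        linarith
      linarith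
    nlinarith
  · have htail : BB w r = 0 := by
      have := tail_eq (f := bb w) (r := r) (R' := r)
        (fun _ h => bb_of_large hs hR.le h) le_rfl hrR
      rw [intervalIntegral.integral_same] at this
      exact this
    rw [htail, abs_zero]
    positivity

end Run7.h65
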