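import Pool.Agent.Run7.h65.LpAux

open Set Real MeasureTheory Filter Topology

namespace Run7.h65

/-- `1/H²` for `H = B e^{At}` -/
noncomputable def kap (A B t : ℝ) : ℝ := (B ^ 2)⁻¹ * exp (-(2 * A * t))

theorem kap_eq {A B t : ℝ} (hB : B ≠ 0) : kap A B t = 1 / (B * exp (A * t)) ^ 2 := by
  unfold kap
  have e : exp (-(2 * A * t)) = (exp (A * t) ^ 2)⁻¹ := by
    rw [exp_neg, ← exp_nat_mul]; push_cast; ring_nf
  rw [e, mul_pow, one_div, mul_inv]

theorem kap_pos {A B t : ℝ} (hB : 0 < B) : 0 < kap A B t := by unfold kap; positivity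

theorem kap_deriv (A B t : ℝ) : HasDerivAt (fun t => kap A B t) (-(2 * A) * kap A B t) t := by
  unfold kap
  have h1 : HasDerivAt (fun t : ℝ => -(2 * A * t)) (-(2 * A)) t := by
    have := (((hasDerivAt_id t).const_mul (2 * A)).fun_neg)
    simpa using this
  refine (h1.exp.const_mul ((B ^ 2)⁻¹)).congr_deriv ?_
  ring

/-- `K² = exp(2A e^{At})` -/
noncomputable def KK (A t : ℝ) : ℝ := exp (2 * A * exp (A * t))

theorem KK_pos (A t : ℝ) : 0 < KK A t := exp_pos _

theorem KK_deriv (A t : ℝ) : HasDerivAt (fun t => KK A t) (2 * A ^ 2 * exp (A * t) * KK A t) t := by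
  unfold KK
  have h1 : HasDerivAt (fun t : ℝ => A * t) A t := by
    simpa using (hasDerivAt_id t).const_mul A
  have h2 := (h1.exp.const_mul (2 * A)).exp
  refine h2.congr_deriv ?_
  ring

theorem KK_cont (A : ℝ) : Continuous (KK A) := by unfold KK; fun_prop
theorem kap_cont (A B : ℝ) : Continuous (kap A B) := by unfold kap; fun_prop

namespace SignSol

variable {ω : ℝ → ℝ × ℝ → ℝ} (h : SignSol ω)

include h

/-- logarithmic bound for the conjugate function -/
theorem h_log {S L : ℝ} (hS : 0 ≤ S) {t : ℝ} (ht : 0 ≤ t)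
    (hSb : ∀ z, |ω t z| ≤ S) (hL1 : 1 ≤ L) {s : ℝ} (hL : ∀ φ, |qF (AF ω) t s φ| ≤ L) (θ : ℝ) :
    |hilF (AF ω) t s θ| ≤ 2 + 4 * S * (1 + log L) := by
  unfold hilF
  refine hil_log_bound (h.sm_A.cont_line ht s) hS hL1 (fun x => ?_) (h.hil_lip ht hL θ)
  exact act_abs_le hSb _

/-- **First barrier**: double exponential bound with edge weight for the active part. -/
theorem active_bound : ∃ A B : ℝ, 1 ≤ A ∧ 1 ≤ B ∧ ∀ t, 0 ≤ t → ∀ s θ,
    qF (AF ω) t s θ ^ 2 + PiF ω (AF ω) t s θ ^ 2 * kap A B t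
      ≤ KK A t * (gF ω t s ^ ((1 : ℝ) / 12) * exp s) ∧
    |hilF (AF ω) t s θ| ≤ B * exp (A * t) := by
  obtain ⟨S, hS1, hS⟩ := h.sol.exists_sup
  obtain ⟨Λ, hΛ, hB⟩ := h.exists_bounds
  obtain ⟨U, hU1, hU⟩ := h.exists_U
  have hadm := h.adm_A
  -- initial estimates
  obtain ⟨Ce, hCe0, hCe⟩ := h.edge (t := 0) le_rfl
  obtain ⟨Li, hLi0, hLi⟩ := h.qp_bound h.adm_A (T := 0) le_rfl
  obtain ⟨h0, hh00, hh0⟩ := h.hil_bound_T (T := 0) le_rfl
  have hi : ∀ s θ, qF (AF ω) 0 s θ ^ 2 ≤ (Ce * Li ^ 12) ^ (((12 : ℕ) : ℝ)⁻¹)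
        * (gF ω 0 s ^ ((1 : ℝ) / 12) * exp s) ∧
      pF (AF ω) 0 s θ ^ 2 ≤ (Ce * Li ^ 12) ^ (((12 : ℕ) : ℝ)⁻¹)
        * (gF ω 0 s ^ ((1 : ℝ) / 12) * exp s) := by
    intro s θ
    have hg0 := h.g_nonneg (t := 0) le_rfl s
    obtain ⟨c1, c2⟩ := hCe s θ
    obtain ⟨l1, l2⟩ := hLi 0 ⟨le_rfl, le_rfl⟩ s θ
    have eq := qF_pb h.sm_A (t := 0) le_rfl (hadm.dif 0 le_rfl) s θ
    have ep := pF_pb h.sm_A (t := 0) le_rfl (hadm.dif 0 le_rfl) s θ
    have gen : ∀ x : ℝ, |x| ^ 12 ≤ Ce * gF ω 0 s → |x| ≤ Li * exp s →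
        x ^ 2 ≤ (Ce * Li ^ 12) ^ (((12 : ℕ) : ℝ)⁻¹) * (gF ω 0 s ^ ((1 : ℝ) / 12) * exp s) := by
      intro x hx1 hx2
      have a1 : (x ^ 2) ^ 12 ≤ (Ce * Li ^ 12) * gF ω 0 s * exp s ^ 12 := by
        have e1 : (x ^ 2) ^ 12 = |x| ^ 12 * |x| ^ 12 := by
          rw [← sq_abs]; ring
        rw [e1]
        have e2 : |x| ^ 12 ≤ (Li * exp s) ^ 12 := pow_le_pow_left₀ (abs_nonneg _) hx2 12
        calc |x| ^ 12 * |x| ^ 12 ≤ (Ce * gF ω 0 s) * (Li * exp s) ^ 12 :=
              mul_le_mul hx1 e2 (by positivity) (by positivity)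
          _ = (Ce * Li ^ 12) * gF ω 0 s * exp s ^ 12 := by rw [mul_pow]; ring
      have a2 := root_le (n := 12) (by norm_num) (sq_nonneg x) a1
      have e3 : ((Ce * Li ^ 12) * gF ω 0 s * exp s ^ 12) ^ (((12 : ℕ) : ℝ)⁻¹)
          = (Ce * Li ^ 12) ^ (((12 : ℕ) : ℝ)⁻¹) * (gF ω 0 s ^ ((1 : ℝ) / 12) * exp s) := by
        rw [Real.mul_rpow (by positivity) (by positivity), Real.mul_rpow (by positivity) hg0,
          Real.pow_rpow_inv_natCast (exp_pos s).le (by norm_num)]
        have : (((12 : ℕ) : ℝ)⁻¹) = (1 : ℝ) / 12 := by norm_num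
        rw [this]; ring
      rw [e3] at a2
      exact a2
    constructor
    · refine gen _ ?_ l1
      change |qF (AF ω) 0 s θ| ^ 12 ≤ _
      have : qF (AF ω) 0 s θ = Qw (act (ω 0)) (lpc (s, θ)) := eq
      rw [this]; exact c1
    · refine gen _ ?_ l2
      change |pF (AF ω) 0 s θ| ^ 12 ≤ _
      have : pF (AF ω) 0 s θ = Pw (act (ω 0)) (lpc (s, θ)) := ep
      rw [this]; exact c2
  obtain ⟨C5, hC5⟩ : ∃ C5, C5 = (Ce * Li ^ 12) ^ (((12 : ℕ) : ℝ)⁻¹) := ⟨_, rfl⟩
  have hC50 : 0 ≤ C5 := by rw [hC5]; exact Real.rpow_nonneg (by positivity) _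
  rw [← hC5] at hi
  obtain ⟨C6, hC6⟩ : ∃ C6, C6 = C5 * (1 + 2 * (Λ ^ 2 + h0 ^ 2)) := ⟨_, rfl⟩
  have hC60 : 0 ≤ C6 := by rw [hC6]; positivity
  obtain ⟨c2, hc2⟩ : ∃ c2, c2 = (2 + Λ) * exp U := ⟨_, rfl⟩
  have hc20 : 0 ≤ c2 := by rw [hc2]; positivity
  obtain ⟨A, hA⟩ : ∃ A, A = 2 + C6 + 96 * S + 48 + 96 * S * (2 + c2) + 52 * Λ + Λ ^ 2 := ⟨_, rfl⟩
  have hA1 : 1 ≤ A := by rw [hA]; have : 0 ≤ 96 * S * (2 + c2) := by positivity
                         nlinarith
  obtain ⟨B, hBdef⟩ : ∃ B, B = 2 + 4 * S * (2 + c2 + A) := ⟨_, rfl⟩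
  have hB1 : 1 ≤ B := by rw [hBdef]; have : 0 ≤ 4 * S * (2 + c2 + A) := by positivity
                         linarith
  have hB0 : 0 < B := by linarith
  have hAB : 24 * B + 52 * Λ + Λ ^ 2 < 2 * A ^ 2 := by
    have e1 : 24 * B = 48 + 96 * S * (2 + c2) + 96 * S * A := by rw [hBdef]; ring
    have e2 : A * (2 + C6 + 96 * S + 48 + 96 * S * (2 + c2) + 52 * Λ + Λ ^ 2) = A ^ 2 := by
      rw [← hA]; ring
    have e3 : 96 * S * A + (48 + 96 * S * (2 + c2) + 52 * Λ + Λ ^ 2) ≤ A ^ 2 := by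
      rw [← e2]
      have : 0 ≤ 96 * S * (2 + c2) := by positivity
      nlinarith [mul_nonneg (by linarith : 0 ≤ A) hC60, mul_nonneg (by linarith : 0 ≤ A - 1) this,
        mul_nonneg (by linarith : 0 ≤ A - 1) (by linarith : 0 ≤ Λ),
        mul_nonneg (by linarith : 0 ≤ A - 1) (sq_nonneg Λ)]
    have : 0 < A ^ 2 := by positivity
    linarith
  -- bound of h from the bound of q
  have hexpAt : ∀ t : ℝ, 0 ≤ t → 1 + t ≤ exp (A * t) := by
    intro t ht
    have := add_one_le_exp (A * t)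
    nlinarith
  have hfromq : ∀ t, 0 ≤ t → ∀ η, 0 ≤ η → η ≤ 1 → (∀ s θ, qF (AF ω) t s θ ^ 2
      ≤ KK A t * (gF ω t s ^ ((1 : ℝ) / 12) * exp s + η)) →
      ∀ s θ, |hilF (AF ω) t s θ| ≤ B * exp (A * t) := by
    intro t ht η hη0 hη1 hq s θ
    have hEt := hexpAt t ht
    have hL : ∀ φ, |qF (AF ω) t s φ| ≤ exp (A * exp (A * t) + c2 + t) := by
      intro φ
      rcases le_or_gt s U with hs | hs
      · refine abs_le_of_sq_le_sq ((hq s φ).trans ?_) (exp_pos _).le
        have e1 : exp (A * exp (A * t) + c2 + t) ^ 2 = KK A t * exp (2 * c2 + 2 * t) := by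
          unfold KK
          rw [← exp_nat_mul, ← exp_add]; push_cast; ring_nf
        rw [e1]
        refine mul_le_mul_of_nonneg_left ?_ (KK_pos A t).le
        obtain ⟨-, g0, g1⟩ := hB t ht s
        have e2 : gF ω t s ^ ((1 : ℝ) / 12) ≤ 1 + Λ * (1 + t) := by
          calc gF ω t s ^ ((1 : ℝ) / 12) ≤ (1 + Λ * (1 + t)) ^ ((1 : ℝ) / 12) :=
                Real.rpow_le_rpow g0 (by linarith) (by norm_num)
            _ ≤ (1 + Λ * (1 + t)) ^ (1 : ℝ) :=
                Real.rpow_le_rpow_of_exponent_le (by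
                  have : 0 ≤ Λ * (1 + t) := by positivity
                  linarith) (by norm_num)
            _ = 1 + Λ * (1 + t) := Real.rpow_one _
        have e3 : gF ω t s ^ ((1 : ℝ) / 12) * exp s ≤ (1 + Λ * (1 + t)) * exp U :=
          mul_le_mul e2 (exp_le_exp.2 hs) (exp_pos s).le (by positivity)
        have e4 : (1 + Λ * (1 + t)) * exp U + 1 ≤ c2 * (1 + t) := by
          rw [hc2]
          have : 0 ≤ t * exp U := by positivity
          nlinarith
        have e5 : c2 * (1 + t) ≤ exp (2 * c2 + 2 * t) := by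
          have a1 : c2 ≤ exp (2 * c2) := by
            have := add_one_le_exp (2 * c2); linarith
          have a2 : 1 + t ≤ exp (2 * t) := by
            have := add_one_le_exp (2 * t); linarith
          rw [exp_add]
          exact mul_le_mul a1 a2 (by positivity) (exp_pos _).le
        linarith
      · have := (qp_far h.adm_A hU ht hs φ).1
        have e : qF (AF ω) t s φ = 0 := this
        rw [e, abs_zero]; exact (exp_pos _).le
    have hL1 : 1 ≤ exp (A * exp (A * t) + c2 + t) := by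
      apply one_le_exp; positivity
    have := h.h_log (by linarith : 0 ≤ S) ht (hS t ht) hL1 hL θ
    rw [log_exp] at this
    refine this.trans ?_
    rw [hBdef]
    have e1 : 1 ≤ exp (A * t) := by linarith
    have e2 : 1 + (A * exp (A * t) + c2 + t) ≤ (2 + c2 + A) * exp (A * t) := by
      nlinarith [mul_nonneg hc20 (by linarith : 0 ≤ exp (A * t) - 1)]
    have e3 : 4 * S * (1 + (A * exp (A * t) + c2 + t)) ≤ 4 * S * ((2 + c2 + A) * exp (A * t)) :=
      mul_le_mul_of_nonneg_left e2 (by positivity)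
    nlinarith
  -- the barrier
  have main : ∀ T, 0 ≤ T → ∀ η, 0 < η → η ≤ 1 → ∀ s θ,
      qF (AF ω) T s θ ^ 2 + PiF ω (AF ω) T s θ ^ 2 * kap A B T
        - KK A T * (gF ω T s ^ ((1 : ℝ) / 12) * exp s + η) < 0 := by
    intro T hT η hη0 hη1
    obtain ⟨L, hL0, hL⟩ := h.qp_bound h.adm_A hT
    obtain ⟨hT', hhT0, hhT⟩ := h.hil_bound_T hT
    -- lower cut-off
    obtain ⟨C7, hC7⟩ : ∃ C7, C7 = L ^ 2 + 2 * ((Λ * (1 + T)) ^ 2 * L ^ 2 + hT' ^ 2 * L ^ 2) + 1 :=
      ⟨_, rfl⟩
    have hC70 : 0 < C7 := by rw [hC7]; positivity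
    refine fun s θ => lp_touch (ω := ω)
      (fun t s θ => qF (AF ω) t s θ ^ 2 + PiF ω (AF ω) t s θ ^ 2 * kap A B t
        - KK A t * (gF ω t s ^ ((1 : ℝ) / 12) * exp s + η)) (T := T)
      (sm := log (η / C7) / 2) (sp := U) ?_ ?_ ?_ ?_ ?_ T ⟨hT, le_rfl⟩ s θ
    · -- continuity
      refine ContinuousOn.sub (ContinuousOn.add ?_ ?_) ?_
      · exact (h.q_cont3 h.sm_A T).pow 2
      · exact ((h.Pi_cont3 h.sm_A T).pow 2).mul
          ((kap_cont A B).comp continuous_fst).continuousOn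
      · refine ((KK_cont A).comp continuous_fst).continuousOn.mul ?_
        refine ContinuousOn.add (ContinuousOn.mul ?_ (by fun_prop)) continuousOn_const
        exact (h.gF_cont3 T).rpow_const (fun p _ => Or.inr (by norm_num))
    · -- periodicity
      intro t ht s θ
      have e1 := q_per h.adm_A ht.1 s θ
      have e2 := Pi_per h.adm_A ht.1 s θ
      have e1' : qF (AF ω) t s (θ + 2 * π) = qF (AF ω) t s θ := e1
      have e2' : PiF ω (AF ω) t s (θ + 2 * π) = PiF ω (AF ω) t s θ := e2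
      rw [e1', e2']
    · -- far away
      intro t ht s hs θ
      have hg0 := h.g_nonneg ht.1 s
      have hw0 : 0 ≤ gF ω t s ^ ((1 : ℝ) / 12) * exp s :=
        mul_nonneg (Real.rpow_nonneg hg0 _) (exp_pos s).le
      have hK1 : 1 ≤ KK A t := by
        unfold KK; apply one_le_exp; positivity
      rcases hs with hs | hs
      · obtain ⟨a1, a2⟩ := hL t ht s θ
        have a3 := hhT t ht s θ
        obtain ⟨-, g0, g1⟩ := hB t ht.1 s
        have hkap1 : kap A B t ≤ 1 := by
          rw [kap_eq hB0.ne']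
          rw [div_le_one (by positivity)]
          have : 1 ≤ B * exp (A * t) := by
            have := hexpAt t ht.1
            have := ht.1
            nlinarith
          nlinarith
        have hkap0 := kap_pos (A := A) (t := t) hB0
        have b1 : qF (AF ω) t s θ ^ 2 ≤ L ^ 2 * exp s ^ 2 := by
          rw [← sq_abs, ← mul_pow]; exact pow_le_pow_left₀ (abs_nonneg _) a1 2
        have b2 : pF (AF ω) t s θ ^ 2 ≤ L ^ 2 * exp s ^ 2 := by
          rw [← sq_abs, ← mul_pow]; exact pow_le_pow_left₀ (abs_nonneg _) a2 2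
        have b3 : PiF ω (AF ω) t s θ ^ 2
            ≤ 2 * ((Λ * (1 + T)) ^ 2 * L ^ 2 + hT' ^ 2 * L ^ 2) * exp s ^ 2 := by
          unfold PiF
          have c1 : (gF ω t s * pF (AF ω) t s θ) ^ 2 ≤ (Λ * (1 + T)) ^ 2 * (L ^ 2 * exp s ^ 2) := by
            rw [mul_pow]
            have g2 : gF ω t s ≤ Λ * (1 + T) := g1.trans (by
              have := ht.2; nlinarith)
            exact mul_le_mul (pow_le_pow_left₀ g0 g2 2) b2 (sq_nonneg _) (by positivity)
          have c2 : (hilF (AF ω) t s θ * sin (2 * θ) * qF (AF ω) t s θ) ^ 2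
              ≤ hT' ^ 2 * (L ^ 2 * exp s ^ 2) := by
            rw [mul_pow, mul_pow]
            have d1 : hilF (AF ω) t s θ ^ 2 ≤ hT' ^ 2 := by
              rw [← sq_abs]; exact pow_le_pow_left₀ (abs_nonneg _) a3 2
            have d2 : sin (2 * θ) ^ 2 ≤ 1 := sin_sq_le_one _
            have d3 : hilF (AF ω) t s θ ^ 2 * sin (2 * θ) ^ 2 ≤ hT' ^ 2 * 1 :=
              mul_le_mul d1 d2 (sq_nonneg _) (sq_nonneg _)
            rw [mul_one] at d3
            exact mul_le_mul d3 b1 (sq_nonneg _) (sq_nonneg _)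
          nlinarith [sq_nonneg (gF ω t s * pF (AF ω) t s θ
            + hilF (AF ω) t s θ * sin (2 * θ) * qF (AF ω) t s θ)]
        have b4 : exp s ^ 2 < η / C7 := by
          have : 2 * s < log (η / C7) := by linarith
          rw [← exp_nat_mul]
          push_cast
          rw [← exp_log (by positivity : 0 < η / C7)]
          exact exp_lt_exp.2 this
        have b5 : C7 * exp s ^ 2 < η := by
          rw [lt_div_iff₀ hC70] at b4; linarith
        have b6 : PiF ω (AF ω) t s θ ^ 2 * kap A B t ≤ PiF ω (AF ω) t s θ ^ 2 :=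
          mul_le_of_le_one_right (sq_nonneg _) hkap1
        have b7 : η ≤ KK A t * (gF ω t s ^ ((1 : ℝ) / 12) * exp s + η) := by nlinarith
        have b8 : C7 * exp s ^ 2 = L ^ 2 * exp s ^ 2
          + 2 * ((Λ * (1 + T)) ^ 2 * L ^ 2 + hT' ^ 2 * L ^ 2) * exp s ^ 2 + exp s ^ 2 := by
          rw [hC7]; ring
        have b9 : 0 < exp s ^ 2 := by positivity
        linarith
      · have e1 : qF (AF ω) t s θ = 0 := (qp_far h.adm_A hU ht.1 hs θ).1
        have e2 : pF (AF ω) t s θ = 0 := (qp_far h.adm_A hU ht.1 hs θ).2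
        have e3 : PiF ω (AF ω) t s θ = 0 := by unfold PiF; rw [e1, e2]; ring
        rw [e1, e3]
        have : 0 < KK A t * (gF ω t s ^ ((1 : ℝ) / 12) * exp s + η) :=
          mul_pos (by linarith) (by linarith)
        simp only [ne_eq, OfNat.ofNat_ne_zero, not_false_eq_true, zero_pow, zero_mul, add_zero]
        linarith
    · -- initial time
      intro s θ
      obtain ⟨i1, i2⟩ := hi s θ
      have a3 := hh0 0 ⟨le_rfl, le_rfl⟩ s θ
      obtain ⟨-, g0, g1⟩ := hB 0 le_rfl s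
      rw [add_zero, mul_one] at g1
      set w := gF ω 0 s ^ ((1 : ℝ) / 12) * exp s with hw
      have hw0 : 0 ≤ w := mul_nonneg (Real.rpow_nonneg g0 _) (exp_pos s).le
      have hkap1 : kap A B 0 ≤ 1 := by
        rw [kap_eq hB0.ne', mul_zero, exp_zero, mul_one]
        rw [div_le_one (by positivity)]; nlinarith
      have b3 : PiF ω (AF ω) 0 s θ ^ 2 ≤ 2 * (Λ ^ 2 + h0 ^ 2) * (C5 * w) := by
        unfold PiF
        have c1 : (gF ω 0 s * pF (AF ω) 0 s θ) ^ 2 ≤ Λ ^ 2 * (C5 * w) := by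
          rw [mul_pow]
          exact mul_le_mul (pow_le_pow_left₀ g0 g1 2) i2 (sq_nonneg _) (by positivity)
        have c2 : (hilF (AF ω) 0 s θ * sin (2 * θ) * qF (AF ω) 0 s θ) ^ 2
            ≤ h0 ^ 2 * (C5 * w) := by
          rw [mul_pow, mul_pow]
          have d1 : hilF (AF ω) 0 s θ ^ 2 ≤ h0 ^ 2 := by
            rw [← sq_abs]; exact pow_le_pow_left₀ (abs_nonneg _) a3 2
          have d3 : hilF (AF ω) 0 s θ ^ 2 * sin (2 * θ) ^ 2 ≤ h0 ^ 2 * 1 :=
            mul_le_mul d1 (sin_sq_le_one _) (sq_nonneg _) (sq_nonneg _)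
          rw [mul_one] at d3
          exact mul_le_mul d3 i1 (sq_nonneg _) (sq_nonneg _)
        nlinarith [sq_nonneg (gF ω 0 s * pF (AF ω) 0 s θ
          + hilF (AF ω) 0 s θ * sin (2 * θ) * qF (AF ω) 0 s θ)]
      have b6 : PiF ω (AF ω) 0 s θ ^ 2 * kap A B 0 ≤ PiF ω (AF ω) 0 s θ ^ 2 :=
        mul_le_of_le_one_right (sq_nonneg _) hkap1
      have hK : C6 ≤ KK A 0 := by
        unfold KK
        rw [mul_zero, exp_zero, mul_one]
        have := add_one_le_exp (2 * A)
        have h2 : C6 ≤ A := by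
          rw [hA]
          have : 0 ≤ 96 * S * (2 + c2) := by positivity
          nlinarith [sq_nonneg Λ]
        linarith
      have b7 : C6 * w = C5 * w + 2 * (Λ ^ 2 + h0 ^ 2) * (C5 * w) := by rw [hC6]; ring
      have b8 : C6 * w ≤ KK A 0 * w := mul_le_mul_of_nonneg_right hK hw0
      have b9 : 0 < KK A 0 * η := mul_pos (KK_pos A 0) hη0
      have b10 : KK A 0 * (w + η) = KK A 0 * w + KK A 0 * η := by ring
      rw [b10]
      linarith
    · -- the differential inequality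
      intro t ht htT s θ hzero hmax
      have htI : t ∈ Icc 0 T := ⟨ht.le, htT⟩
      obtain ⟨⟨b0, bM⟩, g0, g1⟩ := hB t ht.le s
      obtain ⟨Ct, hCt0, hCt⟩ := h.edge (t := t) ht.le
      have hK0 := KK_pos A t
      -- g > 0
      have hgpos : 0 < gF ω t s := by
        rcases eq_or_lt_of_le g0 with hg | hg
        · exfalso
          have e1 : qF (AF ω) t s θ = 0 := by
            have c1 := (hCt s θ).1
            rw [← hg, mul_zero] at c1
            have eq : qF (AF ω) t s θ = Qw (act (ω t)) (lpc (s, θ)) :=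
              qF_pb h.sm_A (t := t) ht.le (hadm.dif t ht.le) s θ
            rw [← eq] at c1
            have c2 : |qF (AF ω) t s θ| ^ 12 = 0 := le_antisymm c1 (by positivity)
            exact abs_eq_zero.1 (pow_eq_zero_iff (by norm_num) |>.1 c2)
          have e2 : PiF ω (AF ω) t s θ = 0 := by
            unfold PiF; rw [e1, ← hg]; ring
          simp only [e1, e2] at hzero
          have : 0 < KK A t * (gF ω t s ^ ((1 : ℝ) / 12) * exp s + η) := by
            refine mul_pos hK0 ?_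
            have := mul_nonneg (Real.rpow_nonneg g0 ((1 : ℝ) / 12)) (exp_pos s).le
            linarith
          simp only [ne_eq, OfNat.ofNat_ne_zero, not_false_eq_true, zero_pow, zero_mul,
            add_zero] at hzero
          linarith
        · exact hg
      -- bound for h
      have hhb : |hilF (AF ω) t s θ| ≤ B * exp (A * t) := by
        refine hfromq t ht.le η hη0.le hη1 (fun s' θ' => ?_) s θ
        have := hmax s' θ'
        have h2 : 0 ≤ PiF ω (AF ω) t s' θ' ^ 2 * kap A B t :=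
          mul_nonneg (sq_nonneg _) (kap_pos hB0).le
        linarith
      obtain ⟨gt, hgt, hgtb⟩ := h.g_t_bound (M := Λ) (fun t ht s => (hB t ht s).1.2) ht s
      -- material derivatives
      have mq := (h.md_q (s := s) (θ := θ) h.tr_A ht).sq
      have mPi := (h.md_Pi (s := s) (θ := θ) h.tr_A ht hgt).sq.mul (MD.time (kap_deriv A B t))
      have mg := (h.md_g (θ := θ) ht hgt).comp
        (Real.hasDerivAt_rpow_const (p := (1 : ℝ) / 12) (Or.inl hgpos.ne'))
      have mw := (mg.mul (MD.rad (hasDerivAt_exp s))).add (MD.const (ω := ω) (t := t) (s := s)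
        (θ := θ) η)
      have mK := (MD.time (ω := ω) (s := s) (θ := θ) (KK_deriv A t)).mul mw
      refine ⟨_, ?_, (mq.add mPi).sub mK⟩
      -- estimate
      set g := gF ω t s with hg
      set q := qF (AF ω) t s θ with hq
      set P := gF ω t s * pF (AF ω) t s θ with hP
      set Pi := PiF ω (AF ω) t s θ with hPi
      set b := bF ω t s with hb
      set hh := hilF (AF ω) t s θ with hhh
      set w := g ^ ((1 : ℝ) / 12) * exp s with hw
      have hw0 : 0 ≤ w := mul_nonneg (Real.rpow_nonneg g0 _) (exp_pos s).le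
      have hPeq : P = Pi + hh * sin (2 * θ) * q := by
        rw [hP, hPi, PiF]; ring
      have hgtp : |gt * pF (AF ω) t s θ| ≤ (4 * Λ + 8 * g) * |P| := by
        rw [hP, abs_mul, abs_mul, abs_of_pos hgpos]
        have := mul_le_mul_of_nonneg_right hgtb (abs_nonneg (pF (AF ω) t s θ))
        linarith
      have hEt := hexpAt t ht.le
      have hH1 : 1 ≤ B * exp (A * t) := by
        have : 0 ≤ t := ht.le
        nlinarith
      have hqe := quad_est (M := Λ) (g := g) (b := b) (P := P) (q := q) (Pi := Pi) (h := hh)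
        (S := sin (2 * θ)) (C := cos (2 * θ)) (gtp := gt * pF (AF ω) t s θ)
        (Hh := B * exp (A * t)) (by linarith) g0 b0 bM hH1 hhb (abs_sin_le_one _)
        (abs_cos_le_one _) hPeq hgtp
      have hkapeq := kap_eq (A := A) (t := t) hB0.ne'
      have hkap0 := kap_pos (A := A) (t := t) hB0
      -- rewrite the zero condition
      have hz : q ^ 2 + Pi ^ 2 * kap A B t = KK A t * (w + η) := by linarith
      have hz2 : q ^ 2 + Pi ^ 2 / (B * exp (A * t)) ^ 2 = KK A t * (w + η) := by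
        rw [← hz, hkapeq]; ring
      rw [hz2] at hqe
      -- derivative of the weight
      have hDg : |gt - 2 * g * b * cos (2 * θ)| ≤ (6 * Λ + 8 * g) * g := by
        refine (abs_sub _ _).trans ?_
        have a1 : |2 * g * b * cos (2 * θ)| ≤ 2 * g * Λ := by
          rw [abs_mul, abs_of_nonneg (by positivity : 0 ≤ 2 * g * b)]
          calc 2 * g * b * |cos (2 * θ)| ≤ 2 * g * Λ * 1 :=
                mul_le_mul (mul_le_mul_of_nonneg_left bM (by positivity)) (abs_cos_le_one _)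
                  (abs_nonneg _) (by positivity)
            _ = 2 * g * Λ := mul_one _
        nlinarith
      have hrp : g ^ ((1 : ℝ) / 12 - 1) * g = g ^ ((1 : ℝ) / 12) := by
        rw [← Real.rpow_add_one hgpos.ne']
        norm_num
      have hwder : -((Λ + 3 * g) * w) ≤ (1 : ℝ) / 12 * g ^ ((1 : ℝ) / 12 - 1)
          * (gt - 2 * g * b * cos (2 * θ)) * exp s
          + g ^ ((1 : ℝ) / 12) * (2 * g * cos (2 * θ) * exp s) + 0 := by
        have r0 : 0 ≤ g ^ ((1 : ℝ) / 12 - 1) := Real.rpow_nonneg g0 _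
        have a1 := (abs_le.1 hDg).1
        have a2 : -((6 * Λ + 8 * g) / 12 * g ^ ((1 : ℝ) / 12))
            ≤ (1 : ℝ) / 12 * g ^ ((1 : ℝ) / 12 - 1) * (gt - 2 * g * b * cos (2 * θ)) := by
          have := mul_le_mul_of_nonneg_left a1 (by positivity :
            0 ≤ (1 : ℝ) / 12 * g ^ ((1 : ℝ) / 12 - 1))
          refine le_trans (le_of_eq ?_) this
          rw [← hrp]; ring
        have a3 := (abs_le.1 (abs_cos_le_one (2 * θ))).1
        have e0 := exp_pos s
        have r1 : 0 ≤ g ^ ((1 : ℝ) / 12) := Real.rpow_nonneg g0 _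
        have a4 := mul_le_mul_of_nonneg_right a2 e0.le
        have a5 : -(2 * g * w) ≤ g ^ ((1 : ℝ) / 12) * (2 * g * cos (2 * θ) * exp s) := by
          rw [hw]
          have : 0 ≤ g ^ ((1 : ℝ) / 12) * (2 * g) * exp s := by positivity
          nlinarith
        have a6 : -((6 * Λ + 8 * g) / 12 * g ^ ((1 : ℝ) / 12)) * exp s
            = -((6 * Λ + 8 * g) / 12 * w) := by rw [hw]; ring
        rw [a6] at a4
        have a7 : (6 * Λ + 8 * g) / 12 * w + 2 * g * w ≤ (Λ + 3 * g) * w := by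
          rw [← add_mul]
          exact mul_le_mul_of_nonneg_right (by linarith) hw0
        linarith
      have hgE : g ≤ Λ * exp (A * t) := g1.trans (mul_le_mul_of_nonneg_left hEt (by linarith))
      have hEt1 : 1 ≤ exp (A * t) := by linarith [ht.le]
      have hrate : (24 * (B * exp (A * t)) + 32 * g + 16 * Λ + Λ ^ 2) + (Λ + 3 * g)
          < 2 * A ^ 2 * exp (A * t) := by
        have h1 : 0 ≤ Λ * (exp (A * t) - 1) := mul_nonneg (by linarith) (by linarith)
        have h2 : 0 ≤ Λ ^ 2 * (exp (A * t) - 1) := mul_nonneg (by positivity) (by linarith)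
        have h3 := mul_lt_mul_of_pos_right hAB (exp_pos (A * t))
        nlinarith
      have hKw : 0 < KK A t * (w + η) := mul_pos hK0 (by linarith)
      have s1 := mul_lt_mul_of_pos_right hrate hKw
      have s2 := mul_le_mul_of_nonneg_left hwder hK0.le
      have s3 : KK A t * ((Λ + 3 * g) * w) ≤ (Λ + 3 * g) * (KK A t * (w + η)) := by
        have : 0 ≤ (Λ + 3 * g) * (KK A t * η) := by positivity
        nlinarith
      have s4 : Pi ^ 2 * (-(2 * A) * kap A B t) ≤ 0 := by
        have : 0 ≤ Pi ^ 2 * (2 * A * kap A B t) := by positivity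
        linarith
      have s5 : 2 * Pi * (gt * pF (AF ω) t s θ - b ^ 2 * sin (2 * θ) * q
          - 4 * hh * sin (2 * θ) ^ 2 * P) * kap A B t
          = 2 * Pi * (gt * pF (AF ω) t s θ - b ^ 2 * sin (2 * θ) * q
          - 4 * hh * sin (2 * θ) ^ 2 * P) / (B * exp (A * t)) ^ 2 := by
        rw [hkapeq]; ring
      have s6 : 4 * g * sin (2 * θ) * pF (AF ω) t s θ = 4 * sin (2 * θ) * P := by rw [hP]; ring
      rw [s6]
      linarith
  refine ⟨A, B, hA1, hB1, fun t ht s θ => ?_⟩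
  have hq : ∀ s θ, qF (AF ω) t s θ ^ 2 + PiF ω (AF ω) t s θ ^ 2 * kap A B t
      ≤ KK A t * (gF ω t s ^ ((1 : ℝ) / 12) * exp s) := by
    intro s θ
    have hlim : Tendsto (fun η : ℝ => KK A t * (gF ω t s ^ ((1 : ℝ) / 12) * exp s + η))
        (𝓝[>] 0) (𝓝 (KK A t * (gF ω t s ^ ((1 : ℝ) / 12) * exp s))) := by
      have : Continuous (fun η : ℝ => KK A t * (gF ω t s ^ ((1 : ℝ) / 12) * exp s + η)) := by
        fun_prop
      have h2 := this.tendsto 0
      rw [add_zero] at h2
      exact h2.mono_left nhdsWithin_le_nhds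
    refine ge_of_tendsto hlim ?_
    filter_upwards [Ioo_mem_nhdsGT (zero_lt_one' ℝ)] with η hη
    have := main t ht η hη.1 hη.2.le s θ
    linarith
  refine ⟨hq s θ, ?_⟩
  refine hfromq t ht 0 le_rfl zero_le_one (fun s θ => ?_) s θ
  rw [add_zero]
  have := hq s θ
  have h2 : 0 ≤ PiF ω (AF ω) t s θ ^ 2 * kap A B t :=
    mul_nonneg (sq_nonneg _) (kap_pos hB0).le
  linarith

end SignSol

end Run7.h65
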