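import Pool.Agent.Run7.h65.OddSol

open Set Real MeasureTheory Filter Topology

namespace Run7.h65

namespace OddSol

variable {ω : ℝ → ℝ × ℝ → ℝ} (h : OddSol ω)

include h

/-- bound near the `x`-axis -/
theorem x_axis_bound {Λ κ : ℝ} (hΛ : 1 ≤ Λ)
    (hB : ∀ t, 0 ≤ t → (∀ ρ, |bb (ω t) ρ| ≤ Λ) ∧ ∀ r, 0 < r → |BB (ω t) r| ≤ Λ * (1 + t))
    (hκ : 0 ≤ κ) (h0 : ∀ z : ℝ × ℝ, |ω 0 z| ≤ κ * |z.2|) {t : ℝ} (ht : 0 ≤ t) (z : ℝ × ℝ) :
    |ω t z| ≤ κ * exp (10 * Λ * (t + t ^ 2 / 2)) * |z.2| := by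
  obtain ⟨R, hR1, hR⟩ := h.sol.exists_supp_all
  have hR0 : 0 < R := by linarith
  have hk0 : 0 ≤ κ * exp (10 * Λ * (t + t ^ 2 / 2)) := by positivity
  rw [← abs_of_nonneg hk0, ← abs_mul, ← sq_le_sq]
  refine le_of_forall_pos_le_add fun ε hε => ?_
  have key := sq_barrier (w := ω) (fun t => vel (ω t)) (fun _ _ => 0) (T := t)
    (h.sol.cont_Icc t) (fun s hs _ => h.sol.diff_slice hs.le)
    (fun s hs _ z => by simpa using h.sol.pde hs z)
    (fun s z => (κ * exp (10 * Λ * (s + s ^ 2 / 2)) * z.2) ^ 2 + ε / (1 + t) * (1 + s))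
    (by fun_prop) (fun s => by fun_prop)
    (fun s z => 20 * Λ * (1 + s) * (κ * exp (10 * Λ * (s + s ^ 2 / 2)) * z.2) ^ 2 + ε / (1 + t))
    (fun s z => by
      have h1 : HasDerivAt (fun s : ℝ => 10 * Λ * (s + s ^ 2 / 2)) (10 * Λ * (1 + s)) s := by
        have := ((hasDerivAt_id s).add ((hasDerivAt_pow 2 s).div_const 2)).const_mul (10 * Λ)
        refine this.congr_deriv ?_
        simp
      have h2 := ((h1.exp.const_mul κ).mul_const z.2).pow 2
      have h3 := ((hasDerivAt_id s).const_add 1).const_mul (ε / (1 + t))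
      refine (h2.add h3).congr_deriv ?_
      simp only [Nat.cast_ofNat, Nat.add_one_sub_one, pow_one]
      ring) R
    (fun s hs z hz => by
      have hz2 := not_mem_box hR0.le hz
      have hs0 := hs.1
      rw [hR s hs.1 z hz2]
      have : 0 < ε / (1 + t) * (1 + s) := by positivity
      simp only [ne_eq, OfNat.ofNat_ne_zero, not_false_eq_true, zero_pow]
      positivity)
    (fun z => by
      have h1 := h0 z
      have h2 : ω 0 z ^ 2 ≤ (κ * exp (10 * Λ * (0 + 0 ^ 2 / 2)) * z.2) ^ 2 := by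
        rw [sq_le_sq, abs_mul, abs_mul, abs_of_nonneg hκ]
        simpa using h1
      have : 0 < ε / (1 + t) * (1 + 0) := by positivity
      linarith)
    (fun s hs hst z _ _ => by
      set k := κ * exp (10 * Λ * (s + s ^ 2 / 2)) with hk
      have hq := (vel_odd (h.sol.cont_slice hs.le) (h.odd s hs.le) z)
      have hd1 : d1 (fun z : ℝ × ℝ => (k * z.2) ^ 2 + ε / (1 + t) * (1 + s)) z = 0 := by
        refine d1_of_line (by fun_prop) ?_
        exact hasDerivAt_const z.1 ((k * z.2) ^ 2 + ε / (1 + t) * (1 + s))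
      have hd2 : d2 (fun z : ℝ × ℝ => (k * z.2) ^ 2 + ε / (1 + t) * (1 + s)) z
          = 2 * k ^ 2 * z.2 := by
        refine d2_of_line (by fun_prop) ?_
        have h1 := ((hasDerivAt_id z.2).const_mul k).pow 2
        refine (h1.add_const (ε / (1 + t) * (1 + s))).congr_deriv ?_
        simp only [id, Nat.cast_ofNat, Nat.add_one_sub_one, pow_one]
        ring
      rw [hd1, hd2, hq.2]
      have h7 : 0 < ε / (1 + t) := by positivity
      rcases eq_or_ne z 0 with rfl | hz0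
      · simp only [Prod.fst_zero, Prod.snd_zero]
        simp [h7]
      obtain ⟨hb, hBr⟩ := hB s hs.le
      have hb := hb (rad z)
      have hBr := hBr (rad z) (rad_pos hz0)
      set b := bb (ω s) (rad z)
      set B := BB (ω s) (rad z)
      have hc : |z.1 ^ 2 / (z.1 ^ 2 + z.2 ^ 2)| ≤ 1 := by
        rw [abs_of_nonneg (by positivity)]
        refine div_le_one_of_le₀ ?_ (by positivity)
        nlinarith [sq_nonneg z.2]
      have hbc : |b * (z.1 ^ 2 / (z.1 ^ 2 + z.2 ^ 2))| ≤ Λ := by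
        rw [abs_mul]
        calc |b| * |z.1 ^ 2 / (z.1 ^ 2 + z.2 ^ 2)| ≤ Λ * 1 :=
              mul_le_mul hb hc (abs_nonneg _) (by linarith)
          _ = Λ := mul_one _
      have e : 20 * Λ * (1 + s) * (k * z.2) ^ 2 + ε / (1 + t)
          + ((vel (ω s) z).1 * 0
            + -z.2 * (2 * B - 2 * b * z.1 ^ 2 / (z.1 ^ 2 + z.2 ^ 2)) * (2 * k ^ 2 * z.2))
          - 2 * ω s z * 0
          = ε / (1 + t) + (k * z.2) ^ 2 * (20 * Λ * (1 + s) - 4 * B
            + 4 * (b * (z.1 ^ 2 / (z.1 ^ 2 + z.2 ^ 2)))) := by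
        ring
      rw [e]
      have h5 := (abs_le.1 hbc).1
      have h8 := (abs_le.1 hBr).2
      have h9 : 0 ≤ (k * z.2) ^ 2 * (20 * Λ * (1 + s) - 4 * B
            + 4 * (b * (z.1 ^ 2 / (z.1 ^ 2 + z.2 ^ 2)))) := by
        refine mul_nonneg (by positivity) ?_
        nlinarith
      linarith)
  have h1 := key t ⟨ht, le_rfl⟩ z
  have e : ε / (1 + t) * (1 + t) = ε := by field_simp
  rw [e] at h1
  exact h1.le

theorem BB_diff {Λ s : ℝ} (hs : 0 ≤ s) (hb : ∀ ρ, |bb (ω s) ρ| ≤ Λ) {r1 r2 : ℝ}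
    (h1 : 0 < r1) (h12 : r1 ≤ r2) : r1 * |BB (ω s) r1 - BB (ω s) r2| ≤ Λ * (r2 - r1) := by
  obtain ⟨R, -, hR0, hR⟩ := exists_suppIn (h.sol.compact s hs) 0
  have hder : ∀ r, 0 < r → HasDerivAt (BB (ω s)) (-(bb (ω s) r / r)) r := fun r hr =>
    BB_hasDerivAt (h.sol.cont_slice hs) hR hR0.le hr
  have hm := mvt (g := BB (ω s)) (g' := fun r => -(bb (ω s) r / r)) (x := r1) (y := r2)
    (C := Λ / r1)
    (fun x hx => (hder x (by rw [uIcc_of_le h12] at hx; exact h1.trans_le hx.1)).continuousAt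
      |>.continuousWithinAt)
    (fun x hx => hder x (h1.trans_le ((by rw [min_eq_left h12] : min r1 r2 = r1) ▸ hx.1.le)))
    (fun x hx => by
      rw [min_eq_left h12] at hx
      have hx0 : 0 < x := h1.trans hx.1
      rw [abs_neg, abs_div, abs_of_pos hx0]
      exact div_le_div₀ ((abs_nonneg _).trans (hb x)) (hb x) h1 hx.1.le)
  rw [abs_of_nonneg (sub_nonneg.2 h12), abs_sub_comm] at hm
  calc r1 * |BB (ω s) r1 - BB (ω s) r2| ≤ r1 * (Λ / r1 * (r2 - r1)) :=
        mul_le_mul_of_nonneg_left hm h1.le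
    _ = Λ * (r2 - r1) := by field_simp

theorem rad_sub_abs (x y p : ℝ) :
    |rad (x, y) - abs p| ≤ √(x ^ 2 + (y - p) ^ 2) := by
  apply abs_le_sqrt
  have h1 := rad_sq (x, y)
  have h2 := abs_snd_le_rad (x, y)
  simp only at h1 h2
  have h3 : y * p ≤ rad (x, y) * |p| := by
    calc y * p ≤ |y * p| := le_abs_self _
      _ = |y| * |p| := abs_mul _ _
      _ ≤ _ := mul_le_mul_of_nonneg_right h2 (abs_nonneg _)
  have h4 := sq_abs p
  nlinarith

/-- the velocity difference between a point and a point of the `y`-axis -/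
theorem vel_diff {Λ s : ℝ} (hΛ : 1 ≤ Λ) (hs : 0 ≤ s)
    (hB : (∀ ρ, |bb (ω s) ρ| ≤ Λ) ∧ ∀ r, 0 < r → |BB (ω s) r| ≤ Λ * (1 + s)) (x y p : ℝ) :
    |x * (vel (ω s) (x, y)).1 + (y - p) * ((vel (ω s) (x, y)).2 - (vel (ω s) (0, p)).2)|
      ≤ 10 * Λ * (1 + s) * (x ^ 2 + (y - p) ^ 2) := by
  obtain ⟨hb, hBr⟩ := hB
  have hΛs : Λ ≤ Λ * (1 + s) := by nlinarith
  set ρ := √(x ^ 2 + (y - p) ^ 2) with hρ
  have hρ0 : 0 ≤ ρ := sqrt_nonneg _
  have hρ2 : ρ ^ 2 = x ^ 2 + (y - p) ^ 2 := sq_sqrt (by positivity)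
  have hxρ : |x| ≤ ρ := abs_le_of_sq_le_sq (by rw [hρ2]; nlinarith [sq_nonneg (y - p)]) hρ0
  have hyρ : |y - p| ≤ ρ := abs_le_of_sq_le_sq (by rw [hρ2]; nlinarith [sq_nonneg x]) hρ0
  have hrr := rad_sub_abs h x y p
  rw [← hρ] at hrr
  obtain ⟨P, hP⟩ : ∃ P, P = |p| := ⟨_, rfl⟩
  rw [← hP] at hrr
  have hv := vel_odd (h.sol.cont_slice hs) (h.odd s hs) (x, y)
  have hvp := vel_odd (h.sol.cont_slice hs) (h.odd s hs) (0, p)
  have hradp : rad ((0 : ℝ), p) = P := by
    simp [rad, sqrt_sq_eq_abs, hP]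
  rw [hradp] at hvp
  -- first component
  have h1 : |x * (vel (ω s) (x, y)).1| ≤ 4 * Λ * (1 + s) * ρ ^ 2 := by
    rcases eq_or_ne x 0 with hx | hx
    · rw [hx, zero_mul, abs_zero]; positivity
    · have hz : ((x, y) : ℝ × ℝ) ≠ 0 := fun hh => hx (congrArg Prod.fst hh)
      have hB1 := hBr (rad (x, y)) (rad_pos hz)
      have hb1 := hb (rad (x, y))
      rw [hv.1]
      simp only
      set B := BB (ω s) (rad (x, y))
      set b := bb (ω s) (rad (x, y))
      have hc : |y ^ 2 / (x ^ 2 + y ^ 2)| ≤ 1 := by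
        rw [abs_of_nonneg (by positivity)]
        refine div_le_one_of_le₀ ?_ (by positivity)
        nlinarith [sq_nonneg x]
      have e : x * (x * (2 * B - 2 * b * y ^ 2 / (x ^ 2 + y ^ 2)))
          = x ^ 2 * (2 * B - 2 * (b * (y ^ 2 / (x ^ 2 + y ^ 2)))) := by ring
      have hbc : |b * (y ^ 2 / (x ^ 2 + y ^ 2))| ≤ Λ := by
        rw [abs_mul]
        calc |b| * |y ^ 2 / (x ^ 2 + y ^ 2)| ≤ Λ * 1 :=
              mul_le_mul hb1 hc (abs_nonneg _) (by linarith)
          _ = Λ := mul_one _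
      have h2 : |2 * B - 2 * (b * (y ^ 2 / (x ^ 2 + y ^ 2)))| ≤ 4 * Λ * (1 + s) := by
        have := abs_sub (2 * B) (2 * (b * (y ^ 2 / (x ^ 2 + y ^ 2))))
        rw [abs_mul, abs_mul 2 (b * (y ^ 2 / (x ^ 2 + y ^ 2))), abs_two] at this
        linarith
      rw [e, abs_mul, abs_of_nonneg (sq_nonneg x)]
      have hx2 : x ^ 2 ≤ ρ ^ 2 := by rw [hρ2]; nlinarith [sq_nonneg (y - p)]
      calc x ^ 2 * |2 * B - 2 * (b * (y ^ 2 / (x ^ 2 + y ^ 2)))|
          ≤ ρ ^ 2 * (4 * Λ * (1 + s)) :=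
            mul_le_mul hx2 h2 (abs_nonneg _) (by positivity)
        _ = 4 * Λ * (1 + s) * ρ ^ 2 := by ring
  -- second component
  have hp2 : (vel (ω s) (0, p)).2 = -p * (2 * BB (ω s) P) := by
    rw [hvp.2]; simp
  have h2 : |(vel (ω s) (x, y)).2 - (vel (ω s) (0, p)).2| ≤ 6 * Λ * (1 + s) * ρ := by
    rw [hp2, hv.2]
    simp only
    rcases eq_or_ne ((x, y) : ℝ × ℝ) 0 with hz | hz
    · have hx : x = 0 := congrArg Prod.fst hz
      have hy : y = 0 := congrArg Prod.snd hz
      rw [hy] at hyρ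
      rw [hy, hx]
      simp only [neg_zero, zero_mul]
      rcases eq_or_ne p 0 with hp | hp
      · rw [hp]; simp only [neg_zero, zero_mul, sub_self, abs_zero]; positivity
      · have := hBr P (hP ▸ abs_pos.2 hp)
        rw [zero_sub, abs_neg, abs_mul, abs_neg, abs_mul, abs_two]
        rw [zero_sub, abs_neg] at hyρ
        rw [← hP] at hyρ ⊢
        calc P * (2 * |BB (ω s) P|) ≤ ρ * (2 * (Λ * (1 + s))) := by
              refine mul_le_mul hyρ ?_ (by positivity) hρ0
              linarith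
          _ ≤ 6 * Λ * (1 + s) * ρ := by nlinarith [mul_nonneg hρ0 (by positivity : 0 ≤ Λ * (1 + s))]
    · have hr := rad_pos hz
      have hB1 := hBr (rad (x, y)) hr
      have hb1 := hb (rad (x, y))
      have hyr := abs_snd_le_rad (x, y)
      simp only at hyr
      -- the term with b
      have hterm : |2 * bb (ω s) (rad (x, y)) * (y * x ^ 2 / (x ^ 2 + y ^ 2))| ≤ 2 * Λ * ρ := by
        have hq : 0 < x ^ 2 + y ^ 2 := by
          have := rad_sq (x, y)
          simp only at this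
          rw [← this]; positivity
        have hc : |y * x ^ 2 / (x ^ 2 + y ^ 2)| ≤ ρ := by
          rw [abs_div, abs_of_pos hq, div_le_iff₀ hq, abs_mul, abs_of_nonneg (sq_nonneg x)]
          have h3 : |y| * |x| ≤ x ^ 2 + y ^ 2 := by
            nlinarith [sq_abs x, sq_abs y, sq_nonneg (|x| - |y|), sq_nonneg x, sq_nonneg y]
          calc |y| * x ^ 2 = |x| * (|y| * |x|) := by rw [← sq_abs x]; ring
            _ ≤ ρ * (x ^ 2 + y ^ 2) := mul_le_mul hxρ h3 (by positivity) hρ0
        rw [abs_mul, abs_mul, abs_two]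
        exact mul_le_mul (by linarith) hc (abs_nonneg _) (by positivity)
      -- the term with B
      have hmain : |y * BB (ω s) (rad (x, y)) - p * BB (ω s) P| ≤ 2 * Λ * (1 + s) * ρ := by
        rcases eq_or_ne p 0 with hp | hp
        · rw [hp] at hyρ ⊢
          rw [zero_mul, sub_zero, abs_mul]
          rw [sub_zero] at hyρ
          calc |y| * |BB (ω s) (rad (x, y))| ≤ ρ * (Λ * (1 + s)) :=
                mul_le_mul hyρ hB1 (abs_nonneg _) hρ0
            _ ≤ 2 * Λ * (1 + s) * ρ := by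
                nlinarith [mul_nonneg hρ0 (by positivity : 0 ≤ Λ * (1 + s))]
        have hpp : 0 < P := hP ▸ abs_pos.2 hp
        have hBp := hBr P hpp
        rcases le_total (rad (x, y)) P with hle | hle
        · have hd := h.BB_diff hs hb hr hle
          have e : y * BB (ω s) (rad (x, y)) - p * BB (ω s) P
              = (y - p) * BB (ω s) P + y * (BB (ω s) (rad (x, y)) - BB (ω s) P) := by ring
          rw [e]
          refine (abs_add_le _ _).trans ?_
          rw [abs_mul, abs_mul]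
          have f1 : |y - p| * |BB (ω s) P| ≤ ρ * (Λ * (1 + s)) :=
            mul_le_mul hyρ hBp (abs_nonneg _) hρ0
          have f2 : |y| * |BB (ω s) (rad (x, y)) - BB (ω s) P|
              ≤ Λ * ρ := by
            refine (mul_le_mul_of_nonneg_right hyr (abs_nonneg _)).trans (hd.trans ?_)
            refine mul_le_mul_of_nonneg_left ?_ (by linarith)
            have := (abs_le.1 hrr).1
            linarith
          have f3 : Λ * ρ ≤ Λ * (1 + s) * ρ := mul_le_mul_of_nonneg_right hΛs hρ0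
          linarith
        · have hd := h.BB_diff hs hb hpp hle
          have e : y * BB (ω s) (rad (x, y)) - p * BB (ω s) P
              = (y - p) * BB (ω s) (rad (x, y))
                + p * (BB (ω s) (rad (x, y)) - BB (ω s) P) := by ring
          rw [e]
          refine (abs_add_le _ _).trans ?_
          rw [abs_mul, abs_mul]
          have f1 : |y - p| * |BB (ω s) (rad (x, y))| ≤ ρ * (Λ * (1 + s)) :=
            mul_le_mul hyρ hB1 (abs_nonneg _) hρ0
          have f2 : |p| * |BB (ω s) (rad (x, y)) - BB (ω s) P|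
              ≤ Λ * ρ := by
            rw [abs_sub_comm, ← hP]
            refine hd.trans ?_
            refine mul_le_mul_of_nonneg_left ?_ (by linarith)
            have := (abs_le.1 hrr).2
            linarith
          have f3 : Λ * ρ ≤ Λ * (1 + s) * ρ := mul_le_mul_of_nonneg_right hΛs hρ0
          linarith
      have e : -y * (2 * BB (ω s) (rad (x, y))
            - 2 * bb (ω s) (rad (x, y)) * x ^ 2 / (x ^ 2 + y ^ 2)) - -p * (2 * BB (ω s) P)
          = -(2 * (y * BB (ω s) (rad (x, y)) - p * BB (ω s) P))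
            + 2 * bb (ω s) (rad (x, y)) * (y * x ^ 2 / (x ^ 2 + y ^ 2)) := by ring
      rw [e]
      refine (abs_add_le _ _).trans ?_
      rw [abs_neg, abs_mul 2, abs_two]
      have f3 : Λ * ρ ≤ Λ * (1 + s) * ρ := mul_le_mul_of_nonneg_right hΛs hρ0
      linarith
  refine (abs_add_le _ _).trans ?_
  rw [abs_mul (y - p)]
  have h3 : |y - p| * |(vel (ω s) (x, y)).2 - (vel (ω s) (0, p)).2|
      ≤ ρ * (6 * Λ * (1 + s) * ρ) := mul_le_mul hyρ h2 (abs_nonneg _) hρ0
  rw [← hρ2]
  nlinarith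

/-- bound near the `y`-axis -/
theorem y_axis_bound {Λ κ : ℝ} (hΛ : 1 ≤ Λ)
    (hB : ∀ t, 0 ≤ t → (∀ ρ, |bb (ω t) ρ| ≤ Λ) ∧ ∀ r, 0 < r → |BB (ω t) r| ≤ Λ * (1 + t))
    (hκ : 0 < κ) (hκS : ∀ t, 0 ≤ t → ∀ z, |ω t z| ≤ κ)
    (h0 : ∀ (z : ℝ × ℝ) (p : ℝ), |ω 0 z - ω 0 (0, p)| ≤ κ * √(z.1 ^ 2 + (z.2 - p) ^ 2))
    {t : ℝ} (ht : 0 ≤ t) (z : ℝ × ℝ) (p : ℝ) :
    |ω t z - ω t (0, p)|
      ≤ κ * exp (10 * Λ * (t + t ^ 2 / 2)) * √(z.1 ^ 2 + (z.2 - p) ^ 2) := by
  obtain ⟨R, hR1, hR⟩ := h.sol.exists_supp_all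
  have hR0 : 0 < R := by linarith
  have hk0 : 0 ≤ κ * exp (10 * Λ * (t + t ^ 2 / 2)) * √(z.1 ^ 2 + (z.2 - p) ^ 2) := by positivity
  rw [← abs_of_nonneg hk0, ← sq_le_sq]
  refine le_of_forall_pos_le_add fun ε hε => ?_
  rw [mul_pow, sq_sqrt (by positivity)]
  set η := ε / (1 + t) with hη
  have hη0 : 0 < η := by positivity
  have hcz : ContinuousOn (fun q : ℝ × ((ℝ × ℝ) × ℝ) => ω q.1 q.2.1) (Icc 0 t ×ˢ univ) :=
    (h.sol.cont_Icc t).comp (f := fun q : ℝ × ((ℝ × ℝ) × ℝ) => ((q.1, q.2.1) : ℝ × (ℝ × ℝ)))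
      (by fun_prop) (fun q hq => ⟨hq.1, mem_univ _⟩)
  have hcp : ContinuousOn (fun q : ℝ × ((ℝ × ℝ) × ℝ) => ω q.1 ((0 : ℝ), q.2.2))
      (Icc 0 t ×ˢ univ) :=
    (h.sol.cont_Icc t).comp (f := fun q : ℝ × ((ℝ × ℝ) × ℝ) =>
      ((q.1, ((0 : ℝ), q.2.2)) : ℝ × (ℝ × ℝ))) (by fun_prop) (fun q hq => ⟨hq.1, mem_univ _⟩)
  have key := touch (X := (ℝ × ℝ) × ℝ)
    (fun s q => (ω s q.1 - ω s (0, q.2)) ^ 2
      - ((κ * exp (10 * Λ * (s + s ^ 2 / 2))) ^ 2 * (q.1.1 ^ 2 + (q.1.2 - q.2) ^ 2)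
        + η * (1 + s))) (T := t)
    (box (R + 1) ×ˢ Icc (-(R + 1)) (R + 1)) ((isCompact_box _).prod isCompact_Icc)
    (((hcz.sub hcp).pow 2).sub (by fun_prop))
    (fun s hs q hq => by
      have hs0 := hs.1
      set k := κ * exp (10 * Λ * (s + s ^ 2 / 2)) with hk
      have hkκ : κ ≤ k := by
        rw [hk]
        exact le_mul_of_one_le_right hκ.le (one_le_exp (by positivity))
      have hηs : 0 < η * (1 + s) := by positivity
      have far : 1 ≤ q.1.1 ^ 2 + (q.1.2 - q.2) ^ 2 →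
          (ω s q.1 = 0 ∨ ω s (0, q.2) = 0) →
          (ω s q.1 - ω s (0, q.2)) ^ 2 ≤ k ^ 2 * (q.1.1 ^ 2 + (q.1.2 - q.2) ^ 2) := by
        intro hfar hzero
        have hle : |ω s q.1 - ω s (0, q.2)| ≤ κ := by
          rcases hzero with hz | hz
          · rw [hz, zero_sub, abs_neg]; exact hκS s hs.1 _
          · rw [hz, sub_zero]; exact hκS s hs.1 _
        calc (ω s q.1 - ω s (0, q.2)) ^ 2 = |ω s q.1 - ω s (0, q.2)| ^ 2 := (sq_abs _).symm
          _ ≤ k ^ 2 := pow_le_pow_left₀ (abs_nonneg _) (hle.trans hkκ) 2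
          _ ≤ k ^ 2 * (q.1.1 ^ 2 + (q.1.2 - q.2) ^ 2) := le_mul_of_one_le_right (by positivity) hfar
      have hout1 : R ^ 2 < q.1.1 ^ 2 + q.1.2 ^ 2 → ω s q.1 = 0 := fun hh => hR s hs.1 _ hh
      have hout2 : R < |q.2| → ω s (0, q.2) = 0 := fun hh => hR s hs.1 _ (by
        simp only
        have : R ^ 2 < |q.2| ^ 2 := by gcongr
        rw [sq_abs] at this
        nlinarith)
      have goal : (ω s q.1 - ω s (0, q.2)) ^ 2 ≤ k ^ 2 * (q.1.1 ^ 2 + (q.1.2 - q.2) ^ 2) := by
        by_cases hp : R < |q.2|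
        · by_cases hz : R ^ 2 < q.1.1 ^ 2 + q.1.2 ^ 2
          · rw [hout1 hz, hout2 hp, sub_zero, zero_pow two_ne_zero]; positivity
          · -- z inside, p outside
            by_cases hp1 : R + 1 < |q.2|
            · refine far ?_ (Or.inr (hout2 hp))
              push Not at hz
              have hy : |q.1.2| ≤ R := abs_le_of_sq_le_sq (by nlinarith [sq_nonneg q.1.1]) hR0.le
              have h3 : 1 ≤ |q.1.2 - q.2| := by
                have := abs_sub_abs_le_abs_sub q.2 q.1.2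
                rw [abs_sub_comm] at this
                linarith
              have h4 : 1 ≤ |q.1.2 - q.2| ^ 2 := one_le_pow₀ h3
              rw [sq_abs] at h4
              nlinarith [sq_nonneg q.1.1]
            · exfalso
              push Not at hz hp1
              apply hq
              have hx : |q.1.1| ≤ R + 1 := (abs_le_of_sq_le_sq (by nlinarith [sq_nonneg q.1.2])
                hR0.le).trans (by linarith)
              have hy : |q.1.2| ≤ R + 1 := (abs_le_of_sq_le_sq (by nlinarith [sq_nonneg q.1.1])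
                hR0.le).trans (by linarith)
              exact ⟨⟨abs_le.1 hx, abs_le.1 hy⟩, abs_le.1 hp1⟩
        · push Not at hp
          have hqz : q.1 ∉ box (R + 1) := by
            intro hh
            exact hq ⟨hh, abs_le.1 (hp.trans (by linarith))⟩
          have hzz := not_mem_box (by linarith) hqz
          have hz : R ^ 2 < q.1.1 ^ 2 + q.1.2 ^ 2 := lt_of_le_of_lt (by gcongr; linarith) hzz
          refine far ?_ (Or.inl (hout1 hz))
          by_contra hlt
          push Not at hlt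
          have a1 : |q.1.2 - q.2| < 1 := by
            refine abs_lt_of_sq_lt_sq (by nlinarith [sq_nonneg q.1.1]) (by norm_num)
          have a2 : |q.1.1| ≤ 1 := by
            refine abs_le_of_sq_le_sq (by nlinarith [sq_nonneg (q.1.2 - q.2)]) (by norm_num)
          apply hqz
          have a3 : |q.1.2| ≤ R + 1 := by
            have := abs_add_le (q.1.2 - q.2) q.2
            rw [sub_add_cancel] at this
            linarith
          exact ⟨abs_le.1 (a2.trans (by linarith)), abs_le.1 a3⟩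
      linarith)
    (fun q => by
      have h1 := h0 q.1 q.2
      have h2 : (ω 0 q.1 - ω 0 (0, q.2)) ^ 2
          ≤ (κ * exp (10 * Λ * (0 + 0 ^ 2 / 2))) ^ 2 * (q.1.1 ^ 2 + (q.1.2 - q.2) ^ 2) := by
        have h3 := pow_le_pow_left₀ (abs_nonneg _) h1 2
        rw [sq_abs, mul_pow, sq_sqrt (by positivity)] at h3
        simpa using h3
      have : 0 < η * (1 + 0) := by positivity
      linarith)
    (fun s hs hst q _ hq hmax => by
      have hs0 := hs.le
      set k := κ * exp (10 * Λ * (s + s ^ 2 / 2)) with hk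
      obtain ⟨⟨x, y⟩, p⟩ := q
      simp only at hq hmax ⊢
      have hd := h.sol.diff_slice hs.le
      -- spatial conditions in z
      have hm1 := max_deriv (g := fun z => ω s z - ω s (0, p)) (z := (x, y))
        (Φ := fun z => k ^ 2 * (z.1 ^ 2 + (z.2 - p) ^ 2) + η * (1 + s))
        ((hd (x, y)).sub_const _) (by fun_prop) (fun z' => by
          have := hmax (z', p)
          simp only at this ⊢
          linarith)
      have hg1 : d1 (fun z => ω s z - ω s (0, p)) (x, y) = d1 (ω s) (x, y) := by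
        unfold d1; rw [fderiv_sub_const]
      have hg2 : d2 (fun z => ω s z - ω s (0, p)) (x, y) = d2 (ω s) (x, y) := by
        unfold d2; rw [fderiv_sub_const]
      have hΦ1 : d1 (fun z : ℝ × ℝ => k ^ 2 * (z.1 ^ 2 + (z.2 - p) ^ 2) + η * (1 + s)) (x, y)
          = k ^ 2 * (2 * x) := by
        refine d1_of_line (by fun_prop) ?_
        have h1 := (((hasDerivAt_pow 2 x).add_const ((y - p) ^ 2)).const_mul (k ^ 2)).add_const
          (η * (1 + s))
        refine h1.congr_deriv ?_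
        simp
      have hΦ2 : d2 (fun z : ℝ × ℝ => k ^ 2 * (z.1 ^ 2 + (z.2 - p) ^ 2) + η * (1 + s)) (x, y)
          = k ^ 2 * (2 * (y - p)) := by
        refine d2_of_line (by fun_prop) ?_
        have h1 := (((((hasDerivAt_id y).sub_const p).pow 2).const_add (x ^ 2)).const_mul
          (k ^ 2)).add_const (η * (1 + s))
        refine h1.congr_deriv ?_
        simp
      rw [hg1, hg2, hΦ1, hΦ2] at hm1
      obtain ⟨m1, m2⟩ := hm1
      -- condition in p
      have hm3 : -(2 * (ω s (x, y) - ω s (0, p)) * d2 (ω s) (0, p)) + k ^ 2 * (2 * (y - p)) = 0 := by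
        have hderiv : HasDerivAt (fun p : ℝ => (ω s (x, y) - ω s (0, p)) ^ 2
            - (k ^ 2 * (x ^ 2 + (y - p) ^ 2) + η * (1 + s)))
            (-(2 * (ω s (x, y) - ω s (0, p)) * d2 (ω s) (0, p)) + k ^ 2 * (2 * (y - p))) p := by
          have h1 := ((line2_hasDerivAt (x := 0) (y := p) (hd (0, p))).const_sub
            (ω s (x, y))).pow 2
          have h2 := (((((hasDerivAt_id p).const_sub y).pow 2).const_add (x ^ 2)).const_mul
            (k ^ 2)).add_const (η * (1 + s))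
          refine (h1.sub h2).congr_deriv ?_
          simp only [Nat.cast_ofNat, Nat.add_one_sub_one, pow_one, id]
          ring
        have hloc : IsLocalMax (fun p : ℝ => (ω s (x, y) - ω s (0, p)) ^ 2
            - (k ^ 2 * (x ^ 2 + (y - p) ^ 2) + η * (1 + s))) p := by
          refine Filter.Eventually.of_forall fun p' => ?_
          have := hmax ((x, y), p')
          simp only at this ⊢
          linarith
        exact hloc.hasDerivAt_eq_zero hderiv
      -- time derivative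
      have e1 := h.sol.pde hs (x, y)
      have e2 := h.sol.pde hs (0, p)
      have hk' : HasDerivAt (fun s : ℝ => 10 * Λ * (s + s ^ 2 / 2)) (10 * Λ * (1 + s)) s := by
        have := ((hasDerivAt_id s).add ((hasDerivAt_pow 2 s).div_const 2)).const_mul (10 * Λ)
        refine this.congr_deriv ?_
        simp
      have e3 := (((hk'.exp.const_mul κ).pow 2).mul_const (x ^ 2 + (y - p) ^ 2)).add
        (((hasDerivAt_id s).const_add 1).const_mul η)
      refine ⟨_, ?_, ((e1.sub e2).pow 2).sub e3⟩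
      have hvd := h.vel_diff hΛ hs.le (hB s hs.le) x y p
      have hv1 : (vel (ω s) (0, p)).1 = 0 := by
        rw [(vel_odd (h.sol.cont_slice hs.le) (h.odd s hs.le) (0, p)).1]; simp
      simp only [Nat.cast_ofNat, Nat.add_one_sub_one, pow_one, mul_one, Pi.sub_apply]
      rw [hv1]
      have hvd' := (abs_le.1 hvd).1
      set V1 := (vel (ω s) (x, y)).1
      set V2 := (vel (ω s) (x, y)).2
      set V3 := (vel (ω s) (0, p)).2
      set Δ := ω s (x, y) - ω s (0, p)
      have hk2 : κ * exp (10 * Λ * (s + s ^ 2 / 2)) = k := rfl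
      have e4 : 2 * Δ * (-(V1 * d1 (ω s) (x, y) + V2 * d2 (ω s) (x, y))
            - -(0 * d1 (ω s) (0, p) + V3 * d2 (ω s) (0, p)))
          = -(k ^ 2 * 2) * (x * V1 + (y - p) * (V2 - V3)) := by
        have : 2 * Δ * (-(V1 * d1 (ω s) (x, y) + V2 * d2 (ω s) (x, y))
            - -(0 * d1 (ω s) (0, p) + V3 * d2 (ω s) (0, p)))
            = -(V1 * (2 * Δ * d1 (ω s) (x, y))) - V2 * (2 * Δ * d2 (ω s) (x, y))
              + V3 * (2 * Δ * d2 (ω s) (0, p)) := by ring
        rw [this, m1, m2]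
        have hm3' : 2 * Δ * d2 (ω s) (0, p) = k ^ 2 * (2 * (y - p)) := by linarith
        rw [hm3']
        ring
      rw [e4]
      have e5 : 2 * (κ * exp (10 * Λ * (s + s ^ 2 / 2)))
            * (κ * (exp (10 * Λ * (s + s ^ 2 / 2)) * (10 * Λ * (1 + s))))
              * (x ^ 2 + (y - p) ^ 2) + η
          = (k ^ 2 * 2) * (10 * Λ * (1 + s) * (x ^ 2 + (y - p) ^ 2)) + η := by
        rw [hk]; ring
      rw [e5]
      have hk3 : 0 ≤ k ^ 2 * 2 := by positivity
      have h9 := mul_le_mul_of_nonneg_left hvd' hk3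
      linarith)
  have h1 := key t ⟨ht, le_rfl⟩ (z, p)
  have e : η * (1 + t) = ε := by rw [hη]; field_simp
  simp only at h1
  rw [e] at h1
  linarith

end OddSol

end Run7.h65
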