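import Pool.Agent.Run7.h65.Axis

open Set Real MeasureTheory Filter Topology

namespace Run7.h65

theorem IsSmoothSolution.lip_slice {ω : ℝ → ℝ × ℝ → ℝ} (h : IsSmoothSolution ω) {t : ℝ}
    (ht : 0 ≤ t) : ∃ C, 0 ≤ C ∧ ∀ z z', |ω t z - ω t z'| ≤ C * ‖z - z'‖ := by
  have hf : Continuous (fderiv ℝ (ω t)) := (h.contDiff_slice ht).continuous_fderiv (by simp)
  obtain ⟨C, hC⟩ := (HasCompactSupport.fderiv ℝ (h.compact t ht)).exists_bound_of_continuous hf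
  refine ⟨C, (norm_nonneg _).trans (hC 0), fun z z' => ?_⟩
  exact (convex_univ (𝕜 := ℝ) (E := ℝ × ℝ)).norm_image_sub_le_of_norm_fderiv_le
      (f := ω t) (C := C) (x := z') (y := z) (fun x _ => h.diff_slice ht x)
      (fun x _ => hC x) (mem_univ _) (mem_univ _)

theorem fderiv_le_of_lip_at {g : ℝ × ℝ → ℝ} {p : ℝ × ℝ} (hg : DifferentiableAt ℝ g p) {C : ℝ}
    (hC : 0 ≤ C) (hlip : ∀ z : ℝ × ℝ, |g z - g p| ≤ C * √((z.1 - p.1) ^ 2 + (z.2 - p.2) ^ 2)) :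
    ‖fderiv ℝ g p‖ ≤ 2 * C := by
  refine hg.hasFDerivAt.le_of_lip' (by positivity) (Filter.Eventually.of_forall fun z => ?_)
  rw [Real.norm_eq_abs]
  refine (hlip z).trans ?_
  have h1 : |z.1 - p.1| ≤ ‖z - p‖ := norm_fst_le (z - p)
  have h2 : |z.2 - p.2| ≤ ‖z - p‖ := norm_snd_le (z - p)
  have h3 : √((z.1 - p.1) ^ 2 + (z.2 - p.2) ^ 2) ≤ 2 * ‖z - p‖ := by
    have h4 := rad_le (z - p)
    unfold rad at h4
    simp only [Prod.fst_sub, Prod.snd_sub] at h4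
    linarith
  calc C * √((z.1 - p.1) ^ 2 + (z.2 - p.2) ^ 2) ≤ C * (2 * ‖z - p‖) :=
        mul_le_mul_of_nonneg_left h3 hC
    _ = 2 * C * ‖z - p‖ := by ring

theorem axis_growth {ω : ℝ → ℝ × ℝ → ℝ} (h : IsSmoothSolution ω)
    (hodd : ∀ x y : ℝ, ω 0 (x, -y) = -ω 0 (x, y)) :
    ∃ C : ℝ, 0 < C ∧ ∀ t, 0 ≤ t → ∀ p : ℝ × ℝ, (p.1 = 0 ∨ p.2 = 0) →
      ‖fderiv ℝ (ω t) p‖ ≤ C * exp (C * t ^ 2) ∧
      ∀ z : ℝ × ℝ, |ω t z - ω t p|
        ≤ C * exp (C * t ^ 2) * √((z.1 - p.1) ^ 2 + (z.2 - p.2) ^ 2) := by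
  have ho : OddSol ω := h.oddSol (fun z => hodd z.1 z.2)
  obtain ⟨S, hS1, hS⟩ := h.exists_sup
  obtain ⟨L, hL0, hL⟩ := h.lip_slice le_rfl
  obtain ⟨Λ, hΛ, hB⟩ := ho.exists_BB_bound
  set κ := S + L with hκ
  have hκ0 : 0 < κ := by positivity
  have hSκ : S ≤ κ := by linarith
  have hLκ : L ≤ κ := by linarith
  have hx0 : ∀ z : ℝ × ℝ, |ω 0 z| ≤ κ * |z.2| := by
    intro z
    have h1 := hL z (z.1, 0)
    rw [ho.zero_x_axis le_rfl, sub_zero] at h1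
    have h2 : ‖z - (z.1, 0)‖ = |z.2| := by
      rw [Prod.norm_def]; simp
    rw [h2] at h1
    exact h1.trans (mul_le_mul_of_nonneg_right hLκ (abs_nonneg _))
  have hy0 : ∀ (z : ℝ × ℝ) (p : ℝ), |ω 0 z - ω 0 (0, p)| ≤ κ * √(z.1 ^ 2 + (z.2 - p) ^ 2) := by
    intro z p
    have h1 := hL z (0, p)
    have h2 : ‖z - (0, p)‖ ≤ √(z.1 ^ 2 + (z.2 - p) ^ 2) := by
      have := norm_le_rad (z - (0, p))
      simpa [rad] using this
    exact h1.trans (mul_le_mul hLκ h2 (norm_nonneg _) hκ0.le)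
  have hX := fun (t : ℝ) (ht : 0 ≤ t) => ho.x_axis_bound hΛ hB hκ0.le hx0 ht
  have hY := fun (t : ℝ) (ht : 0 ≤ t) => ho.y_axis_bound hΛ hB hκ0
    (fun t ht z => (hS t ht z).trans hSκ) hy0 ht
  set D := κ * exp (10 * Λ) + 10 * Λ with hD
  have hD0 : 0 < D := by positivity
  have hexp : ∀ t : ℝ, 0 ≤ t → κ * exp (10 * Λ * (t + t ^ 2 / 2)) ≤ D * exp (D * t ^ 2) := by
    intro t _
    have e1 : 10 * Λ * (t + t ^ 2 / 2) ≤ 10 * Λ + 10 * Λ * t ^ 2 := by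
      nlinarith [sq_nonneg (t - 1), sq_nonneg t]
    calc κ * exp (10 * Λ * (t + t ^ 2 / 2)) ≤ κ * exp (10 * Λ + 10 * Λ * t ^ 2) := by gcongr
      _ = (κ * exp (10 * Λ)) * exp (10 * Λ * t ^ 2) := by rw [exp_add]; ring
      _ ≤ D * exp (D * t ^ 2) := by
          gcongr
          · rw [hD]; linarith [(by positivity : 0 < 10 * Λ)]
          · rw [hD]; linarith [(by positivity : 0 < κ * exp (10 * Λ))]
  have main : ∀ t, 0 ≤ t → ∀ p : ℝ × ℝ, (p.1 = 0 ∨ p.2 = 0) → ∀ z : ℝ × ℝ,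
      |ω t z - ω t p| ≤ D * exp (D * t ^ 2) * √((z.1 - p.1) ^ 2 + (z.2 - p.2) ^ 2) := by
    rintro t ht ⟨p1, p2⟩ hp z
    have hk := hexp t ht
    have hsq : 0 ≤ √((z.1 - p1) ^ 2 + (z.2 - p2) ^ 2) := sqrt_nonneg _
    rcases hp with hp | hp
    · simp only at hp
      subst hp
      have := hY t ht z p2
      simp only [sub_zero] at hsq ⊢
      exact this.trans (mul_le_mul_of_nonneg_right hk hsq)
    · simp only at hp
      subst hp
      rw [ho.zero_x_axis ht, sub_zero]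
      have h1 := hX t ht z
      have h2 : |z.2| ≤ √((z.1 - p1) ^ 2 + (z.2 - 0) ^ 2) := by
        apply abs_le_sqrt
        simp only [sub_zero]
        nlinarith [sq_nonneg (z.1 - p1)]
      exact h1.trans (mul_le_mul hk h2 (abs_nonneg _) (by positivity))
  refine ⟨2 * D, by positivity, fun t ht p hp => ⟨?_, fun z => ?_⟩⟩
  · have h1 := fderiv_le_of_lip_at (h.diff_slice ht p) (by positivity) (main t ht p hp)
    refine h1.trans ?_
    rw [← mul_assoc]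
    gcongr
    linarith
  · refine (main t ht p hp z).trans ?_
    gcongr
    · linarith
    · linarith

end Run7.h65
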