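import Pool.Agent.Run7.h65.Touch

open Set Real MeasureTheory Filter Topology

namespace Run7.h65

theorem d_of_max {g : ℝ × ℝ → ℝ} {z : ℝ × ℝ} (hmax : ∀ y, g y ≤ g z) :
    fderiv ℝ g z = 0 := by
  have : IsLocalMax g z := Filter.Eventually.of_forall hmax
  exact this.fderiv_eq_zero

theorem max_deriv {g Φ : ℝ × ℝ → ℝ} {z : ℝ × ℝ} (hg : DifferentiableAt ℝ g z)
    (hΦ : DifferentiableAt ℝ Φ z) (hmax : ∀ y, g y ^ 2 - Φ y ≤ g z ^ 2 - Φ z) :
    2 * g z * d1 g z = d1 Φ z ∧ 2 * g z * d2 g z = d2 Φ z := by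
  have h0 := d_of_max (g := fun y => g y ^ 2 - Φ y) hmax
  have h1 : HasFDerivAt (fun y => g y ^ 2 - Φ y)
      ((2 * g z) • fderiv ℝ g z - fderiv ℝ Φ z) z := by
    have := (hg.hasFDerivAt.pow 2).sub hΦ.hasFDerivAt
    refine this.congr_fderiv ?_
    simp
  rw [h1.fderiv] at h0
  constructor
  · have := congrArg (fun (l : ℝ × ℝ →L[ℝ] ℝ) => l (1, 0)) h0
    simp only [sub_apply, smul_apply, smul_eq_mul,
      zero_apply] at this
    unfold d1
    linarith
  · have := congrArg (fun (l : ℝ × ℝ →L[ℝ] ℝ) => l (0, 1)) h0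
    simp only [sub_apply, smul_apply, smul_eq_mul,
      zero_apply] at this
    unfold d2
    linarith

/-- comparison principle for the square of a transported function with a source -/
theorem sq_barrier {w : ℝ → ℝ × ℝ → ℝ} (u : ℝ → ℝ × ℝ → ℝ × ℝ) (s : ℝ → ℝ × ℝ → ℝ) {T : ℝ}
    (hwc : ContinuousOn (fun p : ℝ × (ℝ × ℝ) => w p.1 p.2) (Icc 0 T ×ˢ univ))
    (hwd : ∀ t, 0 < t → t ≤ T → Differentiable ℝ (w t))
    (hpde : ∀ t, 0 < t → t ≤ T → ∀ z, HasDerivAt (fun τ => w τ z)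
      (-((u t z).1 * d1 (w t) z + (u t z).2 * d2 (w t) z) + s t z) t)
    (Φ : ℝ → ℝ × ℝ → ℝ) (hΦc : Continuous (fun p : ℝ × (ℝ × ℝ) => Φ p.1 p.2))
    (hΦd : ∀ t, Differentiable ℝ (Φ t))
    (Φt : ℝ → ℝ × ℝ → ℝ) (hΦt : ∀ t z, HasDerivAt (fun τ => Φ τ z) (Φt t z) t)
    (R : ℝ) (hout : ∀ t ∈ Icc 0 T, ∀ z, z ∉ box R → (w t z) ^ 2 < Φ t z)
    (h0 : ∀ z, (w 0 z) ^ 2 < Φ 0 z)
    (hder : ∀ t, 0 < t → t ≤ T → ∀ z, (w t z) ^ 2 = Φ t z →
      (∀ y, (w t y) ^ 2 ≤ Φ t y) →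
      0 < Φt t z + ((u t z).1 * d1 (Φ t) z + (u t z).2 * d2 (Φ t) z) - 2 * w t z * s t z) :
    ∀ t ∈ Icc 0 T, ∀ z, (w t z) ^ 2 < Φ t z := by
  have key := touch (X := ℝ × ℝ) (fun t z => (w t z) ^ 2 - Φ t z) (T := T) (box R)
    (isCompact_box R) ((hwc.pow 2).sub hΦc.continuousOn)
    (fun t ht z hz => by have := hout t ht z hz; linarith)
    (fun z => by have := h0 z; linarith)
    (fun t ht htT z _ hz hmax => by
      have hmax' : ∀ y, (w t y) ^ 2 - Φ t y ≤ (w t z) ^ 2 - Φ t z := fun y => by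
        rw [hz]; exact hmax y
      obtain ⟨m1, m2⟩ := max_deriv (hwd t ht htT z) (hΦd t z) hmax'
      refine ⟨_, ?_, ((hpde t ht htT z).pow 2).sub (hΦt t z)⟩
      have hd := hder t ht htT z (by linarith) (fun y => by have := hmax y; linarith)
      rw [← m1, ← m2] at hd
      simp only [Nat.cast_ofNat, Nat.add_one_sub_one, pow_one]
      nlinarith)
  intro t ht z
  have := key t ht z
  linarith

theorem d1_const_fun (c : ℝ) (z : ℝ × ℝ) : d1 (fun _ => c) z = 0 := by simp [d1]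
theorem d2_const_fun (c : ℝ) (z : ℝ × ℝ) : d2 (fun _ => c) z = 0 := by simp [d2]

namespace IsSmoothSolution

variable {ω : ℝ → ℝ × ℝ → ℝ} (h : IsSmoothSolution ω)

include h

theorem cont_Icc (T : ℝ) : ContinuousOn (fun p : ℝ × (ℝ × ℝ) => ω p.1 p.2) (Icc 0 T ×ˢ univ) :=
  h.cont.mono (prod_mono_left fun _ hx => hx.1)

theorem exists_sup : ∃ S, 1 ≤ S ∧ ∀ t, 0 ≤ t → ∀ z, |ω t z| ≤ S := by
  obtain ⟨R, hR1, hR⟩ := h.exists_supp_all
  obtain ⟨L, hL0, hL⟩ := h.exists_bound (a := 0) (b := 0) le_rfl (by linarith : 0 < R)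
    (fun t ht => hR t ht.1)
  refine ⟨max L 1, le_max_right _ _, fun t ht z => ?_⟩
  set S := max L 1 with hS
  have hS0 : 0 < S := lt_of_lt_of_le one_pos (le_max_right _ _)
  refine abs_le_of_sq_le_sq ?_ hS0.le
  refine le_of_forall_pos_le_add fun ε hε => ?_
  have key := sq_barrier (fun t => vel (ω t)) (fun _ _ => 0) (T := t) (h.cont_Icc t)
    (fun s hs _ => h.diff_slice hs.le) (fun s hs _ z => by simpa using h.pde hs z)
    (fun s _ => S ^ 2 + ε / (1 + t) * (1 + s)) (by fun_prop) (fun s => by fun_prop)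
    (fun _ _ => ε / (1 + t)) (fun s z => by
      have := ((hasDerivAt_id s).const_add 1).const_mul (ε / (1 + t))
      simpa using this.const_add (S ^ 2)) R
    (fun s hs z hz => by
      rw [hR s hs.1 z (not_mem_box (by linarith) hz)]
      have : 0 ≤ ε / (1 + t) * (1 + s) := by have := hs.1; positivity
      simp only [ne_eq, OfNat.ofNat_ne_zero, not_false_eq_true, zero_pow]
      positivity)
    (fun z => by
      have h1 := (hL 0 ⟨le_rfl, le_rfl⟩ z).1
      have h2 : |ω 0 z| ≤ S := h1.trans (le_max_left _ _)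
      have h3 : ω 0 z ^ 2 ≤ S ^ 2 := by rw [← sq_abs]; gcongr
      have : 0 < ε / (1 + t) * (1 + 0) := by positivity
      linarith)
    (fun s hs hst z _ _ => by
      simp only [d1_const_fun, d2_const_fun]
      have : 0 < ε / (1 + t) := by positivity
      linarith)
  have h1 := key t ⟨ht, le_rfl⟩ z
  have e : ε / (1 + t) * (1 + t) = ε := by field_simp
  rw [e] at h1
  exact h1.le

end IsSmoothSolution

end Run7.h65
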