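import Pool.Agent.Run7.h65.Sol2

open Set Real MeasureTheory Filter Topology

namespace Run7.h65

/-- An abstract Baire argument. -/
theorem baire_confine (F : ℕ → Set ℝ) (hclosed : ∀ n, IsClosed (F n)) (hmono : Monotone F)
    (hcover : ∀ t, 0 ≤ t → ∃ n, t ∈ F n)
    (H : ∀ n m a b c, 0 ≤ a → a ≤ c → c ≤ b → Icc a b ⊆ F m → c ∈ F n → Icc a b ⊆ F n) :
    ∀ n, (0 : ℝ) ∈ F n → Ici 0 ⊆ F n := by
  set V : Set ℝ := {t | ∃ n : ℕ, ∃ ε : ℝ, 0 < ε ∧ ∀ s, 0 ≤ s → |s - t| < ε → s ∈ F n} with hV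
  have hVopen : IsOpen V := by
    rw [Metric.isOpen_iff]
    rintro t ⟨n, ε, hε, hn⟩
    refine ⟨ε / 2, by positivity, fun t' ht' => ⟨n, ε / 2, by positivity, fun s hs hst => ?_⟩⟩
    refine hn s hs ?_
    rw [Metric.mem_ball, Real.dist_eq] at ht'
    have := abs_sub_le s t' t
    linarith
  have hcpt : ∀ a b : ℝ, 0 ≤ a → Icc a b ⊆ V → ∃ m, Icc a b ⊆ F m := by
    intro a b ha hab
    have : ∃ m, Icc a b ∩ Ici 0 ⊆ F m := by
      refine (isCompact_Icc (a := a) (b := b)).induction_on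
        (p := fun K => ∃ m, K ∩ Ici 0 ⊆ F m) ⟨0, by simp⟩ ?_ ?_ ?_
      · rintro s t hst ⟨m, hm⟩
        exact ⟨m, (inter_subset_inter_left _ hst).trans hm⟩
      · rintro s t ⟨m, hm⟩ ⟨m', hm'⟩
        refine ⟨max m m', ?_⟩
        rintro x ⟨hx | hx, hx0⟩
        · exact hmono (le_max_left _ _) (hm ⟨hx, hx0⟩)
        · exact hmono (le_max_right _ _) (hm' ⟨hx, hx0⟩)
      · intro x hx
        obtain ⟨n, ε, hε, hn⟩ := hab hx
        refine ⟨Metric.ball x ε, mem_nhdsWithin_of_mem_nhds (Metric.ball_mem_nhds x hε), n, ?_⟩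
        rintro y ⟨hy, hy0⟩
        rw [Metric.mem_ball, Real.dist_eq] at hy
        exact hn y hy0 hy
    obtain ⟨m, hm⟩ := this
    exact ⟨m, fun x hx => hm ⟨hx, ha.trans hx.1⟩⟩
  set E : Set ℝ := Ici 0 ∩ Vᶜ with hE
  have hEclosed : IsClosed E := isClosed_Ici.inter hVopen.isClosed_compl
  have hEempty : E = ∅ := by
    by_contra hne
    have hne' : E.Nonempty := nonempty_iff_ne_empty.2 hne
    have : Nonempty E := hne'.to_subtype
    have : CompleteSpace E := hEclosed.isComplete.completeSpace_coe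
    obtain ⟨n, x0, hx0⟩ := nonempty_interior_of_iUnion_of_closed
      (X := E) (f := fun n : ℕ => (Subtype.val ⁻¹' F n : Set E))
      (fun n => (hclosed n).preimage continuous_subtype_val) (by
        rw [eq_univ_iff_forall]
        intro x
        obtain ⟨n, hn⟩ := hcover x.1 x.2.1
        exact mem_iUnion.2 ⟨n, hn⟩)
    rw [mem_interior_iff_mem_nhds, Metric.mem_nhds_iff] at hx0
    obtain ⟨ε, hε, hball⟩ := hx0
    have hF : ∀ s, s ∈ E → |s - x0| < ε → s ∈ F n := by
      intro s hs hsx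
      have : (⟨s, hs⟩ : E) ∈ Metric.ball x0 ε := by
        rw [Metric.mem_ball, Subtype.dist_eq, Real.dist_eq]; exact hsx
      exact hball this
    apply x0.2.2
    refine ⟨n, ε, hε, fun s hs hsx => ?_⟩
    by_cases hsE : s ∈ E
    · exact hF s hsE hsx
    obtain ⟨k, hk⟩ := hcover s hs
    rcases lt_or_ge (x0 : ℝ) s with hlt | hge
    · have hcE : IsCompact (E ∩ Icc (x0 : ℝ) s) := (isCompact_Icc).inter_left hEclosed
      have hnE : (E ∩ Icc (x0 : ℝ) s).Nonempty := ⟨x0, x0.2, le_rfl, hlt.le⟩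
      have he := hcE.sSup_mem hnE
      set e := sSup (E ∩ Icc (x0 : ℝ) s) with hedef
      have hes : e < s := lt_of_le_of_ne he.2.2 (fun hh => hsE (hh ▸ he.1))
      have he0 : 0 ≤ e := he.1.1
      have h1 : ∀ e', e < e' → e' ≤ s → Icc e' s ⊆ F k := by
        intro e' he' he's
        have hsub : Icc e' s ⊆ V := by
          intro τ hτ
          by_contra hτV
          have hτE : τ ∈ E ∩ Icc (x0 : ℝ) s :=
            ⟨⟨he0.trans (he'.le.trans hτ.1), hτV⟩, he.2.1.trans (he'.le.trans hτ.1), hτ.2⟩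
          have := le_csSup hcE.bddAbove hτE
          linarith [hτ.1]
        obtain ⟨m, hm⟩ := hcpt e' s (he0.trans he'.le) hsub
        exact H k m e' s s (he0.trans he'.le) he's le_rfl hm hk
      have h2 : Ioc e s ⊆ F k := fun τ hτ => h1 τ hτ.1 hτ.2 ⟨le_rfl, hτ.2⟩
      have h3 : Icc e s ⊆ F k := by
        rw [← closure_Ioc hes.ne]
        exact closure_minimal h2 (hclosed k)
      have h4 : e ∈ F n := hF e he.1 (by
        rw [abs_of_nonneg (sub_nonneg.2 he.2.1)]
        rw [abs_of_pos (sub_pos.2 hlt)] at hsx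
        linarith)
      exact H n k e s e he0 le_rfl hes.le h3 h4 ⟨hes.le, le_rfl⟩
    · have hlt : s < (x0 : ℝ) := lt_of_le_of_ne hge (fun hh => hsE (hh ▸ x0.2))
      have hcE : IsCompact (E ∩ Icc s (x0 : ℝ)) := (isCompact_Icc).inter_left hEclosed
      have hnE : (E ∩ Icc s (x0 : ℝ)).Nonempty := ⟨x0, x0.2, hlt.le, le_rfl⟩
      have he := hcE.sInf_mem hnE
      set e := sInf (E ∩ Icc s (x0 : ℝ)) with hedef
      have hes : s < e := lt_of_le_of_ne he.2.1 (fun hh => hsE (hh ▸ he.1))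
      have he0 : 0 ≤ e := he.1.1
      have h1 : ∀ e', s ≤ e' → e' < e → Icc s e' ⊆ F k := by
        intro e' he' he's
        have hsub : Icc s e' ⊆ V := by
          intro τ hτ
          by_contra hτV
          have hτE : τ ∈ E ∩ Icc s (x0 : ℝ) :=
            ⟨⟨hs.trans hτ.1, hτV⟩, hτ.1, hτ.2.trans (he's.le.trans he.2.2)⟩
          have := csInf_le hcE.bddBelow hτE
          linarith [hτ.2]
        obtain ⟨m, hm⟩ := hcpt s e' hs hsub
        exact H k m s e' s hs le_rfl he' hm hk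
      have h2 : Ico s e ⊆ F k := fun τ hτ => h1 τ hτ.1 hτ.2 ⟨hτ.1, le_rfl⟩
      have h3 : Icc s e ⊆ F k := by
        rw [← closure_Ico hes.ne]
        exact closure_minimal h2 (hclosed k)
      have h4 : e ∈ F n := hF e he.1 (by
        rw [abs_of_nonpos (sub_nonpos.2 he.2.2)]
        rw [abs_of_neg (sub_neg.2 hlt)] at hsx
        linarith)
      exact H n k s e e hs hes.le le_rfl h3 h4 ⟨le_rfl, hes.le⟩
  have hall : ∀ t, 0 ≤ t → t ∈ V := by
    intro t ht
    by_contra hc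
    have : t ∈ E := ⟨ht, hc⟩
    rw [hEempty] at this
    exact this
  intro n hn t ht
  obtain ⟨m, hm⟩ := hcpt 0 t le_rfl (fun s hs => hall s hs.1)
  exact H n m 0 t 0 le_rfl le_rfl ht hm hn ⟨ht, le_rfl⟩

theorem mvt {g g' : ℝ → ℝ} {x y C : ℝ} (hc : ContinuousOn g (uIcc x y))
    (hd : ∀ s ∈ Ioo (min x y) (max x y), HasDerivAt g (g' s) s)
    (hb : ∀ s ∈ Ioo (min x y) (max x y), |g' s| ≤ C) : |g y - g x| ≤ C * |y - x| := by
  have key : ∀ a b : ℝ, a < b → ContinuousOn g (Icc a b) →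
      (∀ s ∈ Ioo a b, HasDerivAt g (g' s) s) → (∀ s ∈ Ioo a b, |g' s| ≤ C) →
      |g b - g a| ≤ C * |b - a| := by
    intro a b hab hc hd hb
    obtain ⟨c, hc1, hc2⟩ := exists_hasDerivAt_eq_slope g g' hab hc hd
    have h1 := hb c hc1
    have h2 : 0 < b - a := sub_pos.2 hab
    have : g b - g a = g' c * (b - a) := by
      rw [hc2]; field_simp
    rw [this, abs_mul]
    exact mul_le_mul_of_nonneg_right h1 (abs_nonneg _)
  rcases lt_trichotomy x y with hxy | hxy | hxy
  · rw [uIcc_of_le hxy.le] at hc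
    rw [min_eq_left hxy.le, max_eq_right hxy.le] at hd hb
    exact key x y hxy hc hd hb
  · subst hxy; simp
  · rw [uIcc_of_ge hxy.le] at hc
    rw [min_eq_right hxy.le, max_eq_left hxy.le] at hd hb
    have := key y x hxy hc hd hb
    rw [abs_sub_comm, abs_sub_comm y x]
    exact this

namespace IsSmoothSolution

variable {ω : ℝ → ℝ × ℝ → ℝ} (h : IsSmoothSolution ω)

include h

theorem exists_bound {a b m : ℝ} (ha : 0 ≤ a) (hm : 0 < m)
    (hs : ∀ t ∈ Icc a b, SuppIn (ω t) m) :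
    ∃ L, 0 ≤ L ∧ ∀ t ∈ Icc a b, ∀ z, |ω t z| ≤ L ∧ |d1 (ω t) z| ≤ L ∧ |d2 (ω t) z| ≤ L := by
  have hK : IsCompact (Icc a b ×ˢ box m) := isCompact_Icc.prod (isCompact_box m)
  have hsub : Icc a b ×ˢ box m ⊆ (Ici 0) ×ˢ univ := fun p hp => ⟨ha.trans hp.1.1, mem_univ _⟩
  obtain ⟨L0, hL0⟩ := hK.exists_bound_of_continuousOn (h.cont.mono hsub)
  obtain ⟨L1, hL1⟩ := hK.exists_bound_of_continuousOn (h.d1_cont.mono hsub)
  obtain ⟨L2, hL2⟩ := hK.exists_bound_of_continuousOn (h.d2_cont.mono hsub)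
  refine ⟨max (max L0 L1) (max L2 0), le_max_of_le_right (le_max_right _ _), ?_⟩
  intro t ht z
  by_cases hz : z ∈ box m
  · refine ⟨?_, ?_, ?_⟩
    · exact (hL0 (t, z) ⟨ht, hz⟩).trans (le_max_of_le_left (le_max_left _ _))
    · exact (hL1 (t, z) ⟨ht, hz⟩).trans (le_max_of_le_left (le_max_right _ _))
    · exact (hL2 (t, z) ⟨ht, hz⟩).trans (le_max_of_le_right (le_max_left _ _))
  · have hz' := not_mem_box hm.le hz
    have e := d_of_large (hs t ht) hz'
    refine ⟨?_, ?_, ?_⟩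
    · rw [hs t ht z hz', abs_zero]; exact le_max_of_le_right (le_max_right _ _)
    · rw [d1, e]; simp
    · rw [d2, e]; simp

/-- local confinement step -/
theorem confine_local {a b m n : ℝ} (ha : 0 ≤ a) (hm : 0 < m) (hn : 0 ≤ n)
    (hs : ∀ t ∈ Icc a b, SuppIn (ω t) m) :
    ∃ δ, 0 < δ ∧ ∀ c ∈ Icc a b, SuppIn (ω c) n → ∀ t ∈ Icc a b, |t - c| ≤ δ →
      SuppIn (ω t) n := by
  obtain ⟨L, hL0, hL⟩ := h.exists_bound ha hm hs
  set K := 40 * m * L with hK
  have hK0 : 0 ≤ K := by positivity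
  refine ⟨1 / (2 * (K + 1)), by positivity, fun c hc hcn t ht htc z hz => ?_⟩
  set δ := 1 / (2 * (K + 1)) with hδ
  have hδ0 : 0 < δ := by positivity
  have hKδ : K * δ ≤ 1 / 2 := by
    rw [hδ, mul_one_div, div_le_div_iff₀ (by positivity) (by norm_num)]
    linarith
  have Q : ∀ j : ℕ, ∀ t ∈ Icc a b, |t - c| ≤ δ → ∀ z : ℝ × ℝ, n ^ 2 < z.1 ^ 2 + z.2 ^ 2 →
      |ω t z| ≤ L / 2 ^ j := by
    intro j
    induction j with
    | zero => intro t ht _ z _; simpa using (hL t ht z).1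
    | succ j ih =>
      intro t ht htc z hz
      have hmv := mvt (g := fun τ => ω τ z) (x := c) (y := t) (C := K * (L / 2 ^ j))
        (g' := fun t => -((vel (ω t) z).1 * d1 (ω t) z + (vel (ω t) z).2 * d2 (ω t) z)) ?_ ?_ ?_
      · have hz0 : ω c z = 0 := hcn z hz
        simp only [hz0, sub_zero] at hmv
        calc |ω t z| ≤ K * (L / 2 ^ j) * |t - c| := hmv
          _ ≤ K * (L / 2 ^ j) * δ := mul_le_mul_of_nonneg_left htc (by positivity)
          _ = (K * δ) * (L / 2 ^ j) := by ring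
          _ ≤ 1 / 2 * (L / 2 ^ j) := mul_le_mul_of_nonneg_right hKδ (by positivity)
          _ = L / 2 ^ (j + 1) := by rw [pow_succ]; field_simp
      · have hsub : uIcc c t ⊆ Ici 0 := by
          intro s hs'
          have : s ∈ Icc a b := (uIcc_subset_Icc hc ht) hs'
          exact ha.trans this.1
        exact h.cont.comp (f := fun s : ℝ => ((s, z) : ℝ × (ℝ × ℝ))) (by fun_prop)
          (fun s hs' => mem_S (hsub hs') z)
      · intro s hs'
        have hs0 : 0 < s := lt_of_le_of_lt (ha.trans (le_min hc.1 ht.1)) hs'.1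
        exact h.pde hs0 z
      · intro s hs'
        have hs0 : 0 < s := lt_of_le_of_lt (ha.trans (le_min hc.1 ht.1)) hs'.1
        have hsI : s ∈ Icc a b := ⟨(le_min hc.1 ht.1).trans hs'.1.le,
          hs'.2.le.trans (max_le hc.2 ht.2)⟩
        have hsc : |s - c| ≤ δ := by
          refine le_trans ?_ htc
          have h1 := hs'.1
          have h2 := hs'.2
          rcases le_total c t with hct | hct
          · rw [min_eq_left hct] at h1
            rw [max_eq_right hct] at h2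
            rw [abs_of_nonneg (by linarith), abs_of_nonneg (by linarith)]; linarith
          · rw [min_eq_right hct] at h1
            rw [max_eq_left hct] at h2
            rw [abs_of_nonpos (by linarith), abs_of_nonpos (by linarith)]; linarith
        obtain ⟨v1, v2⟩ := vel_bound (h.cont_slice hs0.le) hm (hs s hsI) hn
          (A := L / 2 ^ j) (by positivity) (ih s hsI hsc) hz
        obtain ⟨-, l1, l2⟩ := hL s hsI z
        rw [abs_neg]
        have e := abs_add_le ((vel (ω s) z).1 * d1 (ω s) z) ((vel (ω s) z).2 * d2 (ω s) z)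
        rw [abs_mul, abs_mul] at e
        have e1 := mul_le_mul v1 l1 (abs_nonneg _) (by positivity)
        have e2 := mul_le_mul v2 l2 (abs_nonneg _) (by positivity)
        calc _ ≤ _ := e
          _ ≤ _ := add_le_add e1 e2
          _ = K * (L / 2 ^ j) := by rw [hK]; ring
  have hlim : Tendsto (fun j : ℕ => L / 2 ^ j) atTop (𝓝 0) := by
    have := (tendsto_pow_atTop_nhds_zero_of_lt_one (r := (1 / 2 : ℝ)) (by norm_num)
      (by norm_num)).const_mul L
    simpa [div_eq_mul_inv] using this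
  have : |ω t z| ≤ 0 := ge_of_tendsto' hlim fun j => Q j t ht htc z hz
  exact abs_nonpos_iff.1 this

theorem confine_interval {a b m n : ℝ} (ha : 0 ≤ a) (hm : 0 < m) (hn : 0 ≤ n)
    (hs : ∀ t ∈ Icc a b, SuppIn (ω t) m) {c : ℝ} (hc : c ∈ Icc a b) (hcn : SuppIn (ω c) n) :
    ∀ t ∈ Icc a b, SuppIn (ω t) n := by
  obtain ⟨δ, hδ, hloc⟩ := h.confine_local ha hm hn hs
  intro t ht
  obtain ⟨N, hN⟩ := exists_nat_gt (|t - c| / δ)
  have hN0 : 0 < (N : ℝ) := lt_of_le_of_lt (by positivity) hN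
  have hstep : |t - c| / N ≤ δ := by
    rw [div_lt_iff₀ hδ] at hN
    rw [div_le_iff₀ hN0]; linarith
  have hmem : ∀ k : ℕ, k ≤ N → c + (k / N : ℝ) * (t - c) ∈ Icc a b := by
    intro k hk
    have hk' : (k / N : ℝ) ≤ 1 := by
      rw [div_le_one hN0]; exact_mod_cast hk
    have hk0 : (0 : ℝ) ≤ k / N := by positivity
    constructor
    · nlinarith [hc.1, ht.1]
    · nlinarith [hc.2, ht.2]
  have : ∀ k : ℕ, k ≤ N → SuppIn (ω (c + (k / N : ℝ) * (t - c))) n := by
    intro k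
    induction k with
    | zero => intro _; simpa using hcn
    | succ k ih =>
      intro hk
      refine hloc _ (hmem k (by omega)) (ih (by omega)) _ (hmem (k + 1) hk) ?_
      have : c + (((k + 1 : ℕ) : ℝ) / N) * (t - c) - (c + (k / N : ℝ) * (t - c)) = (t - c) / N := by
        push_cast; ring
      rw [this, abs_div, abs_of_pos hN0]
      exact hstep
  have h2 := this N le_rfl
  rw [div_self hN0.ne', one_mul] at h2
  simpa using h2

/-- the support stays in a fixed disc for all times -/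
theorem supp_all {n : ℕ} (hn : 0 < n) (h0 : SuppIn (ω 0) n) : ∀ t, 0 ≤ t → SuppIn (ω t) n := by
  have key := baire_confine (fun k : ℕ => {t : ℝ | 0 ≤ t ∧ SuppIn (ω t) ((k : ℝ) + n)}) ?_ ?_ ?_ ?_
    0 ?_
  · intro t ht
    have := (key ht).2
    simpa using this
  · intro k
    have e : {t : ℝ | 0 ≤ t ∧ SuppIn (ω t) ((k : ℝ) + n)}
        = ⋂ z : ℝ × ℝ, ⋂ _ : ((k : ℝ) + n) ^ 2 < z.1 ^ 2 + z.2 ^ 2,
          (Ici 0 ∩ (fun t => ω t z) ⁻¹' {0}) ∪ (Ici 0 ∩ (fun t => ω t z) ⁻¹' {0}) := by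
      ext t
      simp only [union_self, mem_ofPred_eq, mem_iInter, mem_inter_iff, mem_Ici, mem_preimage,
        mem_singleton_iff]
      constructor
      · rintro ⟨a, b⟩ z hz
        exact ⟨a, b z hz⟩
      · intro hh
        refine ⟨?_, fun z hz => (hh z hz).2⟩
        refine (hh ((k : ℝ) + n + 1, 0) ?_).1
        have : (0 : ℝ) ≤ (k : ℝ) + n := by positivity
        simp only
        nlinarith
    rw [e]
    refine isClosed_iInter fun z => isClosed_iInter fun _ => ?_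
    rw [union_self]
    refine ContinuousOn.preimage_isClosed_of_isClosed ?_ isClosed_Ici isClosed_singleton
    exact h.cont.comp (f := fun s : ℝ => ((s, z) : ℝ × (ℝ × ℝ))) (by fun_prop)
          (fun s hs' => mem_S hs' z)
  · intro k l hkl t ht
    refine ⟨ht.1, fun z hz => ht.2 z (lt_of_le_of_lt ?_ hz)⟩
    have : (k : ℝ) ≤ l := by exact_mod_cast hkl
    gcongr
  · intro t ht
    obtain ⟨R, -, hR, hs⟩ := exists_suppIn (h.compact t ht) 0
    obtain ⟨k, hk⟩ := exists_nat_gt R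
    refine ⟨k, ht, fun z hz => hs z (lt_of_le_of_lt ?_ hz)⟩
    have : R ≤ (k : ℝ) + n := by
      have : (0 : ℝ) ≤ n := by positivity
      linarith
    gcongr
  · intro k l a b c ha hac hcb hab hck t ht
    have hn' : (0 : ℝ) < n := by exact_mod_cast hn
    refine ⟨ha.trans ht.1, ?_⟩
    exact h.confine_interval ha (m := (l : ℝ) + n) (by positivity) (by positivity)
      (fun t ht => (hab ht).2) ⟨hac, hcb⟩ hck.2 t ht
  · refine ⟨le_rfl, ?_⟩
    simpa using h0

theorem exists_supp_all : ∃ R : ℝ, 1 ≤ R ∧ ∀ t, 0 ≤ t → SuppIn (ω t) R := by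
  obtain ⟨R, -, hR, hs⟩ := exists_suppIn (h.compact 0 le_rfl) 0
  obtain ⟨k, hk⟩ := exists_nat_gt R
  have hk0 : 0 < k := by
    have : (0 : ℝ) < k := hR.trans hk
    exact_mod_cast this
  refine ⟨k, by exact_mod_cast hk0, h.supp_all hk0 fun z hz => hs z (lt_of_le_of_lt ?_ hz)⟩
  gcongr

end IsSmoothSolution

end Run7.h65
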