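import Mathlib

/-!
The model equation of MP_d08855_an, literally.
-/

open Set Real MeasureTheory


namespace Run7.h65

/-- The projection of `w` restricted to the circle of radius `ρ` onto the span of
`cos 2θ` and `sin 2θ`, evaluated at the angle `θ`. -/
noncomputable def P2 (w : ℝ × ℝ → ℝ) (ρ θ : ℝ) : ℝ :=
  (1 / π) * ∫ φ in (0 : ℝ)..(2 * π), w (ρ * cos φ, ρ * sin φ) * cos (2 * (θ - φ))

/-- The stream function `ψ(r,θ) = r² ∫_r^∞ P2 w(ρ,θ) / ρ dρ` in polar coordinates. -/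
noncomputable def psi (w : ℝ × ℝ → ℝ) (r θ : ℝ) : ℝ :=
  r ^ 2 * ∫ ρ in Ioi r, P2 w ρ θ / ρ

/-- `ω` is a smooth compactly supported solution of the model equation on the plane for all
times `t ≥ 0`. -/
structure IsSmoothSolution (ω : ℝ → ℝ × ℝ → ℝ) : Prop where
  smooth : ContDiffOn ℝ ((⊤ : ℕ∞) : WithTop ℕ∞) (fun p : ℝ × (ℝ × ℝ) => ω p.1 p.2) (Ici 0 ×ˢ univ)
  compact : ∀ t, 0 ≤ t → HasCompactSupport (ω t)
  eqn : ∀ t, 0 < t → ∀ r, 0 < r → ∀ θ : ℝ,
    deriv (fun τ => ω τ (r * cos θ, r * sin θ)) t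
      + (1 / r) * (deriv (fun φ => psi (ω t) r φ) θ
            * deriv (fun ρ => ω t (ρ * cos θ, ρ * sin θ)) r
          - deriv (fun ρ => psi (ω t) ρ θ) r
            * deriv (fun φ => ω t (r * cos φ, r * sin φ)) θ) = 0

end Run7.h65
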