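import Pool.Agent.Run7.h65.Total

open Set Real MeasureTheory Filter Topology

namespace Run7.h65

theorem act_sx {w : ℝ × ℝ → ℝ} (z : ℝ × ℝ) : act w (sx z) = -act w z := by
  have : sx (sx z) = z := by simp [sx]
  unfold act
  rw [this]; ring

theorem act_sy {w : ℝ × ℝ → ℝ} (hw : ∀ z, w (sy z) = -w z) (z : ℝ × ℝ) :
    act w (sy z) = -act w z := by
  have : sx (sy z) = sy (sx z) := by simp [sx, sy]
  unfold act
  rw [this, hw, hw]; ring

/-- the sign condition in the first quadrant implies the sign condition everywhere -/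
theorem act_sign {w : ℝ × ℝ → ℝ} (hw : ∀ z, w (sy z) = -w z)
    (h0 : ∀ x y : ℝ, 0 ≤ x → 0 ≤ y → w (-x, y) ≤ w (x, y)) (z : ℝ × ℝ) :
    0 ≤ act w z * (z.1 * z.2) := by
  have key : ∀ x y : ℝ, 0 ≤ x → 0 ≤ y → 0 ≤ act w (x, y) * (x * y) := by
    intro x y hx hy
    have h1 := h0 x y hx hy
    have h2 : 0 ≤ act w (x, y) := by
      unfold act sx
      simp only
      linarith
    positivity
  obtain ⟨x, y⟩ := z
  rcases le_total 0 x with hx | hx <;> rcases le_total 0 y with hy | hy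
  · exact key x y hx hy
  · have h1 := key x (-y) hx (by linarith)
    have h2 := act_sy hw (x, y)
    have h3 : sy (x, y) = (x, -y) := rfl
    rw [h3] at h2
    rw [h2] at h1
    simp only
    linarith
  · have h1 := key (-x) y (by linarith) hy
    have h2 := act_sx (w := w) (x, y)
    have h3 : sx (x, y) = (-x, y) := rfl
    rw [h3] at h2
    rw [h2] at h1
    simp only
    linarith
  · have h1 := key (-x) (-y) (by linarith) (by linarith)
    have h2 := act_sx (w := w) (x, y)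
    have h3 : sx (x, y) = (-x, y) := rfl
    have h4 := act_sy hw (-x, y)
    have h5 : sy (-x, y) = (-x, -y) := rfl
    rw [h3] at h2
    rw [h5, h2] at h4
    rw [h4] at h1
    simp only
    linarith

/-- the gradient in terms of radial and angular derivatives -/
theorem fderiv_norm_le_polar {w : ℝ × ℝ → ℝ} {z : ℝ × ℝ} {a b : ℝ} (hz : z ≠ 0)
    (hP : |Pw w z| ≤ a * rad z) (hQ : |Qw w z| ≤ b * rad z) :
    ‖fderiv ℝ w z‖ ≤ 2 * (a + b) := by
  have hr := rad_pos hz
  have hr2 := rad_sq z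
  have hx := abs_fst_le_rad z
  have hy := abs_snd_le_rad z
  have hab : 0 ≤ a + b := by
    have h1 : 0 ≤ a * rad z := (abs_nonneg _).trans hP
    have h2 : 0 ≤ b * rad z := (abs_nonneg _).trans hQ
    have h3 : 0 ≤ (a + b) * rad z := by linarith
    exact nonneg_of_mul_nonneg_left h3 hr
  have e1 : rad z ^ 2 * d1 w z = z.1 * Pw w z - z.2 * Qw w z := by
    rw [hr2]; unfold Pw Qw; ring
  have e2 : rad z ^ 2 * d2 w z = z.2 * Pw w z + z.1 * Qw w z := by
    rw [hr2]; unfold Pw Qw; ring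
  have gen : ∀ u v P Q : ℝ, |u| ≤ rad z → |v| ≤ rad z → |P| ≤ a * rad z → |Q| ≤ b * rad z →
      |u * P| + |v * Q| ≤ rad z ^ 2 * (a + b) := by
    intro u v P Q hu hv hP' hQ'
    rw [abs_mul, abs_mul]
    have f1 := mul_le_mul hu hP' (abs_nonneg _) hr.le
    have f2 := mul_le_mul hv hQ' (abs_nonneg _) hr.le
    nlinarith
  have c1 : |d1 w z| ≤ a + b := by
    have h1 : rad z ^ 2 * |d1 w z| ≤ rad z ^ 2 * (a + b) := by
      rw [← abs_of_pos (by positivity : 0 < rad z ^ 2), ← abs_mul, abs_of_pos (by positivity :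
        0 < rad z ^ 2), e1]
      exact (abs_sub _ _).trans (gen _ _ _ _ hx hy hP hQ)
    exact le_of_mul_le_mul_left h1 (by positivity)
  have c2 : |d2 w z| ≤ a + b := by
    have h1 : rad z ^ 2 * |d2 w z| ≤ rad z ^ 2 * (a + b) := by
      rw [← abs_of_pos (by positivity : 0 < rad z ^ 2), ← abs_mul, abs_of_pos (by positivity :
        0 < rad z ^ 2), e2]
      exact (abs_add_le _ _).trans (gen _ _ _ _ hy hx hP hQ)
    exact le_of_mul_le_mul_left h1 (by positivity)
  refine ContinuousLinearMap.opNorm_le_bound _ (by positivity) fun v => ?_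
  rw [fderiv_eq, Real.norm_eq_abs]
  have v1 : |v.1| ≤ ‖v‖ := norm_fst_le v
  have v2 : |v.2| ≤ ‖v‖ := norm_snd_le v
  refine (abs_add_le _ _).trans ?_
  rw [abs_mul, abs_mul]
  have f1 := mul_le_mul v1 c1 (abs_nonneg _) (norm_nonneg _)
  have f2 := mul_le_mul v2 c2 (abs_nonneg _) (norm_nonneg _)
  nlinarith

theorem double_exp_bound {ω : ℝ → ℝ × ℝ → ℝ} (h : IsSmoothSolution ω)
    (hodd : ∀ x y : ℝ, ω 0 (x, -y) = -ω 0 (x, y))
    (hsgn : ∀ x y : ℝ, 0 ≤ x → 0 ≤ y → ω 0 (-x, y) ≤ ω 0 (x, y)) :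
    ∃ C : ℝ, 0 < C ∧ ∀ t, 0 ≤ t → ∀ z : ℝ × ℝ,
      ‖fderiv ℝ (ω t) z‖ ≤ exp (C * exp (C * t)) := by
  have ho : OddSol ω := h.oddSol (fun z => hodd z.1 z.2)
  have hs : SignSol ω := ho.signSol (fun z => act_sign (fun z => hodd z.1 z.2) hsgn z)
  obtain ⟨A3, hA3, hq⟩ := hs.total_angular
  obtain ⟨A4, hA4, hp⟩ := hs.total_radial
  refine ⟨A3 + A4 + 4, by linarith, fun t ht => ?_⟩
  have hadm := ho.adm_W
  have hKsq : ∀ A t, KK A t = exp (A * exp (A * t)) ^ 2 := by
    intro A t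
    unfold KK
    rw [← exp_nat_mul]; congr 1; push_cast; ring
  have hoff : ∀ z : ℝ × ℝ, z ≠ 0 → ‖fderiv ℝ (ω t) z‖
      ≤ 2 * (exp (A4 * exp (A4 * t)) + exp (A3 * exp (A3 * t))) := by
    intro z hz
    obtain ⟨r, θ, hr, hrr, hzz⟩ := exists_polar hz
    have hz2 : z = lpc (log r, θ) := by
      rw [hzz]; unfold lpc; simp only; rw [exp_log hr]
    have hrad : rad z = exp (log r) := by rw [exp_log hr, ← hrr]
    refine fderiv_norm_le_polar hz ?_ ?_
    · have e := pF_pb ho.sm_W ht (hadm.dif t ht) (log r) θ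
      rw [← hz2] at e
      rw [← e, hrad]
      refine abs_le_of_sq_le_sq ((hp t ht (log r) θ).trans (le_of_eq ?_)) (by positivity)
      rw [mul_pow, ← hKsq]
    · have e := qF_pb ho.sm_W ht (hadm.dif t ht) (log r) θ
      rw [← hz2] at e
      rw [← e, hrad]
      refine abs_le_of_sq_le_sq ((hq t ht (log r) θ).trans (le_of_eq ?_)) (by positivity)
      rw [mul_pow, ← hKsq]
  have hall : ∀ z : ℝ × ℝ, ‖fderiv ℝ (ω t) z‖
      ≤ 2 * (exp (A4 * exp (A4 * t)) + exp (A3 * exp (A3 * t))) := by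
    have hf : Continuous (fderiv ℝ (ω t)) := (h.contDiff_slice ht).continuous_fderiv (by simp)
    have hcl : IsClosed {z : ℝ × ℝ | ‖fderiv ℝ (ω t) z‖
      ≤ 2 * (exp (A4 * exp (A4 * t)) + exp (A3 * exp (A3 * t)))} :=
      isClosed_le hf.norm continuous_const
    intro z
    have hd : z ∈ closure ({(0 : ℝ × ℝ)}ᶜ : Set (ℝ × ℝ)) := dense_compl_singleton 0 z
    exact (hcl.closure_subset_iff.2 fun y hy => hoff y hy) hd
  intro z
  refine (hall z).trans ?_
  set C := A3 + A4 + 4 with hC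
  have hE : 1 ≤ exp (C * t) := by apply one_le_exp; positivity
  have a3 : A3 * exp (A3 * t) ≤ A3 * exp (C * t) :=
    mul_le_mul_of_nonneg_left (exp_le_exp.2 (by nlinarith)) (by linarith)
  have a4 : A4 * exp (A4 * t) ≤ A4 * exp (C * t) :=
    mul_le_mul_of_nonneg_left (exp_le_exp.2 (by nlinarith)) (by linarith)
  have b3 : exp (A3 * exp (A3 * t)) ≤ exp ((A3 + A4) * exp (C * t)) := by
    refine exp_le_exp.2 ?_
    have : 0 ≤ A4 * exp (C * t) := by positivity
    nlinarith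
  have b4 : exp (A4 * exp (A4 * t)) ≤ exp ((A3 + A4) * exp (C * t)) := by
    refine exp_le_exp.2 ?_
    have : 0 ≤ A3 * exp (C * t) := by positivity
    nlinarith
  have h4 : (4 : ℝ) ≤ exp 4 := by
    have := add_one_le_exp (4 : ℝ); linarith
  have hpos := exp_pos ((A3 + A4) * exp (C * t))
  calc 2 * (exp (A4 * exp (A4 * t)) + exp (A3 * exp (A3 * t)))
      ≤ 4 * exp ((A3 + A4) * exp (C * t)) := by linarith
    _ ≤ exp 4 * exp ((A3 + A4) * exp (C * t)) := mul_le_mul_of_nonneg_right h4 hpos.le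
    _ = exp (4 + (A3 + A4) * exp (C * t)) := by rw [exp_add]
    _ ≤ exp (C * exp (C * t)) := by
        refine exp_le_exp.2 ?_
        have : C * exp (C * t) = (A3 + A4) * exp (C * t) + 4 * exp (C * t) := by rw [hC]; ring
        linarith

end Run7.h65
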