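import Pool.Agent.Run7.h65.Sign

open Set Real MeasureTheory Filter Topology

namespace Run7.h65

/-- radial and angular derivatives as operators on functions of the plane -/
noncomputable def Pw (w : ℝ × ℝ → ℝ) (z : ℝ × ℝ) : ℝ := z.1 * d1 w z + z.2 * d2 w z
noncomputable def Qw (w : ℝ × ℝ → ℝ) (z : ℝ × ℝ) : ℝ := -z.2 * d1 w z + z.1 * d2 w z

section ops

variable {w : ℝ × ℝ → ℝ}

theorem d1_contDiff (hw : ContDiff ℝ ((⊤ : ℕ∞) : WithTop ℕ∞) w) :
    ContDiff ℝ ((⊤ : ℕ∞) : WithTop ℕ∞) (d1 w) := by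
  unfold d1
  exact (hw.fderiv_right (by simp)).clm_apply contDiff_const

theorem d2_contDiff (hw : ContDiff ℝ ((⊤ : ℕ∞) : WithTop ℕ∞) w) :
    ContDiff ℝ ((⊤ : ℕ∞) : WithTop ℕ∞) (d2 w) := by
  unfold d2
  exact (hw.fderiv_right (by simp)).clm_apply contDiff_const

theorem Pw_contDiff (hw : ContDiff ℝ ((⊤ : ℕ∞) : WithTop ℕ∞) w) :
    ContDiff ℝ ((⊤ : ℕ∞) : WithTop ℕ∞) (Pw w) := by
  unfold Pw
  exact (contDiff_fst.mul (d1_contDiff hw)).add (contDiff_snd.mul (d2_contDiff hw))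

theorem Qw_contDiff (hw : ContDiff ℝ ((⊤ : ℕ∞) : WithTop ℕ∞) w) :
    ContDiff ℝ ((⊤ : ℕ∞) : WithTop ℕ∞) (Qw w) := by
  unfold Qw
  exact (contDiff_snd.neg.mul (d1_contDiff hw)).add (contDiff_fst.mul (d2_contDiff hw))

theorem Pw_supp {R : ℝ} (hs : SuppIn w R) : SuppIn (Pw w) R := by
  intro z hz
  unfold Pw d1 d2
  rw [d_of_large hs hz]; simp

theorem Qw_supp {R : ℝ} (hs : SuppIn w R) : SuppIn (Qw w) R := by
  intro z hz
  unfold Qw d1 d2
  rw [d_of_large hs hz]; simp

theorem bounded_of_supp {R : ℝ} (hw : Continuous w) (hs : SuppIn w R) (hR : 0 ≤ R) :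
    ∃ C, 0 ≤ C ∧ ∀ z, |w z| ≤ C := by
  obtain ⟨C, hC⟩ := (isCompact_box R).exists_bound_of_continuousOn hw.continuousOn
  refine ⟨max C 0, le_max_right _ _, fun z => ?_⟩
  by_cases hz : z ∈ box R
  · exact (hC z hz).trans (le_max_left _ _)
  · rw [hs z (not_mem_box hR hz), abs_zero]; exact le_max_right _ _

theorem lpc_deriv_s (hw : Differentiable ℝ w) (s θ : ℝ) :
    HasDerivAt (fun σ => w (lpc (σ, θ))) (Pw w (lpc (s, θ))) s :=
  slice_deriv_s hw s θ

theorem lpc_deriv_th (hw : Differentiable ℝ w) (s θ : ℝ) :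
    HasDerivAt (fun φ => w (lpc (s, φ))) (Qw w (lpc (s, θ))) θ :=
  slice_deriv_th hw s θ

end ops

/-- interpolation on a half line -/
theorem interp {f f' f'' : ℝ → ℝ} {x ε L : ℝ} (hf : ∀ y, HasDerivAt f (f' y) y)
    (hf' : ∀ y, HasDerivAt f' (f'' y) y) (hL : ∀ y, |f'' y| ≤ L) (hε0 : 0 ≤ ε)
    (hε : ∀ y, x ≤ y → |f y| ≤ ε) : |f' x| ≤ (2 + L) * √ε := by
  have hL0 : 0 ≤ L := (abs_nonneg _).trans (hL 0)
  have step : ∀ d : ℝ, 0 < d → |f' x| * d ≤ 2 * ε + L * d ^ 2 := by
    intro d hd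
    obtain ⟨c, hc1, hc2⟩ := exists_hasDerivAt_eq_slope f f' (show x < x + d by linarith)
      (fun y _ => (hf y).continuousAt.continuousWithinAt) (fun y _ => hf y)
    have h1 : f' c * d = f (x + d) - f x := by
      rw [hc2, show x + d - x = d by ring]; field_simp
    have h2 := mvt (g := f') (g' := f'') (x := x) (y := c) (C := L)
      (fun y _ => (hf' y).continuousAt.continuousWithinAt) (fun y _ => hf' y) (fun y _ => hL y)
    have h3 : |c - x| ≤ d := by
      rw [abs_of_pos (by linarith [hc1.1])]; linarith [hc1.2]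
    have h4 : |f' x| ≤ |f' c| + L * d := by
      have h5 : f' x = f' c - (f' c - f' x) := by ring
      rw [h5]
      refine (abs_sub _ _).trans ?_
      have : L * |c - x| ≤ L * d := mul_le_mul_of_nonneg_left h3 hL0
      linarith
    have h6 : |f' c| * d ≤ 2 * ε := by
      have e : |f' c| * d = |f' c * d| := by rw [abs_mul, abs_of_pos hd]
      rw [e, h1]
      have := abs_sub (f (x + d)) (f x)
      linarith [hε (x + d) (by linarith), hε x le_rfl]
    nlinarith
  rcases eq_or_lt_of_le hε0 with h0 | h0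
  · rw [← h0] at step ⊢
    rw [sqrt_zero, mul_zero]
    by_contra hc
    push Not at hc
    have h1 := step (|f' x| / (L + 1)) (by positivity)
    have h2 : L * (|f' x| / (L + 1)) ^ 2 < |f' x| * (|f' x| / (L + 1)) := by
      have : L * (|f' x| / (L + 1)) ^ 2 = (L / (L + 1)) * (|f' x| * (|f' x| / (L + 1))) := by
        field_simp
      rw [this]
      have h3 : L / (L + 1) < 1 := by rw [div_lt_one (by positivity)]; linarith
      have h4 : 0 < |f' x| * (|f' x| / (L + 1)) := by positivity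
      nlinarith
    linarith
  · have h1 := step (√ε) (sqrt_pos.2 h0)
    have h2 := sq_sqrt h0.le
    have h3 := sqrt_pos.2 h0
    have h4 : |f' x| * √ε ≤ ((2 + L) * √ε) * √ε := by
      rw [mul_assoc, ← pow_two, h2]
      rw [h2] at h1
      linarith
    exact le_of_mul_le_mul_right h4 h3

theorem root_le {x y : ℝ} {n : ℕ} (hn : n ≠ 0) (hx : 0 ≤ x) (hxy : x ^ n ≤ y) :
    x ≤ y ^ ((n : ℝ)⁻¹) := by
  have h1 := Real.pow_rpow_inv_natCast hx hn
  rw [← h1]
  exact Real.rpow_le_rpow (by positivity) hxy (by positivity)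

namespace SignSol

variable {ω : ℝ → ℝ × ℝ → ℝ} (h : SignSol ω)

include h

theorem act_smooth {t : ℝ} (ht : 0 ≤ t) :
    ContDiff ℝ ((⊤ : ℕ∞) : WithTop ℕ∞) (act (ω t)) := act_contDiff (h.sol.contDiff_slice ht)

omit h in
theorem act_supp {t R : ℝ} (hR : SuppIn (ω t) R) : SuppIn (act (ω t)) R := by
  intro z hz
  unfold act
  rw [hR z hz, hR (sx z) (by simpa [sx] using hz)]; ring

/-- the angular derivative is controlled by a power of `g` -/
theorem edge {t : ℝ} (ht : 0 ≤ t) : ∃ C, 0 ≤ C ∧ ∀ s θ,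
    |Qw (act (ω t)) (lpc (s, θ))| ^ 12 ≤ C * gF ω t s ∧
    |Pw (act (ω t)) (lpc (s, θ))| ^ 12 ≤ C * gF ω t s := by
  obtain ⟨U, hU1, hU⟩ := h.exists_U
  have hUt := hU t ht
  set w := act (ω t) with hw
  have hws : ContDiff ℝ ((⊤ : ℕ∞) : WithTop ℕ∞) w := h.act_smooth ht
  have hwR : SuppIn w (exp U) := act_supp hUt
  have hwd : Differentiable ℝ w := hws.differentiable (by simp)
  have hP := Pw_contDiff hws
  have hQ := Qw_contDiff hws
  have hPd : Differentiable ℝ (Pw w) := hP.differentiable (by simp)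
  have hQd : Differentiable ℝ (Qw w) := hQ.differentiable (by simp)
  obtain ⟨L0, hL00, hL0⟩ := bounded_of_supp hws.continuous hwR (exp_pos U).le
  obtain ⟨L1, hL10, hL1⟩ := bounded_of_supp hP.continuous (Pw_supp hwR) (exp_pos U).le
  obtain ⟨L2, hL20, hL2⟩ := bounded_of_supp hQ.continuous (Qw_supp hwR) (exp_pos U).le
  obtain ⟨L3, hL30, hL3⟩ := bounded_of_supp (Pw_contDiff hP).continuous
    (Pw_supp (Pw_supp hwR)) (exp_pos U).le
  obtain ⟨L4, hL40, hL4⟩ := bounded_of_supp (Qw_contDiff hQ).continuous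
    (Qw_supp (Qw_supp hwR)) (exp_pos U).le
  obtain ⟨L, hL⟩ : ∃ L, L = 1 + L0 + L1 + L2 + L3 + L4 := ⟨_, rfl⟩
  have hLpos : 1 ≤ L := by linarith
  have b0 : ∀ z, |w z| ≤ L := fun z => (hL0 z).trans (by linarith)
  have b1 : ∀ z, |Pw w z| ≤ L := fun z => (hL1 z).trans (by linarith)
  have b2 : ∀ z, |Qw w z| ≤ L := fun z => (hL2 z).trans (by linarith)
  have b3 : ∀ z, |Pw (Pw w) z| ≤ L := fun z => (hL3 z).trans (by linarith)
  have b4 : ∀ z, |Qw (Qw w) z| ≤ L := fun z => (hL4 z).trans (by linarith)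
  -- the function k
  set k : ℝ → ℝ → ℝ := fun s φ => w (lpc (s, φ)) * s2 φ with hk
  have hk0 : ∀ s φ, 0 ≤ k s φ := fun s φ => h.A_sin_nonneg ht s φ
  have hks : ∀ s s' φ, |k s φ - k s' φ| ≤ L * |s - s'| := by
    intro s s' φ
    refine mvt (g := fun σ => k σ φ) (g' := fun σ => Pw w (lpc (σ, φ)) * s2 φ) (x := s') (y := s)
      (C := L) (fun y _ => ((lpc_deriv_s hwd y φ).mul_const (s2 φ)).continuousAt.continuousWithinAt)
      (fun y _ => (lpc_deriv_s hwd y φ).mul_const (s2 φ)) (fun y _ => ?_)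
    rw [abs_mul]
    have := abs_sin_le_one (2 * φ)
    have h2 := b1 (lpc (y, φ))
    calc |Pw w (lpc (y, φ))| * |s2 φ| ≤ L * 1 := mul_le_mul h2 this (abs_nonneg _) (by linarith)
      _ = L := mul_one _
  have hkφ : ∀ s φ φ', |k s φ - k s φ'| ≤ 3 * L * |φ - φ'| := by
    intro s φ φ'
    have hd : ∀ y, HasDerivAt (fun x => k s x)
        (Qw w (lpc (s, y)) * s2 y + w (lpc (s, y)) * (cos (2 * y) * 2)) y := fun y =>
      (lpc_deriv_th hwd s y).mul (OddSol.two_mul_hasDerivAt y).sin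
    refine mvt (g := fun x => k s x) (g' := fun y =>
      Qw w (lpc (s, y)) * s2 y + w (lpc (s, y)) * (cos (2 * y) * 2)) (x := φ') (y := φ)
      (C := 3 * L) (fun y _ => (hd y).continuousAt.continuousWithinAt)
      (fun y _ => hd y) (fun y _ => ?_)
    refine (abs_add_le _ _).trans ?_
    rw [abs_mul, abs_mul, abs_mul, abs_two]
    have c1 : |Qw w (lpc (s, y))| * |s2 y| ≤ L * 1 :=
      mul_le_mul (b2 _) (abs_sin_le_one _) (abs_nonneg _) (by linarith)
    have c2 : |w (lpc (s, y))| * (|cos (2 * y)| * 2) ≤ L * (1 * 2) :=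
      mul_le_mul (b0 _) (mul_le_mul_of_nonneg_right (abs_cos_le_one _) (by norm_num))
        (by positivity) (by linarith)
    linarith
  have hkper : ∀ s, Function.Periodic (fun φ => k s φ) π := by
    intro s φ
    have h1 := h.per_A t ht s φ
    simp only [hk]
    have h2 : s2 (φ + π) = s2 φ := by unfold s2; rw [mul_add, sin_add_two_pi]
    rw [h2]
    congr 1
  have hkc : ∀ s, Continuous (fun φ => k s φ) := fun s =>
    ((hws.continuous.comp (lpc_continuous.comp (by fun_prop))).mul s2_cont)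
  -- lower bound for g
  have hcb : Continuous (fun σ => bF ω t σ) := by
    have := OddSol.mom_line_cont h.sm_A s2_cont ht
    exact this.congr (fun σ => (h.bF_eq ht σ).symm)
  have hk3 : ∀ s φ, k s φ ^ 3 ≤ 512 * L ^ 2 * gF ω t s := by
    intro s0 φ0'
    obtain ⟨φ0, hφ0, hper⟩ := (hkper s0).exists_mem_Ico₀ pi_pos φ0'
    rw [hper]
    set m := k s0 φ0 with hm
    have hm0 : 0 ≤ m := hk0 s0 φ0
    have hmL : m ≤ L := by
      have : |w (lpc (s0, φ0)) * s2 φ0| ≤ L * 1 := by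
        rw [abs_mul]
        exact mul_le_mul (b0 _) (abs_sin_le_one _) (abs_nonneg _) (by linarith)
      have h2 := le_abs_self (w (lpc (s0, φ0)) * s2 φ0)
      simp only [hm, hk]
      linarith
    set δ := m / (8 * L) with hδ
    have hδ0 : 0 ≤ δ := by positivity
    have hδ1 : δ ≤ 1 / 8 := by
      rw [hδ, div_le_div_iff₀ (by positivity) (by norm_num)]; linarith
    have hpi := pi_gt_three
    have hbl : ∀ σ ∈ Icc s0 (s0 + δ), (1 / π) * (δ * (m / 2)) ≤ bF ω t σ := by
      intro σ hσ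
      rw [h.bF_eq ht]
      unfold mom
      refine mul_le_mul_of_nonneg_left ?_ (by positivity)
      have i1 : ∫ φ in φ0..(φ0 + δ), k σ φ ≤ ∫ φ in (0 : ℝ)..(2 * π), k σ φ := by
        refine intervalIntegral.integral_mono_interval hφ0.1 (by linarith)
          (by linarith [hφ0.2]) (Filter.Eventually.of_forall fun φ => hk0 σ φ)
          ((hkc σ).intervalIntegrable _ _)
      have i2 : δ * (m / 2) ≤ ∫ φ in φ0..(φ0 + δ), k σ φ := by
        have i3 : ∫ _ in φ0..(φ0 + δ), m / 2 = δ * (m / 2) := by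
          rw [intervalIntegral.integral_const, smul_eq_mul]; ring
        rw [← i3]
        refine intervalIntegral.integral_mono_on (by linarith) intervalIntegrable_const
          ((hkc σ).intervalIntegrable _ _) fun φ hφ => ?_
        have a1 := hks σ s0 φ
        have a2 := hkφ s0 φ φ0
        have a3 : |σ - s0| ≤ δ := by
          rw [abs_of_nonneg (by linarith [hσ.1])]; linarith [hσ.2]
        have a4 : |φ - φ0| ≤ δ := by
          rw [abs_of_nonneg (by linarith [hφ.1])]; linarith [hφ.2]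
        have a5 : L * δ = m / 8 := by rw [hδ]; field_simp
        have a6 : L * |σ - s0| ≤ L * δ := mul_le_mul_of_nonneg_left a3 (by linarith)
        have a7 : 3 * L * |φ - φ0| ≤ 3 * (L * δ) := by
          rw [mul_assoc]
          exact mul_le_mul_of_nonneg_left (mul_le_mul_of_nonneg_left a4 (by linarith)) (by norm_num)
        have a8 := (abs_le.1 a1).1
        have a9 := (abs_le.1 a2).1
        linarith
      exact i2.trans i1
    have hg : δ * ((1 / π) * (δ * (m / 2))) ≤ gF ω t s0 := by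
      have i4 : ∫ _ in s0..(s0 + δ), (1 / π) * (δ * (m / 2)) = δ * ((1 / π) * (δ * (m / 2))) := by
        rw [intervalIntegral.integral_const, smul_eq_mul]; ring
      have i5 := intervalIntegral.integral_eq_sub_of_hasDerivAt (a := s0) (b := s0 + δ)
        (f := fun σ => -gF ω t σ) (f' := fun σ => bF ω t σ) (fun σ _ => by
          have := (h.gF_s ht σ).neg
          rw [neg_neg] at this
          exact this) (hcb.intervalIntegrable _ _)
      have i6 : ∫ _ in s0..(s0 + δ), (1 / π) * (δ * (m / 2)) ≤ ∫ σ in s0..(s0 + δ), bF ω t σ :=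
        intervalIntegral.integral_mono_on (by linarith) intervalIntegrable_const
          (hcb.intervalIntegrable _ _) hbl
      have i7 := h.g_nonneg ht (s0 + δ)
      rw [i4, i5] at i6
      linarith
    have e1 : δ * ((1 / π) * (δ * (m / 2))) = m ^ 3 / (128 * π * L ^ 2) := by
      rw [hδ]; field_simp; ring
    rw [e1, div_le_iff₀ (by positivity)] at hg
    have hpi4 := pi_lt_four
    have hg0 := h.g_nonneg ht s0
    have : gF ω t s0 * (128 * π * L ^ 2) ≤ gF ω t s0 * (128 * 4 * L ^ 2) := by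
      refine mul_le_mul_of_nonneg_left ?_ hg0
      have : 0 ≤ L ^ 2 := by positivity
      nlinarith
    linarith
  -- bound for the function itself
  have hcomp : HasCompactSupport w := by
    refine HasCompactSupport.of_support_subset_isCompact (isCompact_box (exp U)) ?_
    intro z hz
    by_contra hc
    exact hz (hwR z (not_mem_box (exp_pos U).le hc))
  obtain ⟨C2, hC20, hC2⟩ := odd_odd_bound (w := w)
    (hws.of_le (WithTop.coe_le_coe.2 le_top)) hcomp
    (fun y => (h.act_axes ht y).1) (fun x => (h.act_axes ht x).2)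
  obtain ⟨D, hD⟩ : ∃ D, D = C2 * exp U ^ 2 := ⟨_, rfl⟩
  have hDpos : 0 < D := by rw [hD]; positivity
  have ha2 : ∀ s φ, w (lpc (s, φ)) ^ 2 ≤ D * k s φ := by
    intro s φ
    rcases le_or_gt s U with hs | hs
    · have h1 := hC2 (lpc (s, φ))
      have h2 : |(lpc (s, φ)).1 * (lpc (s, φ)).2| ≤ exp U ^ 2 * |s2 φ| := by
        have e : (lpc (s, φ)).1 * (lpc (s, φ)).2 = (exp s ^ 2 / 2) * s2 φ := by
          unfold lpc s2; simp only; rw [sin_two_mul]; ring
        rw [e, abs_mul, abs_of_pos (by positivity : 0 < exp s ^ 2 / 2)]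
        refine mul_le_mul_of_nonneg_right ?_ (abs_nonneg _)
        have : exp s ^ 2 ≤ exp U ^ 2 := pow_le_pow_left₀ (exp_pos s).le (exp_le_exp.2 hs) 2
        have h3 : 0 < exp s ^ 2 := by positivity
        linarith
      have h3 : |w (lpc (s, φ))| ≤ D * |s2 φ| := by
        refine h1.trans ?_
        rw [hD, mul_assoc]
        exact mul_le_mul_of_nonneg_left h2 hC20.le
      calc w (lpc (s, φ)) ^ 2 = |w (lpc (s, φ))| * |w (lpc (s, φ))| := by
            rw [← pow_two, sq_abs]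
        _ ≤ |w (lpc (s, φ))| * (D * |s2 φ|) := mul_le_mul_of_nonneg_left h3 (abs_nonneg _)
        _ = D * |k s φ| := by rw [hk]; simp only; rw [abs_mul]; ring
        _ = D * k s φ := by rw [abs_of_nonneg (hk0 s φ)]
    · have : w (lpc (s, φ)) = 0 := by
        refine hwR _ ?_
        have := rad_sq (lpc (s, φ))
        rw [lpc_rad] at this
        rw [← this]
        have : exp U < exp s := exp_lt_exp.2 hs
        have h2 := exp_pos U
        gcongr
      rw [this]
      simp only [ne_eq, OfNat.ofNat_ne_zero, not_false_eq_true, zero_pow]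
      exact mul_nonneg hDpos.le (hk0 s φ)
  obtain ⟨E, hE⟩ : ∃ E, E = D ^ 3 * (512 * L ^ 2) := ⟨_, rfl⟩
  have hE0 : 0 ≤ E := by rw [hE]; positivity
  have ha6 : ∀ s φ, |w (lpc (s, φ))| ^ 6 ≤ E * gF ω t s := by
    intro s φ
    have h1 : |w (lpc (s, φ))| ^ 6 = (w (lpc (s, φ)) ^ 2) ^ 3 := by
      rw [← sq_abs]; ring
    rw [h1]
    calc (w (lpc (s, φ)) ^ 2) ^ 3 ≤ (D * k s φ) ^ 3 :=
          pow_le_pow_left₀ (by positivity) (ha2 s φ) 3
      _ = D ^ 3 * (k s φ ^ 3) := by ring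
      _ ≤ D ^ 3 * (512 * L ^ 2 * gF ω t s) := mul_le_mul_of_nonneg_left (hk3 s φ) (by positivity)
      _ = E * gF ω t s := by rw [hE]; ring
  -- interpolation
  have hε : ∀ s, 0 ≤ (E * gF ω t s) ^ ((6 : ℕ) : ℝ)⁻¹ := fun s =>
    Real.rpow_nonneg (mul_nonneg hE0 (h.g_nonneg ht s)) _
  have hae : ∀ s σ φ, s ≤ σ → |w (lpc (σ, φ))| ≤ (E * gF ω t s) ^ ((6 : ℕ) : ℝ)⁻¹ := by
    intro s σ φ hσ
    refine root_le (by norm_num) (abs_nonneg _) ((ha6 σ φ).trans ?_)
    exact mul_le_mul_of_nonneg_left (h.g_anti ht hσ) hE0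
  have hfin : ∀ s, ∀ x : ℝ, 0 ≤ x → x ≤ (2 + L) * √((E * gF ω t s) ^ ((6 : ℕ) : ℝ)⁻¹) →
      x ^ 12 ≤ (2 + L) ^ 12 * E * gF ω t s := by
    intro s x hx hx2
    have hg0 : 0 ≤ E * gF ω t s := mul_nonneg hE0 (h.g_nonneg ht s)
    have e1 := pow_le_pow_left₀ hx hx2 12
    rw [mul_pow] at e1
    have e2 : (√((E * gF ω t s) ^ ((6 : ℕ) : ℝ)⁻¹)) ^ 12 = E * gF ω t s := by
      rw [show (12 : ℕ) = 2 * 6 by norm_num, pow_mul, sq_sqrt (hε s),
        Real.rpow_inv_natCast_pow hg0 (by norm_num)]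
    rw [e2, ← mul_assoc] at e1
    exact e1
  refine ⟨(2 + L) ^ 12 * E, by positivity, fun s θ => ⟨?_, ?_⟩⟩
  · refine hfin s _ (abs_nonneg _) ?_
    exact interp (f := fun φ => w (lpc (s, φ))) (f' := fun φ => Qw w (lpc (s, φ)))
      (f'' := fun φ => Qw (Qw w) (lpc (s, φ))) (fun y => lpc_deriv_th hwd s y)
      (fun y => lpc_deriv_th hQd s y) (fun y => b4 _) (hε s) (fun y _ => hae s s y le_rfl)
  · refine hfin s _ (abs_nonneg _) ?_
    exact interp (f := fun σ => w (lpc (σ, θ))) (f' := fun σ => Pw w (lpc (σ, θ)))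
      (f'' := fun σ => Pw (Pw w) (lpc (σ, θ))) (fun y => lpc_deriv_s hwd y θ)
      (fun y => lpc_deriv_s hPd y θ) (fun y => b3 _) (hε s) (fun y hy => hae s y θ hy)

end SignSol

end Run7.h65
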