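import Pool.Agent.Run7.h65.Mom

open Set Real MeasureTheory Filter Topology

namespace Run7.h65

noncomputable def gF (ω : ℝ → ℝ × ℝ → ℝ) (t s : ℝ) : ℝ := BB (ω t) (exp s)
noncomputable def bF (ω : ℝ → ℝ × ℝ → ℝ) (t s : ℝ) : ℝ := bb (ω t) (exp s)

/-- active part in log-polar coordinates -/
noncomputable def AF (ω : ℝ → ℝ × ℝ → ℝ) : E3 → ℝ := pb (fun t => act (ω t))

noncomputable def s2 (φ : ℝ) : ℝ := sin (2 * φ)
noncomputable def s4 (φ : ℝ) : ℝ := sin (4 * φ)
theorem s2_cont : Continuous s2 := by unfold s2; fun_prop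
theorem s4_cont : Continuous s4 := by unfold s4; fun_prop

/-- a smooth function transported by the flow, in log-polar coordinates -/
structure Tr (ω : ℝ → ℝ × ℝ → ℝ) (Φ : E3 → ℝ) : Prop where
  sm : Sm Φ
  pde : ∀ t, 0 < t → ∀ s θ, DD et Φ (t, (s, θ))
    = -(2 * gF ω t s * cos (2 * θ)) * DD es Φ (t, (s, θ))
      + (2 * gF ω t s - bF ω t s) * sin (2 * θ) * DD eth Φ (t, (s, θ))

namespace OddSol

variable {ω : ℝ → ℝ × ℝ → ℝ} (h : OddSol ω)

include h

theorem sm_W : Sm (pb ω) := pb_sm h.sol.smooth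

theorem sm_A : Sm (AF ω) := by
  refine pb_sm ?_
  have h1 := h.sol.smooth
  have h2 : ContDiff ℝ ((⊤ : ℕ∞) : WithTop ℕ∞) (fun p : ℝ × (ℝ × ℝ) => ((p.1, sx p.2) : ℝ × (ℝ × ℝ))) := by
    unfold sx; fun_prop
  have h3 := h1.comp h2.contDiffOn (t := Ici 0 ×ˢ univ) (s := Ici 0 ×ˢ univ)
    (fun p hp => ⟨hp.1, mem_univ _⟩)
  exact contDiffOn_const.mul (h1.add h3.neg)

theorem tr_of {f : ℝ → ℝ × ℝ → ℝ} (hsm : Sm (pb f)) (hd : ∀ t, 0 < t → Differentiable ℝ (f t))
    (hpde : ∀ t, 0 < t → ∀ z, HasDerivAt (fun τ => f τ z)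
      (-((vel (ω t) z).1 * d1 (f t) z + (vel (ω t) z).2 * d2 (f t) z)) t) : Tr ω (pb f) := by
  refine ⟨hsm, fun t ht s θ => ?_⟩
  have e1 := (hsm.deriv_t ht s θ).unique (hpde t ht (lpc (s, θ)))
  have e2 := (hsm.deriv_s ht.le s θ).unique (slice_deriv_s (hd t ht) s θ)
  have e3 := (hsm.deriv_th ht.le s θ).unique (slice_deriv_th (hd t ht) s θ)
  rw [e1, e2, e3, transport_lp (h.sol.cont_slice ht.le) (h.odd t ht.le)]
  unfold gF bF
  ring

theorem tr_W : Tr ω (pb ω) :=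
  h.tr_of h.sm_W (fun _ ht => h.sol.diff_slice ht.le) (fun _ ht z => h.sol.pde ht z)

theorem tr_A : Tr ω (AF ω) :=
  h.tr_of (f := fun t => act (ω t)) h.sm_A
    (fun _ ht => (act_contDiff (h.sol.contDiff_slice ht.le)).differentiable (by simp))
    (fun _ ht z => h.act_pde ht z)

theorem bF_eq {t : ℝ} (ht : 0 ≤ t) (s : ℝ) : bF ω t s = mom s2 (AF ω) t s := by
  unfold bF
  rw [← bb_act (h.sol.cont_slice ht)]
  rfl

theorem gF_s {t : ℝ} (ht : 0 ≤ t) (s : ℝ) : HasDerivAt (fun σ => gF ω t σ) (-(bF ω t s)) s := by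
  obtain ⟨R, -, hR0, hR⟩ := exists_suppIn (h.sol.compact t ht) 0
  have h1 := BB_hasDerivAt (h.sol.cont_slice ht) hR hR0.le (exp_pos s)
  have h2 := h1.comp s (hasDerivAt_exp s)
  refine h2.congr_deriv ?_
  unfold bF
  have := (exp_pos s).ne'
  field_simp

/-- a common upper limit -/
theorem exists_U : ∃ U : ℝ, 1 ≤ exp U ∧ (∀ t, 0 ≤ t → SuppIn (ω t) (exp U)) := by
  obtain ⟨R, hR1, hR⟩ := h.sol.exists_supp_all
  refine ⟨log R, ?_, ?_⟩
  · rw [exp_log (by linarith)]; exact hR1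
  · rw [exp_log (by linarith)]; exact hR

omit h in
theorem gF_zero {U : ℝ} (hU : ∀ t, 0 ≤ t → SuppIn (ω t) (exp U)) {t : ℝ} (ht : 0 ≤ t) {s : ℝ}
    (hs : U ≤ s) : gF ω t s = 0 := by
  unfold gF BB
  have := tail_eq (f := bb (ω t)) (R := exp U) (r := exp s) (R' := exp s)
    (fun _ hh => bb_of_large (hU t ht) (exp_pos U).le hh) le_rfl (exp_le_exp.2 hs)
  rw [intervalIntegral.integral_same] at this
  exact this

omit h in
theorem mom_line_cont {Ψ : E3 → ℝ} (hΨ : Sm Ψ) {κ : ℝ → ℝ} (hκ : Continuous κ) {t : ℝ}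
    (ht : 0 ≤ t) : Continuous (fun s => mom κ Ψ t s) := by
  rw [← continuousOn_univ]
  exact (mom_cont hΨ hκ).comp (f := fun s : ℝ => ((t, s) : ℝ × ℝ)) (by fun_prop)
    (fun s _ => ⟨ht, mem_univ _⟩)

theorem gF_eq {U : ℝ} (hU : ∀ t, 0 ≤ t → SuppIn (ω t) (exp U)) {t : ℝ} (ht : 0 ≤ t) {s U' : ℝ}
    (hU' : U ≤ U') : gF ω t s = ∫ σ in s..U', mom s2 (AF ω) t σ := by
  have hc := mom_line_cont h.sm_A s2_cont ht
  have h1 := intervalIntegral.integral_eq_sub_of_hasDerivAt (a := s) (b := U')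
    (f := fun σ => -gF ω t σ) (f' := fun σ => mom s2 (AF ω) t σ) (fun σ _ => by
      have := (h.gF_s ht σ).neg
      rw [neg_neg, h.bF_eq ht] at this
      exact this) (hc.intervalIntegrable _ _)
  rw [h1, gF_zero hU ht hU']
  ring

theorem bF_t {t : ℝ} (ht : 0 < t) (s : ℝ) :
    HasDerivAt (fun τ => bF ω τ s) (mom s2 (DD et (AF ω)) t s) t := by
  have h1 := mom_t h.sm_A s2_cont ht s
  refine h1.congr_of_eventuallyEq ?_
  filter_upwards [Ioi_mem_nhds ht] with τ hτ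
  exact h.bF_eq (le_of_lt hτ) s

/-- the formula for `b_t` -/
theorem mom_dt {t : ℝ} (ht : 0 < t) (s : ℝ) :
    mom s2 (DD et (AF ω)) t s = -gF ω t s * mom s4 (DD es (AF ω)) t s
      - 2 * (2 * gF ω t s - bF ω t s) * mom s4 (AF ω) t s := by
  have hA := h.sm_A
  have hc1 := (hA.dd es).cont_line ht.le s
  have hc2 := (hA.dd eth).cont_line ht.le s
  have hc0 := hA.cont_line ht.le s
  have hparts : ∫ φ in (0 : ℝ)..(2 * π), DD eth (AF ω) (t, (s, φ)) * (sin (2 * φ)) ^ 2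
      = -(2 * ∫ φ in (0 : ℝ)..(2 * π), AF ω (t, (s, φ)) * s4 φ) := by
    have hd : ∀ φ : ℝ, HasDerivAt (fun φ : ℝ => (sin (2 * φ)) ^ 2) (2 * s4 φ) φ := by
      intro φ
      have h1 : HasDerivAt (fun φ : ℝ => 2 * φ) 2 φ := by
        simpa using (hasDerivAt_id φ).const_mul 2
      have h2 := (h1.sin).pow 2
      refine h2.congr_deriv ?_
      simp only [Nat.cast_ofNat, Nat.add_one_sub_one, pow_one, s4]
      rw [show (4 : ℝ) * φ = 2 * (2 * φ) by ring, sin_two_mul (2 * φ)]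
      ring
    have := intervalIntegral.integral_mul_deriv_eq_deriv_mul (a := 0) (b := 2 * π)
      (u := fun φ : ℝ => (sin (2 * φ)) ^ 2) (v := fun φ => AF ω (t, (s, φ)))
      (u' := fun φ => 2 * s4 φ) (v' := fun φ => DD eth (AF ω) (t, (s, φ)))
      (fun φ _ => hd φ) (fun φ _ => hA.deriv_th ht.le s φ)
      ((continuous_const.mul s4_cont).intervalIntegrable _ _) (hc2.intervalIntegrable _ _)
    have e0 : sin (2 * (2 * π)) = 0 := by
      have := sin_nat_mul_pi 4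
      push_cast at this
      rw [← this]; ring_nf
    simp only [e0, mul_zero, sin_zero, ne_eq, OfNat.ofNat_ne_zero, not_false_eq_true, zero_pow,
      zero_mul, sub_self, zero_sub] at this
    have e1 : ∫ φ in (0 : ℝ)..(2 * π), DD eth (AF ω) (t, (s, φ)) * (sin (2 * φ)) ^ 2
        = ∫ φ in (0 : ℝ)..(2 * π), (sin (2 * φ)) ^ 2 * DD eth (AF ω) (t, (s, φ)) :=
      intervalIntegral.integral_congr fun φ _ => by ring
    have e2 : ∫ φ in (0 : ℝ)..(2 * π), 2 * s4 φ * AF ω (t, (s, φ))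
        = 2 * ∫ φ in (0 : ℝ)..(2 * π), AF ω (t, (s, φ)) * s4 φ := by
      rw [← intervalIntegral.integral_const_mul]
      exact intervalIntegral.integral_congr fun φ _ => by ring
    rw [e1, this, e2]
  have hmain : ∫ φ in (0 : ℝ)..(2 * π), DD et (AF ω) (t, (s, φ)) * s2 φ
      = -gF ω t s * (∫ φ in (0 : ℝ)..(2 * π), DD es (AF ω) (t, (s, φ)) * s4 φ)
        + (2 * gF ω t s - bF ω t s)
          * ∫ φ in (0 : ℝ)..(2 * π), DD eth (AF ω) (t, (s, φ)) * (sin (2 * φ)) ^ 2 := by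
    rw [← intervalIntegral.integral_const_mul, ← intervalIntegral.integral_const_mul,
      ← intervalIntegral.integral_add]
    · refine intervalIntegral.integral_congr fun φ _ => ?_
      rw [h.tr_A.pde t ht s φ]
      unfold s2 s4
      rw [show (4 : ℝ) * φ = 2 * (2 * φ) by ring, sin_two_mul (2 * φ)]
      ring
    · exact (continuous_const.mul (hc1.mul s4_cont)).intervalIntegrable _ _
    · exact (continuous_const.mul (hc2.mul (by fun_prop))).intervalIntegrable _ _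
  unfold mom
  rw [hmain, hparts]
  ring

/-- the formula for `g_t` -/
theorem gF_t {U : ℝ} (hU : ∀ t, 0 ≤ t → SuppIn (ω t) (exp U)) {t : ℝ} (ht : 0 < t) {s U' : ℝ}
    (hU' : U ≤ U') :
    HasDerivAt (fun τ => gF ω τ s) (gF ω t s * mom s4 (AF ω) t s
      - ∫ σ in s..U', (4 * gF ω t σ - bF ω t σ) * mom s4 (AF ω) t σ) t := by
  have hA := h.sm_A
  have hev : (fun τ => gF ω τ s) =ᶠ[𝓝 t] fun τ => ∫ σ in s..U', mom s2 (AF ω) τ σ := by
    filter_upwards [Ioi_mem_nhds ht] with τ hτ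
    exact h.gF_eq hU (le_of_lt hτ) hU'
  have hpos : ∀ x ∈ Icc (t - t / 2) (t + t / 2), 0 < x := fun x hx => by linarith [hx.1]
  have h1 : HasDerivAt (fun τ => ∫ σ in s..U', mom s2 (AF ω) τ σ)
      (∫ σ in s..U', mom s2 (DD et (AF ω)) t σ) t := by
    refine param_hasDerivAt (G := fun τ σ => mom s2 (AF ω) τ σ)
      (G' := fun τ σ => mom s2 (DD et (AF ω)) τ σ) (δ := t / 2) (by positivity)
      (fun x hx => mom_line_cont hA s2_cont (hpos x hx).le) ?_ ?_
    · exact (mom_cont (hA.dd et) s2_cont).mono (fun p hp => ⟨(hpos _ hp.1).le, mem_univ _⟩)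
    · intro x hx σ
      exact mom_t hA s2_cont (hpos x hx) σ
  refine (h1.congr_of_eventuallyEq hev).congr_deriv ?_
  have hcg : Continuous (fun σ => gF ω t σ) :=
    continuous_iff_continuousAt.2 fun σ => (h.gF_s ht.le σ).continuousAt
  have hc4 := mom_line_cont hA s4_cont ht.le
  have hc4s := mom_line_cont (hA.dd es) s4_cont ht.le
  have hcb : Continuous (fun σ => bF ω t σ) := by
    have := mom_line_cont hA s2_cont ht.le
    exact this.congr (fun σ => (h.bF_eq ht.le σ).symm)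
  have e1 : ∫ σ in s..U', mom s2 (DD et (AF ω)) t σ
      = ∫ σ in s..U', (-(gF ω t σ * mom s4 (DD es (AF ω)) t σ)
        - 2 * (2 * gF ω t σ - bF ω t σ) * mom s4 (AF ω) t σ) := by
    refine intervalIntegral.integral_congr fun σ _ => ?_
    rw [h.mom_dt ht σ]; ring
  have hparts := intervalIntegral.integral_mul_deriv_eq_deriv_mul (a := s) (b := U')
      (u := fun σ => gF ω t σ) (v := fun σ => mom s4 (AF ω) t σ)
      (u' := fun σ => -(bF ω t σ)) (v' := fun σ => mom s4 (DD es (AF ω)) t σ)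
      (fun σ _ => h.gF_s ht.le σ) (fun σ _ => mom_s hA s4_cont ht.le σ)
      (hcb.neg.intervalIntegrable _ _) (hc4s.intervalIntegrable _ _)
  rw [gF_zero hU ht.le hU', zero_mul, zero_sub] at hparts
  have i1 : IntervalIntegrable (fun σ => gF ω t σ * mom s4 (DD es (AF ω)) t σ) volume s U' :=
    (hcg.mul hc4s).intervalIntegrable _ _
  have i2 : IntervalIntegrable (fun σ => 2 * (2 * gF ω t σ - bF ω t σ) * mom s4 (AF ω) t σ)
      volume s U' :=
    ((continuous_const.mul ((continuous_const.mul hcg).sub hcb)).mul hc4).intervalIntegrable _ _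
  have i3 : IntervalIntegrable (fun σ => -(bF ω t σ) * mom s4 (AF ω) t σ) volume s U' :=
    (hcb.neg.mul hc4).intervalIntegrable _ _
  have i1n : IntervalIntegrable (fun σ => -(gF ω t σ * mom s4 (DD es (AF ω)) t σ)) volume s U' :=
    (hcg.mul hc4s).neg.intervalIntegrable _ _
  rw [e1, intervalIntegral.integral_sub i1n i2, intervalIntegral.integral_neg, hparts]
  have e3 : ∫ σ in s..U', (4 * gF ω t σ - bF ω t σ) * mom s4 (AF ω) t σ
      = (∫ σ in s..U', 2 * (2 * gF ω t σ - bF ω t σ) * mom s4 (AF ω) t σ)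
        - ∫ σ in s..U', -(bF ω t σ) * mom s4 (AF ω) t σ := by
    rw [← intervalIntegral.integral_sub i2 i3]
    exact intervalIntegral.integral_congr fun σ _ => by ring
  rw [e3]
  ring

end OddSol

end Run7.h65
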