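import Mathlib

open Set Real MeasureTheory Filter Topology

namespace Run7.h65

theorem cot_bound {φ : ℝ} (h0 : 0 < φ) (h1 : φ ≤ π / 2) :
    0 ≤ cos φ / sin φ ∧ φ * (cos φ / sin φ) ≤ 1 := by
  have hs : 0 < sin φ := sin_pos_of_pos_of_lt_pi h0 (by linarith [pi_pos])
  have hc : 0 ≤ cos φ := cos_nonneg_of_mem_Icc ⟨by linarith [pi_pos], h1⟩
  refine ⟨div_nonneg hc hs.le, ?_⟩
  rw [← mul_div_assoc, div_le_one hs]
  rcases eq_or_lt_of_le h1 with h | h
  · rw [h, cos_pi_div_two, mul_zero, sin_pi_div_two]; norm_num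
  · have h2 := lt_tan h0 h
    have hc' : 0 < cos φ := cos_pos_of_mem_Ioo ⟨by linarith [pi_pos], h⟩
    rw [tan_eq_sin_div_cos, lt_div_iff₀ hc'] at h2
    exact h2.le

/-- the conjugate function with respect to the period `π` -/
noncomputable def hil (k : ℝ → ℝ) (θ : ℝ) : ℝ :=
  (1 / π) * ∫ φ in (0 : ℝ)..(π / 2), (k (θ - φ) - k (θ + φ)) * (cos φ / sin φ)

/-- Lipschitz on the window around `θ` -/
def LipW (k : ℝ → ℝ) (θ L : ℝ) : Prop :=
  ∀ x ∈ Icc (θ - π / 2) (θ + π / 2), ∀ y ∈ Icc (θ - π / 2) (θ + π / 2), |k x - k y| ≤ L * |x - y|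

theorem uIoc_half : uIoc (0 : ℝ) (π / 2) = Ioc 0 (π / 2) := uIoc_of_le (by positivity)

theorem hil_int_bound {k : ℝ → ℝ} {θ L : ℝ} (hk : LipW k θ L) {φ : ℝ}
    (hφ : φ ∈ Ioc 0 (π / 2)) : |(k (θ - φ) - k (θ + φ)) * (cos φ / sin φ)| ≤ 2 * L := by
  obtain ⟨c0, c1⟩ := cot_bound hφ.1 hφ.2
  have h1 := hk (θ - φ) ⟨by linarith [hφ.2], by linarith [hφ.1, pi_pos]⟩ (θ + φ)
    ⟨by linarith [hφ.1, pi_pos], by linarith [hφ.2]⟩
  have h2 : |θ - φ - (θ + φ)| = 2 * φ := by
    rw [show θ - φ - (θ + φ) = -(2 * φ) by ring, abs_neg, abs_of_pos (by linarith [hφ.1])]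
  rw [h2] at h1
  have hL : 0 ≤ L := by
    have := (abs_nonneg _).trans h1
    by_contra hc
    push Not at hc
    nlinarith [hφ.1]
  rw [abs_mul, abs_of_nonneg c0]
  calc |k (θ - φ) - k (θ + φ)| * (cos φ / sin φ) ≤ L * (2 * φ) * (cos φ / sin φ) :=
        mul_le_mul_of_nonneg_right h1 c0
    _ = 2 * L * (φ * (cos φ / sin φ)) := by ring
    _ ≤ 2 * L * 1 := mul_le_mul_of_nonneg_left c1 (by positivity)
    _ = 2 * L := by ring

theorem cot_continuousOn : ContinuousOn (fun φ : ℝ => cos φ / sin φ) (Ioc 0 (π / 2)) := by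
  refine continuous_cos.continuousOn.div continuous_sin.continuousOn fun φ hφ => ?_
  exact (sin_pos_of_pos_of_lt_pi hφ.1 (by linarith [hφ.2, pi_pos])).ne'

theorem hil_meas {k : ℝ → ℝ} (hk : Continuous k) (θ : ℝ) :
    AEStronglyMeasurable (fun φ => (k (θ - φ) - k (θ + φ)) * (cos φ / sin φ))
      (volume.restrict (uIoc (0 : ℝ) (π / 2))) := by
  rw [uIoc_half]
  refine ContinuousOn.aestronglyMeasurable ?_ measurableSet_Ioc
  exact (by fun_prop : Continuous fun φ => k (θ - φ) - k (θ + φ)).continuousOn.mul cot_continuousOn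

theorem hil_integrable {k : ℝ → ℝ} (hk : Continuous k) {θ L : ℝ} (hL : LipW k θ L) :
    IntervalIntegrable (fun φ => (k (θ - φ) - k (θ + φ)) * (cos φ / sin φ)) volume 0 (π / 2) := by
  refine (intervalIntegrable_const (c := 2 * L)).mono_fun (hil_meas hk θ) ?_
  filter_upwards [ae_restrict_mem measurableSet_uIoc] with φ hφ
  rw [uIoc_half] at hφ
  rw [Real.norm_eq_abs, Real.norm_eq_abs]
  exact (hil_int_bound hL hφ).trans (le_abs_self _)

theorem hil_add {k l : ℝ → ℝ} (hk : Continuous k) (hl : Continuous l) {θ L M : ℝ}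
    (hL : LipW k θ L) (hM : LipW l θ M) :
    hil (fun φ => k φ + l φ) θ = hil k θ + hil l θ := by
  unfold hil
  rw [← mul_add, ← intervalIntegral.integral_add (hil_integrable hk hL) (hil_integrable hl hM)]
  congr 1
  refine intervalIntegral.integral_congr fun φ _ => ?_
  ring

theorem hil_const_mul (c : ℝ) (k : ℝ → ℝ) (θ : ℝ) :
    hil (fun φ => c * k φ) θ = c * hil k θ := by
  unfold hil
  rw [mul_left_comm]
  congr 1
  rw [← intervalIntegral.integral_const_mul]
  refine intervalIntegral.integral_congr fun φ _ => ?_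
  ring

theorem hil_hasDerivAt {G G' : ℝ → ℝ → ℝ} {x0 θ δ L L0 : ℝ} (hδ : 0 < δ)
    (hGc : ∀ x ∈ Metric.ball x0 δ, Continuous (G x)) (hG'c : Continuous (G' x0))
    (hL0 : LipW (G x0) θ L0)
    (hd : ∀ x ∈ Metric.ball x0 δ, ∀ φ, HasDerivAt (fun y => G y φ) (G' x φ) x)
    (hL : ∀ x ∈ Metric.ball x0 δ, LipW (G' x) θ L) :
    HasDerivAt (fun x => hil (G x) θ) (hil (G' x0) θ) x0 := by
  have key := intervalIntegral.hasDerivAt_integral_of_dominated_loc_of_deriv_le
    (μ := volume) (a := 0) (b := π / 2) (𝕜 := ℝ) (bound := fun _ => 2 * L)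
    (F := fun x φ => (G x (θ - φ) - G x (θ + φ)) * (cos φ / sin φ))
    (F' := fun x φ => (G' x (θ - φ) - G' x (θ + φ)) * (cos φ / sin φ))
    (x₀ := x0) (s := Metric.ball x0 δ) (Metric.ball_mem_nhds x0 hδ)
    (by
      filter_upwards [Metric.ball_mem_nhds x0 hδ] with x hx
      exact hil_meas (hGc x hx) θ)
    (hil_integrable (hGc x0 (Metric.mem_ball_self hδ)) hL0)
    (hil_meas hG'c θ)
    (Filter.Eventually.of_forall fun φ hφ x hx => by
      rw [uIoc_half] at hφ
      rw [Real.norm_eq_abs]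
      exact hil_int_bound (hL x hx) hφ)
    intervalIntegrable_const
    (Filter.Eventually.of_forall fun φ hφ x hx => by
      exact ((hd x hx (θ - φ)).sub (hd x hx (θ + φ))).mul_const _)
  exact key.2.const_mul (1 / π)

theorem hil_continuousWithinAt {X : Type*} [TopologicalSpace X] [FirstCountableTopology X]
    {G : X → ℝ → ℝ} {T : X → ℝ} {x0 : X} {s : Set X} {L : ℝ}
    (hGc : ∀ᶠ x in 𝓝[s] x0, Continuous (G x))
    (hL : ∀ᶠ x in 𝓝[s] x0, LipW (G x) (T x) L)
    (hc : ∀ φ, ContinuousWithinAt (fun x => G x (T x + φ)) s x0) :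
    ContinuousWithinAt (fun x => hil (G x) (T x)) s x0 := by
  refine ContinuousWithinAt.mul continuousWithinAt_const ?_
  refine intervalIntegral.continuousWithinAt_of_dominated_interval (bound := fun _ => 2 * L)
    ?_ ?_ intervalIntegrable_const ?_
  · filter_upwards [hGc] with x hx
    exact hil_meas hx _
  · filter_upwards [hL] with x hx
    refine Filter.Eventually.of_forall fun φ hφ => ?_
    rw [uIoc_half] at hφ
    rw [Real.norm_eq_abs]
    exact hil_int_bound hx hφ
  · refine Filter.Eventually.of_forall fun φ _ => ?_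
    have h1 := hc (-φ)
    have h2 := hc φ
    simp only [← sub_eq_add_neg] at h1
    exact (h1.sub h2).mul continuousWithinAt_const

/-- logarithmic bound -/
theorem hil_log_bound {k : ℝ → ℝ} (hk : Continuous k) {θ S L : ℝ} (hS : 0 ≤ S) (hL1 : 1 ≤ L)
    (hb : ∀ x, |k x| ≤ S) (hL : LipW k θ L) : |hil k θ| ≤ 2 + 4 * S * (1 + log L) := by
  have hL0 : 0 < L := by linarith
  have hpi := pi_gt_three
  have hpi2 := pi_lt_four
  set f : ℝ → ℝ := fun φ => (k (θ - φ) - k (θ + φ)) * (cos φ / sin φ) with hf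
  have hint : IntervalIntegrable f volume 0 (π / 2) := hil_integrable hk hL
  have hδ0 : 0 < 1 / L := by positivity
  have hδ1 : 1 / L ≤ 1 := by rw [div_le_one hL0]; exact hL1
  have hδ2 : 1 / L ≤ π / 2 := by linarith
  have h1 : IntervalIntegrable f volume 0 (1 / L) := hint.mono_set (by
    rw [uIcc_of_le hδ0.le, uIcc_of_le (by linarith)]; exact Icc_subset_Icc_right hδ2)
  have h2 : IntervalIntegrable f volume (1 / L) (π / 2) := hint.mono_set (by
    rw [uIcc_of_le hδ2, uIcc_of_le (by linarith)]; exact Icc_subset_Icc_left hδ0.le)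
  have e : ∫ φ in (0 : ℝ)..(π / 2), f φ
      = (∫ φ in (0 : ℝ)..(1 / L), f φ) + ∫ φ in (1 / L)..(π / 2), f φ :=
    (intervalIntegral.integral_add_adjacent_intervals h1 h2).symm
  have b1 : |∫ φ in (0 : ℝ)..(1 / L), f φ| ≤ 2 := by
    have := intervalIntegral.norm_integral_le_of_norm_le_const (a := (0 : ℝ)) (b := 1 / L)
      (f := f) (C := 2 * L) (fun φ hφ => by
        rw [uIoc_of_le hδ0.le] at hφ
        rw [Real.norm_eq_abs]
        exact hil_int_bound hL ⟨hφ.1, hφ.2.trans hδ2⟩)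
    rw [Real.norm_eq_abs, sub_zero, abs_of_pos hδ0] at this
    refine this.trans (le_of_eq ?_)
    field_simp
  have b2 : |∫ φ in (1 / L)..(π / 2), f φ| ≤ 2 * S * (1 + log L) := by
    have hle := intervalIntegral.norm_integral_le_of_norm_le (a := 1 / L) (b := π / 2)
      (μ := volume) (f := f) (g := fun φ => 2 * S * (1 / φ)) hδ2
      (Filter.Eventually.of_forall fun φ hφ => by
        have hφ0 : 0 < φ := hδ0.trans hφ.1
        obtain ⟨c0, c1⟩ := cot_bound hφ0 hφ.2
        rw [Real.norm_eq_abs, hf]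
        simp only
        rw [abs_mul, abs_of_nonneg c0]
        have hk2 : |k (θ - φ) - k (θ + φ)| ≤ 2 * S := by
          have := abs_sub (k (θ - φ)) (k (θ + φ))
          linarith [hb (θ - φ), hb (θ + φ)]
        have hc2 : cos φ / sin φ ≤ 1 / φ := by
          rw [le_div_iff₀ hφ0]; linarith
        exact mul_le_mul hk2 hc2 c0 (by positivity))
      (ContinuousOn.intervalIntegrable (by
        rw [uIcc_of_le hδ2]
        refine continuousOn_const.mul (continuousOn_const.div continuousOn_id fun x hx => ?_)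
        exact (hδ0.trans_le hx.1).ne'))
    rw [Real.norm_eq_abs, intervalIntegral.integral_const_mul,
      integral_one_div_of_pos hδ0 (by positivity)] at hle
    refine hle.trans ?_
    refine mul_le_mul_of_nonneg_left ?_ (by positivity)
    have e1 : π / 2 / (1 / L) = (π / 2) * L := by field_simp
    rw [e1, log_mul (by positivity) hL0.ne']
    have := log_le_sub_one_of_pos (show 0 < π / 2 by positivity)
    linarith
  have hlog : 0 ≤ log L := log_nonneg hL1
  unfold hil
  change |1 / π * ∫ φ in (0 : ℝ)..(π / 2), f φ| ≤ _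
  rw [e, abs_mul, abs_of_pos (by positivity : 0 < 1 / π)]
  have hsum : |(∫ φ in (0 : ℝ)..(1 / L), f φ) + ∫ φ in (1 / L)..(π / 2), f φ|
      ≤ 2 + 2 * S * (1 + log L) := (abs_add_le _ _).trans (add_le_add b1 b2)
  have hp1 : 1 / π ≤ 1 := by rw [div_le_one (by positivity)]; linarith
  have hS2 : 0 ≤ S * (1 + log L) := by positivity
  calc 1 / π * |(∫ φ in (0 : ℝ)..(1 / L), f φ) + ∫ φ in (1 / L)..(π / 2), f φ|
      ≤ 1 * (2 + 2 * S * (1 + log L)) :=
        mul_le_mul hp1 hsum (abs_nonneg _) zero_le_one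
    _ ≤ 2 + 4 * S * (1 + log L) := by nlinarith

/-- first commutator: multiplication by `cos 2θ` -/
theorem hil_comm_cos {k : ℝ → ℝ} (hk : Continuous k) {θ L M : ℝ} (hL : LipW k θ L)
    (hM : LipW (fun φ => cos (2 * φ) * k φ) θ M) :
    cos (2 * θ) * hil k θ - hil (fun φ => cos (2 * φ) * k φ) θ
      = -(1 / π) * ∫ φ in (-(π / 2))..(π / 2),
          (sin (2 * θ) + sin (2 * (θ + φ))) * k (θ + φ) := by
  have hi1 := hil_integrable hk hL
  have hi2 := hil_integrable (k := fun φ => cos (2 * φ) * k φ) (by fun_prop) hM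
  have hpi := pi_pos
  -- split the right integral
  have hcont : Continuous (fun φ => (sin (2 * θ) + sin (2 * (θ + φ))) * k (θ + φ)) := by fun_prop
  have e1 : ∫ φ in (-(π / 2))..(π / 2), (sin (2 * θ) + sin (2 * (θ + φ))) * k (θ + φ)
      = (∫ φ in (0 : ℝ)..(π / 2), (sin (2 * θ) + sin (2 * (θ - φ))) * k (θ - φ))
        + ∫ φ in (0 : ℝ)..(π / 2), (sin (2 * θ) + sin (2 * (θ + φ))) * k (θ + φ) := by
    rw [← intervalIntegral.integral_add_adjacent_intervals (a := -(π / 2)) (b := 0)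
      (hcont.intervalIntegrable _ _) (hcont.intervalIntegrable _ _)]
    congr 1
    have := intervalIntegral.integral_comp_neg (a := 0) (b := π / 2)
      (fun φ => (sin (2 * θ) + sin (2 * (θ + φ))) * k (θ + φ))
    rw [neg_zero] at this
    rw [← this]
    refine intervalIntegral.integral_congr fun φ _ => ?_
    simp only [← sub_eq_add_neg]
  have e2 : cos (2 * θ) * hil k θ - hil (fun φ => cos (2 * φ) * k φ) θ
      = (1 / π) * ∫ φ in (0 : ℝ)..(π / 2),
        (cos (2 * θ) * ((k (θ - φ) - k (θ + φ)) * (cos φ / sin φ))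
          - (cos (2 * (θ - φ)) * k (θ - φ) - cos (2 * (θ + φ)) * k (θ + φ))
            * (cos φ / sin φ)) := by
    unfold hil
    rw [intervalIntegral.integral_sub (hi1.const_mul _) hi2, intervalIntegral.integral_const_mul]
    ring
  rw [e2, e1, neg_mul, ← mul_neg]
  congr 1
  rw [← intervalIntegral.integral_add ((by fun_prop : Continuous _).intervalIntegrable _ _)
    ((by fun_prop : Continuous _).intervalIntegrable _ _), ← intervalIntegral.integral_neg]
  refine intervalIntegral.integral_congr_ae (Filter.Eventually.of_forall fun φ hφ => ?_)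
  rw [uIoc_half] at hφ
  have hs : sin φ ≠ 0 := (sin_pos_of_pos_of_lt_pi hφ.1 (by linarith [hφ.2])).ne'
  have a1 : cos (2 * θ) - cos (2 * (θ - φ)) = -(sin φ * (2 * sin (2 * θ - φ))) := by
    rw [cos_sub_cos]
    rw [show (2 * θ + 2 * (θ - φ)) / 2 = 2 * θ - φ by ring,
      show (2 * θ - 2 * (θ - φ)) / 2 = φ by ring]; ring
  have a2 : cos (2 * θ) - cos (2 * (θ + φ)) = sin φ * (2 * sin (2 * θ + φ)) := by
    rw [cos_sub_cos]
    rw [show (2 * θ + 2 * (θ + φ)) / 2 = 2 * θ + φ by ring,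
      show (2 * θ - 2 * (θ + φ)) / 2 = -φ by ring, sin_neg]; ring
  have a3 : 2 * sin (2 * θ - φ) * cos φ = sin (2 * θ) + sin (2 * (θ - φ)) := by
    have := sin_add (2 * θ - φ) φ
    have h2 := sin_sub (2 * θ - φ) φ
    rw [show 2 * θ - φ + φ = 2 * θ by ring] at this
    rw [show 2 * θ - φ - φ = 2 * (θ - φ) by ring] at h2
    rw [this, h2]; ring
  have a4 : 2 * sin (2 * θ + φ) * cos φ = sin (2 * θ) + sin (2 * (θ + φ)) := by
    have := sin_add (2 * θ + φ) φ
    have h2 := sin_sub (2 * θ + φ) φ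
    rw [show 2 * θ + φ + φ = 2 * (θ + φ) by ring] at this
    rw [show 2 * θ + φ - φ = 2 * θ by ring] at h2
    rw [this, h2]; ring
  rw [← a3, ← a4]
  have e3 : cos (2 * θ) * ((k (θ - φ) - k (θ + φ)) * (cos φ / sin φ))
          - (cos (2 * (θ - φ)) * k (θ - φ) - cos (2 * (θ + φ)) * k (θ + φ))
            * (cos φ / sin φ)
      = ((cos (2 * θ) - cos (2 * (θ - φ))) * k (θ - φ)
        - (cos (2 * θ) - cos (2 * (θ + φ))) * k (θ + φ)) * (cos φ / sin φ) := by ring
  rw [e3, a1, a2]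
  field_simp
  ring

/-- second commutator: multiplication by `sin 2θ` -/
theorem hil_comm_sin {k : ℝ → ℝ} (hk : Continuous k) {θ L M : ℝ} (hL : LipW k θ L)
    (hM : LipW (fun φ => sin (2 * φ) * k φ) θ M) :
    sin (2 * θ) * hil k θ - hil (fun φ => sin (2 * φ) * k φ) θ
      = (1 / π) * ∫ φ in (-(π / 2))..(π / 2),
          (cos (2 * θ) + cos (2 * (θ + φ))) * k (θ + φ) := by
  have hi1 := hil_integrable hk hL
  have hi2 := hil_integrable (k := fun φ => sin (2 * φ) * k φ) (by fun_prop) hM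
  have hpi := pi_pos
  have hcont : Continuous (fun φ => (cos (2 * θ) + cos (2 * (θ + φ))) * k (θ + φ)) := by fun_prop
  have e1 : ∫ φ in (-(π / 2))..(π / 2), (cos (2 * θ) + cos (2 * (θ + φ))) * k (θ + φ)
      = (∫ φ in (0 : ℝ)..(π / 2), (cos (2 * θ) + cos (2 * (θ - φ))) * k (θ - φ))
        + ∫ φ in (0 : ℝ)..(π / 2), (cos (2 * θ) + cos (2 * (θ + φ))) * k (θ + φ) := by
    rw [← intervalIntegral.integral_add_adjacent_intervals (a := -(π / 2)) (b := 0)
      (hcont.intervalIntegrable _ _) (hcont.intervalIntegrable _ _)]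
    congr 1
    have := intervalIntegral.integral_comp_neg (a := 0) (b := π / 2)
      (fun φ => (cos (2 * θ) + cos (2 * (θ + φ))) * k (θ + φ))
    rw [neg_zero] at this
    rw [← this]
    refine intervalIntegral.integral_congr fun φ _ => ?_
    simp only [← sub_eq_add_neg]
  have e2 : sin (2 * θ) * hil k θ - hil (fun φ => sin (2 * φ) * k φ) θ
      = (1 / π) * ∫ φ in (0 : ℝ)..(π / 2),
        (sin (2 * θ) * ((k (θ - φ) - k (θ + φ)) * (cos φ / sin φ))
          - (sin (2 * (θ - φ)) * k (θ - φ) - sin (2 * (θ + φ)) * k (θ + φ))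
            * (cos φ / sin φ)) := by
    unfold hil
    rw [intervalIntegral.integral_sub (hi1.const_mul _) hi2, intervalIntegral.integral_const_mul]
    ring
  rw [e2, e1]
  congr 1
  rw [← intervalIntegral.integral_add ((by fun_prop : Continuous _).intervalIntegrable _ _)
    ((by fun_prop : Continuous _).intervalIntegrable _ _)]
  refine intervalIntegral.integral_congr_ae (Filter.Eventually.of_forall fun φ hφ => ?_)
  rw [uIoc_half] at hφ
  have hs : sin φ ≠ 0 := (sin_pos_of_pos_of_lt_pi hφ.1 (by linarith [hφ.2])).ne'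
  have a1 : sin (2 * θ) - sin (2 * (θ - φ)) = sin φ * (2 * cos (2 * θ - φ)) := by
    rw [sin_sub_sin]
    rw [show (2 * θ + 2 * (θ - φ)) / 2 = 2 * θ - φ by ring,
      show (2 * θ - 2 * (θ - φ)) / 2 = φ by ring]; ring
  have a2 : sin (2 * θ) - sin (2 * (θ + φ)) = -(sin φ * (2 * cos (2 * θ + φ))) := by
    rw [sin_sub_sin]
    rw [show (2 * θ + 2 * (θ + φ)) / 2 = 2 * θ + φ by ring,
      show (2 * θ - 2 * (θ + φ)) / 2 = -φ by ring, sin_neg]; ring
  have a3 : 2 * cos (2 * θ - φ) * cos φ = cos (2 * θ) + cos (2 * (θ - φ)) := by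
    have := cos_add (2 * θ - φ) φ
    have h2 := cos_sub (2 * θ - φ) φ
    rw [show 2 * θ - φ + φ = 2 * θ by ring] at this
    rw [show 2 * θ - φ - φ = 2 * (θ - φ) by ring] at h2
    have h3 := cos_add (2 * θ - φ) (-φ)
    rw [show 2 * θ - φ + -φ = 2 * (θ - φ) by ring, cos_neg, sin_neg] at h3
    rw [this, h3]; ring
  have a4 : 2 * cos (2 * θ + φ) * cos φ = cos (2 * θ) + cos (2 * (θ + φ)) := by
    have := cos_add (2 * θ + φ) φ
    have h3 := cos_add (2 * θ + φ) (-φ)
    rw [show 2 * θ + φ + φ = 2 * (θ + φ) by ring] at this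
    rw [show 2 * θ + φ + -φ = 2 * θ by ring, cos_neg, sin_neg] at h3
    rw [this, h3]; ring
  rw [← a3, ← a4]
  have e3 : sin (2 * θ) * ((k (θ - φ) - k (θ + φ)) * (cos φ / sin φ))
          - (sin (2 * (θ - φ)) * k (θ - φ) - sin (2 * (θ + φ)) * k (θ + φ))
            * (cos φ / sin φ)
      = ((sin (2 * θ) - sin (2 * (θ - φ))) * k (θ - φ)
        - (sin (2 * θ) - sin (2 * (θ + φ))) * k (θ + φ)) * (cos φ / sin φ) := by ring
  rw [e3, a1, a2]
  field_simp
  ring

end Run7.h65
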