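import Pool.Agent.Run7.h65.Fields

open Set Real MeasureTheory Filter Topology

namespace Run7.h65

noncomputable def hilF (Ψ : E3 → ℝ) (t s θ : ℝ) : ℝ := hil (fun φ => Ψ (t, (s, φ))) θ

variable {Ψ : E3 → ℝ}

theorem win_abs {θ φ : ℝ} (hφ : φ ∈ Icc (θ - π / 2) (θ + π / 2)) : |φ| ≤ |θ| + π / 2 := by
  rw [abs_le]
  have h1 := neg_abs_le θ
  have h2 := le_abs_self θ
  exact ⟨by linarith [hφ.1], by linarith [hφ.2]⟩

theorem Sm.exists_lipW (h : Sm Ψ) (t0 s0 R : ℝ) :
    ∃ L, 0 ≤ L ∧ ∀ t, 0 ≤ t → t ≤ t0 → ∀ s, |s - s0| ≤ 1 → ∀ θ, |θ| ≤ R →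
      LipW (fun φ => Ψ (t, (s, φ))) θ L := by
  obtain ⟨L, hL0, hL⟩ := (h.dd eth).local_bound t0 s0 (R + π / 2)
  refine ⟨L, hL0, fun t ht ht0 s hs θ hθ => h.lipW ht fun φ hφ => ?_⟩
  exact hL t ht ht0 s hs φ ((win_abs hφ).trans (by linarith))

theorem hilF_s (h : Sm Ψ) {t : ℝ} (ht : 0 ≤ t) (s θ : ℝ) :
    HasDerivAt (fun σ => hilF Ψ t σ θ) (hilF (DD es Ψ) t s θ) s := by
  obtain ⟨L, hL0, hL⟩ := (h.dd es).exists_lipW t s |θ|
  obtain ⟨L', hL0', hL'⟩ := h.exists_lipW t s |θ|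
  exact hil_hasDerivAt (G := fun σ φ => Ψ (t, (σ, φ))) (G' := fun σ φ => DD es Ψ (t, (σ, φ)))
    one_pos (fun x _ => h.cont_line ht x) ((h.dd es).cont_line ht s)
    (hL' t ht le_rfl s (by simp) θ le_rfl)
    (fun x _ φ => h.deriv_s ht x φ)
    (fun x hx => hL t ht le_rfl x (by
      rw [Metric.mem_ball, Real.dist_eq] at hx; exact hx.le) θ le_rfl)

theorem hilF_t (h : Sm Ψ) {t : ℝ} (ht : 0 < t) (s θ : ℝ) :
    HasDerivAt (fun τ => hilF Ψ τ s θ) (hilF (DD et Ψ) t s θ) t := by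
  obtain ⟨L, hL0, hL⟩ := (h.dd et).exists_lipW (2 * t) s |θ|
  obtain ⟨L', hL0', hL'⟩ := h.exists_lipW t s |θ|
  have hpos : ∀ x ∈ Metric.ball t (t / 2), 0 < x ∧ x ≤ 2 * t := fun x hx => by
    rw [Metric.mem_ball, Real.dist_eq, abs_lt] at hx
    constructor <;> linarith [hx.1, hx.2]
  exact hil_hasDerivAt (G := fun τ φ => Ψ (τ, (s, φ))) (G' := fun τ φ => DD et Ψ (τ, (s, φ)))
    (δ := t / 2) (by positivity) (fun x hx => h.cont_line (hpos x hx).1.le s)
    ((h.dd et).cont_line ht.le s)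
    (hL' t ht.le le_rfl s (by simp) θ le_rfl)
    (fun x hx φ => h.deriv_t (hpos x hx).1 s φ)
    (fun x hx => hL x (hpos x hx).1.le (hpos x hx).2 s (by simp) θ le_rfl)

theorem hil_shift (k : ℝ → ℝ) (θ x : ℝ) : hil k x = hil (fun φ => k (φ + (x - θ))) θ := by
  unfold hil
  congr 1
  refine intervalIntegral.integral_congr fun φ _ => ?_
  simp only
  rw [show θ - φ + (x - θ) = x - φ by ring, show θ + φ + (x - θ) = x + φ by ring]

theorem hilF_th (h : Sm Ψ) {t : ℝ} (ht : 0 ≤ t) (s θ : ℝ) :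
    HasDerivAt (fun x => hilF Ψ t s x) (hilF (DD eth Ψ) t s θ) θ := by
  obtain ⟨L, hL0, hL⟩ := (h.dd eth).exists_lipW t s (|θ| + 1)
  obtain ⟨L', hL0', hL'⟩ := h.exists_lipW t s |θ|
  have e : (fun x => hilF Ψ t s x) = fun x => hil (fun φ => Ψ (t, (s, φ + (x - θ)))) θ := by
    funext x; exact hil_shift _ θ x
  rw [e]
  have key := hil_hasDerivAt (x0 := θ) (θ := θ) (G := fun x φ => Ψ (t, (s, φ + (x - θ))))
    (G' := fun x φ => DD eth Ψ (t, (s, φ + (x - θ)))) (L := L) (L0 := L')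
    one_pos (fun x _ => (h.cont_line ht s).comp (by fun_prop : Continuous fun φ => φ + (x - θ)))
    (((h.dd eth).cont_line ht s).comp (by fun_prop : Continuous fun φ => φ + (θ - θ)))
    (by simpa using hL' t ht le_rfl s (by simp) θ le_rfl)
    (fun x _ φ => by
      have h1 := h.deriv_th ht s (φ + (x - θ))
      have h2 : HasDerivAt (fun x : ℝ => φ + (x - θ)) 1 x := by
        simpa using ((hasDerivAt_id x).sub_const θ).const_add φ
      have h3 := h1.comp x h2
      rw [mul_one] at h3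
      exact h3)
    (fun x hx => by
      rw [Metric.mem_ball, Real.dist_eq] at hx
      have h1 := hL t ht le_rfl s (by simp) x (by
        have := abs_sub_abs_le_abs_sub x θ
        linarith)
      intro a ha b hb
      have h2 := h1 (a + (x - θ)) ⟨by linarith [ha.1], by linarith [ha.2]⟩ (b + (x - θ))
        ⟨by linarith [hb.1], by linarith [hb.2]⟩
      simpa using h2)
  refine key.congr_deriv ?_
  simp [hilF]

theorem hilF_cont (h : Sm Ψ) : ContinuousOn (fun p : E3 => hilF Ψ p.1 p.2.1 p.2.2) S3 := by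
  intro p0 hp0
  obtain ⟨L, hL0, hL⟩ := h.exists_lipW (p0.1 + 1) p0.2.1 (|p0.2.2| + 1)
  have hnear : ∀ᶠ x : E3 in 𝓝[S3] p0, 0 ≤ x.1 ∧ x.1 ≤ p0.1 + 1 ∧ |x.2.1 - p0.2.1| ≤ 1 ∧
      |x.2.2| ≤ |p0.2.2| + 1 := by
    have h1 : ∀ᶠ x : E3 in 𝓝[S3] p0, x ∈ S3 := self_mem_nhdsWithin
    have h2 : ∀ᶠ x : E3 in 𝓝 p0, x.1 < p0.1 + 1 :=
      (continuous_fst.tendsto p0).eventually_lt_const (by linarith)
    have h3 : ∀ᶠ x : E3 in 𝓝 p0, |x.2.1 - p0.2.1| < 1 := by
      have hc : Continuous fun x : E3 => |x.2.1 - p0.2.1| := by fun_prop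
      exact (hc.tendsto p0).eventually_lt_const (by simp)
    have h4 : ∀ᶠ x : E3 in 𝓝 p0, |x.2.2| < |p0.2.2| + 1 := by
      have hc : Continuous fun x : E3 => |x.2.2| := by fun_prop
      exact (hc.tendsto p0).eventually_lt_const (by linarith)
    filter_upwards [h1, mem_nhdsWithin_of_mem_nhds h2, mem_nhdsWithin_of_mem_nhds h3,
      mem_nhdsWithin_of_mem_nhds h4] with x a b c d
    exact ⟨a.1, le_of_lt b, le_of_lt c, le_of_lt d⟩
  refine hil_continuousWithinAt (G := fun (p : E3) φ => Ψ (p.1, (p.2.1, φ)))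
    (T := fun p : E3 => p.2.2) (L := L) ?_ ?_ ?_
  · filter_upwards [hnear] with x hx
    exact h.cont_line hx.1 x.2.1
  · filter_upwards [hnear] with x hx
    exact hL x.1 hx.1 hx.2.1 x.2.1 hx.2.2.1 x.2.2 hx.2.2.2
  · intro φ
    exact (h.continuousOn (p0.1, (p0.2.1, p0.2.2 + φ)) (mem_S3 hp0.1 _)).comp
      (f := fun x : E3 => ((x.1, (x.2.1, x.2.2 + φ)) : E3)) (by fun_prop)
      (fun x hx => mem_S3 hx.1 _)

/-- `π`-periodicity and antisymmetry about `π/2` -/
def Per (Ψ : E3 → ℝ) : Prop := ∀ t, 0 ≤ t → ∀ s φ, Ψ (t, (s, φ + π)) = Ψ (t, (s, φ))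
def Anti (Ψ : E3 → ℝ) : Prop := ∀ t, 0 ≤ t → ∀ s φ, Ψ (t, (s, π - φ)) = -Ψ (t, (s, φ))

theorem Per.dd_s (hs : Sm Ψ) (hp : Per Ψ) : Per (DD es Ψ) := by
  intro t ht s φ
  have h1 := hs.deriv_s ht s (φ + π)
  have h2 := hs.deriv_s ht s φ
  have e : (fun σ => Ψ (t, (σ, φ + π))) = fun σ => Ψ (t, (σ, φ)) := by
    funext σ; exact hp t ht σ φ
  rw [e] at h1
  exact h1.unique h2

theorem Anti.dd_s (hs : Sm Ψ) (hp : Anti Ψ) : Anti (DD es Ψ) := by
  intro t ht s φ
  have h1 := hs.deriv_s ht s (π - φ)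
  have h2 := (hs.deriv_s ht s φ).neg
  have e : (fun σ => Ψ (t, (σ, π - φ))) = fun σ => -Ψ (t, (σ, φ)) := by
    funext σ; exact hp t ht σ φ
  rw [e] at h1
  exact h1.unique h2

theorem Per.dd_th (hs : Sm Ψ) (hp : Per Ψ) : Per (DD eth Ψ) := by
  intro t ht s φ
  have h1 := hs.deriv_th ht s (φ + π)
  have h2 := hs.deriv_th ht s φ
  have h3 : HasDerivAt (fun φ : ℝ => φ + π) 1 φ := by simpa using (hasDerivAt_id φ).add_const π
  have h4 := h1.comp φ h3
  have e : (fun φ => Ψ (t, (s, φ))) ∘ (fun φ : ℝ => φ + π) = fun φ => Ψ (t, (s, φ)) := by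
    funext x; exact hp t ht s x
  rw [e, mul_one] at h4
  exact h4.unique h2

/-- integrals over a period -/
theorem per_window {f : ℝ → ℝ} (hf : Function.Periodic f π) (θ : ℝ) :
    ∫ φ in (-(π / 2))..(π / 2), f (θ + φ) = ∫ φ in (0 : ℝ)..π, f φ := by
  rw [intervalIntegral.integral_comp_add_left]
  have := hf.intervalIntegral_add_eq (θ + -(π / 2)) 0
  rw [zero_add] at this
  rw [← this]
  congr 1
  ring

theorem per_double {f : ℝ → ℝ} (hf : Function.Periodic f π) (hc : Continuous f) :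
    ∫ φ in (0 : ℝ)..(2 * π), f φ = 2 * ∫ φ in (0 : ℝ)..π, f φ := by
  rw [← intervalIntegral.integral_add_adjacent_intervals (a := 0) (b := π)
    (hc.intervalIntegrable _ _) (hc.intervalIntegrable _ _)]
  have := hf.intervalIntegral_add_eq π 0
  rw [zero_add] at this
  rw [show (2 : ℝ) * π = π + π by ring, this]
  ring

theorem anti_zero {f : ℝ → ℝ} (hf : ∀ φ, f (π - φ) = -f φ) : ∫ φ in (0 : ℝ)..π, f φ = 0 := by
  have := intervalIntegral.integral_comp_sub_left (a := 0) (b := π) f π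
  rw [sub_self, sub_zero] at this
  have h2 : ∫ φ in (0 : ℝ)..π, f (π - φ) = -∫ φ in (0 : ℝ)..π, f φ := by
    rw [← intervalIntegral.integral_neg]
    exact intervalIntegral.integral_congr fun φ _ => hf φ
  linarith

namespace OddSol

variable {ω : ℝ → ℝ × ℝ → ℝ} (h : OddSol ω)

include h

theorem per_A : Per (AF ω) := by
  intro t ht s φ
  have e : lpc (s, φ + π) = -lpc (s, φ) := by
    simp [lpc, cos_add_pi, sin_add_pi]
  have hA : ∀ z : ℝ × ℝ, act (ω t) (-z) = act (ω t) z := by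
    intro z
    have h1 := h.odd t ht (sx z)
    have h2 := h.odd t ht z
    have e1 : sy (sx z) = -z := rfl
    have e2 : sx (-z) = sy z := by simp [sy, sx]
    rw [e1] at h1
    unfold act
    rw [e2, h1, h2]
    ring
  change act (ω t) (lpc (s, φ + π)) = act (ω t) (lpc (s, φ))
  rw [e, hA]

omit h in
theorem anti_A : Anti (AF ω) := by
  intro t _ s φ
  have e : lpc (s, π - φ) = sx (lpc (s, φ)) := by
    simp [lpc, sx, cos_pi_sub, sin_pi_sub]
  change act (ω t) (lpc (s, π - φ)) = -act (ω t) (lpc (s, φ))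
  rw [e]
  have e2 : sx (sx (lpc (s, φ))) = lpc (s, φ) := by simp [sx]
  unfold act
  rw [e2]
  ring

/-- **The key identity**: the material derivative of the conjugate function. -/
theorem hil_material {t : ℝ} (ht : 0 < t) (s θ : ℝ) :
    hilF (DD et (AF ω)) t s θ + 2 * gF ω t s * cos (2 * θ) * hilF (DD es (AF ω)) t s θ
      - (2 * gF ω t s - bF ω t s) * sin (2 * θ) * hilF (DD eth (AF ω)) t s θ
    = -(gF ω t s * mom s2 (DD es (AF ω)) t s) - (2 * gF ω t s - bF ω t s) * bF ω t s := by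
  have hA := h.sm_A
  have hpi := pi_pos
  set g := gF ω t s
  set b := bF ω t s with hb
  -- windows
  obtain ⟨L1, -, hL1⟩ := (hA.dd es).exists_lipW t s |θ|
  obtain ⟨L2, -, hL2⟩ := (hA.dd eth).exists_lipW t s |θ|
  have w1 := hL1 t ht.le le_rfl s (by simp) θ le_rfl
  have w2 := hL2 t ht.le le_rfl s (by simp) θ le_rfl
  have c1 := (hA.dd es).cont_line ht.le s
  have c2 := (hA.dd eth).cont_line ht.le s
  -- Lipschitz windows of products with trigonometric functions
  have prodLip : ∀ (k κ : ℝ → ℝ) (L : ℝ), Continuous k → LipW k θ L →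
      (∀ x, |κ x| ≤ 1) → (∀ x y, |κ x - κ y| ≤ 2 * |x - y|) →
      ∃ M, LipW (fun φ => κ φ * k φ) θ M := by
    intro k κ L hkc hk hκ1 hκ2
    obtain ⟨C, hC⟩ := (isCompact_Icc (a := θ - π / 2) (b := θ + π / 2)).exists_bound_of_continuousOn
      hkc.continuousOn
    refine ⟨L + 2 * C, fun x hx y hy => ?_⟩
    have e : κ x * k x - κ y * k y = κ x * (k x - k y) + (κ x - κ y) * k y := by ring
    rw [e]
    refine (abs_add_le _ _).trans ?_
    rw [abs_mul, abs_mul]
    have a1 : |κ x| * |k x - k y| ≤ 1 * (L * |x - y|) :=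
      mul_le_mul (hκ1 x) (hk x hx y hy) (abs_nonneg _) zero_le_one
    have a2 : |κ x - κ y| * |k y| ≤ (2 * |x - y|) * C :=
      mul_le_mul (hκ2 x y) (hC y hy) (abs_nonneg _) (by positivity)
    linarith
  have cosLip : ∀ x y : ℝ, |cos (2 * x) - cos (2 * y)| ≤ 2 * |x - y| := by
    intro x y
    have := mvt (g := fun x : ℝ => cos (2 * x)) (g' := fun x => -sin (2 * x) * 2) (x := y) (y := x)
      (C := 2) (by fun_prop) (fun s _ => by
        have h1 : HasDerivAt (fun φ : ℝ => 2 * φ) 2 s := by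
          simpa using (hasDerivAt_id s).const_mul 2
        exact h1.cos) (fun s _ => by
        rw [abs_mul, abs_neg, abs_two]; linarith [abs_sin_le_one (2 * s)])
    exact this
  have sinLip : ∀ x y : ℝ, |sin (2 * x) - sin (2 * y)| ≤ 2 * |x - y| := by
    intro x y
    have := mvt (g := fun x : ℝ => sin (2 * x)) (g' := fun x => cos (2 * x) * 2) (x := y) (y := x)
      (C := 2) (by fun_prop) (fun s _ => by
        have h1 : HasDerivAt (fun φ : ℝ => 2 * φ) 2 s := by
          simpa using (hasDerivAt_id s).const_mul 2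
        exact h1.sin) (fun s _ => by
        rw [abs_mul, abs_two]; linarith [abs_cos_le_one (2 * s)])
    exact this
  obtain ⟨M1, hM1⟩ := prodLip _ (fun x => cos (2 * x)) L1 c1 w1 (fun x => abs_cos_le_one _) cosLip
  obtain ⟨M2, hM2⟩ := prodLip _ (fun x => sin (2 * x)) L2 c2 w2 (fun x => abs_sin_le_one _) sinLip
  have k1 := hil_comm_cos c1 w1 hM1
  have k2 := hil_comm_sin c2 w2 hM2
  -- expansion of the time derivative
  have hexp : hilF (DD et (AF ω)) t s θ
      = -(2 * g) * hil (fun φ => cos (2 * φ) * DD es (AF ω) (t, (s, φ))) θ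
        + (2 * g - b) * hil (fun φ => sin (2 * φ) * DD eth (AF ω) (t, (s, φ))) θ := by
    have e : (fun φ => DD et (AF ω) (t, (s, φ)))
        = fun φ => (-(2 * g)) * (cos (2 * φ) * DD es (AF ω) (t, (s, φ)))
          + (2 * g - b) * (sin (2 * φ) * DD eth (AF ω) (t, (s, φ))) := by
      funext φ
      rw [h.tr_A.pde t ht s φ]
      ring
    unfold hilF
    rw [e]
    have q1 : LipW (fun φ => (-(2 * g)) * (cos (2 * φ) * DD es (AF ω) (t, (s, φ)))) θ
        (|2 * g| * M1) := by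
      intro x hx y hy
      rw [← mul_sub, abs_mul, abs_neg, mul_assoc]
      exact mul_le_mul_of_nonneg_left (hM1 x hx y hy) (abs_nonneg _)
    have q2 : LipW (fun φ => (2 * g - b) * (sin (2 * φ) * DD eth (AF ω) (t, (s, φ)))) θ
        (|2 * g - b| * M2) := by
      intro x hx y hy
      rw [← mul_sub, abs_mul, mul_assoc]
      exact mul_le_mul_of_nonneg_left (hM2 x hx y hy) (abs_nonneg _)
    rw [hil_add (by fun_prop) (by fun_prop) q1 q2, hil_const_mul, hil_const_mul]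
  -- the two integrals
  have pA := h.per_A
  have aA := anti_A (ω := ω)
  have pAs := Per.dd_s hA pA
  have aAs := Anti.dd_s hA aA
  have pAth := Per.dd_th hA pA
  have persin : ∀ φ, sin (2 * (φ + π)) = sin (2 * φ) := fun φ => by
    rw [mul_add, sin_add_two_pi]
  have percos : ∀ φ, cos (2 * (φ + π)) = cos (2 * φ) := fun φ => by
    rw [mul_add, cos_add_two_pi]
  have I1 : ∫ φ in (-(π / 2))..(π / 2),
      (sin (2 * θ) + sin (2 * (θ + φ))) * DD es (AF ω) (t, (s, θ + φ))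
      = π / 2 * mom s2 (DD es (AF ω)) t s := by
    have e1 := per_window (f := fun φ => (sin (2 * θ) + sin (2 * φ)) * DD es (AF ω) (t, (s, φ)))
      (fun φ => by simp only [persin, pAs t ht.le s φ]) θ
    rw [e1]
    have e2 : ∫ φ in (0 : ℝ)..π, (sin (2 * θ) + sin (2 * φ)) * DD es (AF ω) (t, (s, φ))
        = sin (2 * θ) * (∫ φ in (0 : ℝ)..π, DD es (AF ω) (t, (s, φ)))
          + ∫ φ in (0 : ℝ)..π, DD es (AF ω) (t, (s, φ)) * s2 φ := by
      rw [← intervalIntegral.integral_const_mul, ← intervalIntegral.integral_add]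
      · exact intervalIntegral.integral_congr fun φ _ => by simp only [s2]; ring
      · exact (continuous_const.mul c1).intervalIntegrable _ _
      · exact (c1.mul s2_cont).intervalIntegrable _ _
    rw [e2, anti_zero (fun φ => aAs t ht.le s φ), mul_zero, zero_add]
    unfold mom
    rw [per_double (f := fun φ => DD es (AF ω) (t, (s, φ)) * s2 φ)
      (fun φ => by simp only [s2, persin, pAs t ht.le s φ]) (c1.mul s2_cont)]
    field_simp
  have I2 : ∫ φ in (-(π / 2))..(π / 2),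
      (cos (2 * θ) + cos (2 * (θ + φ))) * DD eth (AF ω) (t, (s, θ + φ))
      = π * b := by
    have e1 := per_window (f := fun φ => (cos (2 * θ) + cos (2 * φ)) * DD eth (AF ω) (t, (s, φ)))
      (fun φ => by simp only [percos, pAth t ht.le s φ]) θ
    rw [e1]
    have e2 := intervalIntegral.integral_mul_deriv_eq_deriv_mul (a := 0) (b := π)
      (u := fun φ : ℝ => cos (2 * θ) + cos (2 * φ)) (v := fun φ => AF ω (t, (s, φ)))
      (u' := fun φ => -sin (2 * φ) * 2) (v' := fun φ => DD eth (AF ω) (t, (s, φ)))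
      (fun φ _ => by
        have h1 : HasDerivAt (fun φ : ℝ => 2 * φ) 2 φ := by
          simpa using (hasDerivAt_id φ).const_mul 2
        exact h1.cos.const_add _) (fun φ _ => hA.deriv_th ht.le s φ)
      ((by fun_prop : Continuous fun φ : ℝ => -sin (2 * φ) * 2).intervalIntegrable _ _)
      (c2.intervalIntegrable _ _)
    have p0 := pA t ht.le s 0
    rw [zero_add] at p0
    have a0 := aA t ht.le s 0
    rw [sub_zero] at a0
    have z0 : AF ω (t, (s, 0)) = 0 := by linarith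
    rw [e2, p0, z0, mul_zero, mul_zero, sub_zero, zero_sub, hb, h.bF_eq ht.le]
    unfold mom
    rw [per_double (f := fun φ => AF ω (t, (s, φ)) * s2 φ)
      (fun φ => by simp only [s2, persin, pA t ht.le s φ]) ((hA.cont_line ht.le s).mul s2_cont)]
    have e3 : ∫ φ in (0 : ℝ)..π, -sin (2 * φ) * 2 * AF ω (t, (s, φ))
        = -(2 * ∫ φ in (0 : ℝ)..π, AF ω (t, (s, φ)) * s2 φ) := by
      rw [← intervalIntegral.integral_const_mul, ← intervalIntegral.integral_neg]
      exact intervalIntegral.integral_congr fun φ _ => by simp only [s2]; ring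
    rw [e3]
    field_simp
  rw [I1] at k1
  rw [I2] at k2
  rw [hexp]
  have f1 : hilF (DD es (AF ω)) t s θ = hil (fun φ => DD es (AF ω) (t, (s, φ))) θ := rfl
  have f2 : hilF (DD eth (AF ω)) t s θ = hil (fun φ => DD eth (AF ω) (t, (s, φ))) θ := rfl
  rw [f1, f2]
  have k1' : cos (2 * θ) * hil (fun φ => DD es (AF ω) (t, (s, φ))) θ
      - hil (fun φ => cos (2 * φ) * DD es (AF ω) (t, (s, φ))) θ
      = -(1 / 2) * mom s2 (DD es (AF ω)) t s := by
    rw [k1]; field_simp
  have k2' : sin (2 * θ) * hil (fun φ => DD eth (AF ω) (t, (s, φ))) θ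
      - hil (fun φ => sin (2 * φ) * DD eth (AF ω) (t, (s, φ))) θ = b := by
    rw [k2]; field_simp
  linear_combination (2 * g) * k1' - (2 * g - b) * k2'

end OddSol

end Run7.h65
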