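import Pool.Agent.Run7.h65.Lower
import Pool.Agent.Run7.h65.DoubleExp

open Set Real MeasureTheory Filter Topology

namespace Run7.h65

namespace SignSol

variable {ω : ℝ → ℝ × ℝ → ℝ} (h : SignSol ω)

include h

theorem sm_C : Sm (fun p : E3 => ω p.1 p.2) := h.sol.smooth

theorem kap_d2 {t : ℝ} (ht : 0 ≤ t) (y : ℝ) :
    DD eth (fun p : E3 => ω p.1 p.2) (t, (0, y)) = d2 (ω t) (0, y) := by
  have h1 := h.sm_C.deriv_th ht 0 y
  have h2 := line2_hasDerivAt (x := 0) (y := y) (h.sol.diff_slice ht (0, y))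
  exact h1.unique h2

theorem dt_axis {t : ℝ} (ht : 0 < t) {y : ℝ} (hy : 0 < y) :
    DD et (fun p : E3 => ω p.1 p.2) (t, (0, y)) = 2 * gF ω t (log y) * (y * d2 (ω t) (0, y)) := by
  have h1 := h.sm_C.deriv_t ht 0 y
  have h2 := h.sol.pde ht (0, y)
  have h3 := h1.unique h2
  rw [h3]
  obtain ⟨v1, v2⟩ := vel_odd (h.sol.cont_slice ht.le) (h.odd t ht.le) (0, y)
  rw [v1, v2]
  have hr : rad (0, y) = y := by
    unfold rad; simp only; rw [show (0 : ℝ) ^ 2 + y ^ 2 = y ^ 2 by ring]; exact sqrt_sq hy.le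
  rw [hr]
  unfold gF
  rw [exp_log hy]
  simp only
  ring

theorem dt_zero {t : ℝ} (ht : 0 < t) :
    DD et (fun p : E3 => ω p.1 p.2) (t, (0, 0)) = 0 := by
  have h1 := h.sm_C.deriv_t ht 0 0
  have h2 := h.sol.pde ht (0, 0)
  have h3 := h1.unique h2
  rw [h3]
  obtain ⟨v1, v2⟩ := vel_odd (h.sol.cont_slice ht.le) (h.odd t ht.le) (0, 0)
  rw [v1, v2]
  simp

/-- the equation for the gradient at the origin, as an inequality -/
theorem kappa_deriv {c₀ : ℝ} (hc₀ : 0 < c₀)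
    (hg : ∀ t, 0 ≤ t → ∃ s₀, ∀ s, s ≤ s₀ → c₀ ≤ gF ω t s) {t : ℝ} (ht : 0 < t) :
    ∃ D, HasDerivAt (fun τ => DD eth (fun p : E3 => ω p.1 p.2) (τ, (0, 0))) D t ∧
      2 * c₀ * (DD eth (fun p : E3 => ω p.1 p.2) (t, (0, 0))) ^ 2
        ≤ DD eth (fun p : E3 => ω p.1 p.2) (t, (0, 0)) * D := by
  have hΦ := h.sm_C
  set Φ : E3 → ℝ := fun p : E3 => ω p.1 p.2 with hΦdef
  refine ⟨_, (hΦ.dd eth).deriv_t ht 0 0, ?_⟩
  have hcomm := DD_comm hΦ eth et (mem_S3 ht.le ((0 : ℝ), (0 : ℝ)))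
  set κ := DD eth Φ (t, (0, 0)) with hκ
  rcases eq_or_ne κ 0 with hz | hz
  · rw [hz]; simp
  have hD := (hΦ.dd et).deriv_th ht.le 0 0
  have e : DD et (DD eth Φ) (t, (0, 0)) = DD eth (DD et Φ) (t, (0, 0)) := by
    first
      | exact hcomm
      | exact hcomm.symm
  rw [e]
  have hs := (hasDerivAt_iff_tendsto_slope.1 hD).mono_left
    (nhdsWithin_mono (0 : ℝ) (fun y (hy : y ∈ Ioi (0 : ℝ)) => ne_of_gt hy))
  have hcont : Tendsto (fun y : ℝ => d2 (ω t) (0, y)) (𝓝[>] 0) (𝓝 κ) := by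
    have h1 : Continuous (fun y : ℝ => DD eth Φ (t, (0, y))) := (hΦ.dd eth).cont_line ht.le 0
    have h2 := (h1.tendsto 0).mono_left (nhdsWithin_le_nhds (s := Ioi (0 : ℝ)))
    refine h2.congr fun y => ?_
    exact h.kap_d2 ht.le y
  obtain ⟨s₀, hs₀⟩ := hg t ht.le
  have hL := hs.const_mul κ
  have hR := (hcont.const_mul κ).const_mul (2 * c₀)
  have hRe : 2 * c₀ * (κ * κ) = 2 * c₀ * κ ^ 2 := by ring
  rw [hRe] at hR
  refine le_of_tendsto_of_tendsto hR hL ?_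
  have hpos : ∀ᶠ y in 𝓝[>] (0 : ℝ), 0 < κ * d2 (ω t) (0, y) := by
    have := hcont.const_mul κ
    have h3 : 0 < κ * κ := mul_self_pos.2 hz
    exact this.eventually_const_lt h3
  have hsmall : ∀ᶠ y in 𝓝[>] (0 : ℝ), y < exp s₀ :=
    mem_nhdsWithin_of_mem_nhds (Iio_mem_nhds (exp_pos s₀))
  filter_upwards [hpos, hsmall, self_mem_nhdsWithin] with y hy1 hy2 hy3
  have hy3' : 0 < y := hy3
  rw [slope_def_field]
  have e1 : DD et Φ (t, (0, 0)) = 0 := h.dt_zero ht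
  have e2 : DD et Φ (t, (0, y)) = 2 * gF ω t (log y) * (y * d2 (ω t) (0, y)) := h.dt_axis ht hy3'
  rw [e1, e2, sub_zero, sub_zero]
  have hgy : c₀ ≤ gF ω t (log y) := hs₀ _ (by
    rw [← log_exp s₀]; exact log_le_log hy3' hy2.le)
  have e3 : κ * (2 * gF ω t (log y) * (y * d2 (ω t) (0, y)) / y)
      = 2 * gF ω t (log y) * (κ * d2 (ω t) (0, y)) := by
    field_simp
  rw [e3]
  exact mul_le_mul_of_nonneg_right (by linarith) hy1.le

/-- **exponential growth of the gradient at the origin** -/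
theorem kappa_growth (hne : ∃ z, act (ω 0) z ≠ 0) :
    ∃ c : ℝ, 0 < c ∧ ∀ t, 0 ≤ t →
      |d2 (ω 0) (0, 0)| * exp (c * t) ≤ |d2 (ω t) (0, 0)| := by
  obtain ⟨c₀, hc₀, hg⟩ := h.g_lower hne
  refine ⟨c₀, hc₀, fun t ht => ?_⟩
  have hΦ := h.sm_C
  set Φ : E3 → ℝ := fun p : E3 => ω p.1 p.2 with hΦdef
  set κ₀ := DD eth Φ (0, (0, 0)) with hκ₀
  have key : ∀ ε : ℝ, 0 < ε → ε < 1 →
      (1 - ε) * κ₀ ^ 2 * exp (2 * c₀ * t) ≤ (DD eth Φ (t, (0, 0))) ^ 2 := by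
    intro ε hε0 hε1
    rcases eq_or_ne κ₀ 0 with hz | hz
    · rw [hz]
      have := sq_nonneg (DD eth Φ (t, (0, 0)))
      simp only [ne_eq, OfNat.ofNat_ne_zero, not_false_eq_true, zero_pow, mul_zero, zero_mul]
      exact this
    have hκ2 : 0 < κ₀ ^ 2 := by positivity
    have := touch (X := Unit)
      (fun τ _ => (1 - ε) * κ₀ ^ 2 * exp (2 * c₀ * τ) - (DD eth Φ (τ, (0, 0))) ^ 2) (T := t)
      univ isCompact_univ
      (by
        refine ContinuousOn.sub (by fun_prop) (ContinuousOn.pow ?_ 2)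
        exact (hΦ.dd eth).continuousOn.comp (f := fun p : ℝ × Unit => ((p.1, (0, 0)) : E3))
          (by fun_prop) (fun p hp => mem_S3 hp.1.1 _))
      (fun _ _ x hx => absurd (mem_univ x) hx)
      (fun x => by
        simp only [mul_zero, exp_zero, mul_one]
        have : 0 < ε * κ₀ ^ 2 := by positivity
        linarith)
      (fun τ hτ _ x _ hx _ => by
        obtain ⟨D, hD, hineq⟩ := h.kappa_deriv hc₀ hg hτ
        have h1 : HasDerivAt (fun τ : ℝ => (1 - ε) * κ₀ ^ 2 * exp (2 * c₀ * τ))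
            ((1 - ε) * κ₀ ^ 2 * (exp (2 * c₀ * τ) * (2 * c₀))) τ := by
          have h2 : HasDerivAt (fun τ : ℝ => 2 * c₀ * τ) (2 * c₀) τ := by
            simpa using (hasDerivAt_id τ).const_mul (2 * c₀)
          exact h2.exp.const_mul _
        refine ⟨_, ?_, h1.sub (hD.pow 2)⟩
        have h3 : (1 - ε) * κ₀ ^ 2 * exp (2 * c₀ * τ) = (DD eth Φ (τ, (0, 0))) ^ 2 := by
          linarith
        have h4 : 0 < (1 - ε) * κ₀ ^ 2 * exp (2 * c₀ * τ) := by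
          have : 0 < 1 - ε := by linarith
          positivity
        have h5 : (1 - ε) * κ₀ ^ 2 * (exp (2 * c₀ * τ) * (2 * c₀))
            = 2 * c₀ * (DD eth Φ (τ, (0, 0))) ^ 2 := by
          rw [← h3]; ring
        rw [h5]
        push_cast
        have h6 : (2 : ℝ) * DD eth Φ (τ, (0, 0)) ^ (2 - 1) * D
            = 2 * (DD eth Φ (τ, (0, 0)) * D) := by
          norm_num; ring
        rw [h6]
        rw [h3] at h4
        have h7 : 0 < c₀ * (DD eth Φ (τ, (0, 0))) ^ 2 := by positivity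
        linarith) t ⟨ht, le_rfl⟩ ()
    linarith
  have hlim : κ₀ ^ 2 * exp (2 * c₀ * t) ≤ (DD eth Φ (t, (0, 0))) ^ 2 := by
    have hl : Tendsto (fun ε : ℝ => (1 - ε) * κ₀ ^ 2 * exp (2 * c₀ * t)) (𝓝[>] 0)
        (𝓝 (κ₀ ^ 2 * exp (2 * c₀ * t))) := by
      have : Continuous (fun ε : ℝ => (1 - ε) * κ₀ ^ 2 * exp (2 * c₀ * t)) := by fun_prop
      have h2 := this.tendsto 0
      simp only [sub_zero, one_mul] at h2
      exact h2.mono_left nhdsWithin_le_nhds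
    refine le_of_tendsto hl ?_
    filter_upwards [Ioo_mem_nhdsGT (zero_lt_one' ℝ)] with ε hε
    exact key ε hε.1 hε.2
  have e0 : κ₀ = d2 (ω 0) (0, 0) := h.kap_d2 le_rfl 0
  have et' : DD eth Φ (t, (0, 0)) = d2 (ω t) (0, 0) := h.kap_d2 ht 0
  rw [e0, et'] at hlim
  have e2 : d2 (ω 0) (0, 0) ^ 2 * exp (2 * c₀ * t) = (d2 (ω 0) (0, 0) * exp (c₀ * t)) ^ 2 := by
    rw [mul_pow, ← exp_nat_mul]
    congr 2
    push_cast; ring
  rw [e2] at hlim
  have := sq_le_sq.1 hlim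
  rwa [abs_mul, abs_of_pos (exp_pos _)] at this

end SignSol

theorem exp_lower {ω : ℝ → ℝ × ℝ → ℝ} (h : IsSmoothSolution ω)
    (hodd : ∀ x y : ℝ, ω 0 (x, -y) = -ω 0 (x, y))
    (hsgn : ∀ x y : ℝ, 0 ≤ x → 0 ≤ y → ω 0 (-x, y) ≤ ω 0 (x, y))
    (hne : ∃ x y : ℝ, ω 0 (-x, y) ≠ ω 0 (x, y)) :
    ∃ c : ℝ, 0 < c ∧ ∀ t, 0 ≤ t →
      ‖fderiv ℝ (ω 0) 0‖ * exp (c * t) ≤ ‖fderiv ℝ (ω t) 0‖ := by
  have ho : OddSol ω := h.oddSol (fun z => hodd z.1 z.2)
  have hs : SignSol ω := ho.signSol (fun z => act_sign (fun z => hodd z.1 z.2) hsgn z)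
  have hne' : ∃ z, act (ω 0) z ≠ 0 := by
    obtain ⟨x, y, hxy⟩ := hne
    refine ⟨(x, y), ?_⟩
    unfold act sx
    simp only
    intro hcon
    apply hxy
    linarith
  obtain ⟨c, hc, hk⟩ := hs.kappa_growth hne'
  refine ⟨c, hc, fun t ht => ?_⟩
  have hnorm : ∀ t, 0 ≤ t → ‖fderiv ℝ (ω t) 0‖ = |d2 (ω t) (0, 0)| := by
    intro t ht
    have hd1 : d1 (ω t) (0, 0) = 0 := by
      have h1 := line1_hasDerivAt (x := 0) (y := 0) (h.diff_slice ht (0, 0))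
      have h2 : (fun x : ℝ => ω t (x, 0)) = fun _ => 0 := by
        funext x; exact ho.zero_x_axis ht x
      rw [h2] at h1
      exact h1.unique (hasDerivAt_const _ _)
    apply le_antisymm
    · refine ContinuousLinearMap.opNorm_le_bound _ (abs_nonneg _) fun v => ?_
      have := fderiv_eq (ω t) (0, 0) v
      have e : fderiv ℝ (ω t) 0 v = v.1 * d1 (ω t) (0, 0) + v.2 * d2 (ω t) (0, 0) := this
      rw [e, hd1, mul_zero, zero_add, Real.norm_eq_abs, abs_mul]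
      have v2 : |v.2| ≤ ‖v‖ := norm_snd_le v
      nlinarith [abs_nonneg (d2 (ω t) (0, 0))]
    · have h1 := (fderiv ℝ (ω t) 0).le_opNorm ((0 : ℝ), (1 : ℝ))
      have h2 : ‖((0 : ℝ), (1 : ℝ))‖ = 1 := by simp [Prod.norm_def]
      rw [h2, mul_one, Real.norm_eq_abs] at h1
      exact h1
  rw [hnorm 0 le_rfl, hnorm t ht]
  exact hk t ht

end Run7.h65
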