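import Pool.Agent.Run7.h65.OddSol

open Set Real MeasureTheory Filter Topology

namespace Run7.h65

/-- space-time in log-polar coordinates: `(t, (s, θ))`, `s = log r` -/
abbrev E3 := ℝ × (ℝ × ℝ)
def S3 : Set E3 := Ici 0 ×ˢ univ
def et : E3 := (1, (0, 0))
def es : E3 := (0, (1, 0))
def eth : E3 := (0, (0, 1))

def Sm (Φ : E3 → ℝ) : Prop := ContDiffOn ℝ ((⊤ : ℕ∞) : WithTop ℕ∞) Φ S3

noncomputable def DD (v : E3) (Φ : E3 → ℝ) : E3 → ℝ := fun p => fderivWithin ℝ Φ S3 p v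

theorem uniqueDiff_S3 : UniqueDiffOn ℝ S3 := uniqueDiff_S

theorem mem_S3 {t : ℝ} (ht : 0 ≤ t) (x : ℝ × ℝ) : (t, x) ∈ S3 := ⟨ht, mem_univ _⟩

theorem S3_closure {p : E3} (hp : p ∈ S3) : p ∈ closure (interior S3) := by
  have : interior S3 = Ioi 0 ×ˢ univ := by
    rw [S3, interior_prod_eq, interior_Ici, interior_univ]
  rw [this, closure_prod_eq, closure_Ioi, closure_univ]
  exact hp

theorem S3_nhds {t : ℝ} (ht : 0 < t) (x : ℝ × ℝ) : S3 ∈ 𝓝 ((t, x) : E3) :=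
  prod_mem_nhds (Ici_mem_nhds ht) univ_mem

variable {Φ : E3 → ℝ}

theorem Sm.dd (h : Sm Φ) (v : E3) : Sm (DD v Φ) := by
  have h1 : ContDiffOn ℝ ((⊤ : ℕ∞) : WithTop ℕ∞) (fderivWithin ℝ Φ S3) S3 :=
    ContDiffOn.fderivWithin h uniqueDiff_S3 (by simp)
  exact h1.clm_apply contDiffOn_const

theorem Sm.continuousOn (h : Sm Φ) : ContinuousOn Φ S3 := ContDiffOn.continuousOn h

theorem Sm.diffOn (h : Sm Φ) : DifferentiableOn ℝ Φ S3 := ContDiffOn.differentiableOn h (by simp)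

theorem Sm.hasFDeriv (h : Sm Φ) {p : E3} (hp : p ∈ S3) :
    HasFDerivWithinAt Φ (fderivWithin ℝ Φ S3 p) S3 p := (h.diffOn p hp).hasFDerivWithinAt

theorem DD_comm (h : Sm Φ) (v w : E3) {p : E3} (hp : p ∈ S3) :
    DD v (DD w Φ) p = DD w (DD v Φ) p := by
  have h1 : ContDiffOn ℝ ((⊤ : ℕ∞) : WithTop ℕ∞) (fderivWithin ℝ Φ S3) S3 :=
    ContDiffOn.fderivWithin h uniqueDiff_S3 (by simp)
  have h2 : DifferentiableWithinAt ℝ (fderivWithin ℝ Φ S3) S3 p :=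
    h1.differentiableOn (by simp) p hp
  have key : ∀ v w : E3, DD v (DD w Φ) p = fderivWithin ℝ (fderivWithin ℝ Φ S3) S3 p v w := by
    intro v w
    have e : (fun q : E3 => fderivWithin ℝ Φ S3 q w)
      = fun q => (fderivWithin ℝ Φ S3 q) ((fun _ => w) q) := rfl
    unfold Run7.h65.DD
    have h3 := h2.hasFDerivWithinAt.clm_apply (hasFDerivWithinAt_const w p S3)
    rw [h3.fderivWithin (uniqueDiff_S3 p hp)]
    simp
  rw [key, key]
  exact (ContDiffWithinAt.isSymmSndFDerivWithinAt (h p hp) (by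
      rw [minSmoothness_of_isRCLikeNormedField]; exact WithTop.coe_le_coe.2 le_top)
    uniqueDiff_S3 (S3_closure hp) hp) v w

theorem Sm.deriv_s (h : Sm Φ) {t : ℝ} (ht : 0 ≤ t) (s θ : ℝ) :
    HasDerivAt (fun σ => Φ (t, (σ, θ))) (DD es Φ (t, (s, θ))) s := by
  have h1 := h.hasFDeriv (mem_S3 ht (s, θ))
  have h2 : HasDerivWithinAt (fun σ : ℝ => ((t, (σ, θ)) : E3)) es univ s :=
    ((hasDerivAt_const s t).prodMk ((hasDerivAt_id s).prodMk
      (hasDerivAt_const s θ))).hasDerivWithinAt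
  have h3 := h1.comp_hasDerivWithinAt s h2 (fun y _ => mem_S3 ht (y, θ))
  rwa [hasDerivWithinAt_univ] at h3

theorem Sm.deriv_th (h : Sm Φ) {t : ℝ} (ht : 0 ≤ t) (s θ : ℝ) :
    HasDerivAt (fun φ => Φ (t, (s, φ))) (DD eth Φ (t, (s, θ))) θ := by
  have h1 := h.hasFDeriv (mem_S3 ht (s, θ))
  have h2 : HasDerivWithinAt (fun φ : ℝ => ((t, (s, φ)) : E3)) eth univ θ :=
    ((hasDerivAt_const θ t).prodMk ((hasDerivAt_const θ s).prodMk
      (hasDerivAt_id θ))).hasDerivWithinAt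
  have h3 := h1.comp_hasDerivWithinAt θ h2 (fun y _ => mem_S3 ht (s, y))
  rwa [hasDerivWithinAt_univ] at h3

theorem Sm.deriv_t (h : Sm Φ) {t : ℝ} (ht : 0 < t) (s θ : ℝ) :
    HasDerivAt (fun τ => Φ (τ, (s, θ))) (DD et Φ (t, (s, θ))) t := by
  have h1 := (h.hasFDeriv (mem_S3 ht.le (s, θ))).hasFDerivAt (S3_nhds ht (s, θ))
  have h2 : HasDerivAt (fun τ : ℝ => ((τ, (s, θ)) : E3)) et t :=
    (hasDerivAt_id t).prodMk (hasDerivAt_const t (s, θ))
  exact h1.comp_hasDerivAt t h2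

/-- the embedding of log-polar space-time into Cartesian space-time -/
noncomputable def lpc (x : ℝ × ℝ) : ℝ × ℝ := (exp x.1 * cos x.2, exp x.1 * sin x.2)

theorem lpc_rad (s θ : ℝ) : rad (lpc (s, θ)) = exp s := rad_polar (exp_pos s).le θ

theorem lpc_contDiff : ContDiff ℝ ((⊤ : ℕ∞) : WithTop ℕ∞) lpc := by
  unfold lpc
  exact ((contDiff_exp.comp contDiff_fst).mul (contDiff_cos.comp contDiff_snd)).prodMk
    ((contDiff_exp.comp contDiff_fst).mul (contDiff_sin.comp contDiff_snd))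

theorem lpc_continuous : Continuous lpc := lpc_contDiff.continuous

/-- pull back to log-polar coordinates -/
noncomputable def pb (f : ℝ → ℝ × ℝ → ℝ) : E3 → ℝ := fun p => f p.1 (lpc p.2)

theorem pb_sm {f : ℝ → ℝ × ℝ → ℝ}
    (hf : ContDiffOn ℝ ((⊤ : ℕ∞) : WithTop ℕ∞) (fun p : ℝ × (ℝ × ℝ) => f p.1 p.2) (Ici 0 ×ˢ univ)) :
    Sm (pb f) := by
  have h1 : ContDiff ℝ ((⊤ : ℕ∞) : WithTop ℕ∞) (fun p : E3 => ((p.1, lpc p.2) : ℝ × (ℝ × ℝ))) :=
    contDiff_fst.prodMk (lpc_contDiff.comp contDiff_snd)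
  exact hf.comp h1.contDiffOn (fun p hp => ⟨hp.1, mem_univ _⟩)

/-- derivatives of a pulled-back slice -/
theorem slice_deriv_s {w : ℝ × ℝ → ℝ} (hw : Differentiable ℝ w) (s θ : ℝ) :
    HasDerivAt (fun σ => w (lpc (σ, θ)))
      (exp s * cos θ * d1 w (lpc (s, θ)) + exp s * sin θ * d2 w (lpc (s, θ))) s := by
  have h1 : HasDerivAt (fun σ : ℝ => lpc (σ, θ)) (exp s * cos θ, exp s * sin θ) s :=
    ((hasDerivAt_exp s).mul_const (cos θ)).prodMk ((hasDerivAt_exp s).mul_const (sin θ))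
  have h2 := (hw (lpc (s, θ))).hasFDerivAt.comp_hasDerivAt s h1
  rw [fderiv_eq] at h2
  exact h2

theorem slice_deriv_th {w : ℝ × ℝ → ℝ} (hw : Differentiable ℝ w) (s θ : ℝ) :
    HasDerivAt (fun φ => w (lpc (s, φ)))
      (-(exp s * sin θ) * d1 w (lpc (s, θ)) + exp s * cos θ * d2 w (lpc (s, θ))) θ := by
  have h1 : HasDerivAt (fun φ : ℝ => lpc (s, φ)) (-(exp s * sin θ), exp s * cos θ) θ :=
    (((hasDerivAt_cos θ).const_mul (exp s)).prodMk ((hasDerivAt_sin θ).const_mul (exp s))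
      ).congr_deriv (by rw [mul_neg])
  have h2 := (hw (lpc (s, θ))).hasFDerivAt.comp_hasDerivAt θ h1
  rw [fderiv_eq] at h2
  exact h2

/-- the velocity in log-polar coordinates, odd class -/
theorem transport_lp {w : ℝ × ℝ → ℝ} (hw : Continuous w) (hodd : ∀ z, w (sy z) = -w z)
    (s θ : ℝ) (a b : ℝ) :
    (vel w (lpc (s, θ))).1 * a + (vel w (lpc (s, θ))).2 * b
      = 2 * BB w (exp s) * cos (2 * θ) * (exp s * cos θ * a + exp s * sin θ * b)
        - (2 * BB w (exp s) - bb w (exp s)) * sin (2 * θ)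
          * (-(exp s * sin θ) * a + exp s * cos θ * b) := by
  have hr := exp_pos s
  have key := polar_to_vel (A := 0) (B := BB w (exp s)) (a := 0)
    (b := bb w (exp s)) (θ := θ) hr a b
  have hv : vel w (lpc (s, θ)) = velf 0 (BB w (exp s)) 0 (bb w (exp s))
      (exp s * cos θ, exp s * sin θ) := by
    unfold vel
    rw [lpc_rad, cc_zero_of_odd hw hodd, CC_zero_of_odd hw hodd]
    rfl
  rw [hv, ← key]
  have : exp s ≠ 0 := hr.ne'
  field_simp
  ring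

end Run7.h65
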