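import Pool.Agent.Run7.h65.Mass

open Set Real MeasureTheory Filter Topology

namespace Run7.h65

namespace SignSol

variable {ω : ℝ → ℝ × ℝ → ℝ} (h : SignSol ω)

include h

/-- a point of the open first quadrant where the active part is positive -/
theorem exists_pos_point (hne : ∃ z, act (ω 0) z ≠ 0) :
    ∃ s φ : ℝ, 0 < φ ∧ φ < π / 2 ∧ 0 < AF ω (0, (s, φ)) := by
  obtain ⟨z, hz⟩ := hne
  -- move to the first quadrant
  have hodd : ∀ z, ω 0 (sy z) = -ω 0 z := h.odd 0 le_rfl
  have habs : act (ω 0) (|z.1|, |z.2|) ≠ 0 := by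
    have e1 : act (ω 0) (|z.1|, z.2) ≠ 0 := by
      rcases le_total 0 z.1 with h1 | h1
      · rw [abs_of_nonneg h1]; exact hz
      · rw [abs_of_nonpos h1]
        have : (-z.1, z.2) = sx z := rfl
        rw [this]
        have h2 : act (ω 0) (sx z) = -act (ω 0) z := by
          have : sx (sx z) = z := by simp [sx]
          unfold act
          rw [this]; ring
        rw [h2]
        exact neg_ne_zero.2 hz
    rcases le_total 0 z.2 with h1 | h1
    · rw [abs_of_nonneg h1]; exact e1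
    · rw [abs_of_nonpos h1]
      have : (|z.1|, -z.2) = sy (|z.1|, z.2) := rfl
      rw [this]
      have h2 : act (ω 0) (sy (|z.1|, z.2)) = -act (ω 0) (|z.1|, z.2) := by
        have : sx (sy (|z.1|, z.2)) = sy (sx (|z.1|, z.2)) := by simp [sx, sy]
        unfold act
        rw [this, hodd, hodd]; ring
      rw [h2]
      exact neg_ne_zero.2 e1
  set x := |z.1| with hx
  set y := |z.2| with hy
  have hx0 : 0 < x := by
    rcases eq_or_lt_of_le (abs_nonneg z.1) with h1 | h1
    · exfalso; apply habs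
      have : x = 0 := h1.symm
      rw [this]; exact (h.act_axes le_rfl _).1
    · exact h1
  have hy0 : 0 < y := by
    rcases eq_or_lt_of_le (abs_nonneg z.2) with h1 | h1
    · exfalso; apply habs
      have : y = 0 := h1.symm
      rw [this]; exact (h.act_axes le_rfl _).2
    · exact h1
  have hpos : 0 < act (ω 0) (x, y) := by
    have h1 := h.sgn 0 le_rfl (x, y)
    have h2 : 0 ≤ act (ω 0) (x, y) := nonneg_of_mul_nonneg_left h1 (by positivity)
    exact lt_of_le_of_ne h2 habs.symm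
  -- polar angle
  set r := √(x ^ 2 + y ^ 2) with hr
  have hr0 : 0 < r := sqrt_pos.2 (by positivity)
  have hr2 : r ^ 2 = x ^ 2 + y ^ 2 := sq_sqrt (by positivity)
  have hxr : x < r := by
    rw [hr]; apply lt_sqrt_of_sq_lt; nlinarith [sq_pos_of_pos hy0]
  set φ := arccos (x / r) with hφ
  have hφ0 : 0 < φ := arccos_pos.2 ((div_lt_one hr0).2 hxr)
  have hφ1 : φ < π / 2 := arccos_lt_pi_div_two.2 (by positivity)
  have hcos : cos φ = x / r := cos_arccos (by
    have : 0 ≤ x / r := by positivity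
    linarith) ((div_lt_one hr0).2 hxr).le
  have hsin : sin φ = y / r := by
    rw [hφ, sin_arccos]
    rw [show 1 - (x / r) ^ 2 = (y / r) ^ 2 by
      rw [div_pow, div_pow]
      field_simp
      linarith]
    exact sqrt_sq (by positivity)
  refine ⟨log r, φ, hφ0, hφ1, ?_⟩
  have e : lpc (log r, φ) = (x, y) := by
    unfold lpc
    simp only
    rw [exp_log hr0, hcos, hsin]
    ext <;> field_simp
  change 0 < act (ω 0) (lpc (log r, φ))
  rw [e]; exact hpos

/-- the mass near the origin stays bounded below -/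
theorem mass_lower (hne : ∃ z, act (ω 0) z ≠ 0) {U : ℝ}
    (hU : ∀ t, 0 ≤ t → SuppIn (ω t) (exp U)) :
    ∃ m U' : ℝ, 0 < m ∧ U ≤ U' ∧ ∀ t, 0 ≤ t → ∃ s₀, s₀ ≤ U' ∧ m ≤ Mass ω t s₀ U' := by
  obtain ⟨s', φ', hφ0, hφ1, hpos⟩ := h.exists_pos_point hne
  obtain ⟨S, hS1, hS⟩ := h.sol.exists_sup
  obtain ⟨Λ, hΛ, hB⟩ := h.exists_bounds
  have hA := h.sm_A
  set U' := max U s' + 1 with hU'
  have hUU' : U ≤ U' := by rw [hU']; linarith [le_max_left U s']
  have hsU' : s' ≤ U' := by rw [hU']; linarith [le_max_right U s']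
  have hcq : ∀ t, 0 ≤ t → Continuous (fun σ => qm (fun _ => 1) (AF ω) t σ * exp (2 * σ)) :=
    fun t ht => (qm_line_cont hA continuous_const ht).mul (by fun_prop)
  have hq0 : 0 < qm (fun _ => 1) (AF ω) 0 s' := by
    unfold qm
    refine intervalIntegral.integral_pos (by positivity)
      ((hA.cont_line le_rfl s').mul continuous_const).continuousOn (fun φ hφ => ?_)
      ⟨φ', ⟨hφ0.le, hφ1.le⟩, ?_⟩
    · rw [mul_one]; exact h.A_nonneg le_rfl _ hφ.1.le hφ.2
    · rw [mul_one]; exact hpos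
  have hM0 : 0 < Mass ω 0 (s' - 1) U' := by
    unfold Mass
    refine intervalIntegral.integral_pos (by linarith) (hcq 0 le_rfl).continuousOn
      (fun σ _ => mul_nonneg (h.qm1_nonneg le_rfl σ) (exp_pos _).le)
      ⟨s', ⟨by linarith, hsU'⟩, by positivity⟩
  refine ⟨Mass ω 0 (s' - 1) U' / 2, U', by positivity, hUU', fun t ht => ?_⟩
  set m := Mass ω 0 (s' - 1) U' / 2 with hm
  have hm0 : 0 < m := by positivity
  set K := π * S * (Λ * (1 + t)) * t + 1 with hK
  have hK0 : 0 < K := by positivity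
  set s₀ := min (s' - 1) (log (m / K) / 2) with hs₀
  have hs1 : s₀ ≤ s' - 1 := min_le_left _ _
  have hs2 : s₀ ≤ log (m / K) / 2 := min_le_right _ _
  refine ⟨s₀, by linarith, ?_⟩
  have h2 : 2 * m ≤ Mass ω 0 s₀ U' := by
    have e : Mass ω 0 s₀ U' = (∫ σ in s₀..(s' - 1), qm (fun _ => 1) (AF ω) 0 σ * exp (2 * σ))
        + Mass ω 0 (s' - 1) U' := by
      unfold Mass
      rw [intervalIntegral.integral_add_adjacent_intervals
        ((hcq 0 le_rfl).intervalIntegrable _ _) ((hcq 0 le_rfl).intervalIntegrable _ _)]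
    have e2 : 0 ≤ ∫ σ in s₀..(s' - 1), qm (fun _ => 1) (AF ω) 0 σ * exp (2 * σ) :=
      intervalIntegral.integral_nonneg hs1
        fun σ _ => mul_nonneg (h.qm1_nonneg le_rfl σ) (exp_pos _).le
    rw [e, hm]; linarith
  have h3 : |Mass ω t s₀ U' - Mass ω 0 s₀ U'|
      ≤ (π * S * (Λ * (1 + t)) * exp (2 * s₀)) * |t - 0| := by
    refine mvt (g := fun τ => Mass ω τ s₀ U')
      (g' := fun τ => 2 * (exp (2 * s₀) * gF ω τ s₀ * qm c2 (AF ω) τ s₀)) ?_ ?_ ?_
    · intro τ hτ
      rw [uIcc_of_le ht] at hτ ⊢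
      exact (h.mass_cont s₀ U' hτ.1).mono Icc_subset_Ici_self
    · intro τ hτ
      rw [min_eq_left ht] at hτ
      exact h.mass_deriv hU hτ.1 s₀ hUU'
    · intro τ hτ
      rw [min_eq_left ht, max_eq_right ht] at hτ
      obtain ⟨-, g0, g1⟩ := hB τ hτ.1.le s₀
      have hg : gF ω τ s₀ ≤ Λ * (1 + t) := g1.trans (by nlinarith [hτ.2])
      have hqc : |qm c2 (AF ω) τ s₀| ≤ S * (π / 2) := by
        unfold qm
        have := intervalIntegral.norm_integral_le_of_norm_le_const (a := (0 : ℝ)) (b := π / 2)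
          (f := fun φ => AF ω (τ, (s₀, φ)) * c2 φ) (C := S) (fun φ _ => by
            rw [Real.norm_eq_abs, abs_mul]
            have a1 : |AF ω (τ, (s₀, φ))| ≤ S := act_abs_le (hS τ hτ.1.le) _
            have a2 : |c2 φ| ≤ 1 := abs_cos_le_one _
            calc |AF ω (τ, (s₀, φ))| * |c2 φ| ≤ S * 1 :=
                  mul_le_mul a1 a2 (abs_nonneg _) (by linarith)
              _ = S := mul_one _)
        rw [Real.norm_eq_abs, sub_zero, abs_of_pos (by positivity : 0 < π / 2)] at this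
        exact this
      rw [abs_mul, abs_mul, abs_mul, abs_two, abs_of_pos (exp_pos _), abs_of_nonneg g0]
      calc 2 * (exp (2 * s₀) * gF ω τ s₀ * |qm c2 (AF ω) τ s₀|)
          ≤ 2 * (exp (2 * s₀) * (Λ * (1 + t)) * (S * (π / 2))) := by
            refine mul_le_mul_of_nonneg_left ?_ (by norm_num)
            exact mul_le_mul (mul_le_mul_of_nonneg_left hg (exp_pos _).le) hqc (abs_nonneg _)
              (by positivity)
        _ = π * S * (Λ * (1 + t)) * exp (2 * s₀) := by ring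
  rw [sub_zero, abs_of_nonneg ht] at h3
  have h4 : exp (2 * s₀) ≤ m / K := by
    rw [← exp_log (by positivity : 0 < m / K)]
    exact exp_le_exp.2 (by linarith)
  have h5 : (π * S * (Λ * (1 + t)) * exp (2 * s₀)) * t ≤ m := by
    have h6 : K * exp (2 * s₀) ≤ m := by
      rw [le_div_iff₀ hK0] at h4; linarith
    have h7 := exp_pos (2 * s₀)
    rw [hK] at h6
    nlinarith
  have h8 := (abs_le.1 (h3.trans h5)).1
  linarith

/-- **lower bound of the strain at the origin** -/
theorem g_lower (hne : ∃ z, act (ω 0) z ≠ 0) :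
    ∃ c₀ : ℝ, 0 < c₀ ∧ ∀ t, 0 ≤ t → ∃ s₀, ∀ s, s ≤ s₀ → c₀ ≤ gF ω t s := by
  obtain ⟨U, hU1, hU⟩ := h.exists_U
  obtain ⟨S, hS1, hS⟩ := h.sol.exists_sup
  obtain ⟨m, U', hm, hUU', hmass⟩ := h.mass_lower hne hU
  have hA := h.sm_A
  have hS0 : 0 < S := by linarith
  have hE := exp_pos (2 * U')
  have hpi := pi_pos
  obtain ⟨η, hηdef⟩ : ∃ η, η = min (π / 4) (m / (2 * S * exp (2 * U'))) := ⟨_, rfl⟩
  have hη0 : 0 < η := by rw [hηdef]; exact lt_min (by positivity) (by positivity)
  have hη1 : η ≤ π / 4 := by rw [hηdef]; exact min_le_left _ _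
  have hη2 : η * (2 * S * exp (2 * U')) ≤ m := by
    have : η ≤ m / (2 * S * exp (2 * U')) := by rw [hηdef]; exact min_le_right _ _
    rwa [le_div_iff₀ (by positivity)] at this
  refine ⟨η / π * exp (-(2 * U')) * (m / 2), by positivity, fun t ht => ?_⟩
  obtain ⟨s₀, hs₀, hMs⟩ := hmass t ht
  refine ⟨s₀, fun s hs => ?_⟩
  refine le_trans ?_ (h.g_anti ht hs)
  simp only
  have hcq : Continuous (fun σ => qm (fun _ => 1) (AF ω) t σ * exp (2 * σ)) :=
    (qm_line_cont hA continuous_const ht).mul (by fun_prop)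
  rw [h.gF_eq hU ht hUU']
  have hpt : ∀ σ ∈ Icc s₀ U', η / π * exp (-(2 * U')) *
      (qm (fun _ => 1) (AF ω) t σ * exp (2 * σ) - 2 * η * S * exp (2 * σ))
      ≤ mom s2 (AF ω) t σ := by
    intro σ hσ
    rw [← h.bF_eq ht]
    have h1 := h.b_lower hS ht σ hη0 hη1
    have h2 := h.b_nonneg ht σ
    have hx : 0 < exp (-(2 * U')) * exp (2 * σ) := by positivity
    have hx1 : exp (-(2 * U')) * exp (2 * σ) ≤ 1 := by
      rw [← exp_add]; apply exp_le_one_iff.2; linarith [hσ.2]
    have e : η / π * exp (-(2 * U')) *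
      (qm (fun _ => 1) (AF ω) t σ * exp (2 * σ) - 2 * η * S * exp (2 * σ))
      = (η / π * (qm (fun _ => 1) (AF ω) t σ - 2 * η * S)) * (exp (-(2 * U')) * exp (2 * σ)) := by
      ring
    rw [e]
    calc (η / π * (qm (fun _ => 1) (AF ω) t σ - 2 * η * S)) * (exp (-(2 * U')) * exp (2 * σ))
        ≤ bF ω t σ * (exp (-(2 * U')) * exp (2 * σ)) := mul_le_mul_of_nonneg_right h1 hx.le
      _ ≤ bF ω t σ * 1 := mul_le_mul_of_nonneg_left hx1 h2
      _ = bF ω t σ := mul_one _
  have hI := intervalIntegral.integral_mono_on (μ := volume) hs₀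
    (f := fun σ => η / π * exp (-(2 * U')) *
      (qm (fun _ => 1) (AF ω) t σ * exp (2 * σ) - 2 * η * S * exp (2 * σ)))
    (g := fun σ => mom s2 (AF ω) t σ)
    ((continuous_const.mul (hcq.sub (by fun_prop))).intervalIntegrable _ _)
    ((OddSol.mom_line_cont hA s2_cont ht).intervalIntegrable _ _) hpt
  refine le_trans ?_ hI
  rw [intervalIntegral.integral_const_mul, intervalIntegral.integral_sub
    (hcq.intervalIntegrable _ _) (Continuous.intervalIntegrable (by fun_prop) _ _)]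
  refine mul_le_mul_of_nonneg_left ?_ (by positivity)
  have hint : ∫ σ in s₀..U', 2 * η * S * exp (2 * σ) ≤ m / 2 := by
    have hd : ∀ σ ∈ uIcc s₀ U', HasDerivAt (fun σ : ℝ => η * S * exp (2 * σ))
        (2 * η * S * exp (2 * σ)) σ := by
      intro σ _
      have h2 : HasDerivAt (fun σ : ℝ => 2 * σ) 2 σ := by
        simpa using (hasDerivAt_id σ).const_mul 2
      refine (h2.exp.const_mul (η * S)).congr_deriv ?_
      ring
    rw [intervalIntegral.integral_eq_sub_of_hasDerivAt hd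
      (Continuous.intervalIntegrable (by fun_prop) _ _)]
    have : 0 < η * S * exp (2 * s₀) := by positivity
    nlinarith
  unfold Mass at hMs
  linarith

end SignSol

end Run7.h65
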