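import Pool.Agent.Run7.h65.Lpt

open Set Real MeasureTheory Filter Topology

namespace Run7.h65

theorem qF_pb {f : ℝ → ℝ × ℝ → ℝ} (hsm : Sm (pb f)) {t : ℝ} (ht : 0 ≤ t)
    (hd : Differentiable ℝ (f t)) (s θ : ℝ) : qF (pb f) t s θ = Qw (f t) (lpc (s, θ)) :=
  (hsm.deriv_th ht s θ).unique (lpc_deriv_th hd s θ)

theorem pF_pb {f : ℝ → ℝ × ℝ → ℝ} (hsm : Sm (pb f)) {t : ℝ} (ht : 0 ≤ t)
    (hd : Differentiable ℝ (f t)) (s θ : ℝ) : pF (pb f) t s θ = Pw (f t) (lpc (s, θ)) :=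
  (hsm.deriv_s ht s θ).unique (lpc_deriv_s hd s θ)

theorem lpc_per (s θ : ℝ) : lpc (s, θ + 2 * π) = lpc (s, θ) := by
  simp [lpc]

theorem lpc_fst_le (s θ : ℝ) : |(lpc (s, θ)).1| ≤ exp s := by
  have := abs_fst_le_rad (lpc (s, θ))
  rwa [lpc_rad] at this

theorem lpc_snd_le (s θ : ℝ) : |(lpc (s, θ)).2| ≤ exp s := by
  have := abs_snd_le_rad (lpc (s, θ))
  rwa [lpc_rad] at this

theorem Qw_le {w : ℝ × ℝ → ℝ} {L : ℝ} (h1 : ∀ z, |d1 w z| ≤ L) (h2 : ∀ z, |d2 w z| ≤ L)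
    (s θ : ℝ) : |Qw w (lpc (s, θ))| ≤ 2 * L * exp s := by
  unfold Qw
  refine (abs_add_le _ _).trans ?_
  rw [abs_mul, abs_mul, abs_neg]
  have a1 := mul_le_mul (lpc_snd_le s θ) (h1 (lpc (s, θ))) (abs_nonneg _) (exp_pos s).le
  have a2 := mul_le_mul (lpc_fst_le s θ) (h2 (lpc (s, θ))) (abs_nonneg _) (exp_pos s).le
  linarith

theorem Pw_le {w : ℝ × ℝ → ℝ} {L : ℝ} (h1 : ∀ z, |d1 w z| ≤ L) (h2 : ∀ z, |d2 w z| ≤ L)
    (s θ : ℝ) : |Pw w (lpc (s, θ))| ≤ 2 * L * exp s := by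
  unfold Pw
  refine (abs_add_le _ _).trans ?_
  rw [abs_mul, abs_mul]
  have a1 := mul_le_mul (lpc_fst_le s θ) (h1 (lpc (s, θ))) (abs_nonneg _) (exp_pos s).le
  have a2 := mul_le_mul (lpc_snd_le s θ) (h2 (lpc (s, θ))) (abs_nonneg _) (exp_pos s).le
  linarith

theorem lpc_far {w : ℝ × ℝ → ℝ} {U s : ℝ} (hw : SuppIn w (exp U)) (hs : U < s) (θ : ℝ) :
    w (lpc (s, θ)) = 0 := by
  refine hw _ ?_
  have := rad_sq (lpc (s, θ))
  rw [lpc_rad] at this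
  rw [← this]
  have h1 : exp U < exp s := exp_lt_exp.2 hs
  have h2 := exp_pos U
  gcongr

/-- two slice families we use: the full vorticity and its active part -/
structure Adm (ω f : ℝ → ℝ × ℝ → ℝ) : Prop where
  tr : Tr ω (pb f)
  dif : ∀ t, 0 ≤ t → Differentiable ℝ (f t)
  supp : ∀ t, 0 ≤ t → ∀ R, SuppIn (ω t) R → SuppIn (f t) R
  bd : ∀ T, 0 ≤ T → ∃ L, 0 ≤ L ∧ ∀ t ∈ Icc 0 T, ∀ z, |d1 (f t) z| ≤ L ∧ |d2 (f t) z| ≤ L

namespace OddSol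

variable {ω : ℝ → ℝ × ℝ → ℝ} (h : OddSol ω)

include h

theorem adm_W : Adm ω ω where
  tr := h.tr_W
  dif := fun _ ht => h.sol.diff_slice ht
  supp := fun _ _ _ hR => hR
  bd := fun T _ => by
    obtain ⟨R, hR1, hR⟩ := h.sol.exists_supp_all
    obtain ⟨L, hL0, hL⟩ := h.sol.exists_bound (a := 0) (b := T) le_rfl (by linarith : 0 < R)
      (fun t ht => hR t ht.1)
    exact ⟨L, hL0, fun t ht z => (hL t ht z).2⟩

theorem adm_A : Adm ω (fun t => act (ω t)) where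
  tr := h.tr_A
  dif := fun _ ht => (act_contDiff (h.sol.contDiff_slice ht)).differentiable (by simp)
  supp := fun _ _ _ hR => SignSol.act_supp hR
  bd := fun T _ => by
    obtain ⟨R, hR1, hR⟩ := h.sol.exists_supp_all
    obtain ⟨L, hL0, hL⟩ := h.sol.exists_bound (a := 0) (b := T) le_rfl (by linarith : 0 < R)
      (fun t ht => hR t ht.1)
    refine ⟨L, hL0, fun t ht z => ?_⟩
    rw [act_d1 (h.sol.diff_slice ht.1), act_d2 (h.sol.diff_slice ht.1)]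
    obtain ⟨-, a1, a2⟩ := hL t ht z
    obtain ⟨-, b1, b2⟩ := hL t ht (sx z)
    rw [abs_mul, abs_mul, abs_of_pos (by norm_num : (0 : ℝ) < 1 / 2)]
    have e1 := abs_add_le (d1 (ω t) z) (d1 (ω t) (sx z))
    have e2 := abs_sub (d2 (ω t) z) (d2 (ω t) (sx z))
    constructor <;> linarith

end OddSol

namespace SignSol

variable {ω : ℝ → ℝ × ℝ → ℝ} (h : SignSol ω)

include h

theorem gF_cont : ContinuousOn (fun p : ℝ × ℝ => gF ω p.1 p.2) (Ici 0 ×ˢ univ) := by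
  obtain ⟨Λ, hΛ, hB⟩ := h.exists_bounds
  obtain ⟨U, -, hU⟩ := h.exists_U
  refine continuousOn_prod_of_continuousOn_lipschitzOnWith' _ Λ.toNNReal ?_ ?_
  · intro t ht
    refine LipschitzOnWith.of_dist_le_mul fun x _ y _ => ?_
    rw [Real.dist_eq, Real.dist_eq, Real.coe_toNNReal _ (by linarith)]
    exact mvt (g := fun s => gF ω t s) (g' := fun s => -(bF ω t s)) (x := y) (y := x) (C := Λ)
      (fun s _ => (h.gF_s ht s).continuousAt.continuousWithinAt) (fun s _ => h.gF_s ht s)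
      (fun s _ => by
        rw [abs_neg, abs_of_nonneg (hB t ht s).1.1]; exact (hB t ht s).1.2)
  · intro s _
    have hcong : ContinuousOn (fun t => ∫ σ in s..U, mom s2 (AF ω) t σ) (Ici 0) := by
      intro t0 ht0
      refine param_continuousWithinAt (C := Λ) ?_ ?_ ?_
      · filter_upwards [self_mem_nhdsWithin] with t ht
        exact OddSol.mom_line_cont h.sm_A s2_cont ht
      · filter_upwards [self_mem_nhdsWithin] with t ht σ _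
        rw [← h.bF_eq ht, abs_of_nonneg (hB t ht σ).1.1]; exact (hB t ht σ).1.2
      · intro σ
        exact (mom_cont h.sm_A s2_cont).comp (f := fun t : ℝ => ((t, σ) : ℝ × ℝ)) (by fun_prop)
          (fun t ht => ⟨ht, mem_univ _⟩) t0 ht0
    refine hcong.congr fun t ht => ?_
    exact h.gF_eq hU ht le_rfl

theorem gF_cont3 (T : ℝ) : ContinuousOn (fun p : E3 => gF ω p.1 p.2.1) (Icc 0 T ×ˢ univ) :=
  h.gF_cont.comp (f := fun p : E3 => ((p.1, p.2.1) : ℝ × ℝ)) (by fun_prop)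
    (fun _ hp => ⟨hp.1.1, mem_univ _⟩)

theorem hil_cont3 (T : ℝ) : ContinuousOn (fun p : E3 => hilF (AF ω) p.1 p.2.1 p.2.2)
    (Icc 0 T ×ˢ univ) := (hilF_cont h.sm_A).mono (prod_mono_left fun _ hx => hx.1)

theorem q_cont3 {Φ : E3 → ℝ} (hΦ : Sm Φ) (T : ℝ) :
    ContinuousOn (fun p : E3 => qF Φ p.1 p.2.1 p.2.2) (Icc 0 T ×ˢ univ) :=
  (hΦ.dd eth).continuousOn.mono (prod_mono_left fun _ hx => hx.1)

theorem p_cont3 {Φ : E3 → ℝ} (hΦ : Sm Φ) (T : ℝ) :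
    ContinuousOn (fun p : E3 => pF Φ p.1 p.2.1 p.2.2) (Icc 0 T ×ˢ univ) :=
  (hΦ.dd es).continuousOn.mono (prod_mono_left fun _ hx => hx.1)

theorem Pi_cont3 {Φ : E3 → ℝ} (hΦ : Sm Φ) (T : ℝ) :
    ContinuousOn (fun p : E3 => PiF ω Φ p.1 p.2.1 p.2.2) (Icc 0 T ×ˢ univ) := by
  unfold PiF
  exact ((h.gF_cont3 T).mul (h.p_cont3 hΦ T)).sub
    (((h.hil_cont3 T).mul (by fun_prop)).mul (h.q_cont3 hΦ T))

omit h in
theorem hilF_per (t s θ : ℝ) : hilF (AF ω) t s (θ + 2 * π) = hilF (AF ω) t s θ := by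
  unfold hilF hil
  congr 1
  refine intervalIntegral.integral_congr fun φ _ => ?_
  have e1 : AF ω (t, (s, θ + 2 * π - φ)) = AF ω (t, (s, θ - φ)) := by
    unfold AF pb
    simp only
    rw [show θ + 2 * π - φ = (θ - φ) + 2 * π by ring, lpc_per]
  have e2 : AF ω (t, (s, θ + 2 * π + φ)) = AF ω (t, (s, θ + φ)) := by
    unfold AF pb
    simp only
    rw [show θ + 2 * π + φ = (θ + φ) + 2 * π by ring, lpc_per]
  simp only
  rw [e1, e2]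

omit h in
theorem sin_two_per (θ : ℝ) : sin (2 * (θ + 2 * π)) = sin (2 * θ) := by
  have := sin_add_nat_mul_two_pi (2 * θ) 2
  push_cast at this
  rw [← this]; ring_nf

omit h in
theorem q_per {f : ℝ → ℝ × ℝ → ℝ} (hf : Adm ω f) {t : ℝ} (ht : 0 ≤ t) (s θ : ℝ) :
    qF (pb f) t s (θ + 2 * π) = qF (pb f) t s θ := by
  rw [qF_pb hf.tr.sm ht (hf.dif t ht), qF_pb hf.tr.sm ht (hf.dif t ht), lpc_per]

omit h in
theorem p_per {f : ℝ → ℝ × ℝ → ℝ} (hf : Adm ω f) {t : ℝ} (ht : 0 ≤ t) (s θ : ℝ) :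
    pF (pb f) t s (θ + 2 * π) = pF (pb f) t s θ := by
  rw [pF_pb hf.tr.sm ht (hf.dif t ht), pF_pb hf.tr.sm ht (hf.dif t ht), lpc_per]

omit h in
theorem Pi_per {f : ℝ → ℝ × ℝ → ℝ} (hf : Adm ω f) {t : ℝ} (ht : 0 ≤ t) (s θ : ℝ) :
    PiF ω (pb f) t s (θ + 2 * π) = PiF ω (pb f) t s θ := by
  unfold PiF
  rw [q_per hf ht, p_per hf ht, hilF_per, sin_two_per]

/-- bounds of the first derivatives on compact time intervals -/
theorem qp_bound {f : ℝ → ℝ × ℝ → ℝ} (hf : Adm ω f) {T : ℝ} (hT : 0 ≤ T) :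
    ∃ L, 0 ≤ L ∧ ∀ t ∈ Icc 0 T, ∀ s θ, |qF (pb f) t s θ| ≤ L * exp s ∧
      |pF (pb f) t s θ| ≤ L * exp s := by
  obtain ⟨L, hL0, hL⟩ := hf.bd T hT
  refine ⟨2 * L, by positivity, fun t ht s θ => ?_⟩
  rw [qF_pb hf.tr.sm ht.1 (hf.dif t ht.1), pF_pb hf.tr.sm ht.1 (hf.dif t ht.1)]
  exact ⟨Qw_le (fun z => (hL t ht z).1) (fun z => (hL t ht z).2) s θ,
    Pw_le (fun z => (hL t ht z).1) (fun z => (hL t ht z).2) s θ⟩

omit h in
theorem qp_far {f : ℝ → ℝ × ℝ → ℝ} (hf : Adm ω f) {U : ℝ} (hU : ∀ t, 0 ≤ t → SuppIn (ω t) (exp U))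
    {t : ℝ} (ht : 0 ≤ t) {s : ℝ} (hs : U < s) (θ : ℝ) :
    qF (pb f) t s θ = 0 ∧ pF (pb f) t s θ = 0 := by
  rw [qF_pb hf.tr.sm ht (hf.dif t ht), pF_pb hf.tr.sm ht (hf.dif t ht)]
  have hs' := hf.supp t ht _ (hU t ht)
  exact ⟨lpc_far (Qw_supp hs') hs θ, lpc_far (Pw_supp hs') hs θ⟩

/-- bound for the conjugate function from a bound for the angular derivative -/
theorem hil_lip {t : ℝ} (ht : 0 ≤ t) {s L : ℝ} (hL : ∀ φ, |qF (AF ω) t s φ| ≤ L) (θ : ℝ) :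
    LipW (fun φ => AF ω (t, (s, φ))) θ L :=
  h.sm_A.lipW ht fun φ _ => hL φ

theorem hil_bound_T {T : ℝ} (hT : 0 ≤ T) :
    ∃ C, 0 ≤ C ∧ ∀ t ∈ Icc 0 T, ∀ s θ, |hilF (AF ω) t s θ| ≤ C := by
  obtain ⟨L, hL0, hL⟩ := h.qp_bound h.adm_A hT
  obtain ⟨U, -, hU⟩ := h.exists_U
  refine ⟨L * exp U, by positivity, fun t ht s θ => ?_⟩
  refine hil_abs_le (h.hil_lip ht.1 (fun φ => ?_) θ)
  rcases le_or_gt s U with hs | hs
  · exact ((hL t ht s φ).1).trans (mul_le_mul_of_nonneg_left (exp_le_exp.2 hs) hL0)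
  · have := (qp_far h.adm_A hU ht.1 hs φ).1
    change |qF (pb fun t => act (ω t)) t s φ| ≤ _
    rw [this, abs_zero]; positivity

end SignSol

end Run7.h65
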