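import Pool.Agent.Run7.h65.Edge

open Set Real MeasureTheory Filter Topology

namespace Run7.h65

/-- first-touching-time comparison, version with a fundamental domain `K` -/
theorem touch_per {X : Type*} [TopologicalSpace X] (f : ℝ → X → ℝ) {T : ℝ} (K : Set X)
    (hK : IsCompact K)
    (hcont : ContinuousOn (fun p : ℝ × X => f p.1 p.2) (Icc 0 T ×ˢ univ))
    (hout : ∀ t ∈ Icc 0 T, ∀ x, 0 ≤ f t x → ∃ y ∈ K, 0 ≤ f t y)
    (h0 : ∀ x, f 0 x < 0)
    (hder : ∀ t, 0 < t → t ≤ T → ∀ x, x ∈ K → f t x = 0 → (∀ y, f t y ≤ 0) →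
      ∃ d, d < 0 ∧ HasDerivAt (fun τ => f τ x) d t) :
    ∀ t ∈ Icc 0 T, ∀ x, f t x < 0 := by
  by_contra hcon
  push Not at hcon
  obtain ⟨t1, ht1, x0, hx0⟩ := hcon
  obtain ⟨x1, hx1K, hx1⟩ := hout t1 ht1 x0 hx0
  set C : Set (ℝ × X) := (Icc 0 T ×ˢ K) ∩ {p | 0 ≤ f p.1 p.2} with hC
  have hCc : IsCompact (Prod.fst '' C) := by
    refine IsCompact.image ?_ continuous_fst
    have hcl : ContinuousOn (fun p : ℝ × X => f p.1 p.2) (Icc 0 T ×ˢ K) :=
      hcont.mono (prod_mono_right (subset_univ _))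
    have hcpt : IsCompact (Icc 0 T ×ˢ K) := isCompact_Icc.prod hK
    rw [isCompact_iff_compactSpace]
    have : CompactSpace (Icc 0 T ×ˢ K : Set (ℝ × X)) := isCompact_iff_compactSpace.1 hcpt
    have hcr : Continuous (fun p : (Icc 0 T ×ˢ K : Set (ℝ × X)) => f p.1.1 p.1.2) :=
      continuousOn_iff_continuous_domRestrict.1 hcl
    have hclosed : IsClosed {p : (Icc 0 T ×ˢ K : Set (ℝ × X)) | 0 ≤ f p.1.1 p.1.2} :=
      isClosed_le continuous_const hcr
    have := (hclosed.isCompact.image continuous_subtype_val)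
    rw [← isCompact_iff_compactSpace]
    convert this using 1
    ext p
    simp only [hC, mem_inter_iff, mem_image, Subtype.exists]
    constructor
    · rintro ⟨a, b⟩; exact ⟨p, a, b, rfl⟩
    · rintro ⟨q, a, b, rfl⟩; exact ⟨a, b⟩
  have hne : (Prod.fst '' C).Nonempty := ⟨t1, (t1, x1), ⟨⟨ht1, hx1K⟩, hx1⟩, rfl⟩
  obtain ⟨t, ⟨⟨⟨t', x⟩, ⟨⟨ht, hxK⟩, hfx⟩, rfl⟩, hleast⟩⟩ := hCc.exists_isLeast hne
  simp only at ht hfx hxK hleast
  have hbefore : ∀ s ∈ Icc 0 T, s < t' → ∀ y, f s y < 0 := by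
    intro s hs hst y'
    by_contra hh
    push Not at hh
    obtain ⟨y, hy, hfy⟩ := hout s hs y' hh
    have := hleast ⟨(s, y), ⟨⟨hs, hy⟩, hfy⟩, rfl⟩
    simp only at this
    linarith
  have ht0 : 0 < t' := by
    rcases eq_or_lt_of_le ht.1 with h | h
    · rw [← h] at hfx
      exact absurd (h0 x) (not_lt.2 hfx)
    · exact h
  have hlim : ∀ y, f t' y ≤ 0 := by
    intro y
    have hc : ContinuousWithinAt (fun s => f s y) (Ioo 0 t') t' := by
      have := hcont (t', y) ⟨ht, mem_univ _⟩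
      exact this.comp (f := fun s : ℝ => ((s, y) : ℝ × X)) (by fun_prop)
        (fun s hs => ⟨⟨hs.1.le, hs.2.le.trans ht.2⟩, mem_univ _⟩)
    have : (𝓝[Ioo 0 t'] t').NeBot := by
      rw [nhdsWithin_Ioo_eq_nhdsLT ht0]; infer_instance
    refine le_of_tendsto hc ?_
    filter_upwards [self_mem_nhdsWithin] with s hs
    exact (hbefore s ⟨hs.1.le, hs.2.le.trans ht.2⟩ hs.2 y).le
  have hx0 : f t' x = 0 := le_antisymm (hlim x) hfx
  obtain ⟨d, hd, hder'⟩ := hder t' ht0 ht.2 x hxK hx0 hlim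
  have hs := hder'.tendsto_slope
  have hs2 : Tendsto (slope (fun τ => f τ x) t') (𝓝[Ioo 0 t'] t') (𝓝 d) := by
    refine hs.mono_left (nhdsWithin_mono _ fun s hs => ?_)
    exact ne_of_lt hs.2
  have : (𝓝[Ioo 0 t'] t').NeBot := by
    rw [nhdsWithin_Ioo_eq_nhdsLT ht0]; infer_instance
  have : 0 ≤ d := by
    refine ge_of_tendsto hs2 ?_
    filter_upwards [self_mem_nhdsWithin] with s hs
    rw [slope_def_field]
    have h1 := hbefore s ⟨hs.1.le, hs.2.le.trans ht.2⟩ hs.2 x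
    rw [hx0]
    refine div_nonneg_of_nonpos (by linarith) (by linarith [hs.2])
  linarith

/-- comparison principle in log-polar coordinates -/
theorem lp_touch {ω : ℝ → ℝ × ℝ → ℝ} (f : ℝ → ℝ → ℝ → ℝ) {T sm sp : ℝ}
    (hcont : ContinuousOn (fun p : E3 => f p.1 p.2.1 p.2.2) (Icc 0 T ×ˢ univ))
    (hper : ∀ t ∈ Icc 0 T, ∀ s θ, f t s (θ + 2 * π) = f t s θ)
    (hout : ∀ t ∈ Icc 0 T, ∀ s, (s < sm ∨ sp < s) → ∀ θ, f t s θ < 0)
    (h0 : ∀ s θ, f 0 s θ < 0)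
    (hder : ∀ t, 0 < t → t ≤ T → ∀ s θ, f t s θ = 0 → (∀ s' θ', f t s' θ' ≤ 0) →
      ∃ c, c < 0 ∧ MD ω f t s θ c) :
    ∀ t ∈ Icc 0 T, ∀ s θ, f t s θ < 0 := by
  have key := touch_per (X := ℝ × ℝ) (fun t x => f t x.1 x.2) (T := T)
    (Icc sm sp ×ˢ Icc 0 (2 * π)) (isCompact_Icc.prod isCompact_Icc) hcont
    (fun t ht x hx => by
      have hs : x.1 ∈ Icc sm sp := by
        by_contra hc
        rw [mem_Icc, not_and_or, not_le, not_le] at hc
        have := hout t ht x.1 hc x.2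
        linarith
      have hp : Function.Periodic (fun θ => f t x.1 θ) (2 * π) := fun θ => hper t ht x.1 θ
      obtain ⟨y, hy, hxy⟩ := hp.exists_mem_Ico₀ (by positivity) x.2
      refine ⟨(x.1, y), ⟨hs, hy.1, hy.2.le⟩, ?_⟩
      simp only at hxy ⊢
      rw [← hxy]; exact hx)
    (fun x => h0 x.1 x.2)
    (fun t ht htT x _ hx hmax => by
      obtain ⟨c, hc, hmd⟩ := hder t ht htT x.1 x.2 hx (fun s' θ' => hmax (s', θ'))
      refine ⟨c, hc, ?_⟩
      refine hmd.at_max (fun σ => ?_) (fun φ => ?_)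
      · rw [hx]; exact hmax (σ, x.2)
      · rw [hx]; exact hmax (x.1, φ))
  intro t ht s θ
  exact key t ht (s, θ)

/-- `|hil| ≤ L` for `L`-Lipschitz windows -/
theorem hil_abs_le {k : ℝ → ℝ} {θ L : ℝ} (hL : LipW k θ L) : |hil k θ| ≤ L := by
  have hb := intervalIntegral.norm_integral_le_of_norm_le_const (a := (0 : ℝ)) (b := π / 2)
    (f := fun φ => (k (θ - φ) - k (θ + φ)) * (cos φ / sin φ)) (C := 2 * L) (fun φ hφ => by
      rw [uIoc_half] at hφ
      rw [Real.norm_eq_abs]; exact hil_int_bound hL hφ)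
  rw [Real.norm_eq_abs, sub_zero, abs_of_pos (by positivity : 0 < π / 2)] at hb
  unfold hil
  rw [abs_mul, abs_of_pos (by positivity : 0 < 1 / π)]
  calc 1 / π * |∫ φ in (0 : ℝ)..(π / 2), (k (θ - φ) - k (θ + φ)) * (cos φ / sin φ)|
      ≤ 1 / π * (2 * L * (π / 2)) := mul_le_mul_of_nonneg_left hb (by positivity)
    _ = L := by field_simp

/-- the algebraic estimate behind the growth bounds -/
theorem quad_est {M g b P q Pi h S C gtp Hh : ℝ} (hM : 0 ≤ M) (hg : 0 ≤ g)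
    (hb0 : 0 ≤ b) (hbM : b ≤ M) (hH : 1 ≤ Hh) (hh : |h| ≤ Hh) (hS : |S| ≤ 1) (hC : |C| ≤ 1)
    (hP : P = Pi + h * S * q) (hgtp : |gtp| ≤ (4 * M + 8 * g) * |P|) :
    2 * q * (4 * S * P + 2 * (2 * g - b) * C * q)
      + 2 * Pi * (gtp - b ^ 2 * S * q - 4 * h * S ^ 2 * P) / Hh ^ 2
    ≤ (24 * Hh + 32 * g + 16 * M + M ^ 2) * (q ^ 2 + Pi ^ 2 / Hh ^ 2) := by
  have hH0 : 0 < Hh := by linarith
  set X := |q| with hX
  set Y := |Pi| / Hh with hY
  have hX0 : 0 ≤ X := abs_nonneg _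
  have hY0 : 0 ≤ Y := by positivity
  have hPiY : |Pi| = Hh * Y := by rw [hY]; field_simp
  have hPabs : |P| ≤ Hh * (X + Y) := by
    rw [hP]
    refine (abs_add_le _ _).trans ?_
    rw [abs_mul, abs_mul, hPiY]
    have : |h| * |S| * |q| ≤ Hh * 1 * X :=
      mul_le_mul (mul_le_mul hh hS (abs_nonneg _) hH0.le) le_rfl hX0 (by positivity)
    nlinarith
  have t1 : 2 * q * (4 * S * P + 2 * (2 * g - b) * C * q)
      ≤ 2 * X * (4 * (Hh * (X + Y)) + 2 * (2 * g + M) * X) := by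
    refine (le_abs_self _).trans ?_
    rw [abs_mul, abs_mul, abs_two]
    refine mul_le_mul_of_nonneg_left ?_ (by positivity)
    refine (abs_add_le _ _).trans ?_
    have a1 : |4 * S * P| ≤ 4 * (Hh * (X + Y)) := by
      rw [abs_mul, abs_mul, abs_of_pos (by norm_num : (0 : ℝ) < 4)]
      have : 4 * |S| * |P| ≤ 4 * 1 * (Hh * (X + Y)) :=
        mul_le_mul (by linarith) hPabs (abs_nonneg _) (by norm_num)
      linarith
    have a2 : |2 * (2 * g - b) * C * q| ≤ 2 * (2 * g + M) * X := by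
      rw [abs_mul, abs_mul, abs_mul, abs_two]
      have b1 : |2 * g - b| ≤ 2 * g + M := by
        rw [abs_le]; constructor <;> linarith
      have : 2 * |2 * g - b| * |C| * |q| ≤ 2 * (2 * g + M) * 1 * X :=
        mul_le_mul (mul_le_mul (by linarith) hC (abs_nonneg _) (by positivity)) le_rfl hX0
          (by positivity)
      linarith
    linarith
  have t2 : 2 * Pi * (gtp - b ^ 2 * S * q - 4 * h * S ^ 2 * P) / Hh ^ 2
      ≤ 2 * Y * ((4 * M + 8 * g) * (X + Y) + M ^ 2 * X + 4 * (Hh * (X + Y))) := by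
    have a3 : |gtp - b ^ 2 * S * q - 4 * h * S ^ 2 * P|
        ≤ (4 * M + 8 * g) * (Hh * (X + Y)) + M ^ 2 * X + 4 * (Hh * (Hh * (X + Y))) := by
      refine (abs_sub _ _).trans ?_
      have c1 : |gtp - b ^ 2 * S * q| ≤ (4 * M + 8 * g) * (Hh * (X + Y)) + M ^ 2 * X := by
        refine (abs_sub _ _).trans ?_
        have d1 : |gtp| ≤ (4 * M + 8 * g) * (Hh * (X + Y)) :=
          hgtp.trans (mul_le_mul_of_nonneg_left hPabs (by positivity))
        have d2 : |b ^ 2 * S * q| ≤ M ^ 2 * X := by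
          rw [abs_mul, abs_mul, abs_of_nonneg (sq_nonneg b)]
          have e1 : b ^ 2 ≤ M ^ 2 := pow_le_pow_left₀ hb0 hbM 2
          have : b ^ 2 * |S| * |q| ≤ M ^ 2 * 1 * X :=
            mul_le_mul (mul_le_mul e1 hS (abs_nonneg _) (by positivity)) le_rfl hX0 (by positivity)
          linarith
        linarith
      have c2 : |4 * h * S ^ 2 * P| ≤ 4 * (Hh * (Hh * (X + Y))) := by
        rw [abs_mul, abs_mul, abs_mul, abs_of_pos (by norm_num : (0 : ℝ) < 4), abs_pow]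
        have e2 : |S| ^ 2 ≤ 1 := by
          calc |S| ^ 2 ≤ 1 ^ 2 := pow_le_pow_left₀ (abs_nonneg _) hS 2
            _ = 1 := one_pow 2
        have : 4 * |h| * |S| ^ 2 * |P| ≤ 4 * Hh * 1 * (Hh * (X + Y)) :=
          mul_le_mul (mul_le_mul (by linarith) e2 (by positivity) (by positivity)) hPabs
            (abs_nonneg _) (by positivity)
        linarith
      linarith
    have a4 : 2 * Pi * (gtp - b ^ 2 * S * q - 4 * h * S ^ 2 * P)
        ≤ 2 * (Hh * Y) * ((4 * M + 8 * g) * (Hh * (X + Y)) + M ^ 2 * X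
          + 4 * (Hh * (Hh * (X + Y)))) := by
      refine (le_abs_self _).trans ?_
      rw [abs_mul, abs_mul, abs_two, hPiY]
      exact mul_le_mul_of_nonneg_left a3 (by positivity)
    rw [div_le_iff₀ (by positivity)]
    refine a4.trans ?_
    have hHH : Hh ≤ Hh ^ 2 := by nlinarith
    have e5 : 2 * (Hh * Y) * (M ^ 2 * X) ≤ 2 * Y * (M ^ 2 * X) * Hh ^ 2 := by
      have : 0 ≤ 2 * Y * (M ^ 2 * X) := by positivity
      nlinarith
    nlinarith
  have hsq : q ^ 2 + Pi ^ 2 / Hh ^ 2 = X ^ 2 + Y ^ 2 := by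
    rw [hX, hY, sq_abs, div_pow, sq_abs]
  rw [hsq]
  have hXY : 2 * (X * Y) ≤ X ^ 2 + Y ^ 2 := by nlinarith [sq_nonneg (X - Y)]
  have hXY0 : 0 ≤ X * Y := by positivity
  have u1 : 2 * X * (4 * (Hh * (X + Y)) + 2 * (2 * g + M) * X)
      ≤ (12 * Hh + 8 * g + 4 * M) * (X ^ 2 + Y ^ 2) := by
    have : 0 ≤ g * Y ^ 2 := by positivity
    have : 0 ≤ M * Y ^ 2 := by positivity
    have : 0 ≤ Hh * Y ^ 2 := by positivity
    have : Hh * (2 * (X * Y)) ≤ Hh * (X ^ 2 + Y ^ 2) := mul_le_mul_of_nonneg_left hXY hH0.le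
    nlinarith
  have u2 : 2 * Y * ((4 * M + 8 * g) * (X + Y) + M ^ 2 * X + 4 * (Hh * (X + Y)))
      ≤ (12 * M + 24 * g + M ^ 2 + 12 * Hh) * (X ^ 2 + Y ^ 2) := by
    have v1 : (4 * M + 8 * g) * (2 * (X * Y)) ≤ (4 * M + 8 * g) * (X ^ 2 + Y ^ 2) :=
      mul_le_mul_of_nonneg_left hXY (by positivity)
    have v2 : M ^ 2 * (2 * (X * Y)) ≤ M ^ 2 * (X ^ 2 + Y ^ 2) :=
      mul_le_mul_of_nonneg_left hXY (by positivity)
    have v3 : Hh * (2 * (X * Y)) ≤ Hh * (X ^ 2 + Y ^ 2) := mul_le_mul_of_nonneg_left hXY hH0.le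
    have w1 : 0 ≤ M * X ^ 2 := by positivity
    have w2 : 0 ≤ g * X ^ 2 := by positivity
    have w3 : 0 ≤ Hh * X ^ 2 := by positivity
    nlinarith
  linarith

end Run7.h65
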