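import Pool.Agent.Run7.h65.HilF

open Set Real MeasureTheory Filter Topology

namespace Run7.h65

/-- material derivative at a point in log-polar coordinates -/
def MD (ω : ℝ → ℝ × ℝ → ℝ) (F : ℝ → ℝ → ℝ → ℝ) (t s θ c : ℝ) : Prop :=
  ∃ ft fs fθ : ℝ, HasDerivAt (fun τ => F τ s θ) ft t ∧ HasDerivAt (fun σ => F t σ θ) fs s ∧
    HasDerivAt (fun φ => F t s φ) fθ θ ∧
    ft + 2 * gF ω t s * cos (2 * θ) * fs - (2 * gF ω t s - bF ω t s) * sin (2 * θ) * fθ = c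

variable {ω : ℝ → ℝ × ℝ → ℝ} {F G : ℝ → ℝ → ℝ → ℝ} {t s θ c d : ℝ}

theorem MD.add (hF : MD ω F t s θ c) (hG : MD ω G t s θ d) :
    MD ω (fun t s θ => F t s θ + G t s θ) t s θ (c + d) := by
  obtain ⟨a1, a2, a3, h1, h2, h3, h4⟩ := hF
  obtain ⟨b1, b2, b3, k1, k2, k3, k4⟩ := hG
  exact ⟨_, _, _, h1.add k1, h2.add k2, h3.add k3, by rw [← h4, ← k4]; ring⟩

theorem MD.sub (hF : MD ω F t s θ c) (hG : MD ω G t s θ d) :
    MD ω (fun t s θ => F t s θ - G t s θ) t s θ (c - d) := by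
  obtain ⟨a1, a2, a3, h1, h2, h3, h4⟩ := hF
  obtain ⟨b1, b2, b3, k1, k2, k3, k4⟩ := hG
  exact ⟨_, _, _, h1.sub k1, h2.sub k2, h3.sub k3, by rw [← h4, ← k4]; ring⟩

theorem MD.mul (hF : MD ω F t s θ c) (hG : MD ω G t s θ d) :
    MD ω (fun t s θ => F t s θ * G t s θ) t s θ (c * G t s θ + F t s θ * d) := by
  obtain ⟨a1, a2, a3, h1, h2, h3, h4⟩ := hF
  obtain ⟨b1, b2, b3, k1, k2, k3, k4⟩ := hG
  exact ⟨_, _, _, h1.mul k1, h2.mul k2, h3.mul k3, by rw [← h4, ← k4]; ring⟩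

theorem MD.congr (hF : MD ω F t s θ c) (hcd : c = d) : MD ω F t s θ d := hcd ▸ hF

theorem MD.sq (hF : MD ω F t s θ c) :
    MD ω (fun t s θ => F t s θ ^ 2) t s θ (2 * F t s θ * c) := by
  have := hF.mul hF
  simp only [← pow_two] at this
  exact this.congr (by ring)

/-- functions of time only -/
theorem MD.time {k : ℝ → ℝ} {k' : ℝ} (hk : HasDerivAt k k' t) :
    MD ω (fun t _ _ => k t) t s θ k' :=
  ⟨k', 0, 0, hk, hasDerivAt_const _ _, hasDerivAt_const _ _, by ring⟩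

theorem MD.const (k : ℝ) : MD ω (fun _ _ _ => k) t s θ 0 := MD.time (hasDerivAt_const _ _)

/-- functions of the radius only -/
theorem MD.rad {k : ℝ → ℝ} {k' : ℝ} (hk : HasDerivAt k k' s) :
    MD ω (fun _ s _ => k s) t s θ (2 * gF ω t s * cos (2 * θ) * k') :=
  ⟨0, k', 0, hasDerivAt_const _ _, hk, hasDerivAt_const _ _, by ring⟩

theorem MD.ang {k : ℝ → ℝ} {k' : ℝ} (hk : HasDerivAt k k' θ) :
    MD ω (fun _ _ θ => k θ) t s θ (-((2 * gF ω t s - bF ω t s) * sin (2 * θ) * k')) :=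
  ⟨0, 0, k', hasDerivAt_const _ _, hasDerivAt_const _ _, hk, by ring⟩

theorem MD.comp {k : ℝ → ℝ} {k' : ℝ} (hF : MD ω F t s θ c) (hk : HasDerivAt k k' (F t s θ)) :
    MD ω (fun t s θ => k (F t s θ)) t s θ (k' * c) := by
  obtain ⟨a1, a2, a3, h1, h2, h3, h4⟩ := hF
  exact ⟨_, _, _, HasDerivAt.comp (h₂ := k) t hk h1, HasDerivAt.comp (h₂ := k) s hk h2,
    HasDerivAt.comp (h₂ := k) θ hk h3, by rw [← h4]; ring⟩

/-- at an interior maximum in space the time derivative equals the material derivative -/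
theorem MD.at_max (hF : MD ω F t s θ c) (hs : ∀ σ, F t σ θ ≤ F t s θ)
    (hθ : ∀ φ, F t s φ ≤ F t s θ) : HasDerivAt (fun τ => F τ s θ) c t := by
  obtain ⟨a1, a2, a3, h1, h2, h3, h4⟩ := hF
  have e2 : a2 = 0 := IsLocalMax.hasDerivAt_eq_zero (Filter.Eventually.of_forall hs) h2
  have e3 : a3 = 0 := IsLocalMax.hasDerivAt_eq_zero (Filter.Eventually.of_forall hθ) h3
  rw [e2, e3] at h4
  refine h1.congr_deriv ?_
  linarith

noncomputable def qF (Φ : E3 → ℝ) (t s θ : ℝ) : ℝ := DD eth Φ (t, (s, θ))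
noncomputable def pF (Φ : E3 → ℝ) (t s θ : ℝ) : ℝ := DD es Φ (t, (s, θ))
/-- radial derivative of `b` -/
noncomputable def bs (ω : ℝ → ℝ × ℝ → ℝ) (t s : ℝ) : ℝ := mom s2 (DD es (AF ω)) t s

/-- the adapted radial derivative -/
noncomputable def PiF (ω : ℝ → ℝ × ℝ → ℝ) (Φ : E3 → ℝ) (t s θ : ℝ) : ℝ :=
  gF ω t s * pF Φ t s θ - hilF (AF ω) t s θ * sin (2 * θ) * qF Φ t s θ

namespace OddSol

variable (h : OddSol ω)

include h

theorem bF_s (ht : 0 ≤ t) : HasDerivAt (fun σ => bF ω t σ) (bs ω t s) s := by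
  have h1 := mom_s h.sm_A s2_cont ht s
  have e : (fun σ => bF ω t σ) = fun σ => mom s2 (AF ω) t σ := by
    funext σ; exact h.bF_eq ht σ
  rw [e]
  exact h1

omit h in
theorem two_mul_hasDerivAt (x : ℝ) : HasDerivAt (fun φ : ℝ => 2 * φ) 2 x := by
  simpa using (hasDerivAt_id x).const_mul 2

theorem md_q {Φ : E3 → ℝ} (hΦ : Tr ω Φ) (ht : 0 < t) :
    MD ω (qF Φ) t s θ (4 * gF ω t s * sin (2 * θ) * pF Φ t s θ
      + 2 * (2 * gF ω t s - bF ω t s) * cos (2 * θ) * qF Φ t s θ) := by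
  have hs := hΦ.sm
  have e1 : HasDerivAt (fun φ => DD et Φ (t, (s, φ)))
      (4 * gF ω t s * sin (2 * θ) * pF Φ t s θ
        - 2 * gF ω t s * cos (2 * θ) * DD eth (DD es Φ) (t, (s, θ))
        + 2 * (2 * gF ω t s - bF ω t s) * cos (2 * θ) * qF Φ t s θ
        + (2 * gF ω t s - bF ω t s) * sin (2 * θ) * DD eth (DD eth Φ) (t, (s, θ))) θ := by
    have e : (fun φ => DD et Φ (t, (s, φ))) = fun φ =>
        -(2 * gF ω t s * cos (2 * φ)) * DD es Φ (t, (s, φ))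
        + (2 * gF ω t s - bF ω t s) * sin (2 * φ) * DD eth Φ (t, (s, φ)) := by
      funext φ; exact hΦ.pde t ht s φ
    rw [e]
    have c1 := ((two_mul_hasDerivAt θ).cos.const_mul (2 * gF ω t s)).neg.mul
      ((hs.dd es).deriv_th ht.le s θ)
    have c2 := ((two_mul_hasDerivAt θ).sin.const_mul (2 * gF ω t s - bF ω t s)).mul
      ((hs.dd eth).deriv_th ht.le s θ)
    refine (c1.add c2).congr_deriv ?_
    unfold pF qF
    simp only [Pi.neg_apply]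
    ring
  have e2 := (hs.dd et).deriv_th ht.le s θ
  have e3 := e2.unique e1
  have e4 := DD_comm hs eth et (mem_S3 ht.le (s, θ))
  have e5 := DD_comm hs eth es (mem_S3 ht.le (s, θ))
  refine ⟨_, _, _, (hs.dd eth).deriv_t ht s θ, (hs.dd eth).deriv_s ht.le s θ,
    (hs.dd eth).deriv_th ht.le s θ, ?_⟩
  rw [← e4, e3, ← e5]
  ring

theorem md_p {Φ : E3 → ℝ} (hΦ : Tr ω Φ) (ht : 0 < t) :
    MD ω (pF Φ) t s θ (2 * bF ω t s * cos (2 * θ) * pF Φ t s θ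
      - (2 * bF ω t s + bs ω t s) * sin (2 * θ) * qF Φ t s θ) := by
  have hs := hΦ.sm
  have e1 : HasDerivAt (fun σ => DD et Φ (t, (σ, θ)))
      (2 * bF ω t s * cos (2 * θ) * pF Φ t s θ
        - 2 * gF ω t s * cos (2 * θ) * DD es (DD es Φ) (t, (s, θ))
        - (2 * bF ω t s + bs ω t s) * sin (2 * θ) * qF Φ t s θ
        + (2 * gF ω t s - bF ω t s) * sin (2 * θ) * DD es (DD eth Φ) (t, (s, θ))) s := by
    have e : (fun σ => DD et Φ (t, (σ, θ))) = fun σ =>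
        -(2 * gF ω t σ * cos (2 * θ)) * DD es Φ (t, (σ, θ))
        + (2 * gF ω t σ - bF ω t σ) * sin (2 * θ) * DD eth Φ (t, (σ, θ)) := by
      funext σ; exact hΦ.pde t ht σ θ
    rw [e]
    have c1 := (((h.gF_s ht.le s).const_mul 2).mul_const (cos (2 * θ))).neg.mul
      ((hs.dd es).deriv_s ht.le s θ)
    have c2 := ((((h.gF_s ht.le s).const_mul 2).sub (h.bF_s (s := s) ht.le)).mul_const
      (sin (2 * θ))).mul ((hs.dd eth).deriv_s ht.le s θ)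
    refine (c1.add c2).congr_deriv ?_
    unfold pF qF
    simp only [Pi.neg_apply, Pi.sub_apply]
    ring
  have e2 := (hs.dd et).deriv_s ht.le s θ
  have e3 := e2.unique e1
  have e4 := DD_comm hs es et (mem_S3 ht.le (s, θ))
  have e5 := DD_comm hs es eth (mem_S3 ht.le (s, θ))
  refine ⟨_, _, _, (hs.dd es).deriv_t ht s θ, (hs.dd es).deriv_s ht.le s θ,
    (hs.dd es).deriv_th ht.le s θ, ?_⟩
  rw [← e4, e3, ← e5]
  ring

theorem md_h (ht : 0 < t) :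
    MD ω (hilF (AF ω)) t s θ (-(gF ω t s * bs ω t s)
      - (2 * gF ω t s - bF ω t s) * bF ω t s) :=
  ⟨_, _, _, hilF_t h.sm_A ht s θ, hilF_s h.sm_A ht.le s θ, hilF_th h.sm_A ht.le s θ,
    h.hil_material ht s θ⟩

theorem md_g {gt : ℝ} (ht : 0 < t) (hg : HasDerivAt (fun τ => gF ω τ s) gt t) :
    MD ω (fun t s _ => gF ω t s) t s θ (gt - 2 * gF ω t s * bF ω t s * cos (2 * θ)) :=
  ⟨_, _, 0, hg, h.gF_s ht.le s, hasDerivAt_const _ _, by ring⟩

theorem md_Pi {Φ : E3 → ℝ} (hΦ : Tr ω Φ) (ht : 0 < t) {gt : ℝ}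
    (hg : HasDerivAt (fun τ => gF ω τ s) gt t) :
    MD ω (PiF ω Φ) t s θ (gt * pF Φ t s θ - bF ω t s ^ 2 * sin (2 * θ) * qF Φ t s θ
      - 4 * hilF (AF ω) t s θ * sin (2 * θ) ^ 2 * (gF ω t s * pF Φ t s θ)) := by
  have hq := h.md_q (s := s) (θ := θ) hΦ ht
  have hp := h.md_p (s := s) (θ := θ) hΦ ht
  have hh := h.md_h (s := s) (θ := θ) ht
  have hgm := h.md_g (θ := θ) ht hg
  have hsin : MD ω (fun _ _ θ => sin (2 * θ)) t s θ _ :=
    MD.ang (two_mul_hasDerivAt θ).sin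
  have := (hgm.mul hp).sub ((hh.mul hsin).mul hq)
  refine this.congr ?_
  ring

end OddSol

end Run7.h65
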