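import Pool.Agent.Run7.h65.LpAux

open Set Real MeasureTheory Filter Topology

namespace Run7.h65

/-- integrals over the first quadrant of a circle -/
noncomputable def qm (κ : ℝ → ℝ) (Ψ : E3 → ℝ) (t s : ℝ) : ℝ :=
  ∫ φ in (0 : ℝ)..(π / 2), Ψ (t, (s, φ)) * κ φ

noncomputable def c2 (φ : ℝ) : ℝ := cos (2 * φ)
theorem c2_cont : Continuous c2 := by unfold c2; fun_prop

variable {Ψ : E3 → ℝ}

theorem qm_s (h : Sm Ψ) {κ : ℝ → ℝ} (hκ : Continuous κ) {t : ℝ} (ht : 0 ≤ t) (s : ℝ) :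
    HasDerivAt (fun σ => qm κ Ψ t σ) (qm κ (DD es Ψ) t s) s := by
  unfold qm
  refine param_hasDerivAt (G := fun σ φ => Ψ (t, (σ, φ)) * κ φ)
    (G' := fun σ φ => DD es Ψ (t, (σ, φ)) * κ φ) (δ := 1) one_pos
    (fun x _ => (h.cont_line ht x).mul hκ) ?_ ?_
  · refine Continuous.continuousOn ?_
    exact ((h.dd es).cont_slice ht).mul (hκ.comp continuous_snd)
  · intro x _ φ
    exact (h.deriv_s ht x φ).mul_const _

theorem qm_t (h : Sm Ψ) {κ : ℝ → ℝ} (hκ : Continuous κ) {t : ℝ} (ht : 0 < t) (s : ℝ) :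
    HasDerivAt (fun τ => qm κ Ψ τ s) (qm κ (DD et Ψ) t s) t := by
  unfold qm
  have hpos : ∀ x ∈ Icc (t - t / 2) (t + t / 2), 0 < x := fun x hx => by linarith [hx.1]
  refine param_hasDerivAt (G := fun τ φ => Ψ (τ, (s, φ)) * κ φ)
    (G' := fun τ φ => DD et Ψ (τ, (s, φ)) * κ φ) (δ := t / 2) (by positivity)
    (fun x hx => (h.cont_line (hpos x hx).le s).mul hκ) ?_ ?_
  · refine ContinuousOn.mul ?_ (hκ.comp continuous_snd).continuousOn
    exact (h.dd et).continuousOn.comp (f := fun p : ℝ × ℝ => ((p.1, (s, p.2)) : E3))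
      (by fun_prop) (fun p hp => mem_S3 (hpos _ hp.1).le _)
  · intro x hx φ
    exact (h.deriv_t (hpos x hx) s φ).mul_const _

theorem qm_cont (h : Sm Ψ) {κ : ℝ → ℝ} (hκ : Continuous κ) :
    ContinuousOn (fun p : ℝ × ℝ => qm κ Ψ p.1 p.2) (Ici 0 ×ˢ univ) := by
  intro p0 hp0
  unfold qm
  obtain ⟨C, hC0, hC⟩ := h.local_bound (p0.1 + 1) p0.2 (2 * π)
  obtain ⟨K, hK⟩ := (isCompact_uIcc (a := (0 : ℝ)) (b := π / 2)).exists_bound_of_continuousOn
    hκ.continuousOn
  have hK0 : 0 ≤ K := (norm_nonneg _).trans (hK 0 left_mem_uIcc)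
  have hnear : ∀ᶠ x : ℝ × ℝ in 𝓝[Ici 0 ×ˢ univ] p0, 0 ≤ x.1 ∧ x.1 ≤ p0.1 + 1 ∧ |x.2 - p0.2| ≤ 1 := by
    have h1 : ∀ᶠ x : ℝ × ℝ in 𝓝[Ici 0 ×ˢ univ] p0, x ∈ (Ici (0 : ℝ)) ×ˢ (univ : Set ℝ) :=
      self_mem_nhdsWithin
    have h2 : ∀ᶠ x : ℝ × ℝ in 𝓝 p0, x.1 < p0.1 + 1 :=
      (continuous_fst.tendsto p0).eventually_lt_const (by linarith)
    have h3 : ∀ᶠ x : ℝ × ℝ in 𝓝 p0, |x.2 - p0.2| < 1 := by
      have hc : Continuous fun x : ℝ × ℝ => |x.2 - p0.2| := by fun_prop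
      exact (hc.tendsto p0).eventually_lt_const (by simp)
    filter_upwards [h1, mem_nhdsWithin_of_mem_nhds h2, mem_nhdsWithin_of_mem_nhds h3] with x a b c
    exact ⟨a.1, le_of_lt b, le_of_lt c⟩
  refine param_continuousWithinAt (C := C * K) ?_ ?_ ?_
  · filter_upwards [hnear] with x hx
    exact (h.cont_line hx.1 x.2).mul hκ
  · filter_upwards [hnear] with x hx φ hφ
    rw [abs_mul]
    refine mul_le_mul (hC x.1 hx.1 hx.2.1 x.2 hx.2.2 φ ?_) (hK φ hφ) (abs_nonneg _) hC0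
    rw [uIcc_of_le (by positivity)] at hφ
    rw [abs_of_nonneg hφ.1]; linarith [hφ.2, pi_pos]
  · intro φ
    refine ContinuousWithinAt.mul ?_ continuousWithinAt_const
    exact (h.continuousOn (p0.1, (p0.2, φ)) (mem_S3 hp0.1 _)).comp
      (f := fun x : ℝ × ℝ => ((x.1, (x.2, φ)) : E3)) (by fun_prop)
      (fun x hx => mem_S3 hx.1 _)

theorem qm_line_cont (hΨ : Sm Ψ) {κ : ℝ → ℝ} (hκ : Continuous κ) {t : ℝ}
    (ht : 0 ≤ t) : Continuous (fun s => qm κ Ψ t s) := by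
  rw [← continuousOn_univ]
  exact (qm_cont hΨ hκ).comp (f := fun s : ℝ => ((t, s) : ℝ × ℝ)) (by fun_prop)
    (fun s _ => ⟨ht, mem_univ _⟩)

/-- the mass in an annular sector -/
noncomputable def Mass (ω : ℝ → ℝ × ℝ → ℝ) (t s₁ s₂ : ℝ) : ℝ :=
  ∫ σ in s₁..s₂, qm (fun _ => 1) (AF ω) t σ * exp (2 * σ)

namespace OddSol

variable {ω : ℝ → ℝ × ℝ → ℝ} (h : OddSol ω)

include h

theorem qm_dt {t : ℝ} (ht : 0 < t) (s : ℝ) :
    qm (fun _ => 1) (DD et (AF ω)) t s = -(2 * gF ω t s * qm c2 (DD es (AF ω)) t s)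
      - 2 * (2 * gF ω t s - bF ω t s) * qm c2 (AF ω) t s := by
  have hA := h.sm_A
  have hc1 := (hA.dd es).cont_line ht.le s
  have hc2 := (hA.dd eth).cont_line ht.le s
  have hparts : ∫ φ in (0 : ℝ)..(π / 2), DD eth (AF ω) (t, (s, φ)) * sin (2 * φ)
      = -(2 * ∫ φ in (0 : ℝ)..(π / 2), AF ω (t, (s, φ)) * c2 φ) := by
    have hd : ∀ φ : ℝ, HasDerivAt (fun φ : ℝ => sin (2 * φ)) (2 * c2 φ) φ := by
      intro φ
      have h1 : HasDerivAt (fun φ : ℝ => 2 * φ) 2 φ := by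
        simpa using (hasDerivAt_id φ).const_mul 2
      refine (h1.sin).congr_deriv ?_
      unfold c2; ring
    have := intervalIntegral.integral_mul_deriv_eq_deriv_mul (a := 0) (b := π / 2)
      (u := fun φ : ℝ => sin (2 * φ)) (v := fun φ => AF ω (t, (s, φ)))
      (u' := fun φ => 2 * c2 φ) (v' := fun φ => DD eth (AF ω) (t, (s, φ)))
      (fun φ _ => hd φ) (fun φ _ => hA.deriv_th ht.le s φ)
      ((continuous_const.mul c2_cont).intervalIntegrable _ _) (hc2.intervalIntegrable _ _)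
    have e0 : sin (2 * (π / 2)) = 0 := by
      rw [show 2 * (π / 2) = π by ring]; exact sin_pi
    simp only [e0, mul_zero, sin_zero, zero_mul, sub_self, zero_sub] at this
    have e1 : ∫ φ in (0 : ℝ)..(π / 2), DD eth (AF ω) (t, (s, φ)) * sin (2 * φ)
        = ∫ φ in (0 : ℝ)..(π / 2), sin (2 * φ) * DD eth (AF ω) (t, (s, φ)) :=
      intervalIntegral.integral_congr fun φ _ => by ring
    have e2 : ∫ φ in (0 : ℝ)..(π / 2), 2 * c2 φ * AF ω (t, (s, φ))
        = 2 * ∫ φ in (0 : ℝ)..(π / 2), AF ω (t, (s, φ)) * c2 φ := by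
      rw [← intervalIntegral.integral_const_mul]
      exact intervalIntegral.integral_congr fun φ _ => by ring
    rw [e1, this, e2]
  have hmain : ∫ φ in (0 : ℝ)..(π / 2), DD et (AF ω) (t, (s, φ)) * (1 : ℝ)
      = -(2 * gF ω t s) * (∫ φ in (0 : ℝ)..(π / 2), DD es (AF ω) (t, (s, φ)) * c2 φ)
        + (2 * gF ω t s - bF ω t s)
          * ∫ φ in (0 : ℝ)..(π / 2), DD eth (AF ω) (t, (s, φ)) * sin (2 * φ) := by
    rw [← intervalIntegral.integral_const_mul, ← intervalIntegral.integral_const_mul,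
      ← intervalIntegral.integral_add]
    · refine intervalIntegral.integral_congr fun φ _ => ?_
      rw [h.tr_A.pde t ht s φ]
      unfold c2
      ring
    · exact (continuous_const.mul (hc1.mul c2_cont)).intervalIntegrable _ _
    · exact (continuous_const.mul (hc2.mul (by fun_prop))).intervalIntegrable _ _
  unfold qm
  rw [hmain, hparts]
  ring

/-- conservation of mass in the sector up to the flux through the inner arc -/
theorem mass_deriv {U : ℝ} (hU : ∀ t, 0 ≤ t → SuppIn (ω t) (exp U)) {t : ℝ} (ht : 0 < t)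
    (s₁ : ℝ) {U' : ℝ} (hU' : U ≤ U') :
    HasDerivAt (fun τ => Mass ω τ s₁ U')
      (2 * (exp (2 * s₁) * gF ω t s₁ * qm c2 (AF ω) t s₁)) t := by
  have hA := h.sm_A
  have hpos : ∀ x ∈ Icc (t - t / 2) (t + t / 2), 0 < x := fun x hx => by linarith [hx.1]
  have h1 : HasDerivAt (fun τ => Mass ω τ s₁ U')
      (∫ σ in s₁..U', qm (fun _ => 1) (DD et (AF ω)) t σ * exp (2 * σ)) t := by
    unfold Mass
    refine param_hasDerivAt (G := fun τ σ => qm (fun _ => 1) (AF ω) τ σ * exp (2 * σ))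
      (G' := fun τ σ => qm (fun _ => 1) (DD et (AF ω)) τ σ * exp (2 * σ)) (δ := t / 2)
      (by positivity)
      (fun x hx => (qm_line_cont hA continuous_const (hpos x hx).le).mul (by fun_prop)) ?_ ?_
    · exact ((qm_cont (hA.dd et) continuous_const).mono
        (fun p hp => ⟨(hpos _ hp.1).le, mem_univ _⟩)).mul (by fun_prop)
    · intro x hx σ
      exact (qm_t hA continuous_const (hpos x hx) σ).mul_const _
  refine h1.congr_deriv ?_
  have hcg : Continuous (fun σ => gF ω t σ) :=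
    continuous_iff_continuousAt.2 fun σ => (h.gF_s ht.le σ).continuousAt
  have hcb : Continuous (fun σ => bF ω t σ) := by
    have := mom_line_cont hA s2_cont ht.le
    exact this.congr (fun σ => (h.bF_eq ht.le σ).symm)
  have hcc := qm_line_cont hA c2_cont ht.le
  have hccs := qm_line_cont (hA.dd es) c2_cont ht.le
  have hd : ∀ σ, HasDerivAt (fun σ => exp (2 * σ) * gF ω t σ * qm c2 (AF ω) t σ)
      ((exp (2 * σ) * 2 * gF ω t σ + exp (2 * σ) * (-(bF ω t σ))) * qm c2 (AF ω) t σ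
        + exp (2 * σ) * gF ω t σ * qm c2 (DD es (AF ω)) t σ) σ := by
    intro σ
    have e1 : HasDerivAt (fun σ : ℝ => exp (2 * σ)) (exp (2 * σ) * 2) σ := by
      have h2 : HasDerivAt (fun σ : ℝ => 2 * σ) 2 σ := by
        simpa using (hasDerivAt_id σ).const_mul 2
      exact h2.exp
    exact (e1.mul (h.gF_s ht.le σ)).mul (qm_s hA c2_cont ht.le σ)
  have hint := intervalIntegral.integral_eq_sub_of_hasDerivAt (a := s₁) (b := U')
    (fun σ _ => hd σ) (Continuous.intervalIntegrable (by fun_prop) _ _)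
  rw [gF_zero hU ht.le hU'] at hint
  have e2 : ∫ σ in s₁..U', qm (fun _ => 1) (DD et (AF ω)) t σ * exp (2 * σ)
      = ∫ σ in s₁..U', (-2) * ((exp (2 * σ) * 2 * gF ω t σ + exp (2 * σ) * (-(bF ω t σ)))
        * qm c2 (AF ω) t σ + exp (2 * σ) * gF ω t σ * qm c2 (DD es (AF ω)) t σ) := by
    refine intervalIntegral.integral_congr fun σ _ => ?_
    have := h.qm_dt ht σ
    rw [this]; ring
  rw [e2, intervalIntegral.integral_const_mul, hint]
  ring

theorem mass_cont {t : ℝ} (s₁ s₂ : ℝ) (ht : 0 ≤ t) :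
    ContinuousWithinAt (fun τ => Mass ω τ s₁ s₂) (Ici 0) t := by
  have hA := h.sm_A
  unfold Mass
  obtain ⟨K, hK⟩ := ((isCompact_Icc (a := (0 : ℝ)) (b := t + 1)).prod
    (isCompact_uIcc (a := s₁) (b := s₂))).exists_bound_of_continuousOn
    (f := fun p : ℝ × ℝ => qm (fun _ => 1) (AF ω) p.1 p.2 * exp (2 * p.2))
    (((qm_cont hA continuous_const).mono
      (fun p hp => ⟨hp.1.1, mem_univ _⟩)).mul (by fun_prop))
  refine param_continuousWithinAt (C := K) ?_ ?_ ?_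
  · filter_upwards [self_mem_nhdsWithin] with τ hτ
    exact (qm_line_cont hA continuous_const hτ).mul (by fun_prop)
  · have h2 : ∀ᶠ τ in 𝓝[Ici 0] t, τ < t + 1 :=
      mem_nhdsWithin_of_mem_nhds (Iio_mem_nhds (by linarith))
    filter_upwards [self_mem_nhdsWithin, h2] with τ hτ hτ2 φ hφ
    exact hK (τ, φ) ⟨⟨hτ, hτ2.le⟩, hφ⟩
  · intro σ
    refine ContinuousWithinAt.mul ?_ continuousWithinAt_const
    exact ((qm_cont hA continuous_const) (t, σ) ⟨ht, mem_univ _⟩).comp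
      (f := fun τ : ℝ => ((τ, σ) : ℝ × ℝ)) (by fun_prop) (fun τ hτ => ⟨hτ, mem_univ _⟩)

end OddSol

namespace SignSol

variable {ω : ℝ → ℝ × ℝ → ℝ} (h : SignSol ω)

include h

theorem A_nonneg {t : ℝ} (ht : 0 ≤ t) (s : ℝ) {φ : ℝ} (h0 : 0 ≤ φ) (h1 : φ ≤ π / 2) :
    0 ≤ AF ω (t, (s, φ)) := by
  rcases eq_or_lt_of_le h0 with h2 | h2
  · have : AF ω (t, (s, φ)) = 0 := by
      unfold AF pb lpc
      simp only
      rw [← h2, sin_zero, mul_zero]
      exact (h.act_axes ht _).2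
    rw [this]
  rcases eq_or_lt_of_le h1 with h3 | h3
  · have : AF ω (t, (s, φ)) = 0 := by
      unfold AF pb lpc
      simp only
      rw [h3, cos_pi_div_two, mul_zero]
      exact (h.act_axes ht _).1
    rw [this]
  have h4 := h.A_sin_nonneg ht s φ
  have h5 : 0 < s2 φ := sin_pos_of_pos_of_lt_pi (by linarith) (by linarith)
  exact nonneg_of_mul_nonneg_left h4 h5

theorem qm1_nonneg {t : ℝ} (ht : 0 ≤ t) (s : ℝ) : 0 ≤ qm (fun _ => 1) (AF ω) t s := by
  unfold qm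
  refine intervalIntegral.integral_nonneg (by positivity) fun φ hφ => ?_
  rw [mul_one]
  exact h.A_nonneg ht s hφ.1 hφ.2

/-- lower bound of `b` by the mass on the circle -/
theorem b_lower {S : ℝ} (hS : ∀ t, 0 ≤ t → ∀ z, |ω t z| ≤ S) {t : ℝ} (ht : 0 ≤ t) (s : ℝ)
    {η : ℝ} (hη0 : 0 < η) (hη : η ≤ π / 4) :
    η / π * (qm (fun _ => 1) (AF ω) t s - 2 * η * S) ≤ bF ω t s := by
  have hA := h.sm_A
  have hc := hA.cont_line ht s
  have hcs : Continuous (fun φ => AF ω (t, (s, φ)) * s2 φ) := hc.mul s2_cont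
  have hAS : ∀ φ, AF ω (t, (s, φ)) ≤ S := fun φ =>
    (le_abs_self _).trans (act_abs_le (hS t ht) _)
  have i1 : ∀ a b : ℝ, IntervalIntegrable (fun φ => AF ω (t, (s, φ)) * s2 φ) volume a b :=
    fun a b => hcs.intervalIntegrable a b
  have i2 : ∀ a b : ℝ, IntervalIntegrable (fun φ => AF ω (t, (s, φ)) * (1 : ℝ)) volume a b :=
    fun a b => (hc.mul continuous_const).intervalIntegrable a b
  have hpi := pi_pos
  -- restrict to the middle interval
  have hnn : ∀ a b : ℝ, a ≤ b → 0 ≤ ∫ φ in a..b, AF ω (t, (s, φ)) * s2 φ := fun a b hab =>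
    intervalIntegral.integral_nonneg hab fun φ _ => h.A_sin_nonneg ht s φ
  have e1 : ∫ φ in (0 : ℝ)..(2 * π), AF ω (t, (s, φ)) * s2 φ
      = (∫ φ in (0 : ℝ)..η, AF ω (t, (s, φ)) * s2 φ)
        + (∫ φ in η..(π / 2 - η), AF ω (t, (s, φ)) * s2 φ)
        + ∫ φ in (π / 2 - η)..(2 * π), AF ω (t, (s, φ)) * s2 φ := by
    rw [intervalIntegral.integral_add_adjacent_intervals (i1 _ _) (i1 _ _),
      intervalIntegral.integral_add_adjacent_intervals (i1 _ _) (i1 _ _)]
  have e2 : ∫ φ in (0 : ℝ)..(π / 2), AF ω (t, (s, φ)) * (1 : ℝ)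
      = (∫ φ in (0 : ℝ)..η, AF ω (t, (s, φ)) * (1 : ℝ))
        + (∫ φ in η..(π / 2 - η), AF ω (t, (s, φ)) * (1 : ℝ))
        + ∫ φ in (π / 2 - η)..(π / 2), AF ω (t, (s, φ)) * (1 : ℝ) := by
    rw [intervalIntegral.integral_add_adjacent_intervals (i2 _ _) (i2 _ _),
      intervalIntegral.integral_add_adjacent_intervals (i2 _ _) (i2 _ _)]
  have f1 : ∫ φ in (0 : ℝ)..η, AF ω (t, (s, φ)) * (1 : ℝ) ≤ η * S := by
    have := intervalIntegral.integral_mono_on (a := 0) (b := η) hη0.le (i2 _ _)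
      (intervalIntegrable_const (c := S)) (fun φ _ => by rw [mul_one]; exact hAS φ)
    rw [intervalIntegral.integral_const, smul_eq_mul, sub_zero] at this
    exact this
  have f2 : ∫ φ in (π / 2 - η)..(π / 2), AF ω (t, (s, φ)) * (1 : ℝ) ≤ η * S := by
    have := intervalIntegral.integral_mono_on (a := π / 2 - η) (b := π / 2) (by linarith) (i2 _ _)
      (intervalIntegrable_const (c := S)) (fun φ _ => by rw [mul_one]; exact hAS φ)
    rw [intervalIntegral.integral_const, smul_eq_mul] at this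
    refine this.trans (le_of_eq ?_)
    ring
  have f3 : η * (∫ φ in η..(π / 2 - η), AF ω (t, (s, φ)) * (1 : ℝ))
      ≤ ∫ φ in η..(π / 2 - η), AF ω (t, (s, φ)) * s2 φ := by
    rw [← intervalIntegral.integral_const_mul]
    refine intervalIntegral.integral_mono_on (by linarith)
      ((continuous_const.mul (hc.mul continuous_const)).intervalIntegrable _ _) (i1 _ _)
      (fun φ hφ => ?_)
    have hA0 := h.A_nonneg ht s (φ := φ) (by linarith [hφ.1]) (by linarith [hφ.2])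
    have hsin : η ≤ s2 φ := by
      have h4 : π < 4 := by linarith [pi_lt_d2]
      have hk : η ≤ 2 / π * (2 * η) := by
        rw [div_mul_eq_mul_div, le_div_iff₀ hpi]
        nlinarith
      rcases le_total φ (π / 4) with hp | hp
      · have := mul_le_sin (x := 2 * φ) (by linarith [hφ.1]) (by linarith)
        refine hk.trans (le_trans ?_ this)
        exact mul_le_mul_of_nonneg_left (by linarith [hφ.1]) (by positivity)
      · have := mul_le_sin (x := π - 2 * φ) (by linarith [hφ.2]) (by linarith)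
        rw [sin_pi_sub] at this
        refine hk.trans (le_trans ?_ this)
        exact mul_le_mul_of_nonneg_left (by linarith [hφ.2]) (by positivity)
    calc η * (AF ω (t, (s, φ)) * 1) = AF ω (t, (s, φ)) * η := by ring
      _ ≤ AF ω (t, (s, φ)) * s2 φ := mul_le_mul_of_nonneg_left hsin hA0
  have g1 := hnn 0 η hη0.le
  have g2 := hnn (π / 2 - η) (2 * π) (by linarith)
  rw [h.bF_eq ht]
  unfold mom qm
  rw [e1, e2]
  have f4 : η * ((∫ φ in (0 : ℝ)..η, AF ω (t, (s, φ)) * (1 : ℝ))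
        + (∫ φ in η..(π / 2 - η), AF ω (t, (s, φ)) * (1 : ℝ))
        + (∫ φ in (π / 2 - η)..(π / 2), AF ω (t, (s, φ)) * (1 : ℝ)) - 2 * η * S)
      ≤ (∫ φ in (0 : ℝ)..η, AF ω (t, (s, φ)) * s2 φ)
        + (∫ φ in η..(π / 2 - η), AF ω (t, (s, φ)) * s2 φ)
        + ∫ φ in (π / 2 - η)..(2 * π), AF ω (t, (s, φ)) * s2 φ := by
    nlinarith
  calc η / π * _ = 1 / π * (η * _) := by ring
    _ ≤ 1 / π * _ := mul_le_mul_of_nonneg_left f4 (by positivity)

end SignSol

end Run7.h65
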