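import Pool.Agent.Run7.h65.LP
import Pool.Agent.Run7.h65.Hil

open Set Real MeasureTheory Filter Topology

namespace Run7.h65

theorem param_hasDerivAt {G G' : ℝ → ℝ → ℝ} {x0 a b δ : ℝ} (hδ : 0 < δ)
    (hG : ∀ x ∈ Icc (x0 - δ) (x0 + δ), Continuous (G x))
    (hG' : ContinuousOn (fun p : ℝ × ℝ => G' p.1 p.2) (Icc (x0 - δ) (x0 + δ) ×ˢ univ))
    (hd : ∀ x ∈ Icc (x0 - δ) (x0 + δ), ∀ φ, HasDerivAt (fun y => G y φ) (G' x φ) x) :
    HasDerivAt (fun x => ∫ φ in a..b, G x φ) (∫ φ in a..b, G' x0 φ) x0 := by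
  have hx0 : x0 ∈ Icc (x0 - δ) (x0 + δ) := ⟨by linarith, by linarith⟩
  have hball : Metric.ball x0 δ ⊆ Icc (x0 - δ) (x0 + δ) := by
    rw [Real.ball_eq_Ioo]; exact Ioo_subset_Icc_self
  have hG'x : ∀ x ∈ Icc (x0 - δ) (x0 + δ), Continuous (G' x) := by
    intro x hx
    rw [← continuousOn_univ]
    exact hG'.comp (f := fun φ : ℝ => ((x, φ) : ℝ × ℝ)) (by fun_prop) (fun φ _ => ⟨hx, mem_univ _⟩)
  obtain ⟨C, hC⟩ := (isCompact_Icc.prod (isCompact_uIcc (a := a) (b := b))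
    ).exists_bound_of_continuousOn (hG'.mono (prod_mono_right (subset_univ _)))
  have key := intervalIntegral.hasDerivAt_integral_of_dominated_loc_of_deriv_le
    (μ := volume) (a := a) (b := b) (𝕜 := ℝ) (bound := fun _ => C)
    (F := G) (F' := G') (x₀ := x0) (s := Metric.ball x0 δ) (Metric.ball_mem_nhds x0 hδ)
    (by
      filter_upwards [Metric.ball_mem_nhds x0 hδ] with x hx
      exact (hG x (hball hx)).aestronglyMeasurable)
    ((hG x0 hx0).intervalIntegrable _ _)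
    (hG'x x0 hx0).aestronglyMeasurable
    (Filter.Eventually.of_forall fun φ hφ x hx =>
      hC (x, φ) ⟨hball hx, uIoc_subset_uIcc hφ⟩)
    intervalIntegrable_const
    (Filter.Eventually.of_forall fun φ _ x hx => hd x (hball hx) φ)
  exact key.2

theorem param_continuousWithinAt {X : Type*} [TopologicalSpace X] [FirstCountableTopology X]
    {G : X → ℝ → ℝ} {x0 : X} {s : Set X} {a b C : ℝ}
    (hGc : ∀ᶠ x in 𝓝[s] x0, Continuous (G x))
    (hC : ∀ᶠ x in 𝓝[s] x0, ∀ φ ∈ uIcc a b, |G x φ| ≤ C)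
    (hc : ∀ φ, ContinuousWithinAt (fun x => G x φ) s x0) :
    ContinuousWithinAt (fun x => ∫ φ in a..b, G x φ) s x0 := by
  refine intervalIntegral.continuousWithinAt_of_dominated_interval (bound := fun _ => C)
    ?_ ?_ intervalIntegrable_const ?_
  · filter_upwards [hGc] with x hx
    exact hx.aestronglyMeasurable
  · filter_upwards [hC] with x hx
    exact Filter.Eventually.of_forall fun φ hφ => hx φ (uIoc_subset_uIcc hφ)
  · exact Filter.Eventually.of_forall fun φ _ => hc φ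

/-- angular moments -/
noncomputable def mom (κ : ℝ → ℝ) (Ψ : E3 → ℝ) (t s : ℝ) : ℝ :=
  (1 / π) * ∫ φ in (0 : ℝ)..(2 * π), Ψ (t, (s, φ)) * κ φ

variable {Ψ : E3 → ℝ}

theorem Sm.cont_slice (h : Sm Ψ) {t : ℝ} (ht : 0 ≤ t) : Continuous (fun x : ℝ × ℝ => Ψ (t, x)) := by
  rw [← continuousOn_univ]
  exact h.continuousOn.comp (f := fun x : ℝ × ℝ => ((t, x) : E3)) (by fun_prop)
    (fun x _ => mem_S3 ht x)

theorem Sm.cont_line (h : Sm Ψ) {t : ℝ} (ht : 0 ≤ t) (s : ℝ) :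
    Continuous (fun φ : ℝ => Ψ (t, (s, φ))) :=
  (h.cont_slice ht).comp (by fun_prop : Continuous fun φ : ℝ => ((s, φ) : ℝ × ℝ))

/-- local bound near a point, uniformly for angles in a compact set -/
theorem Sm.local_bound (h : Sm Ψ) (t0 s0 R : ℝ) :
    ∃ C, 0 ≤ C ∧ ∀ t, 0 ≤ t → t ≤ t0 → ∀ s, |s - s0| ≤ 1 → ∀ φ, |φ| ≤ R → |Ψ (t, (s, φ))| ≤ C := by
  have hc : IsCompact ((Icc 0 t0 : Set ℝ) ×ˢ ((Icc (s0 - 1) (s0 + 1) : Set ℝ) ×ˢ
    (Icc (-R) R : Set ℝ))) := isCompact_Icc.prod (isCompact_Icc.prod isCompact_Icc)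
  obtain ⟨C, hC⟩ := hc.exists_bound_of_continuousOn
    (h.continuousOn.mono (fun p hp => ⟨hp.1.1, mem_univ _⟩))
  refine ⟨max C 0, le_max_right _ _, fun t ht ht0 s hs φ hφ => ?_⟩
  rw [abs_le] at hs hφ
  exact (hC (t, (s, φ)) ⟨⟨ht, ht0⟩, ⟨by linarith [hs.1], by linarith [hs.2]⟩, hφ⟩).trans
    (le_max_left _ _)

theorem mom_s (h : Sm Ψ) {κ : ℝ → ℝ} (hκ : Continuous κ) {t : ℝ} (ht : 0 ≤ t) (s : ℝ) :
    HasDerivAt (fun σ => mom κ Ψ t σ) (mom κ (DD es Ψ) t s) s := by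
  unfold mom
  refine HasDerivAt.const_mul _ ?_
  refine param_hasDerivAt (G := fun σ φ => Ψ (t, (σ, φ)) * κ φ)
    (G' := fun σ φ => DD es Ψ (t, (σ, φ)) * κ φ) (δ := 1) one_pos
    (fun x _ => (h.cont_line ht x).mul hκ) ?_ ?_
  · refine Continuous.continuousOn ?_
    exact ((h.dd es).cont_slice ht).mul (hκ.comp continuous_snd)
  · intro x _ φ
    exact (h.deriv_s ht x φ).mul_const _

theorem mom_t (h : Sm Ψ) {κ : ℝ → ℝ} (hκ : Continuous κ) {t : ℝ} (ht : 0 < t) (s : ℝ) :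
    HasDerivAt (fun τ => mom κ Ψ τ s) (mom κ (DD et Ψ) t s) t := by
  unfold mom
  refine HasDerivAt.const_mul _ ?_
  have hpos : ∀ x ∈ Icc (t - t / 2) (t + t / 2), 0 < x := fun x hx => by linarith [hx.1]
  refine param_hasDerivAt (G := fun τ φ => Ψ (τ, (s, φ)) * κ φ)
    (G' := fun τ φ => DD et Ψ (τ, (s, φ)) * κ φ) (δ := t / 2) (by positivity)
    (fun x hx => (h.cont_line (hpos x hx).le s).mul hκ) ?_ ?_
  · refine ContinuousOn.mul ?_ (hκ.comp continuous_snd).continuousOn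
    exact (h.dd et).continuousOn.comp (f := fun p : ℝ × ℝ => ((p.1, (s, p.2)) : E3))
      (by fun_prop) (fun p hp => mem_S3 (hpos _ hp.1).le _)
  · intro x hx φ
    exact (h.deriv_t (hpos x hx) s φ).mul_const _

theorem mom_cont (h : Sm Ψ) {κ : ℝ → ℝ} (hκ : Continuous κ) :
    ContinuousOn (fun p : ℝ × ℝ => mom κ Ψ p.1 p.2) (Ici 0 ×ˢ univ) := by
  intro p0 hp0
  unfold mom
  refine ContinuousWithinAt.mul continuousWithinAt_const ?_
  obtain ⟨C, hC0, hC⟩ := h.local_bound (p0.1 + 1) p0.2 (2 * π)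
  obtain ⟨K, hK⟩ := (isCompact_uIcc (a := (0 : ℝ)) (b := 2 * π)).exists_bound_of_continuousOn
    hκ.continuousOn
  have hK0 : 0 ≤ K := (norm_nonneg _).trans (hK 0 left_mem_uIcc)
  have hnear : ∀ᶠ x : ℝ × ℝ in 𝓝[Ici 0 ×ˢ univ] p0, 0 ≤ x.1 ∧ x.1 ≤ p0.1 + 1 ∧ |x.2 - p0.2| ≤ 1 := by
    have h1 : ∀ᶠ x : ℝ × ℝ in 𝓝[Ici 0 ×ˢ univ] p0, x ∈ (Ici (0 : ℝ)) ×ˢ (univ : Set ℝ) :=
      self_mem_nhdsWithin
    have h2 : ∀ᶠ x : ℝ × ℝ in 𝓝 p0, x.1 < p0.1 + 1 :=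
      (continuous_fst.tendsto p0).eventually_lt_const (by linarith)
    have h3 : ∀ᶠ x : ℝ × ℝ in 𝓝 p0, |x.2 - p0.2| < 1 := by
      have hc : Continuous fun x : ℝ × ℝ => |x.2 - p0.2| := by fun_prop
      exact (hc.tendsto p0).eventually_lt_const (by simp)
    filter_upwards [h1, mem_nhdsWithin_of_mem_nhds h2, mem_nhdsWithin_of_mem_nhds h3] with x a b c
    exact ⟨a.1, le_of_lt b, le_of_lt c⟩
  refine param_continuousWithinAt (C := C * K) ?_ ?_ ?_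
  · filter_upwards [hnear] with x hx
    exact (h.cont_line hx.1 x.2).mul hκ
  · filter_upwards [hnear] with x hx φ hφ
    rw [abs_mul]
    refine mul_le_mul (hC x.1 hx.1 hx.2.1 x.2 hx.2.2 φ ?_) (hK φ hφ) (abs_nonneg _) hC0
    rw [uIcc_of_le (by positivity)] at hφ
    rw [abs_of_nonneg hφ.1]; exact hφ.2
  · intro φ
    refine ContinuousWithinAt.mul ?_ continuousWithinAt_const
    exact (h.continuousOn (p0.1, (p0.2, φ)) (mem_S3 hp0.1 _)).comp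
      (f := fun x : ℝ × ℝ => ((x.1, (x.2, φ)) : E3)) (by fun_prop)
      (fun x hx => mem_S3 hx.1 _)

theorem mom_abs_le {κ : ℝ → ℝ} {t s C : ℝ}
    (hC : ∀ φ, |Ψ (t, (s, φ)) * κ φ| ≤ C) : |mom κ Ψ t s| ≤ 2 * C := by
  have hC0 : 0 ≤ C := (abs_nonneg _).trans (hC 0)
  unfold mom
  have hb := intervalIntegral.norm_integral_le_of_norm_le_const (a := (0 : ℝ)) (b := 2 * π)
    (f := fun φ => Ψ (t, (s, φ)) * κ φ) (C := C) (fun φ _ => by
      rw [Real.norm_eq_abs]; exact hC φ)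
  rw [Real.norm_eq_abs, sub_zero, abs_of_pos (by positivity : 0 < 2 * π)] at hb
  rw [abs_mul, abs_of_pos (by positivity : 0 < 1 / π)]
  calc 1 / π * |∫ φ in (0 : ℝ)..(2 * π), Ψ (t, (s, φ)) * κ φ|
      ≤ 1 / π * (C * (2 * π)) := mul_le_mul_of_nonneg_left hb (by positivity)
    _ = 2 * C := by field_simp

/-- Lipschitz windows for smooth functions -/
theorem Sm.lipW (h : Sm Ψ) {t s θ L : ℝ} (ht : 0 ≤ t)
    (hL : ∀ φ ∈ Icc (θ - π / 2) (θ + π / 2), |DD eth Ψ (t, (s, φ))| ≤ L) :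
    LipW (fun φ => Ψ (t, (s, φ))) θ L := by
  intro x hx y hy
  have := mvt (g := fun φ => Ψ (t, (s, φ))) (g' := fun φ => DD eth Ψ (t, (s, φ))) (x := y) (y := x)
    (C := L) (h.cont_line ht s).continuousOn (fun φ _ => h.deriv_th ht s φ)
    (fun φ hφ => hL φ ⟨(le_min hy.1 hx.1).trans hφ.1.le, hφ.2.le.trans (max_le hy.2 hx.2)⟩)
  exact this

end Run7.h65
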