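import Pool.Agent.Run7.h65.Barrier

open Set Real MeasureTheory Filter Topology

namespace Run7.h65

/-- reflections -/
def sy (z : ℝ × ℝ) : ℝ × ℝ := (z.1, -z.2)
def sx (z : ℝ × ℝ) : ℝ × ℝ := (-z.1, z.2)

theorem rad_sy (z : ℝ × ℝ) : rad (sy z) = rad z := by simp [rad, sy]
theorem rad_sx (z : ℝ × ℝ) : rad (sx z) = rad z := by simp [rad, sx]

noncomputable def syL : ℝ × ℝ →L[ℝ] ℝ × ℝ :=
  (ContinuousLinearMap.fst ℝ ℝ ℝ).prod (-(ContinuousLinearMap.snd ℝ ℝ ℝ))
noncomputable def sxL : ℝ × ℝ →L[ℝ] ℝ × ℝ :=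
  (-(ContinuousLinearMap.fst ℝ ℝ ℝ)).prod (ContinuousLinearMap.snd ℝ ℝ ℝ)

theorem syL_apply (z : ℝ × ℝ) : syL z = sy z := rfl
theorem sxL_apply (z : ℝ × ℝ) : sxL z = sx z := rfl

theorem hasFDerivAt_comp_sy {w : ℝ × ℝ → ℝ} {z : ℝ × ℝ} (hw : DifferentiableAt ℝ w (sy z)) :
    HasFDerivAt (fun y => w (sy y)) ((fderiv ℝ w (sy z)).comp syL) z := by
  have h1 : HasFDerivAt (fun y : ℝ × ℝ => sy y) syL z := syL.hasFDerivAt
  exact hw.hasFDerivAt.comp z h1

theorem hasFDerivAt_comp_sx {w : ℝ × ℝ → ℝ} {z : ℝ × ℝ} (hw : DifferentiableAt ℝ w (sx z)) :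
    HasFDerivAt (fun y => w (sx y)) ((fderiv ℝ w (sx z)).comp sxL) z := by
  have h1 : HasFDerivAt (fun y : ℝ × ℝ => sx y) sxL z := sxL.hasFDerivAt
  exact hw.hasFDerivAt.comp z h1

theorem d1_comp_sy {w : ℝ × ℝ → ℝ} {z : ℝ × ℝ} (hw : DifferentiableAt ℝ w (sy z)) :
    d1 (fun y => w (sy y)) z = d1 w (sy z) := by
  unfold d1
  rw [(hasFDerivAt_comp_sy hw).fderiv, ContinuousLinearMap.comp_apply, syL_apply]
  simp [sy]

theorem d2_comp_sy {w : ℝ × ℝ → ℝ} {z : ℝ × ℝ} (hw : DifferentiableAt ℝ w (sy z)) :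
    d2 (fun y => w (sy y)) z = -d2 w (sy z) := by
  unfold d2
  rw [(hasFDerivAt_comp_sy hw).fderiv, ContinuousLinearMap.comp_apply, syL_apply, ← map_neg]
  simp [sy]

theorem d1_comp_sx {w : ℝ × ℝ → ℝ} {z : ℝ × ℝ} (hw : DifferentiableAt ℝ w (sx z)) :
    d1 (fun y => w (sx y)) z = -d1 w (sx z) := by
  unfold d1
  rw [(hasFDerivAt_comp_sx hw).fderiv, ContinuousLinearMap.comp_apply, sxL_apply, ← map_neg]
  simp [sx]

theorem d2_comp_sx {w : ℝ × ℝ → ℝ} {z : ℝ × ℝ} (hw : DifferentiableAt ℝ w (sx z)) :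
    d2 (fun y => w (sx y)) z = d2 w (sx z) := by
  unfold d2
  rw [(hasFDerivAt_comp_sx hw).fderiv, ContinuousLinearMap.comp_apply, sxL_apply]
  simp [sx]

theorem sy_continuous : Continuous sy := by unfold sy; fun_prop
theorem sx_continuous : Continuous sx := by unfold sx; fun_prop

theorem cc_sy (w : ℝ × ℝ → ℝ) (ρ : ℝ) : cc (fun z => w (sy z)) ρ = cc w ρ := by
  unfold cc
  congr 1
  have := intervalIntegral.integral_comp_sub_left (a := 0) (b := 2 * π)
    (fun φ => w (ρ * cos φ, ρ * sin φ) * cos (2 * φ)) (2 * π)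
  rw [sub_self, sub_zero] at this
  rw [← this]
  refine intervalIntegral.integral_congr fun φ _ => ?_
  simp only [sy, cos_two_pi_sub, sin_two_pi_sub, mul_sub, mul_neg]
  congr 1
  rw [cos_sub]
  have e1 : cos (2 * (2 * π)) = 1 := by
    have := cos_nat_mul_two_pi 2
    push_cast at this
    exact this
  have e2 : sin (2 * (2 * π)) = 0 := by
    have := sin_nat_mul_pi 4
    push_cast at this
    rw [← this]; ring_nf
  rw [e1, e2]; ring

theorem cc_add {w v : ℝ × ℝ → ℝ} (hw : Continuous w) (hv : Continuous v) (ρ : ℝ) :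
    cc (fun z => w z + v z) ρ = cc w ρ + cc v ρ := by
  unfold cc
  rw [← mul_add]
  congr 1
  have h1 : IntervalIntegrable (fun φ => w (ρ * cos φ, ρ * sin φ) * cos (2 * φ)) volume 0 (2*π) :=
    (by fun_prop : Continuous _).intervalIntegrable _ _
  have h2 : IntervalIntegrable (fun φ => v (ρ * cos φ, ρ * sin φ) * cos (2 * φ)) volume 0 (2*π) :=
    (by fun_prop : Continuous _).intervalIntegrable _ _
  rw [← intervalIntegral.integral_add h1 h2]
  refine intervalIntegral.integral_congr fun φ _ => ?_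
  ring

theorem cc_le_of_even_part {w : ℝ × ℝ → ℝ} (hw : Continuous w) {W ρ : ℝ}
    (h : ∀ z, |w z + w (sy z)| ≤ W) : |cc w ρ| ≤ W := by
  have h1 := cc_add hw (hw.comp sy_continuous) ρ
  simp only [Function.comp_def] at h1
  rw [cc_sy] at h1
  have h2 := cc_bound (w := fun z => w z + w (sy z)) (hw.add (hw.comp sy_continuous)) (ρ := ρ)
    (c0 := 0) (A := W) (fun φ => by rw [sub_zero]; exact h _)
  rw [h1, ← two_mul, abs_mul, abs_two] at h2
  linarith

theorem velf_sy (A B a b : ℝ) (z : ℝ × ℝ) :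
    (velf A B a b (sy z)).1 = (velf (-A) B (-a) b z).1 ∧
    (velf A B a b (sy z)).2 = -(velf (-A) B (-a) b z).2 := by
  constructor <;> simp only [velf, sy] <;> ring

theorem velf_sub (A B a b : ℝ) (z : ℝ × ℝ) :
    (velf A B a b z).1 - (velf (-A) B (-a) b z).1 = (velf (2 * A) 0 (2 * a) 0 z).1 ∧
    (velf A B a b z).2 - (velf (-A) B (-a) b z).2 = (velf (2 * A) 0 (2 * a) 0 z).2 := by
  constructor <;> simp only [velf] <;> ring

theorem velf_zero_pt (A B a b : ℝ) : velf A B a b 0 = 0 := by simp [velf]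

namespace IsSmoothSolution

variable {ω : ℝ → ℝ × ℝ → ℝ} (h : IsSmoothSolution ω)

include h

/-- oddness in the second variable persists -/
theorem odd_persist (h0 : ∀ z, ω 0 (sy z) = -ω 0 z) {t : ℝ} (ht : 0 ≤ t) (z : ℝ × ℝ) :
    ω t (sy z) = -ω t z := by
  obtain ⟨R, hR1, hR⟩ := h.exists_supp_all
  have hR0 : 0 < R := by linarith
  obtain ⟨L, hL0, hL⟩ := h.exists_bound (a := 0) (b := t) le_rfl hR0 (fun t ht => hR t ht.1)
  set K := 20 * L * R + 1 with hK
  have hK0 : 0 < K := by positivity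
  have main : ∀ ε : ℝ, 0 < ε → (ω t z + ω t (sy z)) ^ 2 ≤ ε ^ 2 * exp (2 * K * t) := by
    intro ε hε
    refine (sq_barrier (w := fun t z => ω t z + ω t (sy z)) (fun t => vel (ω t))
      (fun t z => ((vel (ω t) z).1 - (vel (ω t) (sy z)).1) * d1 (ω t) (sy z)
        + ((vel (ω t) z).2 + (vel (ω t) (sy z)).2) * (-d2 (ω t) (sy z))) (T := t)
      ?_ ?_ ?_ (fun s _ => ε ^ 2 * exp (2 * K * s)) (by fun_prop) (fun s => by fun_prop)
      (fun s _ => ε ^ 2 * (exp (2 * K * s) * (2 * K))) ?_ R ?_ ?_ ?_ t ⟨ht, le_rfl⟩ z).le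
    · refine (h.cont_Icc t).add ?_
      exact (h.cont_Icc t).comp (f := fun p : ℝ × (ℝ × ℝ) => ((p.1, sy p.2) : ℝ × (ℝ × ℝ)))
        ((continuous_fst.prodMk (sy_continuous.comp continuous_snd)).continuousOn)
        (fun p hp => ⟨hp.1, mem_univ _⟩)
    · intro s hs _ y
      exact (h.diff_slice hs.le y).add (hasFDerivAt_comp_sy (h.diff_slice hs.le _)).differentiableAt
    · intro s hs _ y
      have e1 := h.pde hs y
      have e2 := h.pde hs (sy y)
      have d1e : d1 (fun z => ω s z + ω s (sy z)) y = d1 (ω s) y + d1 (ω s) (sy y) := by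
        rw [← d1_comp_sy (h.diff_slice hs.le _)]
        unfold d1
        rw [fderiv_fun_add (h.diff_slice hs.le y)
          (hasFDerivAt_comp_sy (h.diff_slice hs.le _)).differentiableAt]
        rfl
      have d2e : d2 (fun z => ω s z + ω s (sy z)) y = d2 (ω s) y - d2 (ω s) (sy y) := by
        rw [sub_eq_add_neg, ← d2_comp_sy (h.diff_slice hs.le _)]
        unfold d2
        rw [fderiv_fun_add (h.diff_slice hs.le y)
          (hasFDerivAt_comp_sy (h.diff_slice hs.le _)).differentiableAt]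
        rfl
      refine (e1.add e2).congr_deriv ?_
      rw [d1e, d2e]
      ring
    · intro s _
      have : HasDerivAt (fun s : ℝ => 2 * K * s) (2 * K) s := by
        simpa using (hasDerivAt_id s).const_mul (2 * K)
      exact this.exp.const_mul (ε ^ 2)
    · intro s hs z hz
      have hz2 := not_mem_box hR0.le hz
      have : ω s (sy z) = 0 := hR s hs.1 _ (by simpa [sy] using hz2)
      have hpos : 0 < ε ^ 2 * exp (2 * K * s) := by positivity
      simp only [hR s hs.1 z hz2, this, add_zero, ne_eq, OfNat.ofNat_ne_zero, not_false_eq_true,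
        zero_pow]
      exact hpos
    · intro z
      have hpos : 0 < ε ^ 2 * exp (2 * K * 0) := by positivity
      simp only [h0 z, add_neg_cancel, ne_eq, OfNat.ofNat_ne_zero, not_false_eq_true, zero_pow]
      exact hpos
    · intro s hs hst z hz hmax
      simp only [d1_const_fun, d2_const_fun, mul_zero, add_zero]
      have hsI : s ∈ Icc 0 t := ⟨hs.le, hst⟩
      set W := |ω s z + ω s (sy z)| with hW
      have hWall : ∀ y, |ω s y + ω s (sy y)| ≤ W := by
        intro y
        rw [← sq_le_sq₀ (abs_nonneg _) (abs_nonneg _), sq_abs, sq_abs, hz]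
        exact hmax y
      have hcc : ∀ ρ, |cc (ω s) ρ| ≤ W := fun ρ => cc_le_of_even_part (h.cont_slice hs.le) hWall
      have hWpos : 0 < W ^ 2 := by rw [hW, sq_abs, hz]; positivity
      have hW0 : 0 ≤ W := abs_nonneg _
      have hdiff : |(vel (ω s) z).1 - (vel (ω s) (sy z)).1| ≤ 10 * W * R ∧
          |(vel (ω s) z).2 + (vel (ω s) (sy z)).2| ≤ 10 * W * R := by
        rcases eq_or_ne z 0 with rfl | hz0
        · have : sy (0 : ℝ × ℝ) = 0 := by simp [sy]
          rw [this, vel_zero]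
          simp only [Prod.fst_zero, Prod.snd_zero, sub_self, add_zero, abs_zero]
          constructor <;> positivity
        · have hr := rad_pos hz0
          have e1 : (vel (ω s) z).1 - (vel (ω s) (sy z)).1
              = (velf (2 * CC (ω s) (rad z)) 0 (2 * cc (ω s) (rad z)) 0 z).1 := by
            rw [vel, vel, rad_sy, (velf_sy _ _ _ _ z).1, (velf_sub _ _ _ _ z).1]
          have e2 : (vel (ω s) z).2 + (vel (ω s) (sy z)).2
              = (velf (2 * CC (ω s) (rad z)) 0 (2 * cc (ω s) (rad z)) 0 z).2 := by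
            rw [vel, vel, rad_sy, (velf_sy _ _ _ _ z).2, ← sub_eq_add_neg, (velf_sub _ _ _ _ z).2]
          have hb := velf_abs_le (2 * CC (ω s) (rad z)) 0 (2 * cc (ω s) (rad z)) 0 hz0
          have hCC : rad z * |CC (ω s) (rad z)| ≤ W * R := by
            have := CC_bound (r := rad z) (A := W / rad z) (hR s hs.le) hr hR0.le (by positivity)
              (fun ρ hρ => by
                rw [abs_div, abs_of_pos (hr.trans hρ)]
                exact div_le_div₀ (by positivity) (hcc ρ) hr hρ.le)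
            calc rad z * |CC (ω s) (rad z)| ≤ rad z * (W / rad z * R) :=
                  mul_le_mul_of_nonneg_left this hr.le
              _ = W * R := by field_simp
          have hcr : rad z * |cc (ω s) (rad z)| ≤ W * R := by
            rcases le_or_gt (rad z) R with h1 | h1
            · have := hcc (rad z)
              nlinarith [abs_nonneg (cc (ω s) (rad z))]
            · rw [cc_of_large (hR s hs.le) hR0.le h1, abs_zero, mul_zero]; positivity
          have hfin : rad z * (4 * |2 * CC (ω s) (rad z)| + 4 * |(0:ℝ)| + |2 * cc (ω s) (rad z)|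
              + |(0:ℝ)|) ≤ 10 * W * R := by
            rw [abs_mul, abs_mul, abs_two, abs_zero]
            nlinarith
          rw [e1, e2]
          exact ⟨hb.1.trans hfin, hb.2.trans hfin⟩
      obtain ⟨-, l1, l2⟩ := hL s hsI (sy z)
      have hs' : |((vel (ω s) z).1 - (vel (ω s) (sy z)).1) * d1 (ω s) (sy z)
          + ((vel (ω s) z).2 + (vel (ω s) (sy z)).2) * (-d2 (ω s) (sy z))| ≤ 20 * W * R * L := by
        refine (abs_add_le _ _).trans ?_
        rw [abs_mul, abs_mul, abs_neg]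
        have f1 := mul_le_mul hdiff.1 l1 (abs_nonneg _) (by positivity)
        have f2 := mul_le_mul hdiff.2 l2 (abs_nonneg _) (by positivity)
        linarith
      have hprod : 2 * (ω s z + ω s (sy z)) * (((vel (ω s) z).1 - (vel (ω s) (sy z)).1)
          * d1 (ω s) (sy z) + ((vel (ω s) z).2 + (vel (ω s) (sy z)).2) * (-d2 (ω s) (sy z)))
          ≤ 2 * W * (20 * W * R * L) := by
        refine (le_abs_self _).trans ?_
        rw [abs_mul, abs_mul, abs_two]
        exact mul_le_mul_of_nonneg_left hs' (by positivity)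
      have e3 : ε ^ 2 * (exp (2 * K * s) * (2 * K)) = 2 * K * W ^ 2 := by
        have e4 : W ^ 2 = ε ^ 2 * exp (2 * K * s) := by rw [hW, sq_abs, hz]
        rw [e4]; ring
      rw [e3, hK]
      nlinarith
  have hlim : Tendsto (fun ε : ℝ => ε ^ 2 * exp (2 * K * t)) (𝓝[>] 0) (𝓝 0) := by
    have : Continuous (fun ε : ℝ => ε ^ 2 * exp (2 * K * t)) := by fun_prop
    have h2 := this.tendsto 0
    simp only [ne_eq, OfNat.ofNat_ne_zero, not_false_eq_true, zero_pow, zero_mul] at h2
    exact h2.mono_left nhdsWithin_le_nhds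
  have : (ω t z + ω t (sy z)) ^ 2 ≤ 0 := by
    refine ge_of_tendsto hlim ?_
    filter_upwards [self_mem_nhdsWithin] with ε hε
    exact main ε hε
  have h3 : ω t z + ω t (sy z) = 0 := by
    have := le_antisymm this (sq_nonneg _)
    exact pow_eq_zero_iff (two_ne_zero) |>.1 this
  linarith

end IsSmoothSolution

end Run7.h65
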