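import Pool.Agent.Run7.h65.Act

open Set Real MeasureTheory Filter Topology

namespace Run7.h65

structure OddSol (ω : ℝ → ℝ × ℝ → ℝ) : Prop where
  sol : IsSmoothSolution ω
  odd : ∀ t, 0 ≤ t → ∀ z, ω t (sy z) = -ω t z

theorem IsSmoothSolution.oddSol {ω : ℝ → ℝ × ℝ → ℝ} (h : IsSmoothSolution ω)
    (h0 : ∀ z, ω 0 (sy z) = -ω 0 z) : OddSol ω :=
  ⟨h, fun _ ht z => h.odd_persist h0 ht z⟩

theorem act_d1 {w : ℝ × ℝ → ℝ} (hw : Differentiable ℝ w) (z : ℝ × ℝ) :
    d1 (act w) z = (1 / 2) * (d1 w z + d1 w (sx z)) := by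
  have h1 := (hw z).hasFDerivAt
  have h2 := hasFDerivAt_comp_sx (z := z) (hw (sx z))
  have h3 : HasFDerivAt (act w) ((1 / 2 : ℝ) • (fderiv ℝ w z + -(fderiv ℝ w (sx z)).comp sxL)) z :=
    (h1.add h2.neg).const_mul (1 / 2)
  unfold d1
  rw [h3.fderiv]
  simp only [smul_apply, add_apply, neg_apply,
    ContinuousLinearMap.comp_apply, sxL_apply, smul_eq_mul]
  have : sx ((1 : ℝ), (0 : ℝ)) = -((1 : ℝ), (0 : ℝ)) := by simp [sx]
  rw [this, map_neg, neg_neg]

theorem act_d2 {w : ℝ × ℝ → ℝ} (hw : Differentiable ℝ w) (z : ℝ × ℝ) :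
    d2 (act w) z = (1 / 2) * (d2 w z - d2 w (sx z)) := by
  have h1 := (hw z).hasFDerivAt
  have h2 := hasFDerivAt_comp_sx (z := z) (hw (sx z))
  have h3 : HasFDerivAt (act w) ((1 / 2 : ℝ) • (fderiv ℝ w z + -(fderiv ℝ w (sx z)).comp sxL)) z :=
    (h1.add h2.neg).const_mul (1 / 2)
  unfold d2
  rw [h3.fderiv]
  simp only [smul_apply, add_apply, neg_apply,
    ContinuousLinearMap.comp_apply, sxL_apply, smul_eq_mul]
  have : sx ((0 : ℝ), (1 : ℝ)) = ((0 : ℝ), (1 : ℝ)) := by simp [sx]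
  rw [this]
  ring

theorem act_contDiff {w : ℝ × ℝ → ℝ} {n : WithTop ℕ∞} (hw : ContDiff ℝ n w) :
    ContDiff ℝ n (act w) := by
  unfold act
  refine contDiff_const.mul (hw.add (hw.comp ?_).neg)
  unfold sx
  fun_prop

theorem act_abs_le {w : ℝ × ℝ → ℝ} {S : ℝ} (h : ∀ z, |w z| ≤ S) (z : ℝ × ℝ) : |act w z| ≤ S := by
  unfold act
  rw [abs_mul, abs_of_pos (by norm_num : (0 : ℝ) < 1 / 2)]
  have := abs_add_le (w z) (-w (sx z))
  rw [abs_neg] at this
  have h1 := h z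
  have h2 := h (sx z)
  linarith

namespace OddSol

variable {ω : ℝ → ℝ × ℝ → ℝ} (h : OddSol ω)

include h

theorem zero_x_axis {t : ℝ} (ht : 0 ≤ t) (x : ℝ) : ω t (x, 0) = 0 := by
  have := h.odd t ht (x, 0)
  simp only [sy, neg_zero] at this
  linarith

theorem act_pde {t : ℝ} (ht : 0 < t) (z : ℝ × ℝ) :
    HasDerivAt (fun τ => act (ω τ) z)
      (-((vel (ω t) z).1 * d1 (act (ω t)) z + (vel (ω t) z).2 * d2 (act (ω t)) z)) t := by
  have e1 := h.sol.pde ht z
  have e2 := h.sol.pde ht (sx z)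
  have hv := vel_sx (h.sol.cont_slice ht.le) (h.odd t ht.le) z
  rw [hv.1, hv.2] at e2
  rw [act_d1 (h.sol.diff_slice ht.le), act_d2 (h.sol.diff_slice ht.le)]
  unfold act
  exact ((e1.add e2.neg).const_mul (1 / 2)).congr_deriv (by ring)

theorem act_cont (T : ℝ) : ContinuousOn (fun p : ℝ × (ℝ × ℝ) => act (ω p.1) p.2)
    (Icc 0 T ×ˢ univ) := by
  unfold act
  refine continuousOn_const.mul ((h.sol.cont_Icc T).add (ContinuousOn.neg ?_))
  exact (h.sol.cont_Icc T).comp (f := fun p : ℝ × (ℝ × ℝ) => ((p.1, sx p.2) : ℝ × (ℝ × ℝ)))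
        ((continuous_fst.prodMk (sx_continuous.comp continuous_snd)).continuousOn)
        (fun p hp => ⟨hp.1, mem_univ _⟩)

theorem act_axes {t : ℝ} (ht : 0 ≤ t) (x : ℝ) : act (ω t) (0, x) = 0 ∧ act (ω t) (x, 0) = 0 := by
  constructor
  · simp [act, sx]
  · simp only [act, sx, h.zero_x_axis ht]; ring

theorem exists_act_bound : ∃ M C0 : ℝ, 1 ≤ M ∧ 0 < C0 ∧
    (∀ t, 0 ≤ t → ∀ ρ, |bb (ω t) ρ| ≤ M) ∧
    ∀ t, 0 ≤ t → ∀ z : ℝ × ℝ, |act (ω t) z| ≤ C0 * exp (2 * M * t) * |z.1 * z.2| := by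
  obtain ⟨S, hS1, hS⟩ := h.sol.exists_sup
  obtain ⟨R, hR1, hR⟩ := h.sol.exists_supp_all
  have hR0 : 0 < R := by linarith
  have hac : HasCompactSupport (act (ω 0)) := by
    have h1 := h.sol.compact 0 le_rfl
    have h2 : HasCompactSupport (fun z => ω 0 (sx z)) := by
      refine HasCompactSupport.of_support_subset_isCompact (isCompact_box R) ?_
      intro z hz
      by_contra hc
      apply hz
      refine hR 0 le_rfl _ ?_
      simpa [sx] using not_mem_box hR0.le hc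
    exact ((h1.add h2.neg).mul_left (f := fun _ => (1 / 2 : ℝ)))
  obtain ⟨C0, hC0, hC⟩ := odd_odd_bound (w := act (ω 0))
    (act_contDiff ((h.sol.contDiff_slice le_rfl).of_le (WithTop.coe_le_coe.2 le_top)))
    hac (fun y => (h.act_axes le_rfl y).1) (fun x => (h.act_axes le_rfl x).2)
  have hM : ∀ t, 0 ≤ t → ∀ ρ, |bb (ω t) ρ| ≤ 2 * S := fun t ht ρ =>
    bb_bound (h.sol.cont_slice ht) (c0 := 0) (fun φ => by rw [sub_zero]; exact hS t ht _)
  refine ⟨2 * S, C0, by linarith, hC0, hM, fun t ht z => ?_⟩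
  set M := 2 * S with hMdef
  have hM0 : 0 < M := by positivity
  have hk0 : 0 ≤ C0 * exp (2 * M * t) := by positivity
  rw [← abs_of_nonneg hk0, ← abs_mul, ← sq_le_sq]
  refine le_of_forall_pos_le_add fun ε hε => ?_
  have key := sq_barrier (w := fun t => act (ω t)) (fun t => vel (ω t)) (fun _ _ => 0) (T := t)
    (h.act_cont t)
    (fun s hs _ => (act_contDiff (h.sol.contDiff_slice hs.le)).differentiable (by simp))
    (fun s hs _ z => by simpa using h.act_pde hs z)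
    (fun s z => (C0 * exp (2 * M * s) * (z.1 * z.2)) ^ 2 + ε / (1 + t) * (1 + s))
    (by fun_prop) (fun s => by fun_prop)
    (fun s z => 4 * M * (C0 * exp (2 * M * s) * (z.1 * z.2)) ^ 2 + ε / (1 + t))
    (fun s z => by
      have h1 : HasDerivAt (fun s : ℝ => 2 * M * s) (2 * M) s := by
        simpa using (hasDerivAt_id s).const_mul (2 * M)
      have h2 := ((h1.exp.const_mul C0).mul_const (z.1 * z.2)).pow 2
      have h3 := ((hasDerivAt_id s).const_add 1).const_mul (ε / (1 + t))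
      refine (h2.add h3).congr_deriv ?_
      simp only [Nat.cast_ofNat, Nat.add_one_sub_one, pow_one]
      ring) R
    (fun s hs z hz => by
      have hz2 := not_mem_box hR0.le hz
      have e : act (ω s) z = 0 := by
        unfold act
        rw [hR s hs.1 z hz2, hR s hs.1 (sx z) (by simpa [sx] using hz2)]; ring
      have hs0 := hs.1
      rw [e]
      have : 0 < ε / (1 + t) * (1 + s) := by positivity
      simp only [ne_eq, OfNat.ofNat_ne_zero, not_false_eq_true, zero_pow]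
      positivity)
    (fun z => by
      have h1 := hC z
      have h2 : act (ω 0) z ^ 2 ≤ (C0 * exp (2 * M * 0) * (z.1 * z.2)) ^ 2 := by
        rw [mul_zero, exp_zero, mul_one, sq_le_sq, abs_mul C0, abs_of_pos hC0]
        exact h1
      have : 0 < ε / (1 + t) * (1 + 0) := by positivity
      linarith)
    (fun s hs hst z _ _ => by
      set k := C0 * exp (2 * M * s) with hk
      have hq := (vel_odd (h.sol.cont_slice hs.le) (h.odd s hs.le) z)
      have hd1 : d1 (fun z : ℝ × ℝ => (k * (z.1 * z.2)) ^ 2 + ε / (1 + t) * (1 + s)) z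
          = 2 * k ^ 2 * z.1 * z.2 ^ 2 := by
        refine d1_of_line (by fun_prop) ?_
        have h1 := (((hasDerivAt_id z.1).mul_const z.2).const_mul k).pow 2
        refine (h1.add_const (ε / (1 + t) * (1 + s))).congr_deriv ?_
        simp only [id, Nat.cast_ofNat, Nat.add_one_sub_one, pow_one]
        ring
      have hd2 : d2 (fun z : ℝ × ℝ => (k * (z.1 * z.2)) ^ 2 + ε / (1 + t) * (1 + s)) z
          = 2 * k ^ 2 * z.1 ^ 2 * z.2 := by
        refine d2_of_line (by fun_prop) ?_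
        have h1 := (((hasDerivAt_id z.2).const_mul z.1).const_mul k).pow 2
        refine (h1.add_const (ε / (1 + t) * (1 + s))).congr_deriv ?_
        simp only [id, Nat.cast_ofNat, Nat.add_one_sub_one, pow_one]
        ring
      rw [hd1, hd2, hq.1, hq.2]
      have hb := hM s hs.le (rad z)
      set b := bb (ω s) (rad z)
      set B := BB (ω s) (rad z)
      have e : 4 * M * (k * (z.1 * z.2)) ^ 2 + ε / (1 + t)
          + (z.1 * (2 * B - 2 * b * z.2 ^ 2 / (z.1 ^ 2 + z.2 ^ 2)) * (2 * k ^ 2 * z.1 * z.2 ^ 2)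
            + -z.2 * (2 * B - 2 * b * z.1 ^ 2 / (z.1 ^ 2 + z.2 ^ 2)) * (2 * k ^ 2 * z.1 ^ 2 * z.2))
          - 2 * act (ω s) z * 0
          = ε / (1 + t) + 4 * (k * (z.1 * z.2)) ^ 2
            * (M + b * ((z.1 ^ 2 - z.2 ^ 2) / (z.1 ^ 2 + z.2 ^ 2))) := by
        ring
      rw [e]
      have hc : |(z.1 ^ 2 - z.2 ^ 2) / (z.1 ^ 2 + z.2 ^ 2)| ≤ 1 := by
        rw [abs_div, abs_of_nonneg (by positivity : 0 ≤ z.1 ^ 2 + z.2 ^ 2)]
        refine div_le_one_of_le₀ ?_ (by positivity)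
        rw [abs_le]; constructor <;> nlinarith [sq_nonneg z.1, sq_nonneg z.2]
      have hbc : |b * ((z.1 ^ 2 - z.2 ^ 2) / (z.1 ^ 2 + z.2 ^ 2))| ≤ M := by
        rw [abs_mul]
        calc |b| * |(z.1 ^ 2 - z.2 ^ 2) / (z.1 ^ 2 + z.2 ^ 2)| ≤ M * 1 :=
              mul_le_mul hb hc (abs_nonneg _) hM0.le
          _ = M := mul_one _
      have h5 := (abs_le.1 hbc).1
      have h6 : 0 ≤ 4 * (k * (z.1 * z.2)) ^ 2
            * (M + b * ((z.1 ^ 2 - z.2 ^ 2) / (z.1 ^ 2 + z.2 ^ 2))) :=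
        mul_nonneg (by positivity) (by linarith)
      have h7 : 0 < ε / (1 + t) := by positivity
      linarith)
  have h1 := key t ⟨ht, le_rfl⟩ z
  have e : ε / (1 + t) * (1 + t) = ε := by field_simp
  rw [e] at h1
  exact h1.le

/-- growth in time of the radial integral `BB` is at most linear -/
theorem exists_BB_bound : ∃ Λ : ℝ, 1 ≤ Λ ∧ ∀ t, 0 ≤ t →
    (∀ ρ, |bb (ω t) ρ| ≤ Λ) ∧ ∀ r, 0 < r → |BB (ω t) r| ≤ Λ * (1 + t) := by
  obtain ⟨M, C0, hM1, hC0, hM, hact⟩ := h.exists_act_bound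
  obtain ⟨R, hR1, hR⟩ := h.sol.exists_supp_all
  have hR0 : 0 < R := by linarith
  set D := max M C0 with hD
  have hD1 : 1 ≤ D := hM1.trans (le_max_left _ _)
  refine ⟨D * (2 * M + R ^ 2), by nlinarith [sq_nonneg R], fun t ht => ⟨fun ρ => ?_, fun r hr => ?_⟩⟩
  · refine (hM t ht ρ).trans ?_
    have : M ≤ D := le_max_left _ _
    nlinarith [sq_nonneg R]
  · have := BB_log_bound (w := ω t) (R := R) (M := M) (C0 := C0) (lam := exp (2 * M * t))
      hR0 (hR t ht) (by linarith) (one_le_exp (by positivity)) (hM t ht)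
      (fun ρ => bb_le_of_act (h.sol.cont_slice ht) (by positivity) (hact t ht)) hr
    rw [log_exp] at this
    refine this.trans ?_
    have h3 : 2 * M * t + R ^ 2 ≤ (2 * M + R ^ 2) * (1 + t) := by
      nlinarith [sq_nonneg R, mul_nonneg (sq_nonneg R) ht]
    have h4 : (0 : ℝ) ≤ D := by linarith
    calc D * (2 * M * t + R ^ 2) ≤ D * ((2 * M + R ^ 2) * (1 + t)) :=
          mul_le_mul_of_nonneg_left h3 h4
      _ = D * (2 * M + R ^ 2) * (1 + t) := by ring

end OddSol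

end Run7.h65
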