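import Pool.Agent.Run7.h65.Active

open Set Real MeasureTheory Filter Topology

namespace Run7.h65

/-- the elementary estimate away from the outer edge -/
theorem core_est {g H q Pi p hh sn K w e : ℝ} (hg : 0 ≤ g) (hH : 0 < H) (hK : 1 ≤ K)
    (hw : 0 ≤ w) (he : 0 ≤ e) (hwg : w ^ 12 = g)
    (hq : q ^ 2 + Pi ^ 2 / H ^ 2 ≤ K * (w * e)) (hh1 : |hh| ≤ H) (hsn : |sn| ≤ 1)
    (hP : g * p = Pi + hh * sn * q) (hKw : 1 < K * w) : p ^ 2 ≤ 4 * H ^ 2 * K ^ 24 * e := by
  have hK0 : 0 < K := by linarith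
  have hq2 : q ^ 2 ≤ K * (w * e) := by
    have : 0 ≤ Pi ^ 2 / H ^ 2 := by positivity
    linarith
  have hPi2 : Pi ^ 2 ≤ H ^ 2 * (K * (w * e)) := by
    have h1 : Pi ^ 2 / H ^ 2 ≤ K * (w * e) := by
      have := sq_nonneg q
      linarith
    rw [div_le_iff₀ (by positivity)] at h1
    linarith
  have h2 : (hh * sn * q) ^ 2 ≤ H ^ 2 * (K * (w * e)) := by
    rw [mul_pow, mul_pow]
    have a1 : hh ^ 2 ≤ H ^ 2 := by rw [← sq_abs]; exact pow_le_pow_left₀ (abs_nonneg _) hh1 2
    have a2 : sn ^ 2 ≤ 1 := by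
      rw [← sq_abs]
      calc |sn| ^ 2 ≤ 1 ^ 2 := pow_le_pow_left₀ (abs_nonneg _) hsn 2
        _ = 1 := one_pow 2
    have a3 : hh ^ 2 * sn ^ 2 ≤ H ^ 2 := by
      calc hh ^ 2 * sn ^ 2 ≤ H ^ 2 * 1 := mul_le_mul a1 a2 (sq_nonneg _) (sq_nonneg _)
        _ = H ^ 2 := mul_one _
    exact mul_le_mul a3 hq2 (sq_nonneg _) (sq_nonneg _)
  have h3 : (g * p) ^ 2 ≤ 4 * (H ^ 2 * (K * (w * e))) := by
    rw [hP]; nlinarith [sq_nonneg (Pi - hh * sn * q)]
  rw [mul_pow, ← hwg] at h3
  have hw0 : 0 < w := by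
    by_contra hcon
    have : w = 0 := le_antisymm (not_lt.1 hcon) hw
    rw [this] at hKw; linarith
  -- `w^23 p² ≤ 4 H² K e`
  have h4 : w ^ 23 * p ^ 2 ≤ 4 * H ^ 2 * K * e := by
    have : w * (w ^ 23 * p ^ 2) ≤ w * (4 * H ^ 2 * K * e) := by nlinarith
    exact le_of_mul_le_mul_left this hw0
  have h5 : 1 ≤ (K * w) ^ 23 := one_le_pow₀ hKw.le
  have h6 : p ^ 2 ≤ (K * w) ^ 23 * p ^ 2 := le_mul_of_one_le_left (sq_nonneg _) h5
  calc p ^ 2 ≤ (K * w) ^ 23 * p ^ 2 := h6
    _ = K ^ 23 * (w ^ 23 * p ^ 2) := by rw [mul_pow]; ring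
    _ ≤ K ^ 23 * (4 * H ^ 2 * K * e) := mul_le_mul_of_nonneg_left h4 (by positivity)
    _ = 4 * H ^ 2 * K ^ 24 * e := by ring

theorem KK_cmp (A0 B t : ℝ) : 4 * (B * exp (A0 * t)) ^ 2 * KK A0 t ^ 24
    = 4 * B ^ 2 * exp (2 * (A0 * t) + 48 * A0 * exp (A0 * t)) := by
  unfold KK
  have a : exp (A0 * t) ^ 2 = exp (2 * (A0 * t)) := by
    rw [← exp_nat_mul]; norm_num
  have b : exp (2 * A0 * exp (A0 * t)) ^ 24 = exp (48 * A0 * exp (A0 * t)) := by
    rw [← exp_nat_mul]; congr 1; push_cast; ring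
  rw [mul_pow B, a, b, exp_add]; ring

theorem KK_one_le {A t : ℝ} (hA : 0 ≤ A) : 1 ≤ KK A t := by
  unfold KK; apply one_le_exp; positivity

theorem exp_At {A t : ℝ} (hA1 : 1 ≤ A) (ht : 0 ≤ t) : 1 + t ≤ exp (A * t) := by
  have := add_one_le_exp (A * t)
  nlinarith

namespace SignSol

variable {ω : ℝ → ℝ × ℝ → ℝ} (h : SignSol ω)

include h

/-- **Second barrier**: the radial derivative of the active part. -/
theorem active_radial : ∃ A : ℝ, 1 ≤ A ∧ ∀ t, 0 ≤ t → ∀ s θ,
    pF (AF ω) t s θ ^ 2 ≤ KK A t * exp s := by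
  obtain ⟨A0, B, hA01, hB1, hact⟩ := h.active_bound
  obtain ⟨Λ, hΛ, hB⟩ := h.exists_bounds
  obtain ⟨U, hU1, hU⟩ := h.exists_U
  obtain ⟨Li, hLi0, hLi⟩ := h.qp_bound h.adm_A (T := 0) le_rfl
  have hB0 : 0 < B := by linarith
  obtain ⟨A, hA⟩ : ∃ A, A = 4 * B ^ 2 + 2 + 48 * A0 + (Li ^ 2 * exp U + 8 * Λ + 4 * exp U
    + 2 * Λ) := ⟨_, rfl⟩
  have hA1 : 1 ≤ A := by
    rw [hA]; have : 0 ≤ Li ^ 2 * exp U := by positivity
    nlinarith [exp_pos U, sq_nonneg B]
  have hAA0 : A0 ≤ A := by
    rw [hA]; have : 0 ≤ Li ^ 2 * exp U := by positivity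
    nlinarith [exp_pos U, sq_nonneg B]
  -- comparison of the constants
  have hcmp : ∀ t, 0 ≤ t → 4 * (B * exp (A0 * t)) ^ 2 * KK A0 t ^ 24 ≤ KK A t := by
    intro t ht
    have e1 := KK_cmp A0 B t
    have e2 : 4 * B ^ 2 ≤ exp (4 * B ^ 2) := by
      have := add_one_le_exp (4 * B ^ 2); linarith
    rw [e1]
    calc 4 * B ^ 2 * exp (2 * (A0 * t) + 48 * A0 * exp (A0 * t))
        ≤ exp (4 * B ^ 2) * exp (2 * (A0 * t) + 48 * A0 * exp (A0 * t)) :=
          mul_le_mul_of_nonneg_right e2 (exp_pos _).le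
      _ = exp (4 * B ^ 2 + (2 * (A0 * t) + 48 * A0 * exp (A0 * t))) := by rw [← exp_add]
      _ ≤ KK A t := by
          unfold KK
          refine exp_le_exp.2 ?_
          have a1 : A0 * t ≤ exp (A0 * t) := by
            have := add_one_le_exp (A0 * t); linarith
          have a2 : 1 ≤ exp (A0 * t) := by apply one_le_exp; positivity
          have a3 : exp (A0 * t) ≤ exp (A * t) := exp_le_exp.2 (by nlinarith)
          have a4 : 4 * B ^ 2 + 2 + 48 * A0 ≤ 2 * A := by
            rw [hA]; have : 0 ≤ Li ^ 2 * exp U := by positivity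
            nlinarith [exp_pos U, sq_nonneg B]
          have a5 : 4 * B ^ 2 ≤ 4 * B ^ 2 * exp (A0 * t) := le_mul_of_one_le_right (by positivity) a2
          have a6 : (4 * B ^ 2 + 2 + 48 * A0) * exp (A0 * t) ≤ 2 * A * exp (A * t) :=
            mul_le_mul a4 a3 (exp_pos _).le (by linarith)
          nlinarith
  have main : ∀ T, 0 ≤ T → ∀ η, 0 < η → η ≤ 1 → ∀ s θ,
      pF (AF ω) T s θ ^ 2 - KK A T * (exp s + η) < 0 := by
    intro T hT η hη0 hη1
    obtain ⟨L, hL0, hL⟩ := h.qp_bound h.adm_A hT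
    refine fun s θ => lp_touch (ω := ω)
      (fun t s θ => pF (AF ω) t s θ ^ 2 - KK A t * (exp s + η)) (T := T)
      (sm := log (η / (L ^ 2 + 1)) / 2) (sp := U) ?_ ?_ ?_ ?_ ?_ T ⟨hT, le_rfl⟩ s θ
    · exact ((h.p_cont3 h.sm_A T).pow 2).sub
        (((KK_cont A).comp continuous_fst).continuousOn.mul (by fun_prop))
    · intro t ht s θ
      have e2 : pF (AF ω) t s (θ + 2 * π) = pF (AF ω) t s θ := p_per h.adm_A ht.1 s θ
      rw [e2]
    · intro t ht s hs θ
      have hK1 : 1 ≤ KK A t := KK_one_le (by linarith)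
      have e0 := exp_pos s
      have hKη : η ≤ KK A t * (exp s + η) := by nlinarith
      rcases hs with hs | hs
      · obtain ⟨a1, a2⟩ := hL t ht s θ
        have b2 : pF (AF ω) t s θ ^ 2 ≤ L ^ 2 * exp s ^ 2 := by
          rw [← sq_abs, ← mul_pow]; exact pow_le_pow_left₀ (abs_nonneg _) a2 2
        have b4 : exp s ^ 2 < η / (L ^ 2 + 1) := by
          have : 2 * s < log (η / (L ^ 2 + 1)) := by linarith
          rw [← exp_nat_mul]
          push_cast
          rw [← exp_log (by positivity : 0 < η / (L ^ 2 + 1))]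
          exact exp_lt_exp.2 this
        rw [lt_div_iff₀ (by positivity)] at b4
        have : 0 ≤ exp s ^ 2 := by positivity
        nlinarith
      · have e2 : pF (AF ω) t s θ = 0 := (qp_far h.adm_A hU ht.1 hs θ).2
        rw [e2]
        simp only [ne_eq, OfNat.ofNat_ne_zero, not_false_eq_true, zero_pow]
        linarith
    · intro s θ
      have e0 := exp_pos s
      have hK1 : 1 ≤ KK A 0 := KK_one_le (by linarith)
      have hK0 : Li ^ 2 * exp U ≤ KK A 0 := by
        unfold KK
        rw [mul_zero, exp_zero, mul_one]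
        have := add_one_le_exp (2 * A)
        have h2 : Li ^ 2 * exp U ≤ A := by
          rw [hA]; nlinarith [exp_pos U, sq_nonneg B]
        linarith
      rcases le_or_gt s U with hs | hs
      · have a2 := (hLi 0 ⟨le_rfl, le_rfl⟩ s θ).2
        have b2 : pF (AF ω) 0 s θ ^ 2 ≤ Li ^ 2 * exp s ^ 2 := by
          rw [← sq_abs, ← mul_pow]; exact pow_le_pow_left₀ (abs_nonneg _) a2 2
        have b3 : Li ^ 2 * exp s ^ 2 ≤ Li ^ 2 * exp U * exp s := by
          rw [show exp s ^ 2 = exp s * exp s from pow_two _, ← mul_assoc]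
          exact mul_le_mul_of_nonneg_right
            (mul_le_mul_of_nonneg_left (exp_le_exp.2 hs) (sq_nonneg _)) e0.le
        have b4 := mul_le_mul_of_nonneg_right hK0 e0.le
        have b5 : 0 < KK A 0 * η := by positivity
        nlinarith
      · have e2 : pF (AF ω) 0 s θ = 0 := (qp_far h.adm_A hU le_rfl hs θ).2
        rw [e2]
        simp only [ne_eq, OfNat.ofNat_ne_zero, not_false_eq_true, zero_pow]
        nlinarith
    · intro t ht htT s θ hzero hmax
      obtain ⟨⟨b0, bM⟩, g0, g1⟩ := hB t ht.le s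
      have hK0 := KK_pos A t
      have hK1 : 1 ≤ KK A t := KK_one_le (by linarith)
      have e0 := exp_pos s
      have mp := (h.md_p (s := s) (θ := θ) h.tr_A ht).sq
      have mw := (MD.rad (ω := ω) (t := t) (θ := θ) (hasDerivAt_exp s)).add
        (MD.const (ω := ω) (t := t) (s := s) (θ := θ) η)
      have mK := (MD.time (ω := ω) (s := s) (θ := θ) (KK_deriv A t)).mul mw
      refine ⟨_, ?_, mp.sub mK⟩
      set p := pF (AF ω) t s θ with hp
      set q := qF (AF ω) t s θ with hq
      have hp2 : p ^ 2 = KK A t * (exp s + η) := by linarith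
      have hsU : s ≤ U := by
        by_contra hcon
        have e2 : pF (AF ω) t s θ = 0 := (qp_far h.adm_A hU ht.le (not_le.1 hcon) θ).2
        rw [← hp] at e2
        rw [e2] at hp2
        have : 0 < KK A t * (exp s + η) := by positivity
        simp only [ne_eq, OfNat.ofNat_ne_zero, not_false_eq_true, zero_pow] at hp2
        linarith
      have hbs : |bs ω t s| ≤ 2 * |p| := by
        unfold bs
        refine mom_abs_le (κ := s2) (fun φ => ?_)
        have h1 : pF (AF ω) t s φ ^ 2 ≤ p ^ 2 := by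
          rw [hp2]; have := hmax s φ; linarith
        have h2 : |pF (AF ω) t s φ| ≤ |p| := sq_le_sq.1 h1
        rw [abs_mul]
        calc |DD es (AF ω) (t, (s, φ))| * |s2 φ| ≤ |p| * 1 :=
              mul_le_mul h2 (abs_sin_le_one _) (abs_nonneg _) (abs_nonneg _)
          _ = |p| := mul_one _
      -- dichotomy
      obtain ⟨hactq, hacth⟩ := hact t ht.le s θ
      set w := gF ω t s ^ ((1 : ℝ) / 12) with hw
      have hw0 : 0 ≤ w := Real.rpow_nonneg g0 _
      have hkapeq := kap_eq (A := A0) (t := t) hB0.ne'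
      have hH0 : 0 < B * exp (A0 * t) := by positivity
      have hcase : KK A0 t * w ≤ 1 := by
        by_contra hcon
        have hwg : w ^ 12 = gF ω t s := by
          rw [hw, ← Real.rpow_natCast, ← Real.rpow_mul g0]; norm_num
        have := core_est (g := gF ω t s) (H := B * exp (A0 * t)) (q := q)
          (Pi := PiF ω (AF ω) t s θ) (p := p) (hh := hilF (AF ω) t s θ) (sn := sin (2 * θ))
          (K := KK A0 t) (w := w) (e := exp s) g0 hH0 (KK_one_le (by linarith)) hw0 e0.le hwg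
          (by
            rw [hkapeq] at hactq
            refine le_trans (le_of_eq ?_) hactq
            ring) hacth (abs_sin_le_one _) (by rw [hp, hq, PiF]; ring) (not_le.1 hcon)
        have h2 := mul_le_mul_of_nonneg_right (hcmp t ht.le) e0.le
        have h3 : 0 < KK A t * η := by positivity
        nlinarith
      have hq2 : q ^ 2 ≤ exp s := by
        have h1 : 0 ≤ PiF ω (AF ω) t s θ ^ 2 * kap A0 B t :=
          mul_nonneg (sq_nonneg _) (kap_pos hB0).le
        have h2 : KK A0 t * (w * exp s) ≤ exp s := by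
          calc KK A0 t * (w * exp s) = (KK A0 t * w) * exp s := by ring
            _ ≤ 1 * exp s := mul_le_mul_of_nonneg_right hcase e0.le
            _ = exp s := one_mul _
        linarith
      have hqp : |q| ≤ |p| := by
        refine sq_le_sq.1 ?_
        rw [hp2]; nlinarith
      have hqU : |q| ≤ exp U := by
        refine abs_le_of_sq_le_sq ?_ (exp_pos U).le
        have h1 : exp s ≤ exp U := exp_le_exp.2 hsU
        nlinarith
      -- derivative estimate
      have hder : 2 * p * (2 * bF ω t s * cos (2 * θ) * p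
          - (2 * bF ω t s + bs ω t s) * sin (2 * θ) * q) ≤ (8 * Λ + 4 * exp U) * p ^ 2 := by
        refine (le_abs_self _).trans ?_
        rw [abs_mul, abs_mul, abs_two]
        have c1 : |2 * bF ω t s * cos (2 * θ) * p| ≤ 2 * Λ * |p| := by
          rw [abs_mul, abs_mul, abs_of_nonneg (by positivity : 0 ≤ 2 * bF ω t s)]
          have : 2 * bF ω t s * |cos (2 * θ)| ≤ 2 * Λ * 1 :=
            mul_le_mul (by linarith) (abs_cos_le_one _) (abs_nonneg _) (by linarith)
          rw [mul_one] at this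
          exact mul_le_mul_of_nonneg_right this (abs_nonneg _)
        have c2 : |(2 * bF ω t s + bs ω t s) * sin (2 * θ) * q|
            ≤ 2 * Λ * |p| + 2 * |p| * exp U := by
          rw [abs_mul, abs_mul]
          have d1 : |2 * bF ω t s + bs ω t s| ≤ 2 * Λ + 2 * |p| := by
            refine (abs_add_le _ _).trans ?_
            rw [abs_of_nonneg (by positivity : 0 ≤ 2 * bF ω t s)]
            linarith
          have d2 : |2 * bF ω t s + bs ω t s| * |sin (2 * θ)| ≤ 2 * Λ + 2 * |p| := by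
            calc |2 * bF ω t s + bs ω t s| * |sin (2 * θ)| ≤ (2 * Λ + 2 * |p|) * 1 :=
                  mul_le_mul d1 (abs_sin_le_one _) (abs_nonneg _) (by positivity)
              _ = 2 * Λ + 2 * |p| := mul_one _
          calc |2 * bF ω t s + bs ω t s| * |sin (2 * θ)| * |q|
              ≤ (2 * Λ + 2 * |p|) * |q| := mul_le_mul_of_nonneg_right d2 (abs_nonneg _)
            _ = 2 * Λ * |q| + 2 * |p| * |q| := by ring
            _ ≤ 2 * Λ * |p| + 2 * |p| * exp U :=
                add_le_add (mul_le_mul_of_nonneg_left hqp (by linarith))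
                  (mul_le_mul_of_nonneg_left hqU (by positivity))
        have c3 := (abs_sub (2 * bF ω t s * cos (2 * θ) * p)
          ((2 * bF ω t s + bs ω t s) * sin (2 * θ) * q)).trans (add_le_add c1 c2)
        calc 2 * |p| * |2 * bF ω t s * cos (2 * θ) * p
              - (2 * bF ω t s + bs ω t s) * sin (2 * θ) * q|
            ≤ 2 * |p| * (2 * Λ * |p| + (2 * Λ * |p| + 2 * |p| * exp U)) :=
              mul_le_mul_of_nonneg_left c3 (by positivity)
          _ = (8 * Λ + 4 * exp U) * |p| ^ 2 := by ring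
          _ = (8 * Λ + 4 * exp U) * p ^ 2 := by rw [sq_abs]
      have hEt := exp_At hA1 ht.le
      have hgE : gF ω t s ≤ Λ * exp (A * t) := g1.trans (mul_le_mul_of_nonneg_left hEt (by linarith))
      have hEt1 : 1 ≤ exp (A * t) := by linarith [ht.le]
      have hcos : -(2 * gF ω t s * exp s) ≤ 2 * gF ω t s * cos (2 * θ) * exp s := by
        have := (abs_le.1 (abs_cos_le_one (2 * θ))).1
        have h3 : 0 ≤ 2 * gF ω t s * exp s := by positivity
        nlinarith
      have hrate : (8 * Λ + 4 * exp U) + 2 * gF ω t s < 2 * A ^ 2 * exp (A * t) := by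
        have h1 : 8 * Λ + 4 * exp U + 2 * Λ ≤ A := by
          rw [hA]; have : 0 ≤ Li ^ 2 * exp U := by positivity
          nlinarith [exp_pos U, sq_nonneg B]
        have h2 : A ≤ A ^ 2 := by nlinarith
        have h3 : 0 ≤ (8 * Λ + 4 * exp U) * (exp (A * t) - 1) :=
          mul_nonneg (by nlinarith [exp_pos U]) (by linarith)
        have h4 : (8 * Λ + 4 * exp U + 2 * Λ) * exp (A * t) ≤ A ^ 2 * exp (A * t) :=
          mul_le_mul_of_nonneg_right (by linarith) (by linarith)
        have h5 : 0 < A ^ 2 * exp (A * t) := by positivity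
        nlinarith
      have hpos : 0 < KK A t * (exp s + η) := by positivity
      have s1 := mul_lt_mul_of_pos_right hrate hpos
      have s2 := mul_le_mul_of_nonneg_left hcos hK0.le
      have s3 : KK A t * (2 * gF ω t s * exp s) ≤ 2 * gF ω t s * (KK A t * (exp s + η)) := by
        have : 0 ≤ 2 * gF ω t s * (KK A t * η) := by positivity
        nlinarith
      rw [hp2] at hder
      linarith
  refine ⟨A, hA1, fun t ht s θ => ?_⟩
  have hlim : Tendsto (fun η : ℝ => KK A t * (exp s + η)) (𝓝[>] 0) (𝓝 (KK A t * exp s)) := by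
    have : Continuous (fun η : ℝ => KK A t * (exp s + η)) := by fun_prop
    have h2 := this.tendsto 0
    rw [add_zero] at h2
    exact h2.mono_left nhdsWithin_le_nhds
  refine ge_of_tendsto hlim ?_
  filter_upwards [Ioo_mem_nhdsGT (zero_lt_one' ℝ)] with η hη
  have := main t ht η hη.1 hη.2.le s θ
  linarith

end SignSol

end Run7.h65
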