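import Pool.Agent.Run7.h65.MDer

open Set Real MeasureTheory Filter Topology

namespace Run7.h65

/-- odd solutions whose active part is nonnegative in the first quadrant -/
structure SignSol (ω : ℝ → ℝ × ℝ → ℝ) : Prop extends OddSol ω where
  sgn : ∀ t, 0 ≤ t → ∀ z : ℝ × ℝ, 0 ≤ act (ω t) z * (z.1 * z.2)

theorem OddSol.sign_persist {ω : ℝ → ℝ × ℝ → ℝ} (h : OddSol ω)
    (h0 : ∀ z : ℝ × ℝ, 0 ≤ act (ω 0) z * (z.1 * z.2)) {t : ℝ} (ht : 0 ≤ t) (z : ℝ × ℝ) :
    0 ≤ act (ω t) z * (z.1 * z.2) := by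
  obtain ⟨M, C0, hM1, hC0, hM, -⟩ := h.exists_act_bound
  obtain ⟨R, hR1, hR⟩ := h.sol.exists_supp_all
  have hR0 : 0 < R := by linarith
  set K := 2 * M + 1 with hK
  have main : ∀ ε : ℝ, 0 < ε → -(ε * exp (K * t)) ≤ act (ω t) z * (z.1 * z.2) := by
    intro ε hε
    have key := touch (X := ℝ × ℝ)
      (fun s y => -(act (ω s) y * (y.1 * y.2)) - ε * exp (K * s)) (T := t) (box R)
      (isCompact_box R) (((h.act_cont t).mul (by fun_prop)).neg.sub (by fun_prop))
      (fun s hs y hy => by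
        have hy2 := not_mem_box hR0.le hy
        have e : act (ω s) y = 0 := by
          unfold act
          rw [hR s hs.1 y hy2, hR s hs.1 (sx y) (by simpa [sx] using hy2)]; ring
        rw [e]
        have : 0 < ε * exp (K * s) := by positivity
        linarith)
      (fun y => by
        have := h0 y
        have h2 : 0 < ε * exp (K * 0) := by positivity
        linarith)
      (fun s hs hst y _ hy hmax => by
        have hda := (act_contDiff (h.sol.contDiff_slice hs.le)).differentiable (by simp)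
          (x := y)
        -- spatial gradient vanishes
        have hF : HasFDerivAt (fun y : ℝ × ℝ => -(act (ω s) y * (y.1 * y.2)) - ε * exp (K * s))
            (-(act (ω s) y • (y.1 • ContinuousLinearMap.snd ℝ ℝ ℝ
              + y.2 • ContinuousLinearMap.fst ℝ ℝ ℝ)
              + (y.1 * y.2) • fderiv ℝ (act (ω s)) y)) y := by
          have h1 : HasFDerivAt (fun y : ℝ × ℝ => y.1 * y.2)
              (y.1 • ContinuousLinearMap.snd ℝ ℝ ℝ + y.2 • ContinuousLinearMap.fst ℝ ℝ ℝ) y :=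
            hasFDerivAt_fst.mul hasFDerivAt_snd
          exact (hda.hasFDerivAt.mul h1).neg.sub_const _
        have hz := d_of_max (g := fun y : ℝ × ℝ => -(act (ω s) y * (y.1 * y.2)) - ε * exp (K * s))
          (z := y) (fun y' => by
            have := hmax y'
            linarith)
        rw [hF.fderiv] at hz
        have g1 := congrArg (fun (l : ℝ × ℝ →L[ℝ] ℝ) => l (1, 0)) hz
        have g2 := congrArg (fun (l : ℝ × ℝ →L[ℝ] ℝ) => l (0, 1)) hz
        simp only [neg_apply, add_apply, smul_apply, ContinuousLinearMap.coe_snd',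
          ContinuousLinearMap.coe_fst', smul_eq_mul, mul_zero, mul_one, zero_add, add_zero,
          zero_apply] at g1 g2
        have e1 := ((h.act_pde hs y).mul_const (y.1 * y.2)).neg
        have hexp : HasDerivAt (fun s : ℝ => ε * exp (K * s)) (ε * (exp (K * s) * K)) s := by
          have : HasDerivAt (fun s : ℝ => K * s) K s := by
            simpa using (hasDerivAt_id s).const_mul K
          exact this.exp.const_mul ε
        refine ⟨_, ?_, e1.sub hexp⟩
        have hv := vel_odd (h.sol.cont_slice hs.le) (h.odd s hs.le) y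
        have hb := hM s hs.le (rad y)
        have k1 : d1 (act (ω s)) y * (y.1 * y.2) = -(act (ω s) y * y.2) := by
          unfold d1; linarith
        have k2 : d2 (act (ω s)) y * (y.1 * y.2) = -(act (ω s) y * y.1) := by
          unfold d2; linarith
        set a := act (ω s) y
        set b := bb (ω s) (rad y)
        set B := BB (ω s) (rad y)
        have e2 : -(-((vel (ω s) y).1 * d1 (act (ω s)) y + (vel (ω s) y).2 * d2 (act (ω s)) y)
              * (y.1 * y.2))
            = -(a * (y.1 * y.2)) * (2 * b * ((y.1 ^ 2 - y.2 ^ 2) / (y.1 ^ 2 + y.2 ^ 2))) := by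
          have : -(-((vel (ω s) y).1 * d1 (act (ω s)) y + (vel (ω s) y).2 * d2 (act (ω s)) y)
              * (y.1 * y.2))
              = (vel (ω s) y).1 * (d1 (act (ω s)) y * (y.1 * y.2))
                + (vel (ω s) y).2 * (d2 (act (ω s)) y * (y.1 * y.2)) := by ring
          rw [this, k1, k2, hv.1, hv.2]
          ring
        rw [e2]
        have hval : -(a * (y.1 * y.2)) = ε * exp (K * s) := by
          linarith
        rw [hval]
        have hc : |(y.1 ^ 2 - y.2 ^ 2) / (y.1 ^ 2 + y.2 ^ 2)| ≤ 1 := by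
          rw [abs_div, abs_of_nonneg (by positivity : 0 ≤ y.1 ^ 2 + y.2 ^ 2)]
          refine div_le_one_of_le₀ ?_ (by positivity)
          rw [abs_le]; constructor <;> nlinarith [sq_nonneg y.1, sq_nonneg y.2]
        have hbc : |b * ((y.1 ^ 2 - y.2 ^ 2) / (y.1 ^ 2 + y.2 ^ 2))| ≤ M := by
          rw [abs_mul]
          calc |b| * |(y.1 ^ 2 - y.2 ^ 2) / (y.1 ^ 2 + y.2 ^ 2)| ≤ M * 1 :=
                mul_le_mul hb hc (abs_nonneg _) (by linarith)
            _ = M := mul_one _
        have h5 := (abs_le.1 hbc).2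
        have h6 : 0 < ε * exp (K * s) := by positivity
        have h7 : ε * exp (K * s) * (2 * b * ((y.1 ^ 2 - y.2 ^ 2) / (y.1 ^ 2 + y.2 ^ 2)))
            = (ε * exp (K * s)) * (2 * (b * ((y.1 ^ 2 - y.2 ^ 2) / (y.1 ^ 2 + y.2 ^ 2)))) := by
          ring
        rw [h7, hK]
        nlinarith)
    have := key t ⟨ht, le_rfl⟩ z
    linarith
  have hlim : Tendsto (fun ε : ℝ => -(ε * exp (K * t))) (𝓝[>] 0) (𝓝 0) := by
    have : Continuous (fun ε : ℝ => -(ε * exp (K * t))) := by fun_prop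
    have h2 := this.tendsto 0
    simp only [zero_mul, neg_zero] at h2
    exact h2.mono_left nhdsWithin_le_nhds
  refine le_of_tendsto hlim ?_
  filter_upwards [self_mem_nhdsWithin] with ε hε
  exact main ε hε

theorem OddSol.signSol {ω : ℝ → ℝ × ℝ → ℝ} (h : OddSol ω)
    (h0 : ∀ z : ℝ × ℝ, 0 ≤ act (ω 0) z * (z.1 * z.2)) : SignSol ω :=
  ⟨h, fun _ ht z => h.sign_persist h0 ht z⟩

namespace SignSol

variable {ω : ℝ → ℝ × ℝ → ℝ} (h : SignSol ω)

include h

theorem A_sin_nonneg {t : ℝ} (ht : 0 ≤ t) (s φ : ℝ) : 0 ≤ AF ω (t, (s, φ)) * s2 φ := by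
  have h1 := h.sgn t ht (lpc (s, φ))
  have e : AF ω (t, (s, φ)) * s2 φ
      = act (ω t) (lpc (s, φ)) * ((lpc (s, φ)).1 * (lpc (s, φ)).2) * (2 / exp s ^ 2) := by
    unfold AF pb s2 lpc
    have := (exp_pos s).ne'
    simp only
    rw [sin_two_mul]
    field_simp
  rw [e]
  positivity

theorem b_nonneg {t : ℝ} (ht : 0 ≤ t) (s : ℝ) : 0 ≤ bF ω t s := by
  rw [h.bF_eq ht]
  unfold mom
  refine mul_nonneg (by positivity) ?_
  exact intervalIntegral.integral_nonneg (by positivity) fun φ _ => h.A_sin_nonneg ht s φ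

theorem b2_le {t : ℝ} (ht : 0 ≤ t) (s : ℝ) : |mom s4 (AF ω) t s| ≤ 2 * bF ω t s := by
  rw [h.bF_eq ht]
  unfold mom
  rw [abs_mul, abs_of_pos (by positivity : 0 < 1 / π)]
  have hA := h.sm_A
  have h1 := intervalIntegral.norm_integral_le_of_norm_le (a := 0) (b := 2 * π) (μ := volume)
    (f := fun φ => AF ω (t, (s, φ)) * s4 φ) (g := fun φ => 2 * (AF ω (t, (s, φ)) * s2 φ))
    (by positivity) (Filter.Eventually.of_forall fun φ _ => by
      rw [Real.norm_eq_abs]
      have h2 := h.A_sin_nonneg ht s φ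
      have e : AF ω (t, (s, φ)) * s4 φ = (AF ω (t, (s, φ)) * s2 φ) * (2 * cos (2 * φ)) := by
        unfold s4 s2
        rw [show (4 : ℝ) * φ = 2 * (2 * φ) by ring, sin_two_mul (2 * φ)]
        ring
      rw [e, abs_mul, abs_of_nonneg h2, abs_mul, abs_two]
      have := abs_cos_le_one (2 * φ)
      nlinarith)
    ((continuous_const.mul ((hA.cont_line ht s).mul s2_cont)).intervalIntegrable _ _)
  rw [Real.norm_eq_abs, intervalIntegral.integral_const_mul] at h1
  calc 1 / π * |∫ φ in (0 : ℝ)..(2 * π), AF ω (t, (s, φ)) * s4 φ|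
      ≤ 1 / π * (2 * ∫ φ in (0 : ℝ)..(2 * π), AF ω (t, (s, φ)) * s2 φ) :=
        mul_le_mul_of_nonneg_left h1 (by positivity)
    _ = 2 * (1 / π * ∫ φ in (0 : ℝ)..(2 * π), AF ω (t, (s, φ)) * s2 φ) := by ring

theorem g_anti {t : ℝ} (ht : 0 ≤ t) : Antitone (fun s => gF ω t s) := by
  refine antitone_of_deriv_nonpos (fun s => (h.gF_s ht s).differentiableAt) fun s => ?_
  rw [(h.gF_s ht s).deriv]
  have := h.b_nonneg ht s
  linarith

theorem g_nonneg {t : ℝ} (ht : 0 ≤ t) (s : ℝ) : 0 ≤ gF ω t s := by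
  obtain ⟨U, -, hU⟩ := h.exists_U
  have h1 := h.g_anti ht (le_max_left s U)
  have h2 := OddSol.gF_zero hU ht (le_max_right s U)
  simp only at h1
  linarith

/-- time derivative of `g` -/
theorem g_t_bound {M : ℝ} (hM : ∀ t, 0 ≤ t → ∀ s, bF ω t s ≤ M) {t : ℝ} (ht : 0 < t) (s : ℝ) :
    ∃ gt, HasDerivAt (fun τ => gF ω τ s) gt t ∧
      |gt| ≤ (4 * M + 8 * gF ω t s) * gF ω t s := by
  obtain ⟨U, -, hU⟩ := h.exists_U
  set U' := max U s with hU'
  have h1 := h.gF_t hU ht (s := s) (le_max_left U s)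
  refine ⟨_, h1, ?_⟩
  have hg0 := h.g_nonneg ht.le s
  have hM0 : 0 ≤ M := (h.b_nonneg ht.le s).trans (hM t ht.le s)
  have hsU : s ≤ U' := le_max_right _ _
  have hcg : Continuous (fun σ => gF ω t σ) :=
    continuous_iff_continuousAt.2 fun σ => (h.gF_s ht.le σ).continuousAt
  have hcb : Continuous (fun σ => bF ω t σ) := by
    have := OddSol.mom_line_cont h.sm_A s2_cont ht.le
    exact this.congr (fun σ => (h.bF_eq ht.le σ).symm)
  have b1 : |gF ω t s * mom s4 (AF ω) t s| ≤ 2 * M * gF ω t s := by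
    rw [abs_mul, abs_of_nonneg hg0]
    have := h.b2_le ht.le s
    have := hM t ht.le s
    nlinarith
  have b2 : |∫ σ in s..U', (4 * gF ω t σ - bF ω t σ) * mom s4 (AF ω) t σ|
      ≤ (8 * gF ω t s + 2 * M) * gF ω t s := by
    have h2 := intervalIntegral.norm_integral_le_of_norm_le (a := s) (b := U') (μ := volume)
      (f := fun σ => (4 * gF ω t σ - bF ω t σ) * mom s4 (AF ω) t σ)
      (g := fun σ => (8 * gF ω t s + 2 * M) * bF ω t σ) hsU
      (Filter.Eventually.of_forall fun σ hσ => by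
        rw [Real.norm_eq_abs, abs_mul]
        have c1 := h.b2_le ht.le σ
        have c2 := h.b_nonneg ht.le σ
        have c3 := hM t ht.le σ
        have c4 := h.g_nonneg ht.le σ
        have c5 := h.g_anti ht.le hσ.1.le
        simp only at c5
        have c6 : |4 * gF ω t σ - bF ω t σ| ≤ 4 * gF ω t s + M := by
          rw [abs_le]; constructor <;> linarith
        calc |4 * gF ω t σ - bF ω t σ| * |mom s4 (AF ω) t σ|
            ≤ (4 * gF ω t s + M) * (2 * bF ω t σ) :=
              mul_le_mul c6 c1 (abs_nonneg _) (by linarith)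
          _ = (8 * gF ω t s + 2 * M) * bF ω t σ := by ring)
      ((continuous_const.mul hcb).intervalIntegrable _ _)
    rw [Real.norm_eq_abs, intervalIntegral.integral_const_mul] at h2
    refine h2.trans (le_of_eq ?_)
    congr 1
    rw [h.gF_eq hU ht.le (le_max_left U s)]
    exact intervalIntegral.integral_congr fun σ _ => h.bF_eq ht.le σ
  have := abs_sub (gF ω t s * mom s4 (AF ω) t s)
    (∫ σ in s..U', (4 * gF ω t σ - bF ω t σ) * mom s4 (AF ω) t σ)
  nlinarith

/-- global bounds -/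
theorem exists_bounds : ∃ Λ : ℝ, 1 ≤ Λ ∧ ∀ t, 0 ≤ t → ∀ s,
    (0 ≤ bF ω t s ∧ bF ω t s ≤ Λ) ∧ (0 ≤ gF ω t s ∧ gF ω t s ≤ Λ * (1 + t)) := by
  obtain ⟨Λ, hΛ, hB⟩ := h.exists_BB_bound
  refine ⟨Λ, hΛ, fun t ht s => ⟨⟨h.b_nonneg ht s, ?_⟩, h.g_nonneg ht s, ?_⟩⟩
  · exact (le_abs_self _).trans ((hB t ht).1 _)
  · exact (le_abs_self _).trans ((hB t ht).2 _ (exp_pos s))

end SignSol

end Run7.h65
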