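import Pool.Agent.Run7.h65.Defs

open Set Real MeasureTheory Filter Topology


namespace Run7.h65

noncomputable def cc (w : ℝ × ℝ → ℝ) (ρ : ℝ) : ℝ :=
  (1 / π) * ∫ φ in (0 : ℝ)..(2 * π), w (ρ * cos φ, ρ * sin φ) * cos (2 * φ)

noncomputable def bb (w : ℝ × ℝ → ℝ) (ρ : ℝ) : ℝ :=
  (1 / π) * ∫ φ in (0 : ℝ)..(2 * π), w (ρ * cos φ, ρ * sin φ) * sin (2 * φ)

noncomputable def CC (w : ℝ × ℝ → ℝ) (r : ℝ) : ℝ := ∫ ρ in Ioi r, cc w ρ / ρ

noncomputable def BB (w : ℝ × ℝ → ℝ) (r : ℝ) : ℝ := ∫ ρ in Ioi r, bb w ρ / ρ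

/-- `w` vanishes outside the closed disc of radius `R`. -/
def SuppIn (w : ℝ × ℝ → ℝ) (R : ℝ) : Prop := ∀ z : ℝ × ℝ, R ^ 2 < z.1 ^ 2 + z.2 ^ 2 → w z = 0

theorem circ_sq (ρ φ : ℝ) : (ρ * cos φ) ^ 2 + (ρ * sin φ) ^ 2 = ρ ^ 2 := by
  have := sin_sq_add_cos_sq φ
  linear_combination ρ ^ 2 * this

theorem P2_eq {w : ℝ × ℝ → ℝ} (hw : Continuous w) (ρ θ : ℝ) :
    P2 w ρ θ = cos (2 * θ) * cc w ρ + sin (2 * θ) * bb w ρ := by
  have h1 : IntervalIntegrable (fun φ => w (ρ * cos φ, ρ * sin φ) * cos (2 * φ)) volume 0 (2*π) :=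
    (by fun_prop : Continuous _).intervalIntegrable _ _
  have h2 : IntervalIntegrable (fun φ => w (ρ * cos φ, ρ * sin φ) * sin (2 * φ)) volume 0 (2*π) :=
    (by fun_prop : Continuous _).intervalIntegrable _ _
  unfold P2 cc bb
  have : ∫ φ in (0 : ℝ)..(2 * π), w (ρ * cos φ, ρ * sin φ) * cos (2 * (θ - φ))
      = cos (2 * θ) * (∫ φ in (0 : ℝ)..(2 * π), w (ρ * cos φ, ρ * sin φ) * cos (2 * φ))
        + sin (2 * θ) * (∫ φ in (0 : ℝ)..(2 * π), w (ρ * cos φ, ρ * sin φ) * sin (2 * φ)) := by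
    rw [← intervalIntegral.integral_const_mul, ← intervalIntegral.integral_const_mul,
      ← intervalIntegral.integral_add (h1.const_mul _) (h2.const_mul _)]
    refine intervalIntegral.integral_congr fun φ _ => ?_
    rw [mul_sub, cos_sub]; ring
  rw [this]; ring

theorem cc_continuous {w : ℝ × ℝ → ℝ} (hw : Continuous w) : Continuous (cc w) := by
  unfold cc
  refine continuous_const.mul ?_
  exact intervalIntegral.continuous_parametric_intervalIntegral_of_continuous'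
    (by fun_prop) 0 (2*π)

theorem bb_continuous {w : ℝ × ℝ → ℝ} (hw : Continuous w) : Continuous (bb w) := by
  unfold bb
  refine continuous_const.mul ?_
  exact intervalIntegral.continuous_parametric_intervalIntegral_of_continuous'
    (by fun_prop) 0 (2*π)

theorem cc_of_large {w : ℝ × ℝ → ℝ} {R ρ : ℝ} (hs : SuppIn w R) (hR : 0 ≤ R) (h : R < ρ) :
    cc w ρ = 0 := by
  have : ∀ φ, w (ρ * cos φ, ρ * sin φ) = 0 := fun φ => hs _ (by
    simp only [circ_sq]; nlinarith)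
  simp [cc, this]

theorem bb_of_large {w : ℝ × ℝ → ℝ} {R ρ : ℝ} (hs : SuppIn w R) (hR : 0 ≤ R) (h : R < ρ) :
    bb w ρ = 0 := by
  have : ∀ φ, w (ρ * cos φ, ρ * sin φ) = 0 := fun φ => hs _ (by
    simp only [circ_sq]; nlinarith)
  simp [bb, this]

/-- generic facts on `∫_r^∞ f(ρ)/ρ dρ` for `f` continuous vanishing beyond `R`. -/
theorem tail_eq {f : ℝ → ℝ} {R r R' : ℝ} (h0 : ∀ ρ, R < ρ → f ρ = 0)
    (hr : r ≤ R') (hR : R ≤ R') : ∫ ρ in Ioi r, f ρ / ρ = ∫ ρ in r..R', f ρ / ρ := by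
  rw [intervalIntegral.integral_of_le hr]
  have hz : ∀ x, x ∈ Ioi R' → f x / x = 0 := fun x hx => by
    rw [h0 x (lt_of_le_of_lt hR hx), zero_div]
  rw [← Ioc_union_Ioi_eq_Ioi hr]
  exact (setIntegral_eq_of_subset_of_forall_sdiff_eq_zero
    (measurableSet_Ioc.union measurableSet_Ioi) subset_union_left
    (fun x hx => by
      rcases hx with ⟨h1 | h1, h2⟩
      · exact absurd h1 h2
      · exact hz x h1)) 

theorem tail_integrable {f : ℝ → ℝ} (hf : Continuous f) {R r : ℝ} (h0 : ∀ ρ, R < ρ → f ρ = 0)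
    (hr : 0 < r) : IntegrableOn (fun ρ => f ρ / ρ) (Ioi r) := by
  have hrR : r ≤ max r R := le_max_left _ _
  rw [← Ioc_union_Ioi_eq_Ioi hrR]
  refine IntegrableOn.union ?_ ?_
  · refine (ContinuousOn.integrableOn_Icc (a := r) (b := max r R) ?_).mono_set Ioc_subset_Icc_self
    refine hf.continuousOn.div continuousOn_id fun x hx => ?_
    exact ne_of_gt (lt_of_lt_of_le hr hx.1)
  · refine (integrableOn_zero).congr_fun (fun x hx => ?_) measurableSet_Ioi
    have : R < x := lt_of_le_of_lt (le_max_right _ _) hx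
    simp [h0 x this]

theorem tail_hasDerivAt {f : ℝ → ℝ} (hf : Continuous f) {R r : ℝ} (h0 : ∀ ρ, R < ρ → f ρ = 0)
    (hr : 0 < r) : HasDerivAt (fun r => ∫ ρ in Ioi r, f ρ / ρ) (-(f r / r)) r := by
  set R' := max (r + 1) R with hR'
  have hrR' : r < R' := lt_of_lt_of_le (by linarith) (le_max_left _ _)
  have hev : (fun r => ∫ ρ in Ioi r, f ρ / ρ) =ᶠ[𝓝 r] fun r => ∫ ρ in r..R', f ρ / ρ := by
    filter_upwards [Iio_mem_nhds hrR'] with s hs
    exact tail_eq h0 (le_of_lt hs) (le_max_right _ _)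
  refine HasDerivAt.congr_of_eventuallyEq ?_ hev
  have hc : ContinuousOn (fun ρ => f ρ / ρ) (Ioi 0) :=
    hf.continuousOn.div continuousOn_id fun x hx => ne_of_gt hx
  refine intervalIntegral.integral_hasDerivAt_left ?_ ?_ ?_
  · refine ContinuousOn.intervalIntegrable (hc.mono fun x hx => ?_)
    rw [uIcc_of_le hrR'.le] at hx
    exact lt_of_lt_of_le hr hx.1
  · exact hc.stronglyMeasurableAtFilter isOpen_Ioi r hr
  · exact hc.continuousAt (Ioi_mem_nhds hr)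

theorem CC_hasDerivAt {w : ℝ × ℝ → ℝ} (hw : Continuous w) {R : ℝ} (hs : SuppIn w R) (hR : 0 ≤ R)
    {r : ℝ} (hr : 0 < r) : HasDerivAt (CC w) (-(cc w r / r)) r :=
  tail_hasDerivAt (cc_continuous hw) (fun _ h => cc_of_large hs hR h) hr

theorem BB_hasDerivAt {w : ℝ × ℝ → ℝ} (hw : Continuous w) {R : ℝ} (hs : SuppIn w R) (hR : 0 ≤ R)
    {r : ℝ} (hr : 0 < r) : HasDerivAt (BB w) (-(bb w r / r)) r :=
  tail_hasDerivAt (bb_continuous hw) (fun _ h => bb_of_large hs hR h) hr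

theorem psi_eq {w : ℝ × ℝ → ℝ} (hw : Continuous w) {R : ℝ} (hs : SuppIn w R) (hR : 0 ≤ R)
    {r : ℝ} (hr : 0 < r) (θ : ℝ) :
    psi w r θ = r ^ 2 * (cos (2 * θ) * CC w r + sin (2 * θ) * BB w r) := by
  unfold psi CC BB
  congr 1
  rw [← integral_const_mul, ← integral_const_mul, ← integral_add]
  · refine setIntegral_congr_fun measurableSet_Ioi fun x _ => ?_
    rw [P2_eq hw]; ring
  · exact (tail_integrable (cc_continuous hw) (fun _ h => cc_of_large hs hR h) hr).const_mul _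
  · exact (tail_integrable (bb_continuous hw) (fun _ h => bb_of_large hs hR h) hr).const_mul _

theorem psi_hasDerivAt_theta {w : ℝ × ℝ → ℝ} (hw : Continuous w) {R : ℝ} (hs : SuppIn w R)
    (hR : 0 ≤ R) {r : ℝ} (hr : 0 < r) (θ : ℝ) :
    HasDerivAt (fun φ => psi w r φ)
      (r ^ 2 * (-(2 * sin (2 * θ)) * CC w r + 2 * cos (2 * θ) * BB w r)) θ := by
  have : (fun φ => psi w r φ)
      = fun φ => r ^ 2 * (cos (2 * φ) * CC w r + sin (2 * φ) * BB w r) := by
    funext φ; exact psi_eq hw hs hR hr φ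
  rw [this]
  have h2 : HasDerivAt (fun φ : ℝ => 2 * φ) 2 θ := by
    simpa using (hasDerivAt_id θ).const_mul 2
  have hc := h2.cos
  have hsn := h2.sin
  exact (((hc.mul_const (CC w r)).add (hsn.mul_const (BB w r))).const_mul (r^2)).congr_deriv
    (by ring)

theorem psi_hasDerivAt_r {w : ℝ × ℝ → ℝ} (hw : Continuous w) {R : ℝ} (hs : SuppIn w R)
    (hR : 0 ≤ R) {r : ℝ} (hr : 0 < r) (θ : ℝ) :
    HasDerivAt (fun ρ => psi w ρ θ)
      (2 * r * (cos (2 * θ) * CC w r + sin (2 * θ) * BB w r)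
        - r * (cos (2 * θ) * cc w r + sin (2 * θ) * bb w r)) r := by
  have hev : (fun ρ => psi w ρ θ) =ᶠ[𝓝 r]
      fun ρ => ρ ^ 2 * (cos (2 * θ) * CC w ρ + sin (2 * θ) * BB w ρ) := by
    filter_upwards [Ioi_mem_nhds hr] with s h
    exact psi_eq hw hs hR h θ
  refine HasDerivAt.congr_of_eventuallyEq ?_ hev
  have h1 := ((CC_hasDerivAt hw hs hR hr).const_mul (cos (2*θ))).add
    ((BB_hasDerivAt hw hs hR hr).const_mul (sin (2*θ)))
  have h2 : HasDerivAt (fun ρ : ℝ => ρ ^ 2) (2 * r) r := by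
    simpa using hasDerivAt_pow 2 r
  have hr0 : r ≠ 0 := hr.ne'
  refine (h2.mul h1).congr_deriv ?_
  simp only [Pi.add_apply]
  field_simp
  ring

end Run7.h65
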