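import Pool.Agent.Run7.h65.Vel

open Set Real MeasureTheory Filter Topology

namespace Run7.h65

theorem uniqueDiff_S : UniqueDiffOn ℝ ((Ici (0 : ℝ)) ×ˢ (univ : Set (ℝ × ℝ))) :=
  (uniqueDiffOn_Ici 0).prod uniqueDiffOn_univ

theorem mem_S {t : ℝ} (ht : 0 ≤ t) (z : ℝ × ℝ) :
    (t, z) ∈ ((Ici (0 : ℝ)) ×ˢ (univ : Set (ℝ × ℝ))) := ⟨ht, mem_univ _⟩

/-- a box containing the disc -/
def box (R : ℝ) : Set (ℝ × ℝ) := Icc (-R) R ×ˢ Icc (-R) R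

theorem isCompact_box (R : ℝ) : IsCompact (box R) := isCompact_Icc.prod isCompact_Icc

theorem not_mem_box {R : ℝ} {z : ℝ × ℝ} (hR : 0 ≤ R) (h : z ∉ box R) :
    R ^ 2 < z.1 ^ 2 + z.2 ^ 2 := by
  by_contra hc
  push Not at hc
  apply h
  have h1 : |z.1| ≤ R := abs_le_of_sq_le_sq (by nlinarith [sq_nonneg z.2]) hR
  have h2 : |z.2| ≤ R := abs_le_of_sq_le_sq (by nlinarith [sq_nonneg z.1]) hR
  exact ⟨abs_le.1 h1, abs_le.1 h2⟩

theorem exists_suppIn {w : ℝ × ℝ → ℝ} (h : HasCompactSupport w) (R0 : ℝ) :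
    ∃ R, R0 ≤ R ∧ 0 < R ∧ SuppIn w R := by
  obtain ⟨C, hC⟩ := h.isCompact.isBounded.exists_norm_le
  refine ⟨max (2 * |C| + 1) R0, le_max_right _ _,
    lt_of_lt_of_le (by positivity) (le_max_left _ _), fun z hz => ?_⟩
  by_contra hne
  have hmem : z ∈ tsupport w := subset_tsupport _ hne
  have h1 := hC z hmem
  have h2 : |z.1| ≤ |C| := by
    have := norm_fst_le z
    rw [Real.norm_eq_abs] at this
    exact this.trans (h1.trans (le_abs_self _))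
  have h3 : |z.2| ≤ |C| := by
    have := norm_snd_le z
    rw [Real.norm_eq_abs] at this
    exact this.trans (h1.trans (le_abs_self _))
  have h4 : z.1 ^ 2 ≤ |C| ^ 2 := by rw [← sq_abs z.1]; gcongr
  have h5 : z.2 ^ 2 ≤ |C| ^ 2 := by rw [← sq_abs z.2]; gcongr
  have h6 : (2 * |C| + 1) ^ 2 ≤ (max (2 * |C| + 1) R0) ^ 2 :=
    pow_le_pow_left₀ (by positivity) (le_max_left _ _) 2
  nlinarith [abs_nonneg C]

theorem d_of_large {w : ℝ × ℝ → ℝ} {R : ℝ} (hs : SuppIn w R) {z : ℝ × ℝ}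
    (hz : R ^ 2 < z.1 ^ 2 + z.2 ^ 2) : fderiv ℝ w z = 0 := by
  have hopen : IsOpen {z : ℝ × ℝ | R ^ 2 < z.1 ^ 2 + z.2 ^ 2} :=
    isOpen_lt continuous_const (by fun_prop)
  have : w =ᶠ[𝓝 z] fun _ => 0 := by
    filter_upwards [hopen.mem_nhds hz] with y hy
    exact hs y hy
  rw [this.fderiv_eq]
  simp

namespace IsSmoothSolution

variable {ω : ℝ → ℝ × ℝ → ℝ} (h : IsSmoothSolution ω)

include h

theorem cont : ContinuousOn (fun p : ℝ × (ℝ × ℝ) => ω p.1 p.2) (Ici 0 ×ˢ univ) :=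
  h.smooth.continuousOn

theorem contDiff_slice {t : ℝ} (ht : 0 ≤ t) :
    ContDiff ℝ ((⊤ : ℕ∞) : WithTop ℕ∞) (ω t) := by
  rw [← contDiffOn_univ]
  have : ContDiffOn ℝ ((⊤ : ℕ∞) : WithTop ℕ∞) (fun z : ℝ × ℝ => ((t, z) : ℝ × (ℝ × ℝ))) univ :=
    (contDiff_const.prodMk contDiff_id).contDiffOn
  exact h.smooth.comp this (fun z _ => mem_S ht z)

theorem cont_slice {t : ℝ} (ht : 0 ≤ t) : Continuous (ω t) := (h.contDiff_slice ht).continuous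

theorem diff_slice {t : ℝ} (ht : 0 ≤ t) : Differentiable ℝ (ω t) :=
  (h.contDiff_slice ht).differentiable (by simp)

theorem fderiv_slice {t : ℝ} (ht : 0 ≤ t) (z v : ℝ × ℝ) :
    fderiv ℝ (ω t) z v
      = fderivWithin ℝ (fun p : ℝ × (ℝ × ℝ) => ω p.1 p.2) (Ici 0 ×ˢ univ) (t, z) (0, v) := by
  have h1 : HasFDerivWithinAt (fun p : ℝ × (ℝ × ℝ) => ω p.1 p.2)
      (fderivWithin ℝ (fun p : ℝ × (ℝ × ℝ) => ω p.1 p.2) (Ici 0 ×ˢ univ) (t, z))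
      (Ici 0 ×ˢ univ) (t, z) :=
    ((h.smooth.differentiableOn (by simp)) (t, z) (mem_S ht z)).hasFDerivWithinAt
  have h2 : HasFDerivWithinAt (fun z : ℝ × ℝ => ((t, z) : ℝ × (ℝ × ℝ)))
      (ContinuousLinearMap.inr ℝ ℝ (ℝ × ℝ)) univ z := by
    have := (hasFDerivAt_const t z).prodMk (hasFDerivAt_id (𝕜 := ℝ) z)
    refine this.hasFDerivWithinAt.congr_fderiv ?_
    ext <;> simp
  have h3 := h1.comp z h2 (fun y _ => mem_S ht y)
  rw [hasFDerivWithinAt_univ] at h3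
  have : (fun p : ℝ × (ℝ × ℝ) => ω p.1 p.2) ∘ (fun z : ℝ × ℝ => ((t, z) : ℝ × (ℝ × ℝ))) = ω t :=
    rfl
  rw [this] at h3
  rw [h3.fderiv]
  rfl

theorem fd_cont (v : ℝ × ℝ) : ContinuousOn (fun p : ℝ × (ℝ × ℝ) => fderiv ℝ (ω p.1) p.2 v)
    (Ici 0 ×ˢ univ) := by
  have h1 := h.smooth.continuousOn_fderivWithin uniqueDiff_S (by simp)
  have h2 : ContinuousOn (fun p : ℝ × (ℝ × ℝ) =>
    fderivWithin ℝ (fun p : ℝ × (ℝ × ℝ) => ω p.1 p.2) (Ici 0 ×ˢ univ) p (0, v))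
    (Ici 0 ×ˢ univ) := h1.clm_apply continuousOn_const
  refine h2.congr fun p hp => ?_
  exact h.fderiv_slice hp.1 p.2 v

theorem d1_cont : ContinuousOn (fun p : ℝ × (ℝ × ℝ) => d1 (ω p.1) p.2) (Ici 0 ×ˢ univ) :=
  h.fd_cont (1, 0)

theorem d2_cont : ContinuousOn (fun p : ℝ × (ℝ × ℝ) => d2 (ω p.1) p.2) (Ici 0 ×ˢ univ) :=
  h.fd_cont (0, 1)

/-- the time derivative -/
theorem time_deriv {t : ℝ} (ht : 0 < t) (z : ℝ × ℝ) :
    HasDerivAt (fun τ => ω τ z)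
      (fderivWithin ℝ (fun p : ℝ × (ℝ × ℝ) => ω p.1 p.2) (Ici 0 ×ˢ univ) (t, z) (1, 0)) t := by
  have h1 : HasFDerivWithinAt (fun p : ℝ × (ℝ × ℝ) => ω p.1 p.2)
      (fderivWithin ℝ (fun p : ℝ × (ℝ × ℝ) => ω p.1 p.2) (Ici 0 ×ˢ univ) (t, z))
      (Ici 0 ×ˢ univ) (t, z) :=
    ((h.smooth.differentiableOn (by simp)) (t, z) (mem_S ht.le z)).hasFDerivWithinAt
  have h2 : HasFDerivAt (fun p : ℝ × (ℝ × ℝ) => ω p.1 p.2)
      (fderivWithin ℝ (fun p : ℝ × (ℝ × ℝ) => ω p.1 p.2) (Ici 0 ×ˢ univ) (t, z)) (t, z) :=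
    h1.hasFDerivAt (prod_mem_nhds (Ici_mem_nhds ht) univ_mem)
  have h3 : HasDerivAt (fun τ : ℝ => ((τ, z) : ℝ × (ℝ × ℝ))) (1, 0) t :=
    (hasDerivAt_id t).prodMk (hasDerivAt_const t z)
  exact h2.comp_hasDerivAt t h3

theorem time_deriv_cont (t : ℝ) (ht : 0 ≤ t) : Continuous (fun z : ℝ × ℝ =>
    fderivWithin ℝ (fun p : ℝ × (ℝ × ℝ) => ω p.1 p.2) (Ici 0 ×ˢ univ) (t, z) (1, 0)) := by
  have h1 := h.smooth.continuousOn_fderivWithin uniqueDiff_S (by simp)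
  have h2 : ContinuousOn (fun p : ℝ × (ℝ × ℝ) =>
    fderivWithin ℝ (fun p : ℝ × (ℝ × ℝ) => ω p.1 p.2) (Ici 0 ×ˢ univ) p (1, 0))
    (Ici 0 ×ˢ univ) := h1.clm_apply continuousOn_const
  rw [← continuousOn_univ]
  exact h2.comp (by fun_prop : ContinuousOn (fun z : ℝ × ℝ => ((t, z) : ℝ × (ℝ × ℝ))) univ)
    (fun z _ => mem_S ht z)

theorem pde_ne {t : ℝ} (ht : 0 < t) {z : ℝ × ℝ} (hz : z ≠ 0) :
    HasDerivAt (fun τ => ω τ z)
      (-((vel (ω t) z).1 * d1 (ω t) z + (vel (ω t) z).2 * d2 (ω t) z)) t := by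
  obtain ⟨R, -, hR, hs⟩ := exists_suppIn (h.compact t ht.le) 0
  obtain ⟨r, θ, hr, hrr, hzz⟩ := exists_polar hz
  have hw := h.cont_slice ht.le
  have hd := h.diff_slice ht.le
  have he := h.eqn t ht r hr θ
  rw [(psi_hasDerivAt_theta hw hs hR.le hr θ).deriv, (psi_hasDerivAt_r hw hs hR.le hr θ).deriv]
    at he
  have hr1 : HasDerivAt (fun ρ : ℝ => ((ρ * cos θ, ρ * sin θ) : ℝ × ℝ)) (cos θ, sin θ) r := by
    have a1 := (hasDerivAt_id r).mul_const (cos θ)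
    have a2 := (hasDerivAt_id r).mul_const (sin θ)
    simp only [one_mul, id] at a1 a2
    exact a1.prodMk a2
  have hθ1 : HasDerivAt (fun φ : ℝ => ((r * cos φ, r * sin φ) : ℝ × ℝ))
      (-(r * sin θ), r * cos θ) θ := by
    have a1 := ((hasDerivAt_cos θ).const_mul r)
    have a2 := ((hasDerivAt_sin θ).const_mul r)
    exact (a1.prodMk a2).congr_deriv (by rw [mul_neg])
  have e1 : deriv (fun ρ => ω t (ρ * cos θ, ρ * sin θ)) r = fderiv ℝ (ω t) z (cos θ, sin θ) := by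
    have := ((hd (r * cos θ, r * sin θ)).hasFDerivAt.comp_hasDerivAt r hr1).deriv
    rw [← hzz] at this
    exact this
  have e2 : deriv (fun φ => ω t (r * cos φ, r * sin φ)) θ
      = fderiv ℝ (ω t) z (-(r * sin θ), r * cos θ) := by
    have := ((hd (r * cos θ, r * sin θ)).hasFDerivAt.comp_hasDerivAt θ hθ1).deriv
    rw [← hzz] at this
    exact this
  rw [e1, e2, fderiv_eq, fderiv_eq] at he
  have key := polar_to_vel (A := CC (ω t) r) (B := BB (ω t) r) (a := cc (ω t) r)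
    (b := bb (ω t) r) (θ := θ) hr (d1 (ω t) z) (d2 (ω t) z)
  have ht' : deriv (fun τ => ω τ (r * cos θ, r * sin θ)) t
      = -((vel (ω t) z).1 * d1 (ω t) z + (vel (ω t) z).2 * d2 (ω t) z) := by
    have : vel (ω t) z = velf (CC (ω t) r) (BB (ω t) r) (cc (ω t) r) (bb (ω t) r)
      (r * cos θ, r * sin θ) := by
      rw [vel, ← hrr, ← hzz]
    rw [this, ← key]
    linarith
  rw [← ht', ← hzz]
  exact (h.time_deriv ht z).differentiableAt.hasDerivAt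

end IsSmoothSolution

end Run7.h65
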