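import Pool.Agent.Run7.h65.Sol

open Set Real MeasureTheory Filter Topology

namespace Run7.h65

theorem vel_zero (w : ℝ × ℝ → ℝ) : vel w 0 = 0 := by
  simp [vel, velf]

theorem norm_le_rad (z : ℝ × ℝ) : ‖z‖ ≤ rad z := by
  rw [Prod.norm_def]
  exact max_le (by rw [Real.norm_eq_abs]; exact abs_fst_le_rad z)
    (by rw [Real.norm_eq_abs]; exact abs_snd_le_rad z)

theorem rad_continuous : Continuous rad := by unfold rad; fun_prop

namespace IsSmoothSolution

variable {ω : ℝ → ℝ × ℝ → ℝ} (h : IsSmoothSolution ω)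

include h

theorem exists_lip {t : ℝ} (ht : 0 ≤ t) : ∃ L, 0 ≤ L ∧ (∀ z, |d1 (ω t) z| ≤ L) ∧
    (∀ z, |d2 (ω t) z| ≤ L) ∧ ∀ z, |ω t z - ω t 0| ≤ L * rad z := by
  have hf : Continuous (fderiv ℝ (ω t)) := (h.contDiff_slice ht).continuous_fderiv (by simp)
  obtain ⟨C, hC⟩ := (HasCompactSupport.fderiv ℝ (h.compact t ht)).exists_bound_of_continuous hf
  have hC0 : 0 ≤ C := (norm_nonneg _).trans (hC 0)
  refine ⟨C, hC0, fun z => ?_, fun z => ?_, fun z => ?_⟩
  · have := (fderiv ℝ (ω t) z).le_opNorm (1, 0)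
    have e : ‖((1 : ℝ), (0 : ℝ))‖ = 1 := by simp [Prod.norm_def]
    rw [e, mul_one] at this
    exact this.trans (hC z)
  · have := (fderiv ℝ (ω t) z).le_opNorm (0, 1)
    have e : ‖((0 : ℝ), (1 : ℝ))‖ = 1 := by simp [Prod.norm_def]
    rw [e, mul_one] at this
    exact this.trans (hC z)
  · have := (convex_univ (𝕜 := ℝ) (E := ℝ × ℝ)).norm_image_sub_le_of_norm_fderiv_le
      (f := ω t) (C := C) (x := 0) (y := z) (fun x _ => h.diff_slice ht x)
      (fun x _ => hC x) (mem_univ _) (mem_univ _)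
    rw [sub_zero, Real.norm_eq_abs] at this
    exact this.trans (mul_le_mul_of_nonneg_left (norm_le_rad z) hC0)

theorem pde {t : ℝ} (ht : 0 < t) (z : ℝ × ℝ) :
    HasDerivAt (fun τ => ω τ z)
      (-((vel (ω t) z).1 * d1 (ω t) z + (vel (ω t) z).2 * d2 (ω t) z)) t := by
  rcases eq_or_ne z 0 with rfl | hz
  · rw [vel_zero]
    have h1 := h.time_deriv ht 0
    convert h1 using 1
    simp only [Prod.fst_zero, Prod.snd_zero, zero_mul, add_zero, neg_zero]
    symm
    obtain ⟨R, -, hR, hs⟩ := exists_suppIn (h.compact t ht.le) 0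
    obtain ⟨L, hL0, hL1, hL2, hL3⟩ := h.exists_lip ht.le
    have hc := h.time_deriv_cont t ht.le
    set T : ℝ × ℝ → ℝ := fun z => fderivWithin ℝ (fun p : ℝ × (ℝ × ℝ) => ω p.1 p.2)
      (Ici 0 ×ˢ univ) (t, z) (1, 0) with hT
    have hb : ∀ z, z ≠ 0 → |T z| ≤ 40 * L * R * L * rad z := by
      intro z hz
      have e : T z = -((vel (ω t) z).1 * d1 (ω t) z + (vel (ω t) z).2 * d2 (ω t) z) :=
        (h.time_deriv ht z).unique (h.pde_ne ht hz)
      rw [e, abs_neg]
      obtain ⟨v1, v2⟩ := vel_bound_lip (h.cont_slice ht.le) hR hs hL0 hL3 hz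
      have a := abs_add_le ((vel (ω t) z).1 * d1 (ω t) z) ((vel (ω t) z).2 * d2 (ω t) z)
      rw [abs_mul, abs_mul] at a
      have b1 := mul_le_mul v1 (hL1 z) (abs_nonneg _) (by have := rad_nonneg z; positivity)
      have b2 := mul_le_mul v2 (hL2 z) (abs_nonneg _) (by have := rad_nonneg z; positivity)
      linarith
    have hlim : Tendsto (fun x : ℝ => T (x, 0)) (𝓝[>] 0) (𝓝 (T 0)) := by
      have : Continuous (fun x : ℝ => T (x, 0)) := hc.comp (by fun_prop)
      have h2 := this.tendsto 0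
      exact h2.mono_left nhdsWithin_le_nhds
    have hlim2 : Tendsto (fun x : ℝ => T (x, 0)) (𝓝[>] 0) (𝓝 0) := by
      have hg : Tendsto (fun x : ℝ => 40 * L * R * L * rad (x, 0)) (𝓝[>] 0) (𝓝 0) := by
        have : Continuous (fun x : ℝ => 40 * L * R * L * rad (x, 0)) :=
          continuous_const.mul (rad_continuous.comp (by fun_prop))
        have h2 := this.tendsto 0
        have e : 40 * L * R * L * rad ((0 : ℝ), (0 : ℝ)) = 0 := by simp [rad]
        rw [e] at h2
        exact h2.mono_left nhdsWithin_le_nhds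
      refine squeeze_zero_norm' ?_ hg
      filter_upwards [self_mem_nhdsWithin] with x hx
      refine hb (x, 0) ?_
      intro he
      have : x = 0 := congrArg Prod.fst he
      exact (ne_of_gt hx) this
    exact tendsto_nhds_unique hlim hlim2
  · exact h.pde_ne ht hz

end IsSmoothSolution

end Run7.h65
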