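import Pool.Agent.Run7.h65.PA

open Set Real MeasureTheory Filter Topology

namespace Run7.h65

namespace SignSol

variable {ω : ℝ → ℝ × ℝ → ℝ} (h : SignSol ω)

include h

/-- **Third barrier**: the angular derivative of the full vorticity. -/
theorem total_angular : ∃ A : ℝ, 1 ≤ A ∧ ∀ t, 0 ≤ t → ∀ s θ,
    qF (pb ω) t s θ ^ 2 ≤ KK A t * exp s ^ 2 := by
  obtain ⟨A0, B, hA01, hB1, hact⟩ := h.active_bound
  obtain ⟨Λ, hΛ, hB⟩ := h.exists_bounds
  obtain ⟨U, hU1, hU⟩ := h.exists_U
  obtain ⟨Li, hLi0, hLi⟩ := h.qp_bound h.adm_W (T := 0) le_rfl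
  have hB0 : 0 < B := by linarith
  obtain ⟨A, hA⟩ : ∃ A, A = A0 + 24 * B + 52 * Λ + Λ ^ 2 + 36 * Λ
    + (Li ^ 2 + 2 * (Λ ^ 2 * Li ^ 2 + B ^ 2 * Li ^ 2)) := ⟨_, rfl⟩
  have hAA0 : A0 ≤ A := by
    rw [hA]; have : 0 ≤ Li ^ 2 + 2 * (Λ ^ 2 * Li ^ 2 + B ^ 2 * Li ^ 2) := by positivity
    nlinarith [sq_nonneg Λ]
  have hA1 : 1 ≤ A := by linarith
  have hA2 : 24 * B + 52 * Λ + Λ ^ 2 + 36 * Λ ≤ A := by
    rw [hA]; have : 0 ≤ Li ^ 2 + 2 * (Λ ^ 2 * Li ^ 2 + B ^ 2 * Li ^ 2) := by positivity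
    linarith
  have hA3 : Li ^ 2 + 2 * (Λ ^ 2 * Li ^ 2 + B ^ 2 * Li ^ 2) ≤ A := by
    rw [hA]; nlinarith [sq_nonneg Λ]
  have hkap1 : ∀ t, 0 ≤ t → kap A0 B t ≤ 1 := by
    intro t ht
    rw [kap_eq hB0.ne', div_le_one (by positivity)]
    have h2 := exp_At hA01 ht
    have : 1 ≤ B * exp (A0 * t) := by nlinarith
    nlinarith
  have main : ∀ T, 0 ≤ T → ∀ η, 0 < η → η ≤ 1 → ∀ s θ,
      qF (pb ω) T s θ ^ 2 + PiF ω (pb ω) T s θ ^ 2 * kap A0 B T
        - KK A T * (exp s ^ 2 + η) < 0 := by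
    intro T hT η hη0 hη1
    obtain ⟨L, hL0, hL⟩ := h.qp_bound h.adm_W hT
    obtain ⟨hT', hhT0, hhT⟩ := h.hil_bound_T hT
    obtain ⟨C7, hC7⟩ : ∃ C7, C7 = L ^ 2 + 2 * ((Λ * (1 + T)) ^ 2 * L ^ 2 + hT' ^ 2 * L ^ 2) + 1 :=
      ⟨_, rfl⟩
    have hC70 : 0 < C7 := by rw [hC7]; positivity
    refine fun s θ => lp_touch (ω := ω)
      (fun t s θ => qF (pb ω) t s θ ^ 2 + PiF ω (pb ω) t s θ ^ 2 * kap A0 B t
        - KK A t * (exp s ^ 2 + η)) (T := T)
      (sm := log (η / C7) / 2) (sp := U) ?_ ?_ ?_ ?_ ?_ T ⟨hT, le_rfl⟩ s θ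
    · refine ContinuousOn.sub (ContinuousOn.add ?_ ?_) ?_
      · exact (h.q_cont3 h.sm_W T).pow 2
      · exact ((h.Pi_cont3 h.sm_W T).pow 2).mul
          ((kap_cont A0 B).comp continuous_fst).continuousOn
      · exact ((KK_cont A).comp continuous_fst).continuousOn.mul (by fun_prop)
    · intro t ht s θ
      have e1 : qF (pb ω) t s (θ + 2 * π) = qF (pb ω) t s θ := q_per h.adm_W ht.1 s θ
      have e2 : PiF ω (pb ω) t s (θ + 2 * π) = PiF ω (pb ω) t s θ := Pi_per h.adm_W ht.1 s θ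
      rw [e1, e2]
    · intro t ht s hs θ
      have hK1 : 1 ≤ KK A t := KK_one_le (by linarith)
      rcases hs with hs | hs
      · obtain ⟨a1, a2⟩ := hL t ht s θ
        have a3 := hhT t ht s θ
        obtain ⟨-, g0, g1⟩ := hB t ht.1 s
        have b1 : qF (pb ω) t s θ ^ 2 ≤ L ^ 2 * exp s ^ 2 := by
          rw [← sq_abs, ← mul_pow]; exact pow_le_pow_left₀ (abs_nonneg _) a1 2
        have b2 : pF (pb ω) t s θ ^ 2 ≤ L ^ 2 * exp s ^ 2 := by
          rw [← sq_abs, ← mul_pow]; exact pow_le_pow_left₀ (abs_nonneg _) a2 2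
        have b3 : PiF ω (pb ω) t s θ ^ 2
            ≤ 2 * ((Λ * (1 + T)) ^ 2 * L ^ 2 + hT' ^ 2 * L ^ 2) * exp s ^ 2 := by
          unfold PiF
          have c1 : (gF ω t s * pF (pb ω) t s θ) ^ 2 ≤ (Λ * (1 + T)) ^ 2 * (L ^ 2 * exp s ^ 2) := by
            rw [mul_pow]
            have g2 : gF ω t s ≤ Λ * (1 + T) := g1.trans (by
              have := ht.2; nlinarith)
            exact mul_le_mul (pow_le_pow_left₀ g0 g2 2) b2 (sq_nonneg _) (by positivity)
          have c2 : (hilF (AF ω) t s θ * sin (2 * θ) * qF (pb ω) t s θ) ^ 2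
              ≤ hT' ^ 2 * (L ^ 2 * exp s ^ 2) := by
            rw [mul_pow, mul_pow]
            have d1 : hilF (AF ω) t s θ ^ 2 ≤ hT' ^ 2 := by
              rw [← sq_abs]; exact pow_le_pow_left₀ (abs_nonneg _) a3 2
            have d3 : hilF (AF ω) t s θ ^ 2 * sin (2 * θ) ^ 2 ≤ hT' ^ 2 * 1 :=
              mul_le_mul d1 (sin_sq_le_one _) (sq_nonneg _) (sq_nonneg _)
            rw [mul_one] at d3
            exact mul_le_mul d3 b1 (sq_nonneg _) (sq_nonneg _)
          nlinarith [sq_nonneg (gF ω t s * pF (pb ω) t s θ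
            + hilF (AF ω) t s θ * sin (2 * θ) * qF (pb ω) t s θ)]
        have b4 : exp s ^ 2 < η / C7 := by
          have : 2 * s < log (η / C7) := by linarith
          rw [← exp_nat_mul]
          push_cast
          rw [← exp_log (by positivity : 0 < η / C7)]
          exact exp_lt_exp.2 this
        have b5 : C7 * exp s ^ 2 < η := by
          rw [lt_div_iff₀ hC70] at b4; linarith
        have b6 : PiF ω (pb ω) t s θ ^ 2 * kap A0 B t ≤ PiF ω (pb ω) t s θ ^ 2 :=
          mul_le_of_le_one_right (sq_nonneg _) (hkap1 t ht.1)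
        have b7 : η ≤ KK A t * (exp s ^ 2 + η) := by nlinarith [sq_nonneg (exp s)]
        have b8 : C7 * exp s ^ 2 = L ^ 2 * exp s ^ 2
          + 2 * ((Λ * (1 + T)) ^ 2 * L ^ 2 + hT' ^ 2 * L ^ 2) * exp s ^ 2 + exp s ^ 2 := by
          rw [hC7]; ring
        have b9 : 0 < exp s ^ 2 := by positivity
        linarith
      · have e1 : qF (pb ω) t s θ = 0 := (qp_far h.adm_W hU ht.1 hs θ).1
        have e2 : pF (pb ω) t s θ = 0 := (qp_far h.adm_W hU ht.1 hs θ).2
        have e3 : PiF ω (pb ω) t s θ = 0 := by unfold PiF; rw [e1, e2]; ring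
        rw [e1, e3]
        have : 0 < KK A t * (exp s ^ 2 + η) := mul_pos (by linarith) (by positivity)
        simp only [ne_eq, OfNat.ofNat_ne_zero, not_false_eq_true, zero_pow, zero_mul, add_zero]
        linarith
    · intro s θ
      obtain ⟨a1, a2⟩ := hLi 0 ⟨le_rfl, le_rfl⟩ s θ
      have a3 := (hact 0 le_rfl s θ).2
      rw [mul_zero, exp_zero, mul_one] at a3
      obtain ⟨-, g0, g1⟩ := hB 0 le_rfl s
      rw [add_zero, mul_one] at g1
      have b1 : qF (pb ω) 0 s θ ^ 2 ≤ Li ^ 2 * exp s ^ 2 := by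
        rw [← sq_abs, ← mul_pow]; exact pow_le_pow_left₀ (abs_nonneg _) a1 2
      have b2 : pF (pb ω) 0 s θ ^ 2 ≤ Li ^ 2 * exp s ^ 2 := by
        rw [← sq_abs, ← mul_pow]; exact pow_le_pow_left₀ (abs_nonneg _) a2 2
      have b3 : PiF ω (pb ω) 0 s θ ^ 2
          ≤ 2 * (Λ ^ 2 * Li ^ 2 + B ^ 2 * Li ^ 2) * exp s ^ 2 := by
        unfold PiF
        have c1 : (gF ω 0 s * pF (pb ω) 0 s θ) ^ 2 ≤ Λ ^ 2 * (Li ^ 2 * exp s ^ 2) := by
          rw [mul_pow]
          exact mul_le_mul (pow_le_pow_left₀ g0 g1 2) b2 (sq_nonneg _) (by positivity)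
        have c2 : (hilF (AF ω) 0 s θ * sin (2 * θ) * qF (pb ω) 0 s θ) ^ 2
            ≤ B ^ 2 * (Li ^ 2 * exp s ^ 2) := by
          rw [mul_pow, mul_pow]
          have d1 : hilF (AF ω) 0 s θ ^ 2 ≤ B ^ 2 := by
            rw [← sq_abs]; exact pow_le_pow_left₀ (abs_nonneg _) a3 2
          have d3 : hilF (AF ω) 0 s θ ^ 2 * sin (2 * θ) ^ 2 ≤ B ^ 2 * 1 :=
            mul_le_mul d1 (sin_sq_le_one _) (sq_nonneg _) (sq_nonneg _)
          rw [mul_one] at d3
          exact mul_le_mul d3 b1 (sq_nonneg _) (sq_nonneg _)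
        nlinarith [sq_nonneg (gF ω 0 s * pF (pb ω) 0 s θ
          + hilF (AF ω) 0 s θ * sin (2 * θ) * qF (pb ω) 0 s θ)]
      have b6 : PiF ω (pb ω) 0 s θ ^ 2 * kap A0 B 0 ≤ PiF ω (pb ω) 0 s θ ^ 2 :=
        mul_le_of_le_one_right (sq_nonneg _) (hkap1 0 le_rfl)
      have hK : Li ^ 2 + 2 * (Λ ^ 2 * Li ^ 2 + B ^ 2 * Li ^ 2) ≤ KK A 0 := by
        unfold KK
        rw [mul_zero, exp_zero, mul_one]
        have := add_one_le_exp (2 * A)
        linarith
      have b8 := mul_le_mul_of_nonneg_right hK (sq_nonneg (exp s))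
      have b9 : 0 < KK A 0 * η := mul_pos (KK_pos A 0) hη0
      have b10 : KK A 0 * (exp s ^ 2 + η) = KK A 0 * exp s ^ 2 + KK A 0 * η := by ring
      rw [b10]
      have b11 : (Li ^ 2 + 2 * (Λ ^ 2 * Li ^ 2 + B ^ 2 * Li ^ 2)) * exp s ^ 2
        = Li ^ 2 * exp s ^ 2 + 2 * (Λ ^ 2 * Li ^ 2 + B ^ 2 * Li ^ 2) * exp s ^ 2 := by ring
      linarith
    · intro t ht htT s θ hzero hmax
      obtain ⟨⟨b0, bM⟩, g0, g1⟩ := hB t ht.le s
      have hK0 := KK_pos A t
      have hhb := (hact t ht.le s θ).2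
      obtain ⟨gt, hgt, hgtb⟩ := h.g_t_bound (M := Λ) (fun t ht s => (hB t ht s).1.2) ht s
      have mq := (h.md_q (s := s) (θ := θ) h.tr_W ht).sq
      have mPi := (h.md_Pi (s := s) (θ := θ) h.tr_W ht hgt).sq.mul (MD.time (kap_deriv A0 B t))
      have hexp2 : HasDerivAt (fun s : ℝ => exp s ^ 2) (2 * exp s ^ 2) s := by
        refine ((hasDerivAt_exp s).pow 2).congr_deriv ?_
        push_cast; ring
      have mw := (MD.rad (ω := ω) (t := t) (θ := θ) hexp2).add
        (MD.const (ω := ω) (t := t) (s := s) (θ := θ) η)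
      have mK := (MD.time (ω := ω) (s := s) (θ := θ) (KK_deriv A t)).mul mw
      refine ⟨_, ?_, (mq.add mPi).sub mK⟩
      set g := gF ω t s with hg
      set q := qF (pb ω) t s θ with hq
      set P := gF ω t s * pF (pb ω) t s θ with hP
      set Pi := PiF ω (pb ω) t s θ with hPi
      set b := bF ω t s with hb
      set hh := hilF (AF ω) t s θ with hhh
      set w := exp s ^ 2 with hw
      have hw0 : 0 ≤ w := by positivity
      have hPeq : P = Pi + hh * sin (2 * θ) * q := by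
        rw [hP, hPi, PiF]; ring
      have hgtp : |gt * pF (pb ω) t s θ| ≤ (4 * Λ + 8 * g) * |P| := by
        rw [hP, abs_mul, abs_mul, abs_of_nonneg g0]
        have := mul_le_mul_of_nonneg_right hgtb (abs_nonneg (pF (pb ω) t s θ))
        linarith
      have hH1 : 1 ≤ B * exp (A0 * t) := by
        have h2 := exp_At hA01 ht.le
        have h3 : 0 ≤ t := ht.le
        nlinarith
      have hqe := quad_est (M := Λ) (g := g) (b := b) (P := P) (q := q) (Pi := Pi) (h := hh)
        (S := sin (2 * θ)) (C := cos (2 * θ)) (gtp := gt * pF (pb ω) t s θ)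
        (Hh := B * exp (A0 * t)) (by linarith) g0 b0 bM hH1 hhb (abs_sin_le_one _)
        (abs_cos_le_one _) hPeq hgtp
      have hkapeq := kap_eq (A := A0) (t := t) hB0.ne'
      have hkap0 := kap_pos (A := A0) (t := t) hB0
      have hz : q ^ 2 + Pi ^ 2 * kap A0 B t = KK A t * (w + η) := by linarith
      have hz2 : q ^ 2 + Pi ^ 2 / (B * exp (A0 * t)) ^ 2 = KK A t * (w + η) := by
        rw [← hz, hkapeq]; ring
      rw [hz2] at hqe
      have hwder : -(4 * g * w) ≤ 2 * g * cos (2 * θ) * (2 * w) := by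
        have a3 := (abs_le.1 (abs_cos_le_one (2 * θ))).1
        have : 0 ≤ 4 * g * w := by positivity
        nlinarith
      have hE0 : exp (A0 * t) ≤ exp (A * t) := exp_le_exp.2 (by nlinarith)
      have hEt := exp_At hA1 ht.le
      have hgE : g ≤ Λ * exp (A * t) := g1.trans (mul_le_mul_of_nonneg_left hEt (by linarith))
      have hEt1 : 1 ≤ exp (A * t) := by linarith [ht.le]
      have hrate : (24 * (B * exp (A0 * t)) + 32 * g + 16 * Λ + Λ ^ 2) + 4 * g
          < 2 * A ^ 2 * exp (A * t) := by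
        have h0 : 24 * (B * exp (A0 * t)) ≤ 24 * (B * exp (A * t)) := by
          have := mul_le_mul_of_nonneg_left hE0 hB0.le
          linarith
        have h1 : 0 ≤ Λ * (exp (A * t) - 1) := mul_nonneg (by linarith) (by linarith)
        have h2 : 0 ≤ Λ ^ 2 * (exp (A * t) - 1) := mul_nonneg (by positivity) (by linarith)
        have h4 : A ≤ A ^ 2 := by nlinarith
        have h3 := mul_le_mul_of_nonneg_right (hA2.trans h4) (exp_pos (A * t)).le
        have h5 : 0 < A ^ 2 * exp (A * t) := by positivity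
        nlinarith
      have hKw : 0 < KK A t * (w + η) := mul_pos hK0 (by linarith)
      have s1 := mul_lt_mul_of_pos_right hrate hKw
      have s2 := mul_le_mul_of_nonneg_left hwder hK0.le
      have s3 : KK A t * (4 * g * w) ≤ 4 * g * (KK A t * (w + η)) := by
        have : 0 ≤ 4 * g * (KK A t * η) := by positivity
        nlinarith
      have s4 : Pi ^ 2 * (-(2 * A0) * kap A0 B t) ≤ 0 := by
        have : 0 ≤ Pi ^ 2 * (2 * A0 * kap A0 B t) := by positivity
        linarith
      have s5 : 2 * Pi * (gt * pF (pb ω) t s θ - b ^ 2 * sin (2 * θ) * q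
          - 4 * hh * sin (2 * θ) ^ 2 * P) * kap A0 B t
          = 2 * Pi * (gt * pF (pb ω) t s θ - b ^ 2 * sin (2 * θ) * q
          - 4 * hh * sin (2 * θ) ^ 2 * P) / (B * exp (A0 * t)) ^ 2 := by
        rw [hkapeq]; ring
      have s6 : 4 * g * sin (2 * θ) * pF (pb ω) t s θ = 4 * sin (2 * θ) * P := by rw [hP]; ring
      rw [s6]
      linarith
  refine ⟨A, hA1, fun t ht s θ => ?_⟩
  have hlim : Tendsto (fun η : ℝ => KK A t * (exp s ^ 2 + η)) (𝓝[>] 0)
      (𝓝 (KK A t * exp s ^ 2)) := by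
    have : Continuous (fun η : ℝ => KK A t * (exp s ^ 2 + η)) := by fun_prop
    have h2 := this.tendsto 0
    rw [add_zero] at h2
    exact h2.mono_left nhdsWithin_le_nhds
  refine ge_of_tendsto hlim ?_
  filter_upwards [Ioo_mem_nhdsGT (zero_lt_one' ℝ)] with η hη
  have := main t ht η hη.1 hη.2.le s θ
  have h2 : 0 ≤ PiF ω (pb ω) t s θ ^ 2 * kap A0 B t :=
    mul_nonneg (sq_nonneg _) (kap_pos hB0).le
  linarith

/-- **Fourth barrier**: the radial derivative of the full vorticity. -/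
theorem total_radial : ∃ A : ℝ, 1 ≤ A ∧ ∀ t, 0 ≤ t → ∀ s θ,
    pF (pb ω) t s θ ^ 2 ≤ KK A t * exp s ^ 2 := by
  obtain ⟨A1, hA11, hang⟩ := h.total_angular
  obtain ⟨A2, hA21, hrad⟩ := h.active_radial
  obtain ⟨Λ, hΛ, hB⟩ := h.exists_bounds
  obtain ⟨U, hU1, hU⟩ := h.exists_U
  obtain ⟨Li, hLi0, hLi⟩ := h.qp_bound h.adm_W (T := 0) le_rfl
  obtain ⟨A, hA⟩ : ∃ A, A = A1 + A2 + (2 * Λ + 2 * exp U) + 6 * Λ + 2 + Li ^ 2 := ⟨_, rfl⟩
  have hA1 : 1 ≤ A := by rw [hA]; nlinarith [exp_pos U, sq_nonneg Li]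
  -- the forcing is dominated by the barrier
  have hforce : ∀ t, 0 ≤ t → (2 * Λ + 2 * exp U * exp (A2 * exp (A2 * t)))
      * exp (A1 * exp (A1 * t)) ≤ exp (A * exp (A * t)) := by
    intro t ht
    have hx1 : 1 ≤ exp (A2 * exp (A2 * t)) := by apply one_le_exp; positivity
    have e1 : 2 * Λ + 2 * exp U * exp (A2 * exp (A2 * t))
        ≤ (2 * Λ + 2 * exp U) * exp (A2 * exp (A2 * t)) := by
      have : 0 ≤ 2 * Λ * (exp (A2 * exp (A2 * t)) - 1) :=
        mul_nonneg (by linarith) (by linarith)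
      linarith
    have e2 : 2 * Λ + 2 * exp U ≤ exp (2 * Λ + 2 * exp U) := by
      have := add_one_le_exp (2 * Λ + 2 * exp U); linarith
    have hEA : 1 ≤ exp (A * t) := by apply one_le_exp; positivity
    have hE1 : exp (A1 * t) ≤ exp (A * t) := exp_le_exp.2 (by
      have : A1 ≤ A := by rw [hA]; nlinarith [exp_pos U, sq_nonneg Li]
      nlinarith)
    have hE2 : exp (A2 * t) ≤ exp (A * t) := exp_le_exp.2 (by
      have : A2 ≤ A := by rw [hA]; nlinarith [exp_pos U, sq_nonneg Li]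
      nlinarith)
    calc (2 * Λ + 2 * exp U * exp (A2 * exp (A2 * t))) * exp (A1 * exp (A1 * t))
        ≤ (exp (2 * Λ + 2 * exp U) * exp (A2 * exp (A2 * t))) * exp (A1 * exp (A1 * t)) := by
          refine mul_le_mul_of_nonneg_right ?_ (exp_pos _).le
          exact e1.trans (mul_le_mul_of_nonneg_right e2 (exp_pos _).le)
      _ = exp ((2 * Λ + 2 * exp U) + A2 * exp (A2 * t) + A1 * exp (A1 * t)) := by
          rw [← exp_add, ← exp_add]
      _ ≤ exp (A * exp (A * t)) := by
          refine exp_le_exp.2 ?_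
          have c1 : 2 * Λ + 2 * exp U ≤ (2 * Λ + 2 * exp U) * exp (A * t) :=
            le_mul_of_one_le_right (by nlinarith [exp_pos U]) hEA
          have c2 := mul_le_mul_of_nonneg_left hE1 (by linarith : 0 ≤ A1)
          have c3 := mul_le_mul_of_nonneg_left hE2 (by linarith : 0 ≤ A2)
          have c4 : 0 ≤ (6 * Λ + 2 + Li ^ 2) * exp (A * t) := by positivity
          have c5 : A * exp (A * t) = A1 * exp (A * t) + A2 * exp (A * t)
            + (2 * Λ + 2 * exp U) * exp (A * t) + (6 * Λ + 2 + Li ^ 2) * exp (A * t) := by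
            have : A * exp (A * t) = (A1 + A2 + (2 * Λ + 2 * exp U) + 6 * Λ + 2 + Li ^ 2)
                * exp (A * t) := by rw [← hA]
            rw [this]; ring
          linarith
  have hKsq : ∀ A t, KK A t = exp (A * exp (A * t)) ^ 2 := by
    intro A t
    unfold KK
    rw [← exp_nat_mul]; congr 1; push_cast; ring
  have main : ∀ T, 0 ≤ T → ∀ η, 0 < η → η ≤ 1 → ∀ s θ,
      pF (pb ω) T s θ ^ 2 - KK A T * (exp s ^ 2 + η) < 0 := by
    intro T hT η hη0 hη1
    obtain ⟨L, hL0, hL⟩ := h.qp_bound h.adm_W hT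
    refine fun s θ => lp_touch (ω := ω)
      (fun t s θ => pF (pb ω) t s θ ^ 2 - KK A t * (exp s ^ 2 + η)) (T := T)
      (sm := log (η / (L ^ 2 + 1)) / 2) (sp := U) ?_ ?_ ?_ ?_ ?_ T ⟨hT, le_rfl⟩ s θ
    · exact ((h.p_cont3 h.sm_W T).pow 2).sub
        (((KK_cont A).comp continuous_fst).continuousOn.mul (by fun_prop))
    · intro t ht s θ
      have e2 : pF (pb ω) t s (θ + 2 * π) = pF (pb ω) t s θ := p_per h.adm_W ht.1 s θ
      rw [e2]
    · intro t ht s hs θ
      have hK1 : 1 ≤ KK A t := KK_one_le (by linarith)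
      have e0 : 0 < exp s ^ 2 := by positivity
      have hKη : η ≤ KK A t * (exp s ^ 2 + η) := by nlinarith
      rcases hs with hs | hs
      · obtain ⟨a1, a2⟩ := hL t ht s θ
        have b2 : pF (pb ω) t s θ ^ 2 ≤ L ^ 2 * exp s ^ 2 := by
          rw [← sq_abs, ← mul_pow]; exact pow_le_pow_left₀ (abs_nonneg _) a2 2
        have b4 : exp s ^ 2 < η / (L ^ 2 + 1) := by
          have : 2 * s < log (η / (L ^ 2 + 1)) := by linarith
          rw [← exp_nat_mul]
          push_cast
          rw [← exp_log (by positivity : 0 < η / (L ^ 2 + 1))]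
          exact exp_lt_exp.2 this
        rw [lt_div_iff₀ (by positivity)] at b4
        nlinarith
      · have e2 : pF (pb ω) t s θ = 0 := (qp_far h.adm_W hU ht.1 hs θ).2
        rw [e2]
        simp only [ne_eq, OfNat.ofNat_ne_zero, not_false_eq_true, zero_pow]
        linarith
    · intro s θ
      have a2 := (hLi 0 ⟨le_rfl, le_rfl⟩ s θ).2
      have b2 : pF (pb ω) 0 s θ ^ 2 ≤ Li ^ 2 * exp s ^ 2 := by
        rw [← sq_abs, ← mul_pow]; exact pow_le_pow_left₀ (abs_nonneg _) a2 2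
      have hK0 : Li ^ 2 ≤ KK A 0 := by
        unfold KK
        rw [mul_zero, exp_zero, mul_one]
        have := add_one_le_exp (2 * A)
        have h2 : Li ^ 2 ≤ A := by
          rw [hA]; nlinarith [exp_pos U]
        linarith
      have b4 := mul_le_mul_of_nonneg_right hK0 (sq_nonneg (exp s))
      have b5 : 0 < KK A 0 * η := mul_pos (KK_pos A 0) hη0
      nlinarith
    · intro t ht htT s θ hzero hmax
      obtain ⟨⟨b0, bM⟩, g0, g1⟩ := hB t ht.le s
      have hK0 := KK_pos A t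
      have mp := (h.md_p (s := s) (θ := θ) h.tr_W ht).sq
      have hexp2 : HasDerivAt (fun s : ℝ => exp s ^ 2) (2 * exp s ^ 2) s := by
        refine ((hasDerivAt_exp s).pow 2).congr_deriv ?_
        push_cast; ring
      have mw := (MD.rad (ω := ω) (t := t) (θ := θ) hexp2).add
        (MD.const (ω := ω) (t := t) (s := s) (θ := θ) η)
      have mK := (MD.time (ω := ω) (s := s) (θ := θ) (KK_deriv A t)).mul mw
      refine ⟨_, ?_, mp.sub mK⟩
      set p := pF (pb ω) t s θ with hp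
      set q := qF (pb ω) t s θ with hq
      have e0 := exp_pos s
      have hp2 : p ^ 2 = KK A t * (exp s ^ 2 + η) := by linarith
      have hsU : s ≤ U := by
        by_contra hcon
        have e2 : pF (pb ω) t s θ = 0 := (qp_far h.adm_W hU ht.le (not_le.1 hcon) θ).2
        rw [← hp] at e2
        rw [e2] at hp2
        have : 0 < KK A t * (exp s ^ 2 + η) := by positivity
        simp only [ne_eq, OfNat.ofNat_ne_zero, not_false_eq_true, zero_pow] at hp2
        linarith
      have hNabs : exp (A * exp (A * t)) * exp s ≤ |p| := by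
        rw [← abs_of_pos (by positivity : 0 < exp (A * exp (A * t)) * exp s)]
        refine sq_le_sq.1 ?_
        rw [mul_pow, ← hKsq, hp2]
        have := mul_pos hK0 hη0
        nlinarith
      have hbs : |bs ω t s| ≤ 2 * (exp (A2 * exp (A2 * t)) * exp U) := by
        unfold bs
        refine mom_abs_le (κ := s2) (fun φ => ?_)
        have h2 : |pF (AF ω) t s φ| ≤ exp (A2 * exp (A2 * t)) * exp U := by
          refine abs_le_of_sq_le_sq ((hrad t ht.le s φ).trans ?_) (by positivity)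
          rw [mul_pow, ← hKsq]
          refine mul_le_mul_of_nonneg_left ?_ (KK_pos A2 t).le
          have h1 : exp s ≤ exp U := exp_le_exp.2 hsU
          nlinarith
        rw [abs_mul]
        calc |DD es (AF ω) (t, (s, φ))| * |s2 φ| ≤ (exp (A2 * exp (A2 * t)) * exp U) * 1 :=
              mul_le_mul h2 (abs_sin_le_one _) (abs_nonneg _) (by positivity)
          _ = exp (A2 * exp (A2 * t)) * exp U := mul_one _
      have hqb : |q| ≤ exp (A1 * exp (A1 * t)) * exp s := by
        refine abs_le_of_sq_le_sq ((hang t ht.le s θ).trans (le_of_eq ?_)) (by positivity)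
        rw [mul_pow, ← hKsq]
      have hder : 2 * p * (2 * bF ω t s * cos (2 * θ) * p
          - (2 * bF ω t s + bs ω t s) * sin (2 * θ) * q) ≤ (4 * Λ + 2) * p ^ 2 := by
        refine (le_abs_self _).trans ?_
        rw [abs_mul, abs_mul, abs_two]
        have c1 : |2 * bF ω t s * cos (2 * θ) * p| ≤ 2 * Λ * |p| := by
          rw [abs_mul, abs_mul, abs_of_nonneg (by positivity : 0 ≤ 2 * bF ω t s)]
          have : 2 * bF ω t s * |cos (2 * θ)| ≤ 2 * Λ * 1 :=
            mul_le_mul (by linarith) (abs_cos_le_one _) (abs_nonneg _) (by linarith)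
          rw [mul_one] at this
          exact mul_le_mul_of_nonneg_right this (abs_nonneg _)
        have c2 : |(2 * bF ω t s + bs ω t s) * sin (2 * θ) * q| ≤ |p| := by
          rw [abs_mul, abs_mul]
          have d1 : |2 * bF ω t s + bs ω t s| ≤ 2 * Λ + 2 * exp U * exp (A2 * exp (A2 * t)) := by
            refine (abs_add_le _ _).trans ?_
            rw [abs_of_nonneg (by positivity : 0 ≤ 2 * bF ω t s)]
            linarith
          have d2 : |2 * bF ω t s + bs ω t s| * |sin (2 * θ)|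
              ≤ 2 * Λ + 2 * exp U * exp (A2 * exp (A2 * t)) := by
            calc |2 * bF ω t s + bs ω t s| * |sin (2 * θ)|
                ≤ (2 * Λ + 2 * exp U * exp (A2 * exp (A2 * t))) * 1 :=
                  mul_le_mul d1 (abs_sin_le_one _) (abs_nonneg _) (by positivity)
              _ = _ := mul_one _
          calc |2 * bF ω t s + bs ω t s| * |sin (2 * θ)| * |q|
              ≤ (2 * Λ + 2 * exp U * exp (A2 * exp (A2 * t)))
                * (exp (A1 * exp (A1 * t)) * exp s) :=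
                mul_le_mul d2 hqb (abs_nonneg _) (by positivity)
            _ = ((2 * Λ + 2 * exp U * exp (A2 * exp (A2 * t)))
                * exp (A1 * exp (A1 * t))) * exp s := by ring
            _ ≤ exp (A * exp (A * t)) * exp s :=
                mul_le_mul_of_nonneg_right (hforce t ht.le) e0.le
            _ ≤ |p| := hNabs
        have c3 := (abs_sub (2 * bF ω t s * cos (2 * θ) * p)
          ((2 * bF ω t s + bs ω t s) * sin (2 * θ) * q)).trans (add_le_add c1 c2)
        calc 2 * |p| * |2 * bF ω t s * cos (2 * θ) * p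
              - (2 * bF ω t s + bs ω t s) * sin (2 * θ) * q|
            ≤ 2 * |p| * (2 * Λ * |p| + |p|) := mul_le_mul_of_nonneg_left c3 (by positivity)
          _ = (4 * Λ + 2) * |p| ^ 2 := by ring
          _ = (4 * Λ + 2) * p ^ 2 := by rw [sq_abs]
      have hEt := exp_At hA1 ht.le
      have hgE : gF ω t s ≤ Λ * exp (A * t) := g1.trans (mul_le_mul_of_nonneg_left hEt (by linarith))
      have hEt1 : 1 ≤ exp (A * t) := by linarith [ht.le]
      have hcos : -(4 * gF ω t s * exp s ^ 2) ≤ 2 * gF ω t s * cos (2 * θ) * (2 * exp s ^ 2) := by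
        have := (abs_le.1 (abs_cos_le_one (2 * θ))).1
        have h3 : 0 ≤ 4 * gF ω t s * exp s ^ 2 := by positivity
        nlinarith
      have hrate : (4 * Λ + 2) + 4 * gF ω t s < 2 * A ^ 2 * exp (A * t) := by
        have h1 : 6 * Λ + 2 ≤ A := by
          rw [hA]; nlinarith [exp_pos U, sq_nonneg Li]
        have h2 : A ≤ A ^ 2 := by nlinarith
        have h3 : 0 ≤ (4 * Λ + 2) * (exp (A * t) - 1) :=
          mul_nonneg (by linarith) (by linarith)
        have h4 : (6 * Λ + 2) * exp (A * t) ≤ A ^ 2 * exp (A * t) :=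
          mul_le_mul_of_nonneg_right (by linarith) (by linarith)
        have h5 : 0 < A ^ 2 * exp (A * t) := by positivity
        nlinarith
      have hpos : 0 < KK A t * (exp s ^ 2 + η) := by positivity
      have s1 := mul_lt_mul_of_pos_right hrate hpos
      have s2 := mul_le_mul_of_nonneg_left hcos hK0.le
      have s3 : KK A t * (4 * gF ω t s * exp s ^ 2)
          ≤ 4 * gF ω t s * (KK A t * (exp s ^ 2 + η)) := by
        have : 0 ≤ 4 * gF ω t s * (KK A t * η) := by positivity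
        nlinarith
      rw [hp2] at hder
      linarith
  refine ⟨A, hA1, fun t ht s θ => ?_⟩
  have hlim : Tendsto (fun η : ℝ => KK A t * (exp s ^ 2 + η)) (𝓝[>] 0)
      (𝓝 (KK A t * exp s ^ 2)) := by
    have : Continuous (fun η : ℝ => KK A t * (exp s ^ 2 + η)) := by fun_prop
    have h2 := this.tendsto 0
    rw [add_zero] at h2
    exact h2.mono_left nhdsWithin_le_nhds
  refine ge_of_tendsto hlim ?_
  filter_upwards [Ioo_mem_nhdsGT (zero_lt_one' ℝ)] with η hη
  have := main t ht η hη.1 hη.2.le s θ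
  linarith

end SignSol

end Run7.h65
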