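import Pool.Agent.Run7.h65.Confine

open Set Real MeasureTheory Filter Topology

namespace Run7.h65

/-- A first-touching-time comparison lemma. -/
theorem touch {X : Type*} [TopologicalSpace X] (f : ℝ → X → ℝ) {T : ℝ} (K : Set X)
    (hK : IsCompact K)
    (hcont : ContinuousOn (fun p : ℝ × X => f p.1 p.2) (Icc 0 T ×ˢ univ))
    (hout : ∀ t ∈ Icc 0 T, ∀ x, x ∉ K → f t x < 0)
    (h0 : ∀ x, f 0 x < 0)
    (hder : ∀ t, 0 < t → t ≤ T → ∀ x, x ∈ K → f t x = 0 → (∀ y, f t y ≤ 0) →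
      ∃ d, d < 0 ∧ HasDerivAt (fun τ => f τ x) d t) :
    ∀ t ∈ Icc 0 T, ∀ x, f t x < 0 := by
  by_contra hcon
  push Not at hcon
  obtain ⟨t1, ht1, x1, hx1⟩ := hcon
  have hx1K : x1 ∈ K := by
    by_contra hh
    exact absurd (hout t1 ht1 x1 hh) (not_lt.2 hx1)
  set C : Set (ℝ × X) := (Icc 0 T ×ˢ K) ∩ {p | 0 ≤ f p.1 p.2} with hC
  have hCc : IsCompact (Prod.fst '' C) := by
    refine IsCompact.image ?_ continuous_fst
    have hcl : ContinuousOn (fun p : ℝ × X => f p.1 p.2) (Icc 0 T ×ˢ K) :=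
      hcont.mono (prod_mono_right (subset_univ _))
    have hcpt : IsCompact (Icc 0 T ×ˢ K) := isCompact_Icc.prod hK
    rw [isCompact_iff_compactSpace]
    have : CompactSpace (Icc 0 T ×ˢ K : Set (ℝ × X)) := isCompact_iff_compactSpace.1 hcpt
    have hcr : Continuous (fun p : (Icc 0 T ×ˢ K : Set (ℝ × X)) => f p.1.1 p.1.2) :=
      continuousOn_iff_continuous_domRestrict.1 hcl
    have hclosed : IsClosed {p : (Icc 0 T ×ˢ K : Set (ℝ × X)) | 0 ≤ f p.1.1 p.1.2} :=
      isClosed_le continuous_const hcr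
    have := (hclosed.isCompact.image continuous_subtype_val)
    rw [← isCompact_iff_compactSpace]
    convert this using 1
    ext p
    simp only [hC, mem_inter_iff, mem_image, Subtype.exists]
    constructor
    · rintro ⟨a, b⟩; exact ⟨p, a, b, rfl⟩
    · rintro ⟨q, a, b, rfl⟩; exact ⟨a, b⟩
  have hne : (Prod.fst '' C).Nonempty := ⟨t1, (t1, x1), ⟨⟨ht1, hx1K⟩, hx1⟩, rfl⟩
  obtain ⟨t, ⟨⟨⟨t', x⟩, ⟨⟨ht, hxK⟩, hfx⟩, rfl⟩, hleast⟩⟩ := hCc.exists_isLeast hne
  simp only at ht hfx hxK hleast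
  have hbefore : ∀ s ∈ Icc 0 T, s < t' → ∀ y, f s y < 0 := by
    intro s hs hst y
    by_contra hh
    push Not at hh
    by_cases hy : y ∈ K
    · have := hleast ⟨(s, y), ⟨⟨hs, hy⟩, hh⟩, rfl⟩
      simp only at this
      linarith
    · exact absurd (hout s hs y hy) (not_lt.2 hh)
  have ht0 : 0 < t' := by
    rcases eq_or_lt_of_le ht.1 with h | h
    · rw [← h] at hfx
      exact absurd (h0 x) (not_lt.2 hfx)
    · exact h
  have hlim : ∀ y, f t' y ≤ 0 := by
    intro y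
    have hc : ContinuousWithinAt (fun s => f s y) (Ioo 0 t') t' := by
      have := hcont (t', y) ⟨ht, mem_univ _⟩
      exact this.comp (f := fun s : ℝ => ((s, y) : ℝ × X)) (by fun_prop)
        (fun s hs => ⟨⟨hs.1.le, hs.2.le.trans ht.2⟩, mem_univ _⟩)
    have : (𝓝[Ioo 0 t'] t').NeBot := by
      rw [nhdsWithin_Ioo_eq_nhdsLT ht0]; infer_instance
    refine le_of_tendsto hc ?_
    filter_upwards [self_mem_nhdsWithin] with s hs
    exact (hbefore s ⟨hs.1.le, hs.2.le.trans ht.2⟩ hs.2 y).le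
  have hx0 : f t' x = 0 := le_antisymm (hlim x) hfx
  obtain ⟨d, hd, hder'⟩ := hder t' ht0 ht.2 x hxK hx0 hlim
  have hs := hder'.tendsto_slope
  have hs2 : Tendsto (slope (fun τ => f τ x) t') (𝓝[Ioo 0 t'] t') (𝓝 d) := by
    refine hs.mono_left (nhdsWithin_mono _ fun s hs => ?_)
    exact ne_of_lt hs.2
  have : (𝓝[Ioo 0 t'] t').NeBot := by
    rw [nhdsWithin_Ioo_eq_nhdsLT ht0]; infer_instance
  have : 0 ≤ d := by
    refine ge_of_tendsto hs2 ?_
    filter_upwards [self_mem_nhdsWithin] with s hs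
    rw [slope_def_field]
    have h1 := hbefore s ⟨hs.1.le, hs.2.le.trans ht.2⟩ hs.2 x
    rw [hx0]
    refine div_nonneg_of_nonpos (by linarith) (by linarith [hs.2])
  linarith

end Run7.h65
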