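import Pool.Agent.Run7.h65.Slice

open Set Real MeasureTheory Filter Topology

namespace Run7.h65

/-- velocity built from the four radial numbers -/
noncomputable def velf (A B a b : ℝ) (z : ℝ × ℝ) : ℝ × ℝ :=
  ((2 * (-(2 * z.1 * z.2 / (z.1 ^ 2 + z.2 ^ 2)) * A
      + ((z.1 ^ 2 - z.2 ^ 2) / (z.1 ^ 2 + z.2 ^ 2)) * B)) * z.1
    + (2 * (((z.1 ^ 2 - z.2 ^ 2) / (z.1 ^ 2 + z.2 ^ 2)) * A
        + (2 * z.1 * z.2 / (z.1 ^ 2 + z.2 ^ 2)) * B)
      - (((z.1 ^ 2 - z.2 ^ 2) / (z.1 ^ 2 + z.2 ^ 2)) * a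
        + (2 * z.1 * z.2 / (z.1 ^ 2 + z.2 ^ 2)) * b)) * z.2,
   (2 * (-(2 * z.1 * z.2 / (z.1 ^ 2 + z.2 ^ 2)) * A
      + ((z.1 ^ 2 - z.2 ^ 2) / (z.1 ^ 2 + z.2 ^ 2)) * B)) * z.2
    - (2 * (((z.1 ^ 2 - z.2 ^ 2) / (z.1 ^ 2 + z.2 ^ 2)) * A
        + (2 * z.1 * z.2 / (z.1 ^ 2 + z.2 ^ 2)) * B)
      - (((z.1 ^ 2 - z.2 ^ 2) / (z.1 ^ 2 + z.2 ^ 2)) * a
        + (2 * z.1 * z.2 / (z.1 ^ 2 + z.2 ^ 2)) * b)) * z.1)

/-- Euclidean radius -/
noncomputable def rad (z : ℝ × ℝ) : ℝ := √(z.1 ^ 2 + z.2 ^ 2)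

noncomputable def vel (w : ℝ × ℝ → ℝ) (z : ℝ × ℝ) : ℝ × ℝ :=
  velf (CC w (rad z)) (BB w (rad z)) (cc w (rad z)) (bb w (rad z)) z

theorem rad_nonneg (z : ℝ × ℝ) : 0 ≤ rad z := sqrt_nonneg _

theorem rad_sq (z : ℝ × ℝ) : rad z ^ 2 = z.1 ^ 2 + z.2 ^ 2 := sq_sqrt (by positivity)

theorem abs_fst_le_rad (z : ℝ × ℝ) : |z.1| ≤ rad z := by
  refine abs_le_of_sq_le_sq ?_ (rad_nonneg z)
  rw [rad_sq]; nlinarith [sq_nonneg z.2]

theorem abs_snd_le_rad (z : ℝ × ℝ) : |z.2| ≤ rad z := by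
  refine abs_le_of_sq_le_sq ?_ (rad_nonneg z)
  rw [rad_sq]; nlinarith [sq_nonneg z.1]

theorem rad_le (z : ℝ × ℝ) : rad z ≤ |z.1| + |z.2| := by
  refine abs_le_of_sq_le_sq' ?_ (by positivity) |> fun h => h.2
  rw [rad_sq]
  nlinarith [sq_abs z.1, sq_abs z.2, abs_nonneg z.1, abs_nonneg z.2,
    mul_nonneg (abs_nonneg z.1) (abs_nonneg z.2)]

theorem rad_pos {z : ℝ × ℝ} (hz : z ≠ 0) : 0 < rad z := by
  refine sqrt_pos.2 ?_
  rcases z with ⟨x, y⟩
  by_contra h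
  push Not at h
  have hx : x = 0 := by nlinarith [sq_nonneg x, sq_nonneg y]
  have hy : y = 0 := by nlinarith [sq_nonneg x, sq_nonneg y]
  exact hz (by rw [hx, hy]; rfl)

/-- every nonzero point has polar coordinates -/
theorem exists_polar {z : ℝ × ℝ} (hz : z ≠ 0) :
    ∃ r θ : ℝ, 0 < r ∧ r = rad z ∧ z = (r * cos θ, r * sin θ) := by
  refine ⟨rad z, Complex.arg ⟨z.1, z.2⟩, rad_pos hz, rfl, ?_⟩
  have h1 := Complex.norm_mul_cos_arg ⟨z.1, z.2⟩
  have h2 := Complex.norm_mul_sin_arg ⟨z.1, z.2⟩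
  have h3 : ‖(⟨z.1, z.2⟩ : ℂ)‖ = rad z := by
    rw [Complex.norm_def, Complex.normSq_mk, rad]; ring_nf
  rw [h3] at h1 h2
  exact Prod.ext h1.symm h2.symm

theorem rad_polar {r : ℝ} (hr : 0 ≤ r) (θ : ℝ) : rad (r * cos θ, r * sin θ) = r := by
  rw [rad, circ_sq, sqrt_sq hr]

/-- `d1`, `d2`: the two first derivatives of a function on the plane -/
noncomputable def d1 (w : ℝ × ℝ → ℝ) (z : ℝ × ℝ) : ℝ := fderiv ℝ w z (1, 0)
noncomputable def d2 (w : ℝ × ℝ → ℝ) (z : ℝ × ℝ) : ℝ := fderiv ℝ w z (0, 1)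

theorem fderiv_eq (w : ℝ × ℝ → ℝ) (z v : ℝ × ℝ) :
    fderiv ℝ w z v = v.1 * d1 w z + v.2 * d2 w z := by
  have : v = v.1 • ((1 : ℝ), (0 : ℝ)) + v.2 • ((0 : ℝ), (1 : ℝ)) := by
    ext <;> simp
  conv_lhs => rw [this]
  rw [map_add, map_smul, map_smul]; rfl

/-- in polar form, the transport terms are the Cartesian velocity -/
theorem polar_to_vel {A B a b r θ : ℝ} (hr : 0 < r) (p q : ℝ) :
    (1 / r) * ((r ^ 2 * (-(2 * sin (2 * θ)) * A + 2 * cos (2 * θ) * B)) * (cos θ * p + sin θ * q)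
      - (2 * r * (cos (2 * θ) * A + sin (2 * θ) * B)
        - r * (cos (2 * θ) * a + sin (2 * θ) * b)) * (-(r * sin θ) * p + (r * cos θ) * q))
    = (velf A B a b (r * cos θ, r * sin θ)).1 * p + (velf A B a b (r * cos θ, r * sin θ)).2 * q := by
  have hr0 : r ≠ 0 := hr.ne'
  have hc : ((r * cos θ) ^ 2 - (r * sin θ) ^ 2) / ((r * cos θ) ^ 2 + (r * sin θ) ^ 2)
      = cos (2 * θ) := by
    rw [circ_sq, cos_two_mul']; field_simp
  have hs : 2 * (r * cos θ) * (r * sin θ) / ((r * cos θ) ^ 2 + (r * sin θ) ^ 2)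
      = sin (2 * θ) := by
    rw [circ_sq, sin_two_mul]; field_simp
  simp only [velf, hc, hs]
  field_simp
  ring

theorem integral_cos_two : ∫ φ in (0 : ℝ)..(2 * π), cos (2 * φ) = 0 := by
  rw [intervalIntegral.integral_comp_mul_left (f := cos) (by norm_num : (2 : ℝ) ≠ 0)]
  simp only [integral_cos, mul_zero, sin_zero, smul_eq_mul]
  have : sin (2 * (2 * π)) = 0 := by
    have := sin_nat_mul_pi 4
    push_cast at this
    rw [← this]; ring_nf
  rw [this]; ring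

theorem integral_sin_two : ∫ φ in (0 : ℝ)..(2 * π), sin (2 * φ) = 0 := by
  rw [intervalIntegral.integral_comp_mul_left (f := sin) (by norm_num : (2 : ℝ) ≠ 0)]
  simp only [integral_sin, mul_zero, cos_zero, smul_eq_mul]
  have : cos (2 * (2 * π)) = 1 := by
    have := cos_nat_mul_two_pi 2
    push_cast at this
    exact this
  rw [this]; ring

theorem cc_bound {w : ℝ × ℝ → ℝ} (hw : Continuous w) {ρ c0 A : ℝ}
    (h : ∀ φ, |w (ρ * cos φ, ρ * sin φ) - c0| ≤ A) : |cc w ρ| ≤ 2 * A := by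
  have e : cc w ρ = (1 / π) * ∫ φ in (0 : ℝ)..(2 * π),
      (w (ρ * cos φ, ρ * sin φ) - c0) * cos (2 * φ) := by
    unfold cc
    congr 1
    have h1 : IntervalIntegrable (fun φ => w (ρ * cos φ, ρ * sin φ) * cos (2 * φ))
      volume 0 (2*π) := (by fun_prop : Continuous _).intervalIntegrable _ _
    have h2 : IntervalIntegrable (fun φ => c0 * cos (2 * φ))
      volume 0 (2*π) := (by fun_prop : Continuous _).intervalIntegrable _ _
    have : ∫ φ in (0 : ℝ)..(2 * π), (w (ρ * cos φ, ρ * sin φ) - c0) * cos (2 * φ)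
        = (∫ φ in (0 : ℝ)..(2 * π), w (ρ * cos φ, ρ * sin φ) * cos (2 * φ))
          - ∫ φ in (0 : ℝ)..(2 * π), c0 * cos (2 * φ) := by
      rw [← intervalIntegral.integral_sub h1 h2]
      refine intervalIntegral.integral_congr fun φ _ => ?_
      ring
    rw [this, intervalIntegral.integral_const_mul, integral_cos_two]; ring
  rw [e, abs_mul, abs_of_pos (by positivity : 0 < 1 / π)]
  have hb := intervalIntegral.norm_integral_le_of_norm_le_const (a := (0 : ℝ)) (b := 2 * π)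
    (f := fun φ => (w (ρ * cos φ, ρ * sin φ) - c0) * cos (2 * φ)) (C := A) (fun φ _ => by
      rw [norm_mul, Real.norm_eq_abs, Real.norm_eq_abs]
      calc |w (ρ * cos φ, ρ * sin φ) - c0| * |cos (2 * φ)|
          ≤ |w (ρ * cos φ, ρ * sin φ) - c0| * 1 :=
            mul_le_mul_of_nonneg_left (abs_cos_le_one _) (abs_nonneg _)
        _ ≤ A := by rw [mul_one]; exact h φ)
  rw [Real.norm_eq_abs, sub_zero, abs_of_pos (by positivity : 0 < 2 * π)] at hb
  calc 1 / π * |∫ φ in (0 : ℝ)..(2 * π), (w (ρ * cos φ, ρ * sin φ) - c0) * cos (2 * φ)|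
      ≤ 1 / π * (A * (2 * π)) := mul_le_mul_of_nonneg_left hb (by positivity)
    _ = 2 * A := by field_simp

theorem bb_bound {w : ℝ × ℝ → ℝ} (hw : Continuous w) {ρ c0 A : ℝ}
    (h : ∀ φ, |w (ρ * cos φ, ρ * sin φ) - c0| ≤ A) : |bb w ρ| ≤ 2 * A := by
  have e : bb w ρ = (1 / π) * ∫ φ in (0 : ℝ)..(2 * π),
      (w (ρ * cos φ, ρ * sin φ) - c0) * sin (2 * φ) := by
    unfold bb
    congr 1
    have h1 : IntervalIntegrable (fun φ => w (ρ * cos φ, ρ * sin φ) * sin (2 * φ))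
      volume 0 (2*π) := (by fun_prop : Continuous _).intervalIntegrable _ _
    have h2 : IntervalIntegrable (fun φ => c0 * sin (2 * φ))
      volume 0 (2*π) := (by fun_prop : Continuous _).intervalIntegrable _ _
    have : ∫ φ in (0 : ℝ)..(2 * π), (w (ρ * cos φ, ρ * sin φ) - c0) * sin (2 * φ)
        = (∫ φ in (0 : ℝ)..(2 * π), w (ρ * cos φ, ρ * sin φ) * sin (2 * φ))
          - ∫ φ in (0 : ℝ)..(2 * π), c0 * sin (2 * φ) := by
      rw [← intervalIntegral.integral_sub h1 h2]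
      refine intervalIntegral.integral_congr fun φ _ => ?_
      ring
    rw [this, intervalIntegral.integral_const_mul, integral_sin_two]; ring
  rw [e, abs_mul, abs_of_pos (by positivity : 0 < 1 / π)]
  have hb := intervalIntegral.norm_integral_le_of_norm_le_const (a := (0 : ℝ)) (b := 2 * π)
    (f := fun φ => (w (ρ * cos φ, ρ * sin φ) - c0) * sin (2 * φ)) (C := A) (fun φ _ => by
      rw [norm_mul, Real.norm_eq_abs, Real.norm_eq_abs]
      calc |w (ρ * cos φ, ρ * sin φ) - c0| * |sin (2 * φ)|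
          ≤ |w (ρ * cos φ, ρ * sin φ) - c0| * 1 :=
            mul_le_mul_of_nonneg_left (abs_sin_le_one _) (abs_nonneg _)
        _ ≤ A := by rw [mul_one]; exact h φ)
  rw [Real.norm_eq_abs, sub_zero, abs_of_pos (by positivity : 0 < 2 * π)] at hb
  calc 1 / π * |∫ φ in (0 : ℝ)..(2 * π), (w (ρ * cos φ, ρ * sin φ) - c0) * sin (2 * φ)|
      ≤ 1 / π * (A * (2 * π)) := mul_le_mul_of_nonneg_left hb (by positivity)
    _ = 2 * A := by field_simp

theorem tail_bound {f : ℝ → ℝ} {R r A : ℝ} (h0 : ∀ ρ, R < ρ → f ρ = 0)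
    (hr : 0 < r) (hR : 0 ≤ R) (hA : 0 ≤ A) (h : ∀ ρ, r < ρ → |f ρ / ρ| ≤ A) :
    |∫ ρ in Ioi r, f ρ / ρ| ≤ A * R := by
  rcases le_total r R with hrR | hrR
  · rw [tail_eq h0 hrR le_rfl]
    have := intervalIntegral.norm_integral_le_of_norm_le_const (a := r) (b := R)
      (f := fun ρ => f ρ / ρ) (C := A) (fun ρ hρ => by
        rw [uIoc_of_le hrR] at hρ
        exact h ρ hρ.1)
    rw [Real.norm_eq_abs, abs_of_nonneg (by linarith : 0 ≤ R - r)] at this
    nlinarith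
  · rw [tail_eq h0 (le_refl r) hrR, intervalIntegral.integral_same, abs_zero]
    positivity

theorem CC_bound {w : ℝ × ℝ → ℝ} {R r A : ℝ} (hs : SuppIn w R)
    (hr : 0 < r) (hR : 0 ≤ R) (hA : 0 ≤ A) (h : ∀ ρ, r < ρ → |cc w ρ / ρ| ≤ A) :
    |CC w r| ≤ A * R :=
  tail_bound (fun _ h => cc_of_large hs hR h) hr hR hA h

theorem BB_bound {w : ℝ × ℝ → ℝ} {R r A : ℝ} (hs : SuppIn w R)
    (hr : 0 < r) (hR : 0 ≤ R) (hA : 0 ≤ A) (h : ∀ ρ, r < ρ → |bb w ρ / ρ| ≤ A) :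
    |BB w r| ≤ A * R :=
  tail_bound (fun _ h => bb_of_large hs hR h) hr hR hA h

theorem velf_abs_le (A B a b : ℝ) {z : ℝ × ℝ} (hz : z ≠ 0) :
    |(velf A B a b z).1| ≤ rad z * (4 * |A| + 4 * |B| + |a| + |b|) ∧
    |(velf A B a b z).2| ≤ rad z * (4 * |A| + 4 * |B| + |a| + |b|) := by
  obtain ⟨r, θ, hr, hrr, hzz⟩ := exists_polar hz
  have hr0 : r ≠ 0 := hr.ne'
  have hc : ((r * cos θ) ^ 2 - (r * sin θ) ^ 2) / ((r * cos θ) ^ 2 + (r * sin θ) ^ 2)
      = cos (2 * θ) := by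
    rw [circ_sq, cos_two_mul']; field_simp
  have hs : 2 * (r * cos θ) * (r * sin θ) / ((r * cos θ) ^ 2 + (r * sin θ) ^ 2)
      = sin (2 * θ) := by
    rw [circ_sq, sin_two_mul]; field_simp
  have hx := abs_fst_le_rad z
  have hy := abs_snd_le_rad z
  have key : ∀ C S x y R : ℝ, |C| ≤ 1 → |S| ≤ 1 → |x| ≤ R → |y| ≤ R →
      |2 * (-S * A + C * B) * x + (2 * (C * A + S * B) - (C * a + S * b)) * y|
        ≤ R * (4 * |A| + 4 * |B| + |a| + |b|) := by
    intro C S x y R hC hS hx hy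
    have hR : 0 ≤ R := le_trans (abs_nonneg _) hx
    have h1 : |2 * (-S * A + C * B)| ≤ 2 * |A| + 2 * |B| := by
      rw [abs_mul, abs_two]
      have := abs_add_le (-S * A) (C * B)
      rw [abs_mul, abs_mul, abs_neg] at this
      nlinarith [abs_nonneg A, abs_nonneg B]
    have h2 : |2 * (C * A + S * B) - (C * a + S * b)| ≤ 2 * |A| + 2 * |B| + |a| + |b| := by
      have e1 := abs_sub (2 * (C * A + S * B)) (C * a + S * b)
      have e2 := abs_add_le (C * A) (S * B)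
      have e3 := abs_add_le (C * a) (S * b)
      rw [abs_mul, abs_mul] at e2 e3
      rw [abs_mul, abs_two] at e1
      nlinarith [abs_nonneg A, abs_nonneg B, abs_nonneg a, abs_nonneg b]
    have e := abs_add_le (2 * (-S * A + C * B) * x) ((2 * (C * A + S * B) - (C * a + S * b)) * y)
    rw [abs_mul, abs_mul _ y] at e
    have f1 := mul_le_mul h1 hx (abs_nonneg _) (by positivity)
    have f2 := mul_le_mul h2 hy (abs_nonneg _) (by positivity)
    nlinarith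
  have hz1 : z.1 = r * cos θ := by rw [hzz]
  have hz2 : z.2 = r * sin θ := by rw [hzz]
  have hC : |cos (2 * θ)| ≤ 1 := abs_cos_le_one _
  have hS : |sin (2 * θ)| ≤ 1 := abs_sin_le_one _
  constructor
  · have := key (cos (2 * θ)) (sin (2 * θ)) z.1 z.2 (rad z) hC hS hx hy
    unfold velf
    rw [hz1, hz2, hc, hs] 
    rw [hz1, hz2] at this
    exact this
  · have := key (cos (2 * θ)) (sin (2 * θ)) z.2 (-z.1) (rad z) hC hS hy (by rwa [abs_neg])
    unfold velf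
    rw [hz1, hz2, hc, hs] 
    rw [hz1, hz2] at this
    refine le_trans (le_of_eq ?_) this
    congr 1
    ring

theorem vel_bound {w : ℝ × ℝ → ℝ} (hw : Continuous w) {m n A : ℝ} (hm : 0 < m)
    (hs : SuppIn w m) (hn : 0 ≤ n) (hA : 0 ≤ A)
    (h : ∀ z : ℝ × ℝ, n ^ 2 < z.1 ^ 2 + z.2 ^ 2 → |w z| ≤ A) {z : ℝ × ℝ}
    (hz : n ^ 2 < z.1 ^ 2 + z.2 ^ 2) :
    |(vel w z).1| ≤ 20 * A * m ∧ |(vel w z).2| ≤ 20 * A * m := by
  have hz0 : z ≠ 0 := by
    rintro rfl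
    simp only [Prod.fst_zero, Prod.snd_zero] at hz
    nlinarith
  have hr := rad_pos hz0
  have hnr : n < rad z := by
    have := rad_sq z
    nlinarith
  have hcirc : ∀ ρ, rad z ≤ ρ → ∀ φ, |w (ρ * cos φ, ρ * sin φ) - 0| ≤ A := by
    intro ρ hρ φ
    rw [sub_zero]
    refine h _ ?_
    simp only [circ_sq]
    nlinarith
  have hcc : ∀ ρ, rad z ≤ ρ → |cc w ρ| ≤ 2 * A := fun ρ hρ => cc_bound hw (hcirc ρ hρ)
  have hbb : ∀ ρ, rad z ≤ ρ → |bb w ρ| ≤ 2 * A := fun ρ hρ => bb_bound hw (hcirc ρ hρ)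
  have hCC : rad z * |CC w (rad z)| ≤ 2 * A * m := by
    have := CC_bound (r := rad z) (A := 2 * A / rad z) hs hr hm.le (by positivity)
      (fun ρ hρ => by
        rw [abs_div, abs_of_pos (hr.trans hρ)]
        exact div_le_div₀ (by positivity) (hcc ρ hρ.le) hr hρ.le)
    calc rad z * |CC w (rad z)| ≤ rad z * (2 * A / rad z * m) :=
          mul_le_mul_of_nonneg_left this hr.le
      _ = 2 * A * m := by field_simp
  have hBB : rad z * |BB w (rad z)| ≤ 2 * A * m := by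
    have := BB_bound (r := rad z) (A := 2 * A / rad z) hs hr hm.le (by positivity)
      (fun ρ hρ => by
        rw [abs_div, abs_of_pos (hr.trans hρ)]
        exact div_le_div₀ (by positivity) (hbb ρ hρ.le) hr hρ.le)
    calc rad z * |BB w (rad z)| ≤ rad z * (2 * A / rad z * m) :=
          mul_le_mul_of_nonneg_left this hr.le
      _ = 2 * A * m := by field_simp
  have hcr : rad z * |cc w (rad z)| ≤ 2 * A * m := by
    rcases le_or_gt (rad z) m with h1 | h1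
    · have := hcc (rad z) le_rfl
      nlinarith [abs_nonneg (cc w (rad z))]
    · rw [cc_of_large hs hm.le h1, abs_zero, mul_zero]; positivity
  have hbr : rad z * |bb w (rad z)| ≤ 2 * A * m := by
    rcases le_or_gt (rad z) m with h1 | h1
    · have := hbb (rad z) le_rfl
      nlinarith [abs_nonneg (bb w (rad z))]
    · rw [bb_of_large hs hm.le h1, abs_zero, mul_zero]; positivity
  have := velf_abs_le (CC w (rad z)) (BB w (rad z)) (cc w (rad z)) (bb w (rad z)) hz0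
  unfold vel
  constructor
  · nlinarith [this.1]
  · nlinarith [this.2]

theorem vel_bound_lip {w : ℝ × ℝ → ℝ} (hw : Continuous w) {m L : ℝ} (hm : 0 < m)
    (hs : SuppIn w m) (hL : 0 ≤ L)
    (h : ∀ z : ℝ × ℝ, |w z - w 0| ≤ L * rad z) {z : ℝ × ℝ}
    (hz : z ≠ 0) :
    |(vel w z).1| ≤ 20 * L * m * rad z ∧ |(vel w z).2| ≤ 20 * L * m * rad z := by
  have hr := rad_pos hz
  have hcirc : ∀ ρ, 0 ≤ ρ → ∀ φ, |w (ρ * cos φ, ρ * sin φ) - w 0| ≤ L * ρ := by
    intro ρ hρ φ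
    refine (h _).trans (le_of_eq ?_)
    rw [rad_polar hρ]
  have hcc : ∀ ρ, 0 ≤ ρ → |cc w ρ| ≤ 2 * (L * ρ) := fun ρ hρ => cc_bound hw (hcirc ρ hρ)
  have hbb : ∀ ρ, 0 ≤ ρ → |bb w ρ| ≤ 2 * (L * ρ) := fun ρ hρ => bb_bound hw (hcirc ρ hρ)
  have hCC : |CC w (rad z)| ≤ 2 * L * m := 
    CC_bound (r := rad z) (A := 2 * L) hs hr hm.le (by positivity)
      (fun ρ hρ => by
        have hρ0 := hr.trans hρ
        rw [abs_div, abs_of_pos hρ0, div_le_iff₀ hρ0]
        linarith [hcc ρ hρ0.le])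
  have hBB : |BB w (rad z)| ≤ 2 * L * m := 
    BB_bound (r := rad z) (A := 2 * L) hs hr hm.le (by positivity)
      (fun ρ hρ => by
        have hρ0 := hr.trans hρ
        rw [abs_div, abs_of_pos hρ0, div_le_iff₀ hρ0]
        linarith [hbb ρ hρ0.le])
  have hcr : |cc w (rad z)| ≤ 2 * L * m := by
    rcases le_or_gt (rad z) m with h1 | h1
    · have := hcc (rad z) hr.le
      nlinarith [abs_nonneg (cc w (rad z))]
    · rw [cc_of_large hs hm.le h1, abs_zero]; positivity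
  have hbr : |bb w (rad z)| ≤ 2 * L * m := by
    rcases le_or_gt (rad z) m with h1 | h1
    · have := hbb (rad z) hr.le
      nlinarith [abs_nonneg (bb w (rad z))]
    · rw [bb_of_large hs hm.le h1, abs_zero]; positivity
  have := velf_abs_le (CC w (rad z)) (BB w (rad z)) (cc w (rad z)) (bb w (rad z)) hz
  have h3 : rad z * (4 * |CC w (rad z)| + 4 * |BB w (rad z)| + |cc w (rad z)| + |bb w (rad z)|)
      ≤ 20 * L * m * rad z := by
    nlinarith
  unfold vel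
  exact ⟨this.1.trans h3, this.2.trans h3⟩

end Run7.h65
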